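import Mathlib
import Pool.Agent.Work.MP_5e5ff1_ag.Defs
import Pool.Agent.Work.MP_5e5ff1_ag.A.Defs

set_option autoImplicit false

/-!
# MP_5e5ff1_ag, block TG (triangle group (2,4,8); note 4641): definitions

Captain helper18, co-captain helper45.  The system `f' = (b/t + c/(t-1)) f` with
`b = diag (β i / 4)`, `c = C / 8`.  `D0 = 8 t ∇` and `D1 = 8 x ∇` (`x = t - 1`) act on sequences of
vectors (coefficients of power series).
-/

open Matrix Filter Topology
open scoped Polynomial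

namespace Pool.Agent.Work.MP_5e5ff1_ag.TG

section alg

variable {ι : Type} [Fintype ι] [DecidableEq ι]

/-- the matrix `8 b = diag (2 β)` -/
def dia (R : Type*) [CommRing R] (β : ι → ℤ) : Matrix ι ι R :=
  Matrix.diagonal fun i => ((2 * β i : ℤ) : R)

/-- numerators `(8 t (t-1))^k ∇^k` of the iterates of the connection (recursion of the frozen
statement with `n = 8`), over any commutative ring; `b`, `c` are 8 times the residues -/
noncomputable def Qi {R : Type*} [CommRing R] (b c : Matrix ι ι R) : ℕ → Matrix ι ι R[X]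
  | 0 => 1
  | k + 1 => (Polynomial.C (8 : R) * ((Polynomial.X : R[X]) * (Polynomial.X - 1))) •
        (Qi b c k).map (fun f => Polynomial.derivative f)
      - ((k : R[X]) * Polynomial.C (8 : R) * (2 * (Polynomial.X : R[X]) - 1)) • Qi b c k
      - (((Polynomial.X : R[X]) - 1) • b.map (fun x => Polynomial.C x)
          + (Polynomial.X : R[X]) • c.map (fun x => Polynomial.C x)) * Qi b c k

/-- the p-curvature of the system vanishes modulo `p` -/
def PZ (β : ι → ℤ) (C : Matrix ι ι ℤ) (p : ℕ) : Prop :=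
  Qi (dia (ZMod p) β) (C.map (Int.castRingHom (ZMod p))) p = 0

/-- `8 t ∇` on the coefficients of power series at `t = 0` -/
noncomputable def D0 {R : Type*} [CommRing R] (β : ι → ℤ) (C : Matrix ι ι R) :
    (ℕ → ι → R) →ₗ[R] (ℕ → ι → R) where
  toFun v := fun n i => (8 * (n : R) - 2 * (β i : R)) * v n i +
    ∑ k ∈ Finset.range n, (C *ᵥ v k) i
  map_add' v w := by
    funext n i
    simp only [Pi.add_apply, Matrix.mulVec_add, Finset.sum_add_distrib]
    ring
  map_smul' a v := by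
    funext n i
    simp only [Pi.smul_apply, Matrix.mulVec_smul, smul_eq_mul, RingHom.id_apply,
      ← Finset.mul_sum]
    ring

/-- `8 x ∇`, `x = t - 1`, on the coefficients of power series at `t = 1` -/
noncomputable def D1 {R : Type*} [CommRing R] (β : ι → ℤ) (C : Matrix ι ι R) :
    (ℕ → ι → R) →ₗ[R] (ℕ → ι → R) where
  toFun v := fun n i => 8 * (n : R) * v n i - (C *ᵥ v n) i -
    2 * (β i : R) * ∑ k ∈ Finset.range n, (-1) ^ (n - 1 - k) * v k i
  map_add' v w := by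
    funext n i
    simp only [Pi.add_apply, Matrix.mulVec_add, mul_add, Finset.sum_add_distrib]
    ring
  map_smul' a v := by
    funext n i
    have h : ∑ k ∈ Finset.range n, (-1 : R) ^ (n - 1 - k) * (a * v k i) =
        a * ∑ k ∈ Finset.range n, (-1) ^ (n - 1 - k) * v k i := by
      rw [Finset.mul_sum]
      exact Finset.sum_congr rfl fun k _ => by ring
    simp only [Pi.smul_apply, Matrix.mulVec_smul, smul_eq_mul, RingHom.id_apply, h]
    ring

/-- `U = ∑ U n t^n` with `U 0 = 1`, `Y = U t^b` solves the system; over any field -/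
structure IsU {F : Type*} [Field F] (β : ι → ℤ) (C : Matrix ι ι F) (U : ℕ → Matrix ι ι F) :
    Prop where
  zero : U 0 = 1
  eqn : ∀ (n : ℕ) (i j : ι), (8 * (n : F) + 2 * ((β j : F) - (β i : F))) * U n i j +
    ∑ k ∈ Finset.range n, (C * U k) i j = 0

/-- `G = ∑ G n x^n` with `G 0` invertible, `G x^(γ/2)` solves the system at `t = 1 + x` -/
structure IsG (β : ι → ℤ) (C : Matrix ι ι ℤ) (γ : ι → ℤ) (G : ℕ → Matrix ι ι ℚ) : Prop where
  det : (G 0).det ≠ 0
  eqn : ∀ (n : ℕ) (i j : ι), 8 * (n : ℚ) * G n i j - (C.map (Int.castRingHom ℚ) * G n) i j -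
    2 * (β i : ℚ) * ∑ k ∈ Finset.range n, (-1) ^ (n - 1 - k) * G k i j = -(4 * (γ j : ℚ)) * G n i j

/-- the exceptional primes -/
def SmallS (S : Set ℕ) : Prop := ∀ F : Finset ℕ, (∀ p ∈ F, p.Prime ∧ p ∈ S) →
  ∑ p ∈ F, Real.log p / p ≤ 1 / 50

/-- hypotheses of the theorem for integral systems -/
structure Sys (β : ι → ℤ) (C : Matrix ι ι ℤ) (S : Set ℕ) : Prop where
  hβ : ∀ i j, (4 : ℤ) ∣ β i - β j → β i = β j
  hC : ∃ (m : ℕ) (γ : Fin m → ℤ),
    Polynomial.aeval C (∏ j, (Polynomial.X - Polynomial.C (4 * γ j))) = 0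
  small : SmallS S
  pz : ∀ p : ℕ, p.Prime → p ≠ 2 → p ∉ S → PZ β C p

end alg

/-! ### denominators -/

/-- bound of the exponent for primes without hypothesis -/
def LS (p B n : ℕ) : ℕ := ∑ l ∈ Finset.Icc 1 (Nat.log p (4 * n + B)), (n / p ^ l + 1)

/-- bound of the exponent for primes with vanishing p-curvature -/
def LG (p B n : ℕ) : ℕ := ∑ l ∈ Finset.Icc 2 (Nat.log p (4 * (n + p) + B)), ((n + p) / p ^ l + 1)

/-- the same for products of `J` coefficients of total degree `N` -/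
def LSJ (p B J N : ℕ) : ℕ := ∑ l ∈ Finset.Icc 1 (Nat.log p (4 * N + B)), (N / p ^ l + J)

/-- the same for products of `J` coefficients of total degree `N` -/
def LGJ (p B J N : ℕ) : ℕ :=
  ∑ l ∈ Finset.Icc 2 (Nat.log p (4 * (N + p) + B)), ((N + J * p) / p ^ l + J)

open Classical in
/-- common denominator -/
noncomputable def dJ (S : Set ℕ) (B J N : ℕ) : ℕ :=
  2 ^ (4 * N) * ∏ p ∈ (Finset.Icc 3 (4 * N + B + 8)).filter Nat.Prime,
    p ^ (4 * (if p ∈ S then LSJ p B J N else LGJ p B J N))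

/-! ### analysis -/

section ana

variable {ι : Type} [Fintype ι] [DecidableEq ι]

/-- coefficient matrix of the pulled back system, after multiplication of the solutions with
`(th w)^K`; here `t = th^4`, `t - 1 = w^2` -/
noncomputable def AA (β : ι → ℤ) (C : Matrix ι ι ℤ) (K : ℕ) (th w : ℂ → ℂ) (z : ℂ) :
    Matrix ι ι ℂ :=
  (deriv th z / th z) • Matrix.diagonal (fun i => ((β i : ℂ) + K)) +
    (deriv w z / w z) • ((4 : ℂ)⁻¹ • C.map (Int.castRingHom ℂ) + (K : ℂ) • 1)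

/-- a local solution, holomorphic also at the zeros of `th` and `w` -/
structure LocSol (β : ι → ℤ) (C : Matrix ι ι ℤ) (K : ℕ) (th w : ℂ → ℂ) (M : ℂ → Matrix ι ι ℂ)
    (z0 : ℂ) (ρ : ℝ) : Prop where
  pos : 0 < ρ
  sub : Metric.ball z0 ρ ⊆ Metric.ball 0 1
  diff : ∀ i j, DifferentiableOn ℂ (fun z => M z i j) (Metric.ball z0 ρ)
  det : ∀ z ∈ Metric.ball z0 ρ, th z ≠ 0 → w z ≠ 0 → (M z).det ≠ 0
  ode : ∀ z ∈ Metric.ball z0 ρ, th z ≠ 0 → w z ≠ 0 → ∀ i j,
    HasDerivAt (fun y => M y i j) ((AA β C K th w z * M z) i j) z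

/-- the functions `th`, `w` on the unit disc -/
structure IsMap (th w : ℂ → ℂ) : Prop where
  dth : DifferentiableOn ℂ th (Metric.ball 0 1)
  dw : DifferentiableOn ℂ w (Metric.ball 0 1)
  rel : ∀ z ∈ Metric.ball (0 : ℂ) 1, th z ^ 4 - 1 = w z ^ 2
  zero : th 0 = 0
  der : 911 / 10 ≤ ‖deriv th 0‖ ^ 4

end ana

/-! ### interfaces -/

/-- existence of the map (part C, helper45) -/
def StMap : Prop := ∃ th w : ℂ → ℂ, IsMap th w

/-- the algebraicity criterion (part B, helper45) -/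
def StCrit : Prop := ∀ (s : ℝ) (a : ℕ → ℚ) (th h : ℂ → ℂ),
  (∀ J : ℕ, ∀ ε > 0, ∃ N0 : ℕ, ∀ N ≥ N0, ∃ d : ℕ, 0 < d ∧ Real.log d ≤ (s + ε) * N ∧
    ∀ j ≤ J, ∀ k ≤ N, ∃ z : ℤ, (d : ℚ) * PowerSeries.coeff k ((PowerSeries.mk a) ^ j) = z) →
  (∃ A : ℝ, ∀ n, |(a n : ℝ)| ≤ A ^ (n + 1)) →
  DifferentiableOn ℂ th (Metric.ball 0 1) → th 0 = 0 → s < 4 * Real.log ‖deriv th 0‖ →
  DifferentiableOn ℂ h (Metric.ball 0 1) → (∃ z ∈ Metric.ball (0 : ℂ) 1, h z ≠ 0) →
  (∃ F : ℂ → ℂ, DifferentiableOn ℂ F (Metric.ball 0 1) ∧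
    ∀ᶠ z in 𝓝 0, F z = h z * ∑' n : ℕ, (a n : ℂ) * th z ^ (4 * n)) →
  IsAlgebraic ℚ[X] (PowerSeries.mk a : PowerSeries ℚ)

end Pool.Agent.Work.MP_5e5ff1_ag.TG
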