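import Mathlib
import Pool.Agent.Work.MP_5e5ff1_ag.TG.Defs

set_option autoImplicit false

/-!
# MP_5e5ff1_ag, block TG, part B: the algebraicity criterion (`StCrit`)

Every docstring is the complete proof.  Co-captain helper45 (captain helper18).
Notation: `f = PowerSeries.mk a = ∑ a n t^n`.
-/

open Filter Topology
open scoped Polynomial

namespace Pool.Agent.Work.MP_5e5ff1_ag.TG

/-- hypothesis on the denominators (the first hypothesis of `StCrit`) -/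
def Den (s : ℝ) (a : ℕ → ℚ) : Prop := ∀ J : ℕ, ∀ ε > 0, ∃ N0 : ℕ, ∀ N ≥ N0, ∃ d : ℕ, 0 < d ∧
  Real.log d ≤ (s + ε) * N ∧
    ∀ j ≤ J, ∀ k ≤ N, ∃ z : ℤ, (d : ℚ) * PowerSeries.coeff k ((PowerSeries.mk a) ^ j) = z

/-- the auxiliary power series `∑_{j<J} ∑_{i<X} q j i t^i f^j` -/
noncomputable def aux (a : ℕ → ℚ) (J X : ℕ) (q : ℕ → ℕ → ℤ) : PowerSeries ℚ :=
  ∑ j ∈ Finset.range J, ∑ i ∈ Finset.range X,
    PowerSeries.C ((q j i : ℤ) : ℚ) * ((PowerSeries.X : PowerSeries ℚ) ^ i * (PowerSeries.mk a) ^ j)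

/-- PWR, EASY.  Size of the coefficients of the powers.

Induction on `j`.  `j = 0`: the coefficient is 1 or 0 and `2A ≥ 1`.  Step:
`coeff k (f^(j+1)) = ∑_{x+y=k} a x * coeff y (f^j)` is at most
`∑_{x+y=k} A^(x+1) (2A)^(y+j) = A^(k+j+1) ∑_{y≤k} 2^(y+j) ≤ (2A)^(k+j+1)`. -/
def StPwr : Prop := ∀ (a : ℕ → ℚ) (A : ℝ), 1 ≤ A → (∀ n, |(a n : ℝ)| ≤ A ^ (n + 1)) →
  ∀ j k : ℕ, |((PowerSeries.coeff k ((PowerSeries.mk a) ^ j) : ℚ) : ℝ)| ≤ (2 * A) ^ (k + j)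

/-- CFA, EASY-MEDIUM.  Size of the coefficients of `aux`.  USES PWR.

`coeff n (X^i f^j)` is 0 for `i > n` and `coeff (n - i) (f^j)` for `i ≤ n`
(`PowerSeries.coeff_X_pow_mul'`), so its absolute value is at most `(2A)^(n-i+j) ≤ (2A)^(n+J)`;
there are `J X` terms with coefficients of absolute value `≤ Q`. -/
def StCfa : Prop := ∀ (a : ℕ → ℚ) (A : ℝ), 1 ≤ A → (∀ n, |(a n : ℝ)| ≤ A ^ (n + 1)) →
  ∀ (J X : ℕ) (q : ℕ → ℕ → ℤ) (Q : ℝ), (∀ j i, |(q j i : ℝ)| ≤ Q) → ∀ n : ℕ,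
  |((PowerSeries.coeff n (aux a J X q) : ℚ) : ℝ)| ≤ J * X * Q * (2 * A) ^ (n + J)

/-- ITA, EASY.  Integrality of the coefficients of `aux`.

`d coeff n (aux)` is the sum over `j < J`, `i < X`, `i ≤ n` of `q j i * (d coeff (n-i) (f^j))`. -/
def StIta : Prop := ∀ (a : ℕ → ℚ) (J X d N : ℕ) (q : ℕ → ℕ → ℤ),
  (∀ j ≤ J, ∀ k ≤ N, ∃ z : ℤ, (d : ℚ) * PowerSeries.coeff k ((PowerSeries.mk a) ^ j) = z) →
  ∀ n ≤ N, ∃ z : ℤ, (d : ℚ) * PowerSeries.coeff n (aux a J X q) = z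

/-- SGL, MEDIUM.  Siegel's lemma.

Choose `z j k` (`j < J`, `k < T`) from the hypothesis, let `M : Matrix (Fin T) (Fin J × Fin X) ℤ`,
`M m (j, i) = z j (m - i)` if `i ≤ m`, else 0; `‖M‖ ≤ B`.  `T < L T ≤ J X`.
`Int.Matrix.exists_ne_zero_int_vec_norm_le` (Mathlib/NumberTheory/SiegelsLemma.lean) gives
`t ≠ 0`, `M t = 0`, `‖t‖ ≤ (J X max 1 ‖M‖)^(T/(JX - T))`, and `T/(JX-T) ≤ 1/(L-1)`, the base is
`≥ 1`.  `q j i = t (j, i)` for `j < J`, `i < X` and 0 otherwise.  `d coeff m (aux) = (M t) m = 0`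
and `d ≠ 0`. -/
def StSgl : Prop := ∀ (a : ℕ → ℚ) (J X T d L : ℕ) (B : ℝ), 2 ≤ L → 0 < T → L * T ≤ J * X →
  1 ≤ B → 0 < d →
  (∀ j < J, ∀ k < T, ∃ z : ℤ, (d : ℚ) * PowerSeries.coeff k ((PowerSeries.mk a) ^ j) = z ∧
    |(z : ℝ)| ≤ B) →
  ∃ q : ℕ → ℕ → ℤ, (∃ j < J, ∃ i < X, q j i ≠ 0) ∧
    (∀ n < T, PowerSeries.coeff n (aux a J X q) = 0) ∧
    ∀ j i, |(q j i : ℝ)| ≤ ((J : ℝ) * X * B) ^ (1 / ((L : ℝ) - 1))

/-- NZA, EASY-MEDIUM.  The auxiliary series is not 0.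

`aux` is the value at `f` of the polynomial `∑_{j<J} (∑_{i<X} q j i X^i) Y^j` over `ℚ[X]`, which is
not 0 because its coefficient `q j i` is not 0; if `aux = 0`, then `f` is algebraic. -/
def StNza : Prop := ∀ (a : ℕ → ℚ) (J X : ℕ) (q : ℕ → ℕ → ℤ),
  ¬ IsAlgebraic ℚ[X] (PowerSeries.mk a : PowerSeries ℚ) →
  (∃ j < J, ∃ i < X, q j i ≠ 0) → aux a J X q ≠ 0

/-- ARI, MEDIUM.  The arithmetic half.  USES PWR ITA SGL NZA.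

Let `N0` be given by `Den` for `J`, `ε`; `T0 = max N0 1`, `T ≥ T0`, `X = L T / J + 1` (division of
natural numbers), so `L T < J X` and `X ≤ L T + 1`.  Let `d` be given by `Den` for `N = T`,
`B = d (2A)^(T+J)`.  For `j < J`, `k < T`: `|d coeff k (f^j)| ≤ d (2A)^(k+j) ≤ B` (PWR).  SGL gives
`q` with `|q j i| ≤ (J X B)^(1/(L-1))`, and `X ≤ LT+1`, `d = exp (log d) ≤ exp ((s+ε)T)`: this is
the bound of the statement (the exponent is `≥ 0`, the base grows).  By NZA `aux ≠ 0`; let `T'` be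
the least `n` with `coeff n ≠ 0` (`Nat.find`), `T' ≥ T` by SGL.  Let `d'` be given by `Den` for
`N = T' ≥ N0`: by ITA `d' coeff T' (aux)` is a nonzero integer, so
`|coeff T' (aux)| ≥ 1/d' ≥ exp (-(s+ε)T')`. -/
def StAri : Prop := ∀ (s : ℝ) (a : ℕ → ℚ) (A : ℝ), Den s a → 1 ≤ A →
  (∀ n, |(a n : ℝ)| ≤ A ^ (n + 1)) → ¬ IsAlgebraic ℚ[X] (PowerSeries.mk a : PowerSeries ℚ) →
  ∀ (L J : ℕ) (ε : ℝ), 2 ≤ L → 1 ≤ J → 0 < ε → ∃ T0 : ℕ, ∀ T ≥ T0, ∃ (q : ℕ → ℕ → ℤ) (T' : ℕ),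
    T ≤ T' ∧ (∀ n < T', PowerSeries.coeff n (aux a J (L * T / J + 1) q) = 0) ∧
    Real.exp (-((s + ε) * T')) ≤
      |((PowerSeries.coeff T' (aux a J (L * T / J + 1) q) : ℚ) : ℝ)| ∧
    ∀ j i, |(q j i : ℝ)| ≤ ((J : ℝ) * (L * T + 1) * Real.exp ((s + ε) * T) *
      (2 * A) ^ (T + J)) ^ (1 / ((L : ℝ) - 1))

/-! ### the analytic half -/

/-- CNV, EASY-MEDIUM.  Values of the powers of `f` near 0.  USES PWR.

`‖coeff n (f^j) t^n‖ ≤ (2A)^(n+j) ‖t‖^n` by PWR, and `2A‖t‖ < 1`: summable (geometric series).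
The value by induction on `j`: the product of two absolutely convergent series is the Cauchy product
(`tsum_mul_tsum_eq_tsum_sum_antidiagonal_of_summable_norm`, `PowerSeries.coeff_mul`). -/
def StCnv : Prop := ∀ (a : ℕ → ℚ) (A : ℝ), 1 ≤ A → (∀ n, |(a n : ℝ)| ≤ A ^ (n + 1)) →
  ∀ t : ℂ, ‖t‖ < 1 / (2 * A) → ∀ j : ℕ,
  Summable (fun n : ℕ =>
    ‖((PowerSeries.coeff n ((PowerSeries.mk a) ^ j) : ℚ) : ℂ) * t ^ n‖) ∧
  ∑' n : ℕ, ((PowerSeries.coeff n ((PowerSeries.mk a) ^ j) : ℚ) : ℂ) * t ^ n =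
    (∑' n : ℕ, (a n : ℂ) * t ^ n) ^ j

/-- CVA, EASY-MEDIUM.  The value of `aux` near 0.  USES CNV.

Multiplication by `X^i` shifts the coefficients: `∑ coeff n (X^i g) t^n = t^i ∑ coeff n g t^n`
(`PowerSeries.coeff_X_pow_mul'`, `Summable.sum_add_tsum_nat_add`), absolutely summable; then finite
sums of summable families (`Summable.tsum_finsetSum`, `tsum_mul_left`). -/
def StCva : Prop := ∀ (a : ℕ → ℚ) (A : ℝ), 1 ≤ A → (∀ n, |(a n : ℝ)| ≤ A ^ (n + 1)) →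
  ∀ t : ℂ, ‖t‖ < 1 / (2 * A) → ∀ (J X : ℕ) (q : ℕ → ℕ → ℤ),
  Summable (fun n : ℕ => ‖((PowerSeries.coeff n (aux a J X q) : ℚ) : ℂ) * t ^ n‖) ∧
  ∑' n : ℕ, ((PowerSeries.coeff n (aux a J X q) : ℚ) : ℂ) * t ^ n =
    ∑ j ∈ Finset.range J, ∑ i ∈ Finset.range X,
      (q j i : ℂ) * (t ^ i * (∑' n : ℕ, (a n : ℂ) * t ^ n) ^ j)

/-- FAC, EASY-MEDIUM.  The first nonzero coefficient.

`P t = ∑ b (n+m) t^n`.  For `‖t‖ < 1/B` the series is dominated by `K B^m (B r)^n`, `‖t‖ < r < 1/B`,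
so `P` is differentiable on this disc (`differentiableOn_tsum_of_summable_norm`), so analytic at 0
(`DifferentiableOn.analyticAt`); `P 0 = b m`.  `∑ b n t^n = ∑_{n<m} b n t^n + ∑ b (n+m) t^(n+m)`
(`Summable.sum_add_tsum_nat_add`). -/
def StFac : Prop := ∀ (b : ℕ → ℂ) (K B : ℝ) (m : ℕ), 0 < B → (∀ n, ‖b n‖ ≤ K * B ^ n) →
  (∀ n < m, b n = 0) → ∃ P : ℂ → ℂ, AnalyticAt ℂ P 0 ∧ P 0 = b m ∧
    ∀ᶠ t in 𝓝 (0 : ℂ), ∑' n : ℕ, b n * t ^ n = t ^ m * P t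

/-- ORD, EASY.  The order of zero of `h` at 0.

`h` is analytic on the disc (`DifferentiableOn.analyticOnNhd`); if it vanished near 0 it would
vanish on the disc (`AnalyticOnNhd.eqOn_zero_of_preconnected_of_eventuallyEq_zero`), which is
connected.  So `AnalyticAt.exists_eventuallyEq_pow_smul_nonzero_iff`. -/
def StOrd : Prop := ∀ h : ℂ → ℂ, DifferentiableOn ℂ h (Metric.ball 0 1) →
  (∃ z ∈ Metric.ball (0 : ℂ) 1, h z ≠ 0) → ∃ (ν : ℕ) (g : ℂ → ℂ), AnalyticAt ℂ g 0 ∧ g 0 ≠ 0 ∧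
    ∀ᶠ z in 𝓝 (0 : ℂ), h z = z ^ ν * g z

/-- MAX, EASY-MEDIUM.  The maximum principle.

The function `k z = G z / z^m` for `z ≠ 0`, `k 0 = g 0`, equals `g` near 0, so it is differentiable
on the disc.  On the circle `‖z‖ = ρ`: `‖k z‖ ≤ M / ρ^m`.  So `‖k 0‖ ≤ M / ρ^m`
(`Complex.norm_le_of_forall_mem_frontier_norm_le`, on the ball of radius `ρ`). -/
def StMax : Prop := ∀ (G g : ℂ → ℂ) (m : ℕ) (ρ M : ℝ), DifferentiableOn ℂ G (Metric.ball 0 1) →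
  AnalyticAt ℂ g 0 → (∀ᶠ z in 𝓝 (0 : ℂ), G z = z ^ m * g z) → 0 < ρ → ρ < 1 →
  (∀ z : ℂ, ‖z‖ ≤ ρ → ‖G z‖ ≤ M) → ‖g 0‖ * ρ ^ m ≤ M

/-- KEY, MEDIUM.  The upper bound.  USES CFA CVA FAC ORD MAX.

`C0 ≥ 1` bounds `‖th‖, ‖h‖, ‖F‖` on the compact disc of radius `ρ`.  Let `ν, g` be given by ORD;
`th z = z θ z`, `θ = dslope th 0` analytic at 0, `θ 0 = deriv th 0`.
`C = C0^4 * max 1 (1/(‖g 0‖ ρ^ν))`.  Let `b n = coeff n (aux a J X q)` and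
`G z = ∑_{j<J} ∑_{i<X} q j i (th z)^(4i) (F z)^j (h z)^(J-j)`, differentiable on the disc.  For `z`
near 0, with `t = (th z)^4` (which tends to 0), `F z = h z ∑ a n t^n`, so by CVA
`G z = (h z)^J ∑ b n t^n`.  By CFA `‖b n‖ ≤ (J X Q (2A)^J) (2A)^n`, so by FAC (`m = T'`)
`∑ b n t^n = t^T' P t` near 0, `P 0 = b T'`.  So near 0
`G z = z^(J ν + 4 T') · [(g z)^J (θ z)^(4T') P((th z)^4)]`.  For `‖z‖ ≤ ρ`:
`‖G z‖ ≤ J X Q C0^(4X+J)` (`Q ≥ 0`).  MAX: `‖g 0‖^J ‖θ 0‖^(4T') |b T'| ρ^(Jν+4T') ≤ J X Q C0^(4X+J)`,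
so `|b T'| (‖deriv th 0‖ ρ)^(4T') ≤ J X Q C0^(4X+J) (1/(‖g 0‖ρ^ν))^J ≤ J X Q C^(X+J)`. -/
def StKey : Prop := ∀ (a : ℕ → ℚ) (A : ℝ) (th h F : ℂ → ℂ), 1 ≤ A →
  (∀ n, |(a n : ℝ)| ≤ A ^ (n + 1)) →
  DifferentiableOn ℂ th (Metric.ball 0 1) → th 0 = 0 →
  DifferentiableOn ℂ h (Metric.ball 0 1) → (∃ z ∈ Metric.ball (0 : ℂ) 1, h z ≠ 0) →
  DifferentiableOn ℂ F (Metric.ball 0 1) →
  (∀ᶠ z in 𝓝 (0 : ℂ), F z = h z * ∑' n : ℕ, (a n : ℂ) * th z ^ (4 * n)) →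
  ∀ ρ : ℝ, 0 < ρ → ρ < 1 → ∃ C : ℝ, 1 ≤ C ∧
    ∀ (J X : ℕ) (q : ℕ → ℕ → ℤ) (Q : ℝ) (T' : ℕ), (∀ j i, |(q j i : ℝ)| ≤ Q) →
    (∀ n < T', PowerSeries.coeff n (aux a J X q) = 0) →
    |((PowerSeries.coeff T' (aux a J X q) : ℚ) : ℝ)| * (‖deriv th 0‖ * ρ) ^ (4 * T') ≤
      J * X * Q * C ^ (X + J)

/-- END, MEDIUM (real numbers).  The choice of the parameters.

`η = (4 log g - s)/8 > 0`, `ρ = exp (-η/4)`.  Given `C`, choose `L ≥ 2` with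
`(s + η + log (2A))/(L-1) ≤ η`, then `J ≥ 1` with `L log C / J ≤ η`.  The logarithm of the right
side is `T' (4 log g + 4 log ρ - s - η) = 6 η T' ≥ 6 η T`.  The logarithm of the left side, with
`L T / J + 1 ≤ L T + 1` and `≤ (L T)/J + 1` (real division), is at most
`log J + log (LT+1) + (1/(L-1)) (log J + log (LT+1) + (s+η) T + (T+J) log (2A)) + (LT/J + 1 + J) log C
 ≤ 2 log J + 2 log (LT+1) + J log (2A) + (1+J) log C + 2 η T`, which is `< 6 η T` for `T` large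
(`log (LT+1) = o(T)`; for instance `log y ≤ 2 √y`). -/
def StEnd : Prop := ∀ s g A : ℝ, 0 ≤ s → 1 < g → s < 4 * Real.log g → 1 ≤ A →
  ∃ η ρ : ℝ, 0 < η ∧ 0 < ρ ∧ ρ < 1 ∧ ∀ C : ℝ, 1 ≤ C → ∃ L J : ℕ, 2 ≤ L ∧ 1 ≤ J ∧
    ∃ T1 : ℕ, ∀ T ≥ T1, ∀ T' ≥ T,
    (J : ℝ) * ((L * T / J + 1 : ℕ) : ℝ) *
      ((J : ℝ) * (L * T + 1) * Real.exp ((s + η) * T) * (2 * A) ^ (T + J)) ^ (1 / ((L : ℝ) - 1)) *
      C ^ ((L * T / J + 1) + J) < Real.exp (-((s + η) * T')) * (g * ρ) ^ (4 * T')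

/-- CRT, EASY-MEDIUM.  The criterion: the theorem is `pr_CRT ... : StCrit`.  USES ARI KEY END.

`s ≥ 0`: otherwise `Den` with `J = 0`, `ε = -s/2` and `N ≥ max N0 1` gives `0 ≤ log d < 0`.  So
`0 < 4 log ‖th' 0‖` and `g = ‖th' 0‖ > 1`.  Replace `A` by `max A 1` (`A ≥ 0` since
`0 ≤ |a 0| ≤ A`).  Suppose `f` is not algebraic.  END gives `η, ρ`; KEY gives `C` for `ρ`; END gives
`L, J, T1`; ARI (`ε = η`) gives `T0`.  Take `T = max T0 T1` and `q, T'` from ARI; with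
`Q = (...)^(1/(L-1))`, KEY contradicts END:
`exp(-(s+η)T') (gρ)^(4T') ≤ |b T'| (gρ)^(4T') ≤ J X Q C^(X+J) < exp(-(s+η)T') (gρ)^(4T')`. -/
def StCrt : Prop := StCrit

end Pool.Agent.Work.MP_5e5ff1_ag.TG
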