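import Mathlib
import Pool.Agent.Work.MP_5e5ff1_ag.TG.StmtsB

set_option autoImplicit false

/-!
# MP_5e5ff1_ag, block TG, item ARI (helper24): the arithmetic half of the algebraicity criterion
-/

open Filter Topology
open scoped Polynomial

namespace Pool.Agent.Work.MP_5e5ff1_ag.TG

namespace IARI

theorem cast_eq (d : ℕ) (x : ℚ) (z : ℤ) (h : (d : ℚ) * x = z) : (z : ℝ) = (d : ℝ) * (x : ℝ) := by
  have h1 : (((d : ℚ) * x : ℚ) : ℝ) = ((z : ℚ) : ℝ) := by rw [h]
  push_cast at h1
  exact h1.symm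

end IARI

theorem pr_ARI (hPwr : StPwr) (hIta : StIta) (hSgl : StSgl) (hNza : StNza) : StAri := by
  intro s a A hDen hA ha halg L J ε hL hJ hε
  obtain ⟨N0, hN0⟩ := hDen J ε hε
  refine ⟨max N0 1, fun T hT => ?_⟩
  have hTN : N0 ≤ T := (le_max_left _ _).trans hT
  have hT1 : 1 ≤ T := (le_max_right _ _).trans hT
  obtain ⟨d, hd, hdlog, hdint⟩ := hN0 T hTN
  have hdR : (1 : ℝ) ≤ d := by exact_mod_cast hd
  have h2A : (1 : ℝ) ≤ 2 * A := by linarith
  have hX : L * T ≤ J * (L * T / J + 1) :=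
    (Nat.lt_mul_div_succ (L * T) (by omega : 0 < J)).le
  have hB : (1 : ℝ) ≤ d * (2 * A) ^ (T + J) := by
    have h1 := one_le_pow₀ (n := T + J) h2A
    nlinarith
  obtain ⟨q, hq1, hq2, hq3⟩ := hSgl a J (L * T / J + 1) T d L (d * (2 * A) ^ (T + J)) hL hT1 hX hB
    hd (by
      intro j hj k hk
      obtain ⟨z, hz⟩ := hdint j hj.le k hk.le
      refine ⟨z, hz, ?_⟩
      rw [IARI.cast_eq d _ z hz, abs_mul, abs_of_nonneg (by positivity : (0 : ℝ) ≤ d)]
      refine mul_le_mul_of_nonneg_left ((hPwr a A hA ha j k).trans ?_) (by positivity)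
      exact pow_le_pow_right₀ h2A (by omega))
  have hne : aux a J (L * T / J + 1) q ≠ 0 := hNza a J _ q halg hq1
  have hex : ∃ n, PowerSeries.coeff n (aux a J (L * T / J + 1) q) ≠ 0 := by
    by_contra hcon
    apply hne
    ext n
    rw [map_zero]
    by_contra h1
    exact hcon ⟨n, h1⟩
  classical
  have hspec := Nat.find_spec hex
  have hmin : ∀ n < Nat.find hex, PowerSeries.coeff n (aux a J (L * T / J + 1) q) = 0 := by
    intro n hn
    by_contra h1
    exact Nat.find_min hex hn h1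
  have hTT : T ≤ Nat.find hex := by
    by_contra h1
    exact hspec (hq2 _ (not_le.1 h1))
  generalize Nat.find hex = T' at hspec hmin hTT
  obtain ⟨d', hd', hdlog', hdint'⟩ := hN0 T' (hTN.trans hTT)
  refine ⟨q, T', hTT, hmin, ?_, fun j i => (hq3 j i).trans ?_⟩
  · obtain ⟨z, hz⟩ := hIta a J (L * T / J + 1) d' T' q hdint' T' le_rfl
    have hdR' : (0 : ℝ) < d' := by exact_mod_cast hd'
    have hz0 : z ≠ 0 := by
      rintro rfl
      rw [Int.cast_zero, mul_eq_zero] at hz
      rcases hz with hz | hz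
      · have : (d' : ℚ) ≠ 0 := by exact_mod_cast hd'.ne'
        exact this hz
      · exact hspec hz
    have hz1 : (1 : ℝ) ≤ |(z : ℝ)| := by
      have := Int.one_le_abs hz0
      exact_mod_cast this
    rw [IARI.cast_eq d' _ z hz, abs_mul, abs_of_pos hdR'] at hz1
    have h2 : Real.exp (-((s + ε) * T')) * d' ≤ 1 := by
      have e : Real.exp (-((s + ε) * T')) * d' = Real.exp (-((s + ε) * T') + Real.log d') := by
        rw [Real.exp_add, Real.exp_log hdR']
      rw [e]
      exact Real.exp_le_one_iff.2 (by linarith)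
    have h3 : Real.exp (-((s + ε) * T')) * d' ≤
        |((PowerSeries.coeff T' (aux a J (L * T / J + 1) q) : ℚ) : ℝ)| * d' := by
      linarith [mul_comm |((PowerSeries.coeff T' (aux a J (L * T / J + 1) q) : ℚ) : ℝ)| (d' : ℝ)]
    exact le_of_mul_le_mul_right h3 hdR'
  · have hLR : (2 : ℝ) ≤ L := by exact_mod_cast hL
    have hXR : (((L * T / J + 1 : ℕ)) : ℝ) ≤ L * T + 1 := by
      have h1 : L * T / J + 1 ≤ L * T + 1 := Nat.succ_le_succ (Nat.div_le_self _ _)
      exact_mod_cast h1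
    have hdexp : (d : ℝ) ≤ Real.exp ((s + ε) * T) := by
      calc (d : ℝ) = Real.exp (Real.log d) := (Real.exp_log (by positivity)).symm
        _ ≤ Real.exp ((s + ε) * T) := Real.exp_le_exp.2 hdlog
    apply Real.rpow_le_rpow
    · positivity
    · calc (J : ℝ) * ((L * T / J + 1 : ℕ) : ℝ) * (d * (2 * A) ^ (T + J))
          ≤ (J : ℝ) * (L * T + 1) * (Real.exp ((s + ε) * T) * (2 * A) ^ (T + J)) := by
            gcongr
        _ = (J : ℝ) * (L * T + 1) * Real.exp ((s + ε) * T) * (2 * A) ^ (T + J) := by ring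
    · apply div_nonneg zero_le_one
      linarith

end Pool.Agent.Work.MP_5e5ff1_ag.TG
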