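import Mathlib
import Pool.Agent.Work.MP_5e5ff1_ag.TG.StmtsB

set_option autoImplicit false

/-!
# MP_5e5ff1_ag, block TG, part B, item CFA: size of the coefficients of the auxiliary series
-/

open Filter Topology
open scoped Polynomial

namespace Pool.Agent.Work.MP_5e5ff1_ag.TG

namespace ICFA

theorem coeff_aux (a : ℕ → ℚ) (J X : ℕ) (q : ℕ → ℕ → ℤ) (n : ℕ) :
    PowerSeries.coeff n (aux a J X q) = ∑ j ∈ Finset.range J, ∑ i ∈ Finset.range X,
      ((q j i : ℤ) : ℚ) *
        (if i ≤ n then PowerSeries.coeff (n - i) ((PowerSeries.mk a) ^ j) else 0) := by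
  unfold aux
  rw [map_sum]
  refine Finset.sum_congr rfl fun j _ => ?_
  rw [map_sum]
  refine Finset.sum_congr rfl fun i _ => ?_
  rw [PowerSeries.coeff_C_mul, PowerSeries.coeff_X_pow_mul']

end ICFA

theorem pr_CFA (h1 : StPwr) : StCfa := by
  intro a A hA ha J X q Q hQ n
  have hQ0 : 0 ≤ Q := (abs_nonneg _).trans (hQ 0 0)
  have h2A : (1 : ℝ) ≤ 2 * A := by linarith
  have hp : (0 : ℝ) ≤ (2 * A) ^ (n + J) := by positivity
  have key : ∀ j ∈ Finset.range J, ∀ i ∈ Finset.range X, |((((q j i : ℤ) : ℚ) *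
      (if i ≤ n then PowerSeries.coeff (n - i) ((PowerSeries.mk a) ^ j) else 0) : ℚ) : ℝ)| ≤
      Q * (2 * A) ^ (n + J) := by
    intro j hj i _
    have hj' := Finset.mem_range.mp hj
    rw [Rat.cast_mul, abs_mul]
    refine mul_le_mul ?_ ?_ (abs_nonneg _) hQ0
    · rw [Rat.cast_intCast]
      exact hQ j i
    · split_ifs with h
      · exact (h1 a A hA ha j (n - i)).trans (pow_le_pow_right₀ h2A (by omega))
      · rw [Rat.cast_zero, abs_zero]
        exact hp
  rw [ICFA.coeff_aux, Rat.cast_sum]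
  simp_rw [Rat.cast_sum]
  calc |∑ j ∈ Finset.range J, ∑ i ∈ Finset.range X, ((((q j i : ℤ) : ℚ) *
      (if i ≤ n then PowerSeries.coeff (n - i) ((PowerSeries.mk a) ^ j) else 0) : ℚ) : ℝ)| ≤
      ∑ j ∈ Finset.range J, ∑ i ∈ Finset.range X, |((((q j i : ℤ) : ℚ) *
      (if i ≤ n then PowerSeries.coeff (n - i) ((PowerSeries.mk a) ^ j) else 0) : ℚ) : ℝ)| :=
        (Finset.abs_sum_le_sum_abs _ _).trans
          (Finset.sum_le_sum fun j _ => Finset.abs_sum_le_sum_abs _ _)
    _ ≤ ∑ _j ∈ Finset.range J, ∑ _i ∈ Finset.range X, Q * (2 * A) ^ (n + J) :=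
        Finset.sum_le_sum fun j hj => Finset.sum_le_sum fun i hi => key j hj i hi
    _ = _ := by
        rw [Finset.sum_const, Finset.sum_const, Finset.card_range, Finset.card_range, nsmul_eq_mul,
          nsmul_eq_mul]
        ring

end Pool.Agent.Work.MP_5e5ff1_ag.TG
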