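import Mathlib
import Pool.Agent.Work.MP_5e5ff1_ag.TG.Defs

set_option autoImplicit false

/-!
# MP_5e5ff1_ag, block TG, part A: p-adic estimates

Every docstring is the complete proof.  USES lists the statements which the item may take as
hypotheses `(h : StX)`; any other statement of the block may be used too, if this is not circular.
Captain helper18, co-captain helper45.  Notation: `t` is the variable, a sequence `v : ℕ → ι → R`
is the vector of power series `∑ v n t^n`; `D0` is `f ↦ 8 t f' - dia(2β) f + (t/(1-t)) C f`.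
-/

open Matrix Filter Topology
open scoped Polynomial

namespace Pool.Agent.Work.MP_5e5ff1_ag.TG

/-- the constant sequence (only the term of degree 0) -/
def cst {ι R : Type} [Zero R] (v : ι → R) : ℕ → ι → R := fun n i => if n = 0 then v i else 0

/-- multiplication by `t^k` -/
def shf {ι R : Type} [Zero R] (k : ℕ) (v : ℕ → ι → R) : ℕ → ι → R :=
  fun n i => if k ≤ n then v (n - k) i else 0

/-- UEX, EASY.  Existence and uniqueness of `U`.

For `n = 0` the equation says `2 (β j - β i) (U 0) i j = 0`, true for `U 0 = 1`.  For `n ≥ 1` the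
factor `8 n + 2 (β j - β i) = 2 (4 n + β j - β i)` is nonzero: otherwise `β i - β j = 4 n`, so
`β i = β j` by the hypothesis and `n = 0`.  So `U n i j` is determined by the `U k`, `k < n`:
define `U` by strong recursion, `U n i j = - (8 n + 2 (β j - β i))⁻¹ ∑_{k<n} (C U_k) i j`;
uniqueness by strong induction. -/
def StUEX : Prop := ∀ (F : Type) [Field F] [CharZero F] (ι : Type) [Fintype ι] [DecidableEq ι]
  (β : ι → ℤ) (C : Matrix ι ι F), (∀ i j, (4 : ℤ) ∣ β i - β j → β i = β j) →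
  ∃ U : ℕ → Matrix ι ι F, IsU β C U ∧ ∀ U', IsU β C U' → U' = U

/-- UREC, EASY.  The ultrametric recursion.

Strong induction on `n` for the fixed column `j`.  `n = 0`: `U 0 = 1`, `|U 0 i j| ≤ 1 ≤ g 0`.
`n ≥ 1`: by the equation `|8n + 2(β_j - β_i)| |U n i j| = |∑_{k<n} ∑_l C i l U k l j| ≤
max_{k<n,l} |U k l j| ≤ max_{k<n} g k ≤ g (n-1) ≤ |8n + 2(β_j - β_i)| g n` (`|C i l| ≤ 1` since
`C i l` is an integer; `g` monotone).  Since `g (n-1) ≥ g 0 ≥ 1 > 0`, the factor is nonzero and can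
be cancelled. -/
def StUREC : Prop := ∀ (p : ℕ) [Fact p.Prime] (ι : Type) [Fintype ι] [DecidableEq ι]
  (β : ι → ℤ) (C : Matrix ι ι ℤ) (U : ℕ → Matrix ι ι ℚ), IsU β (C.map (Int.castRingHom ℚ)) U →
  ∀ (j : ι) (g : ℕ → ℚ), 1 ≤ g 0 → Monotone g →
  (∀ (n : ℕ) (i : ι), g n ≤ padicNorm p (8 * ((n : ℚ) + 1) + 2 * ((β j : ℚ) - (β i : ℚ))) *
    g (n + 1)) →
  ∀ (n : ℕ) (i : ι), padicNorm p (U n i j) ≤ g n

/-- TWO, EASY-MEDIUM.  The prime 2.  USES UREC.

Use UREC with `g n = 8^n * (padicNorm 2 (n !))⁻¹` (`≥ 1` at 0, monotone).  The step: with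
`N = n + 1`, `δ = β_j - β_i`, `|N!| = |N| |n!|`, it says `|N|_2 ≤ 8 |8 N + 2 δ|_2`.  If `δ = 0` this
is an equality.  If `δ ≠ 0` then `4 ∤ δ` (hypothesis), so `v_2(2δ) ≤ 2 < 3 ≤ v_2(8N)`, so
`|8N + 2δ| = |2δ| ≥ 1/4` and `8/4 = 2 ≥ |N|`.  Finally `v_2(n!) ≤ n` (e.g. `n! ∣ ...`,
`Nat.Prime.multiplicity_factorial`, `sub_one_mul_padicValNat_factorial`, Legendre:
`(2-1) v_2(n!) = n - (digit sum) ≤ n`), so `g n ≤ 8^n 2^n = 2^(4n)`. -/
def StTWO : Prop := ∀ (ι : Type) [Fintype ι] [DecidableEq ι]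
  (β : ι → ℤ) (C : Matrix ι ι ℤ) (U : ℕ → Matrix ι ι ℚ), IsU β (C.map (Int.castRingHom ℚ)) U →
  (∀ i j, (4 : ℤ) ∣ β i - β j → β i = β j) →
  ∀ (n : ℕ) (i j : ι), padicNorm 2 (U n i j) ≤ 2 ^ (4 * n)

/-- CN1, EASY-MEDIUM.  Counting primes in an arithmetic progression.

For an integer `x ≠ 0` with `|x| ≤ H` one has `v_p(x) = #{l ∈ [1, log_p H] : p^l ∣ x}`.  Here
`|4k + δ| ≤ 4n + B` for `k ≤ n`.  Exchange the sums: for every `l` the number of `k ∈ [1, n]` with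
`p^l ∣ 4k + δ` is at most `n / p^l + 1`, because two such `k` are congruent mod `p^l` (`4` is
invertible mod `p^l`, `p` odd). -/
def StCN1 : Prop := ∀ (p : ℕ), p.Prime → p ≠ 2 → ∀ (B n : ℕ) (δ : ℤ), |δ| ≤ B →
  (∀ k : ℕ, 1 ≤ k → 4 * (k : ℤ) + δ ≠ 0) →
  ∑ k ∈ Finset.Icc 1 n, padicValInt p (4 * (k : ℤ) + δ) ≤ LS p B n

/-- CN2, EASY-MEDIUM.  The same for complete blocks.

As CN1 with `n = m p`; for `l = 1` the number of `k ∈ [1, m p]` with `p ∣ 4k + δ` is exactly `m`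
(one in every block of `p` consecutive integers).  If `Nat.log p (4 m p + B) = 0` then every
`4k + δ` has absolute value `< p`, not divisible by `p`: the left side is 0. -/
def StCN2 : Prop := ∀ (p : ℕ), p.Prime → p ≠ 2 → ∀ (B m : ℕ) (δ : ℤ), |δ| ≤ B →
  (∀ k : ℕ, 1 ≤ k → 4 * (k : ℤ) + δ ≠ 0) →
  ∑ k ∈ Finset.Icc 1 (m * p), padicValInt p (4 * (k : ℤ) + δ) ≤
    m + ∑ l ∈ Finset.Icc 2 (Nat.log p (4 * (m * p) + B)), (m * p / p ^ l + 1)

/-- C4, EASY.  At most four distinct exponents: the reduction mod 4 is injective on the image of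
`β` by the hypothesis. -/
def StC4 : Prop := ∀ (ι : Type) [Fintype ι] (β : ι → ℤ),
  (∀ i j, (4 : ℤ) ∣ β i - β j → β i = β j) → (Finset.univ.image β).card ≤ 4

/-- BAD, EASY-MEDIUM.  Primes without hypothesis.  USES UREC CN1 C4.

Fix `j`; `T = image of β`, at most 4 elements (C4).  Use UREC with
`g n = ∏_{c ∈ T} ∏_{k ∈ Icc 1 n} |4k + β_j - c|⁻¹` (p-adic norms; all `4k + β_j - c ≠ 0` for
`k ≥ 1` by the hypothesis on `β`, all norms `≤ 1`, so `g 0 = 1`, `g` monotone).  The step: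
`|8(n+1) + 2(β_j - β_i)| = |4(n+1) + β_j - β_i|` since `p ≠ 2`, and
`g (n+1) |4(n+1) + β_j - β_i| = g n ∏_{c ∈ T, c ≠ β_i} |4(n+1) + β_j - c|⁻¹ ≥ g n`.  Finally
`g n = p^(∑_c ∑_k v_p(4k + β_j - c)) ≤ p^(4 LS p B n)` by CN1. -/
def StBAD : Prop := ∀ (p : ℕ) [Fact p.Prime], p ≠ 2 → ∀ (ι : Type) [Fintype ι] [DecidableEq ι]
  (β : ι → ℤ) (C : Matrix ι ι ℤ) (U : ℕ → Matrix ι ι ℚ), IsU β (C.map (Int.castRingHom ℚ)) U →
  (∀ i j, (4 : ℤ) ∣ β i - β j → β i = β j) →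
  ∀ B : ℕ, (∀ i j, |β i - β j| ≤ B) →
  ∀ (n : ℕ) (i j : ι), padicNorm p (U n i j) ≤ (p : ℚ) ^ (4 * LS p B n)

/-- CAS, EASY.  Base change for `D0` and polynomials in `D0`.

`φ (D0 v) = D0 (φ v)` coordinatewise (ring homomorphisms respect finite sums, products and
integers); then induction on `f` (`Polynomial.induction_on`): sums, and `C a * X^(n+1)`. -/
def StCAS : Prop := ∀ (R S : Type) [CommRing R] [CommRing S] (φ : R →+* S) (ι : Type) [Fintype ι]
  [DecidableEq ι] (β : ι → ℤ) (C : Matrix ι ι R) (f : R[X]) (v : ℕ → ι → R),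
  Polynomial.aeval (D0 β (C.map φ)) (f.map φ) (fun n i => φ (v n i)) =
    fun n i => φ (Polynomial.aeval (D0 β C) f v n i)

/-- ITR, MEDIUM.  The iterates of the connection.  For `P_k = ∏_{a<k} (D0 - 8a) (cst v)` the
identity `(X-1)^k P_k = Q_k v` of power series.

Induction on `k`; write `P` for `P_k`, `P_{k+1} = (D0 - 8k) P_k` (the operators commute, all are
polynomials in `D0`).  For every sequence `g` (power series `g_i = mk (g · i)`) the definition of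
`D0` gives `(X-1) mk(D0 g) i = 8 X (X-1) g_i' - 2 β_i (X-1) g_i - X ∑_j C i j g_j`, because
`mk (n ↦ ∑_{k<n} a k) (1 - X) = X mk a`.  With `Q = (X-1)^k P` one has
`8X(X-1) Q' = 8kX Q + (X-1)^k 8X(X-1) P'`.  Hence
`(X-1)^(k+1) mk((D0-8k)P) = (X-1)^k [8X(X-1)P' - 2β(X-1)P - X C P - 8k(X-1)P]
 = 8X(X-1)Q' - 8k(2X-1)Q - ((X-1) dia + X C) Q`, which is the recursion of `Qi` applied to `v`
(the constant vector `v` commutes with the derivative). -/
def StITR : Prop := ∀ (R : Type) [CommRing R] (ι : Type) [Fintype ι] [DecidableEq ι]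
  (β : ι → ℤ) (C : Matrix ι ι R) (v : ι → R) (k : ℕ) (i : ι),
  (PowerSeries.X - 1 : PowerSeries R) ^ k * PowerSeries.mk (fun n =>
    Polynomial.aeval (D0 β C) (∏ a ∈ Finset.range k, (Polynomial.X - Polynomial.C (8 * (a : R))))
      (cst v) n i) =
  ∑ j, ((Qi (dia R β) C k i j : R[X]) : PowerSeries R) * PowerSeries.C (v j)

/-- WIL, EASY.  `∏_{k<p} (X + a - 8k) = X^p - X` over `ZMod p`, `p` odd.

`k ↦ 8k - a` is a bijection of `range p` (classes mod p) onto `ZMod p` since `8` is invertible, so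
the product is `∏_{c ∈ ZMod p} (X - c) = X^p - X` (`FiniteField.X_pow_card_sub_X...`,
`ZMod.…`; or: both sides are monic of degree `p` with the `p` roots `c ∈ ZMod p`). -/
def StWIL : Prop := ∀ (p : ℕ) [Fact p.Prime], p ≠ 2 → ∀ a : ZMod p,
  ∏ k ∈ Finset.range p, ((Polynomial.X : (ZMod p)[X]) + Polynomial.C (a - 8 * (k : ZMod p))) =
    Polynomial.X ^ p - Polynomial.X

/-- PCU, MEDIUM.  `D0^p = D0` modulo `p`.  USES ITR WIL.

By ITR with `k = p` and `PZ`, `(X-1)^p mk(P_p i) = 0`, and `X - 1` is a unit of the power series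
ring, so `P_p = 0`; by WIL (`a = 0`) `P_p = (D0^p - D0)(cst v)`.  So `L := D0^p - D0` kills the
constant sequences.  Shift: `D0 (shf 1 v) = shf 1 ((D0 + 8) v)`, so
`L (shf 1 v) = shf 1 (((D0+8)^p - (D0+8)) v) = shf 1 (L v)` (characteristic `p`, commuting,
`8^p = 8`).  So `L` kills all `shf k (cst v)`, and their finite sums.  `D0` is lower triangular:
`(D0 v) n` depends only on `v 0, ..., v n`; so does `L`; and `v` agrees in degrees `≤ n` with
`∑_{k≤n} shf k (cst (v k))`.  Hence `L v = 0`. -/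
def StPCU : Prop := ∀ (p : ℕ) [Fact p.Prime], p ≠ 2 → ∀ (ι : Type) [Fintype ι] [DecidableEq ι]
  (β : ι → ℤ) (C : Matrix ι ι ℤ), PZ β C p → ∀ v : ℕ → ι → ZMod p,
  ((D0 β (C.map (Int.castRingHom (ZMod p)))) ^ p) v = D0 β (C.map (Int.castRingHom (ZMod p))) v

/-- BLK, EASY-MEDIUM.  A block of `p` consecutive factors is divisible by `p`.  USES WIL PCU CAS.

Reduce mod `p` (CAS for `ℤ → ZMod p`): the polynomial becomes `X^p - X` (WIL), so the image is
`(D0^p - D0) v = 0` mod `p` (PCU): all coordinates are divisible by `p`. -/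
def StBLK : Prop := ∀ (p : ℕ) [Fact p.Prime], p ≠ 2 → ∀ (ι : Type) [Fintype ι] [DecidableEq ι]
  (β : ι → ℤ) (C : Matrix ι ι ℤ), PZ β C p → ∀ (a : ℤ) (v : ℕ → ι → ℤ), ∃ v' : ℕ → ι → ℤ,
  Polynomial.aeval (D0 β C)
    (∏ k ∈ Finset.range p, ((Polynomial.X : ℤ[X]) + Polynomial.C (a - 8 * (k : ℤ)))) v =
    (p : ℤ) • v'

/-- BLM, EASY-MEDIUM.  Many blocks.  USES BLK.

Induction on `m` for one `c` (`Icc 1 ((m+1)p) = Icc 1 (mp) ∪ {mp+1, ..., mp+p}`, the new factors are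
`∏_{k<p} (X + (2c - 8(mp+1)) - 8k)`, BLK with `a = 2c - 8(mp+1)`), then induction on `T`;
`aeval` of a product is the composition, and `aeval f (p^s • v') = p^s • aeval f v'`. -/
def StBLM : Prop := ∀ (p : ℕ) [Fact p.Prime], p ≠ 2 → ∀ (ι : Type) [Fintype ι] [DecidableEq ι]
  (β : ι → ℤ) (C : Matrix ι ι ℤ), PZ β C p → ∀ (m : ℕ) (T : Finset ℤ) (v : ℕ → ι → ℤ),
  ∃ v' : ℕ → ι → ℤ,
  Polynomial.aeval (D0 β C) (∏ c ∈ T, ∏ k ∈ Finset.Icc 1 (m * p),
    ((Polynomial.X : ℤ[X]) + Polynomial.C (2 * c - 8 * (k : ℤ)))) v =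
    ((p : ℤ) ^ (m * T.card)) • v'

/-- LAG, MEDIUM.  Lagrange projection onto the horizontal section.

Let `u_i n = (U n · i)` be the `i`-th column.  The equation of `IsU` says `D0 u_i = -2β_i u_i`.
`D0 (shf k v) = shf k ((D0 + 8k) v)`, so `D0 (shf k u_i) = (8k - 2β_i) shf k u_i` and
`f(D0) (shf k u_i) = f(8k - 2β_i) shf k u_i`.
Since `U 0 = 1`, for every `M` there are `a k i` (`1 ≤ k < M`) such that
`cst e_j = u_j + ∑_{1≤k<M} ∑_i a k i • shf k u_i` in degrees `< M` (induction on `M`: the error in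
degree `M` is a vector `x`, take `a M i = x i`, since `shf M u_i` starts with `t^M e_i`).
`f(D0) v` in degrees `< M` depends only on `v` in degrees `< M` (`D0` lower triangular).  So in
degrees `< M`: `f(D0) (cst e_j) = f(-2β_j) u_j + ∑ a k i f(8k - 2β_i) shf k u_i = f(-2β_j) u_j`. -/
def StLAG : Prop := ∀ (F : Type) [Field F] [CharZero F] (ι : Type) [Fintype ι] [DecidableEq ι]
  (β : ι → ℤ) (C : Matrix ι ι F) (U : ℕ → Matrix ι ι F), IsU β C U → ∀ (M : ℕ) (f : F[X]),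
  (∀ (k : ℕ) (i : ι), 1 ≤ k → k < M → f.eval (8 * (k : F) - 2 * (β i : F)) = 0) →
  ∀ (n : ℕ) (i j : ι), n < M →
  Polynomial.aeval (D0 β C) f (cst (fun i => if i = j then 1 else 0)) n i =
    f.eval (-(2 * (β j : F))) * U n i j

/-- GOD, MEDIUM.  Primes with vanishing p-curvature.  USES BLM LAG CAS CN2 C4.

Let `m = n / p + 1`, so `n < m p ≤ n + p`; `T` the image of `β`, `s = #T ≤ 4` (C4);
`f = ∏_{c∈T} ∏_{k ∈ Icc 1 (mp)} (X + 2c - 8k) ∈ ℤ[X]`.  LAG over `ℚ` with `M = mp + 1` and `f` mapped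
to `ℚ` (roots `8k - 2β_i`, `1 ≤ k ≤ mp`): `f(D0) (cst e_j) n i = f(-2β_j) U n i j`.  The left side
is the cast of an integer divisible by `p^(ms)` (BLM, CAS for `ℤ → ℚ`), so
`|f(-2β_j)| |U n i j| ≤ p^(-ms)`.  `f(-2β_j) = ∏_c ∏_k (2(c - β_j) - 8k) = ∏ (-2)(4k + β_j - c)`,
all factors nonzero (hypothesis on `β`), `|2| = 1`, and by CN2 for each `c`
`∑_k v_p(4k + β_j - c) ≤ m + ∑_{l=2}^{log_p(4mp+B)} (mp/p^l + 1) ≤ m + LG p B n`
(`mp ≤ n + p`, monotone).  So `|U n i j| ≤ p^(-ms + s m + s LG) ≤ p^(4 LG)`. -/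
def StGOD : Prop := ∀ (p : ℕ) [Fact p.Prime], p ≠ 2 → ∀ (ι : Type) [Fintype ι] [DecidableEq ι]
  (β : ι → ℤ) (C : Matrix ι ι ℤ) (U : ℕ → Matrix ι ι ℚ), IsU β (C.map (Int.castRingHom ℚ)) U →
  (∀ i j, (4 : ℤ) ∣ β i - β j → β i = β j) → PZ β C p →
  ∀ B : ℕ, (∀ i j, |β i - β j| ≤ B) →
  ∀ (n : ℕ) (i j : ι), padicNorm p (U n i j) ≤ (p : ℚ) ^ (4 * LG p B n)

/-- POW, EASY-MEDIUM.  Coefficients of powers.

Prove by induction on `j` for all `k`, `T'`: if `(l.map E).sum ≤ T'` for all lists `l` with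
`l.length = j`, `l.sum = k`, then `|coeff k (a^j)| ≤ p^T'`.  Step: `coeff k (a^(j+1)) =
∑_{x+y=k} a x * coeff y (a^j)`; for each term `|a x| ≤ p^(E x)`; if `T' ≥ E x + max` apply the
induction hypothesis with `T' - E x` (every list `l` of length `j`, sum `y` gives `x :: l`, so
`E x + (l.map E).sum ≤ T'`; for `j ≥ 0` such a list exists, except `j = 0`, `y ≠ 0` where the
coefficient is 0; so `T' - E x` is a natural number with the required property).  The norm of a sum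
is at most the maximum. -/
def StPOW : Prop := ∀ (p : ℕ) [Fact p.Prime] (a : ℕ → ℚ) (E : ℕ → ℕ) (J N T : ℕ),
  (∀ n, padicNorm p (a n) ≤ (p : ℚ) ^ E n) →
  (∀ l : List ℕ, l.length ≤ J → l.sum ≤ N → (l.map E).sum ≤ T) →
  ∀ j ≤ J, ∀ k ≤ N, padicNorm p (PowerSeries.coeff k ((PowerSeries.mk a) ^ j)) ≤ (p : ℚ) ^ T

/-- LIS, EASY.  The exponents for lists.

Each `n ∈ l` is `≤ N`, so the upper limits of the sums over the powers `q` of `p` are at most those
of `LSJ`, `LGJ` (`Nat.log` is monotone).  Exchange the sums: `∑_{n∈l} (n/p^q + 1) ≤ N/p^q + J`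
(the sum of floors is at most the floor of the sum, and `l.sum ≤ N`, `l.length ≤ J`), and
`∑_{n∈l} ((n+p)/p^q + 1) ≤ (N + J p)/p^q + J`. -/
def StLIS : Prop := ∀ (p B J N : ℕ), 1 < p → ∀ l : List ℕ, l.length ≤ J → l.sum ≤ N →
  (l.map (fun n => 4 * LS p B n)).sum ≤ 4 * LSJ p B J N ∧
  (l.map (fun n => 4 * LG p B n)).sum ≤ 4 * LGJ p B J N

/-- ITG, EASY.  A rational number which is p-integral for all primes is an integer: the
denominator is divisible by no prime (`padicNorm.…`, `padicValRat`). -/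
def StITG : Prop := ∀ q : ℚ, (∀ (p : ℕ) [Fact p.Prime], padicNorm p q ≤ 1) → ∃ z : ℤ, q = z

/-- DEN, MEDIUM.  The common denominator.  USES TWO BAD GOD POW LIS ITG.

Let `x = coeff k (f^j)`, `f = mk (n ↦ U n i j0)`; by ITG it is enough that `|dJ| |x| ≤ 1` for every
prime `p`.  `p = 2`: `|x| ≤ 2^(4N)` by TWO and POW (`E n = 4n`, list sums `≤ 4N`), and `2^(4N) ∣ dJ`.
`p` odd, `p ≤ 4N + B + 8`: `|x| ≤ p^(4 LSJ)` by BAD, POW, LIS; if `p ∉ S`, also `|x| ≤ p^(4 LGJ)` by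
GOD, POW, LIS (`Sys.pz`); and the corresponding power of `p` divides `dJ`.
`p > 4N + B + 8` odd: `p ∈ S`: `Nat.log p (4N+B) = 0`, `LSJ = 0`; `p ∉ S`:
`4(N+p) + B < 5p - 8 + ... < p^2` since `p ≥ 9`, so `Nat.log p (4(N+p)+B) < 2`, `LGJ = 0`.  So
`|x| ≤ 1` and `dJ` is an integer. -/
def StDEN : Prop := ∀ (ι : Type) [Fintype ι] [DecidableEq ι]
  (β : ι → ℤ) (C : Matrix ι ι ℤ) (S : Set ℕ) (U : ℕ → Matrix ι ι ℚ), Sys β C S →
  IsU β (C.map (Int.castRingHom ℚ)) U → ∀ B : ℕ, (∀ i j, |β i - β j| ≤ B) →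
  ∀ (i j0 : ι) (J N : ℕ), ∀ j ≤ J, ∀ k ≤ N, ∃ z : ℤ,
    (dJ S B J N : ℚ) * PowerSeries.coeff k ((PowerSeries.mk fun n => U n i j0) ^ j) = z

/-! ### growth of the denominators -/

/-- the odd primes up to `x` -/
def opr (x : ℕ) : Finset ℕ := (Finset.Icc 3 x).filter Nat.Prime

/-- CHB, EASY.  Chebyshev: `∑_{p ≤ x} log p ≤ x log 4` (Mathlib: `primorial_le_four_pow`, or the
file `Mathlib/NumberTheory/Chebyshev.lean`; `primorial n = ∏_{p ≤ n} p`). -/
def StCHB : Prop := ∀ x : ℕ, ∑ p ∈ opr x, Real.log p ≤ x * Real.log 4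

open Classical in
/-- SMA, EASY-MEDIUM.  The exceptional primes are few.  USES CHB.

Given `ε`, let `δ = ε / (2 log 4)` and split the primes of `S` up to `H = 4N+B+8` at `δ N`.  Those
`≤ δN` contribute at most `δ N log 4 = εN/2` (CHB).  The others:
`∑_{p∈S, δN<p≤H} log p ≤ H ∑_{p∈S, δN<p≤H} log p / p`, and by `SmallS` the series
`∑_{p∈S} log p/p` has bounded partial sums, so it converges and the sum over `p > δN` is at most
`ε / 20` for `N` large (Cauchy); and `H ≤ 5N` for `N` large. -/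
def StSMA : Prop := ∀ (S : Set ℕ) (B : ℕ), SmallS S → ∀ ε > 0, ∃ N0 : ℕ, ∀ N ≥ N0,
  ∑ p ∈ (opr (4 * N + B + 8)).filter (· ∈ S), Real.log p ≤ ε * N

open Classical in
/-- GRS, MEDIUM.  Growth for the exceptional primes.  USES SMA.

`LSJ p B J N = ∑_{l=1}^{L} (N/p^l + J)`, `L = log_p(4N+B)`.  The first part is at most
`N ∑_{l≥1} p^(-l) = N/(p-1) = N (1/p + 1/(p(p-1)))`; times `log p` and summed over `S` this is the
main term.  The second part is `J L log p`.  If `p² > 4N+B` then `L ≤ 1`: in total at most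
`J ∑_{p∈S, p≤H} log p ≤ ε N/2` for `N` large (SMA).  If `p² ≤ 4N + B`, `L log p ≤ log(4N+B)` and
there are at most `√(4N+B)` such `p`: `J √(4N+B) log(4N+B) ≤ ε N/2` for `N` large. -/
def StGRS : Prop := ∀ (S : Set ℕ) (B J : ℕ), SmallS S → ∀ ε > 0, ∃ N0 : ℕ, ∀ N ≥ N0,
  ∑ p ∈ (opr (4 * N + B + 8)).filter (· ∈ S), (LSJ p B J N : ℝ) * Real.log p ≤
    N * ∑ p ∈ (opr (4 * N + B + 8)).filter (· ∈ S),
      (Real.log p / p + Real.log p / (p * (p - 1))) + ε * N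

open Classical in
/-- GRG, MEDIUM.  Growth for the good primes.

`LGJ p B J N = ∑_{l=2}^{L} ((N+Jp)/p^l + J)`, `L = log_p(4(N+p)+B)`.  It is 0 unless
`p² ≤ 4(N+p)+B`, i.e. `p ≤ 2 + √(4N+B+4) =: P`.  For these `p`:
`∑_{l≥2} (N+Jp)/p^l = (N+Jp)/(p(p-1))` and the rest is `J (L-1) `, with
`L log p ≤ log(4(N+p)+B)`.  So the sum is at most
`N ∑ log p/(p(p-1)) + J ∑_{p≤P} log p/(p-1) + J ∑_{p≤P} log(4(N+P)+B)`, and the last two terms are
at most `J P log P + J P log(4(N+P)+B) ≤ ε N` for `N` large (`P ~ 2√N`). -/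
def StGRG : Prop := ∀ (S : Set ℕ) (B J : ℕ), ∀ ε > 0, ∃ N0 : ℕ, ∀ N ≥ N0,
  ∑ p ∈ (opr (4 * N + B + 8)).filter (· ∉ S), (LGJ p B J N : ℝ) * Real.log p ≤
    N * ∑ p ∈ (opr (4 * N + B + 8)).filter (· ∉ S), Real.log p / (p * (p - 1)) + ε * N

/-- KAP, MEDIUM.  The constant.  USES CHB (the true value of the infinite sum is 0.408793).

Upper bounds of `log p`: `log p ≤ (m/200) log 2` whenever `p^200 ≤ 2^m` (norm_num, for instance by
one `decide`/`norm_num` over a table), `log 2 < 0.6931471808`.  Tail beyond `P0` (for instance `P0 = 600`): with `θ(n) = ∑_{p≤n} log p ≤ n log 4`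
and partial summation, `∑_{P0<p≤x} log p/(p(p-1)) ≤ ∑_{n≥P0+1} θ(n) (1/(n(n-1)) - 1/((n+1)n)) +
(boundary term with θ(x)/(x(x-1)) absorbed) ≤ log 4 ∑_{n>P0} 2/((n-1)(n+1)) ≤ 2 log 4 / P0 · (1+small)`
(about 0.0046 for `P0 = 600`), and `∑_{p≤600} log p/(p(p-1)) = 0.4071`; total at most `0.4125`.
(Write `f n = log n` if `n` is an odd prime, else 0; the finite sum over an arbitrary finset of
primes is at most the sum over `opr x` for `x` large.) -/
def StKAP : Prop := ∀ x : ℕ, ∑ p ∈ opr x, Real.log p / (p * (p - 1)) ≤ 4145 / 10000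

/-- NUM, EASY.  `4 log 2 + 4 · 0.4145 + 4/50 = 4.51059 < 4.51196 = log 91.1`.

`91.1/16 = 5.69375`, so this is `exp(1.738) < 5.69375`; `exp(1.738) = 5.68596`.  (For instance
`exp(0.869)^2` with `Real.exp_bound` of order 10, or `Real.exp_one_lt_d9` and `exp(-0.262)`.) -/
def StNUM : Prop := 4 * Real.log 2 + 4 * (4145 / 10000 : ℝ) + 4 / 50 < Real.log (911 / 10)

/-- GRO, EASY-MEDIUM.  Growth of the common denominator.  USES GRS GRG KAP.

`log dJ = 4N log 2 + 4 ∑_{p∈S} LSJ log p + 4 ∑_{p∉S} LGJ log p` (odd primes `≤ 4N+B+8`; `log` of a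
product of positive numbers; `opr`).  By GRS and GRG (with `ε/8`) this is at most
`4N log 2 + 4N ∑_{all p} log p/(p(p-1)) + 4N ∑_{p∈S} log p/p + εN`, and the two sums are at most
`0.4145` (KAP) and `1/50` (`SmallS`). -/
def StGRO : Prop := ∀ (S : Set ℕ) (B J : ℕ), SmallS S → ∀ ε > 0, ∃ N0 : ℕ, ∀ N ≥ N0,
  Real.log (dJ S B J N) ≤ (4 * Real.log 2 + 4 * (4145 / 10000 : ℝ) + 4 / 50 + ε) * N

end Pool.Agent.Work.MP_5e5ff1_ag.TG
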