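import Mathlib
import Pool.Agent.Work.MP_5e5ff1_ag.TG.StmtsA

set_option autoImplicit false

/-!
# MP_5e5ff1_ag, block TG, item CHB: Chebyshev
-/

open Matrix Filter Topology
open scoped Polynomial

namespace Pool.Agent.Work.MP_5e5ff1_ag.TG

theorem pr_CHB : StCHB := by
  intro x
  have h1 := Chebyshev.theta_le_log4_mul_x (x := (x : ℝ)) (Nat.cast_nonneg x)
  rw [mul_comm] at h1
  refine le_trans ?_ h1
  rw [Chebyshev.theta, Nat.floor_natCast]
  refine Finset.sum_le_sum_of_subset_of_nonneg ?_ fun p hp _ => ?_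
  · intro p hp
    unfold opr at hp
    rw [Finset.mem_filter, Finset.mem_Icc] at hp
    rw [Finset.mem_filter, Finset.mem_Ioc]
    exact ⟨⟨by omega, hp.1.2⟩, hp.2⟩
  · exact Real.log_natCast_nonneg p

end Pool.Agent.Work.MP_5e5ff1_ag.TG
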