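import Mathlib
import Pool.Agent.Work.MP_5e5ff1_ag.TG.StmtsB

set_option autoImplicit false

/-!
# MP_5e5ff1_ag, block TG, item CNV: values of the powers of a power series near 0
-/

open Filter Topology
open scoped Polynomial

namespace Pool.Agent.Work.MP_5e5ff1_ag.TG

namespace ICNV

theorem summ (h1 : StPwr) (a : ℕ → ℚ) (A : ℝ) (hA : 1 ≤ A) (ha : ∀ n, |(a n : ℝ)| ≤ A ^ (n + 1))
    (t : ℂ) (ht : ‖t‖ < 1 / (2 * A)) (j : ℕ) : Summable (fun n : ℕ =>
      ‖((PowerSeries.coeff n ((PowerSeries.mk a) ^ j) : ℚ) : ℂ) * t ^ n‖) := by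
  have hA0 : 0 < 2 * A := by linarith
  have hr : 2 * A * ‖t‖ < 1 := by
    rw [lt_div_iff₀ hA0] at ht
    linarith
  have hr0 : 0 ≤ 2 * A * ‖t‖ := by positivity
  refine Summable.of_nonneg_of_le (fun n => norm_nonneg _) (fun n => ?_)
    ((summable_geometric_of_lt_one hr0 hr).mul_left ((2 * A) ^ j))
  have h2 := h1 a A hA ha j n
  rw [norm_mul, norm_pow]
  have h3 : ‖((PowerSeries.coeff n ((PowerSeries.mk a) ^ j) : ℚ) : ℂ)‖ =
      |((PowerSeries.coeff n ((PowerSeries.mk a) ^ j) : ℚ) : ℝ)| := by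
    rw [← Real.norm_eq_abs, ← Complex.norm_real, Complex.ofReal_ratCast]
  rw [h3]
  calc |((PowerSeries.coeff n ((PowerSeries.mk a) ^ j) : ℚ) : ℝ)| * ‖t‖ ^ n
      ≤ (2 * A) ^ (n + j) * ‖t‖ ^ n := mul_le_mul_of_nonneg_right h2 (by positivity)
    _ = (2 * A) ^ j * (2 * A * ‖t‖) ^ n := by
      rw [pow_add, mul_pow]
      ring

end ICNV

theorem pr_CNV (h1 : StPwr) : StCnv := by
  intro a A hA ha t ht j
  refine ⟨ICNV.summ h1 a A hA ha t ht j, ?_⟩
  induction j with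
  | zero =>
    rw [pow_zero, pow_zero, tsum_eq_single 0]
    · simp
    · intro n hn
      rw [PowerSeries.coeff_one, if_neg hn]
      simp
  | succ j ih =>
    have h2 := ICNV.summ h1 a A hA ha t ht j
    have h3 := ICNV.summ h1 a A hA ha t ht 1
    rw [pow_one] at h3
    simp only [PowerSeries.coeff_mk] at h3
    rw [pow_succ (∑' n : ℕ, (a n : ℂ) * t ^ n) j, ← ih,
      tsum_mul_tsum_eq_tsum_sum_antidiagonal_of_summable_norm h2 h3]
    refine tsum_congr fun n => ?_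
    rw [pow_succ (PowerSeries.mk a) j, PowerSeries.coeff_mul]
    push_cast
    rw [Finset.sum_mul]
    refine Finset.sum_congr rfl fun kl hkl => ?_
    rw [PowerSeries.coeff_mk, ← Finset.HasAntidiagonal.mem_antidiagonal.1 hkl, pow_add]
    ring

end Pool.Agent.Work.MP_5e5ff1_ag.TG
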