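import Mathlib
import Pool.Agent.Work.MP_5e5ff1_ag.TG.StmtsB

set_option autoImplicit false

/-!
# MP_5e5ff1_ag, block TG, item CVA
-/

open Filter Topology
open scoped Polynomial

namespace Pool.Agent.Work.MP_5e5ff1_ag.TG

namespace ICVA

/-- the terms of `X^i g` at `t` -/
theorem shift_term (g : PowerSeries ℚ) (t : ℂ) (i n : ℕ) :
    ((PowerSeries.coeff (n + i) ((PowerSeries.X : PowerSeries ℚ) ^ i * g) : ℚ) : ℂ) * t ^ (n + i) =
      t ^ i * (((PowerSeries.coeff n g : ℚ) : ℂ) * t ^ n) := by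
  rw [PowerSeries.coeff_X_pow_mul', if_pos (Nat.le_add_left i n), Nat.add_sub_cancel, pow_add]
  ring

theorem shift_zero (g : PowerSeries ℚ) (t : ℂ) (i n : ℕ) (hn : n ∉ Set.range fun m : ℕ => m + i) :
    ((PowerSeries.coeff n ((PowerSeries.X : PowerSeries ℚ) ^ i * g) : ℚ) : ℂ) * t ^ n = 0 := by
  have h : ¬ i ≤ n := fun h => hn ⟨n - i, Nat.sub_add_cancel h⟩
  rw [PowerSeries.coeff_X_pow_mul', if_neg h]
  simp

theorem shift_hasSum (g : PowerSeries ℚ) (t v : ℂ) (i : ℕ)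
    (h : HasSum (fun n : ℕ => ((PowerSeries.coeff n g : ℚ) : ℂ) * t ^ n) v) :
    HasSum (fun n : ℕ =>
      ((PowerSeries.coeff n ((PowerSeries.X : PowerSeries ℚ) ^ i * g) : ℚ) : ℂ) * t ^ n)
      (t ^ i * v) := by
  have hinj : Function.Injective fun m : ℕ => m + i := add_left_injective i
  refine (hinj.hasSum_iff fun n hn => shift_zero g t i n hn).mp ?_
  have h2 := h.mul_left (t ^ i)
  refine h2.congr_fun ?_
  intro n
  exact shift_term g t i n

theorem shift_summable (g : PowerSeries ℚ) (t : ℂ) (i : ℕ)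
    (h : Summable (fun n : ℕ => ‖((PowerSeries.coeff n g : ℚ) : ℂ) * t ^ n‖)) :
    Summable (fun n : ℕ =>
      ‖((PowerSeries.coeff n ((PowerSeries.X : PowerSeries ℚ) ^ i * g) : ℚ) : ℂ) * t ^ n‖) := by
  have hinj : Function.Injective fun m : ℕ => m + i := add_left_injective i
  refine (hinj.summable_iff fun n hn => by rw [shift_zero g t i n hn, norm_zero]).mp ?_
  have h2 := h.mul_left ‖t ^ i‖
  refine h2.congr ?_
  intro n
  show ‖t ^ i‖ * ‖((PowerSeries.coeff n g : ℚ) : ℂ) * t ^ n‖ =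
    ‖((PowerSeries.coeff (n + i) ((PowerSeries.X : PowerSeries ℚ) ^ i * g) : ℚ) : ℂ) *
      t ^ (n + i)‖
  rw [shift_term g t i n, norm_mul (t ^ i)]

theorem coeff_aux (a : ℕ → ℚ) (J X : ℕ) (q : ℕ → ℕ → ℤ) (t : ℂ) (n : ℕ) :
    ((PowerSeries.coeff n (aux a J X q) : ℚ) : ℂ) * t ^ n =
      ∑ j ∈ Finset.range J, ∑ i ∈ Finset.range X, (q j i : ℂ) *
        (((PowerSeries.coeff n
          ((PowerSeries.X : PowerSeries ℚ) ^ i * (PowerSeries.mk a) ^ j) : ℚ) : ℂ) * t ^ n) := by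
  rw [aux, map_sum]
  push_cast
  rw [Finset.sum_mul]
  refine Finset.sum_congr rfl fun j _ => ?_
  rw [map_sum]
  push_cast
  rw [Finset.sum_mul]
  refine Finset.sum_congr rfl fun i _ => ?_
  rw [PowerSeries.coeff_C_mul]
  push_cast
  ring

end ICVA

theorem pr_CVA (h1 : StCnv) : StCva := by
  intro a A hA ha t ht J X q
  have hs : ∀ j i : ℕ, Summable (fun n : ℕ => ‖((PowerSeries.coeff n
      ((PowerSeries.X : PowerSeries ℚ) ^ i * (PowerSeries.mk a) ^ j) : ℚ) : ℂ) * t ^ n‖) :=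
    fun j i => ICVA.shift_summable _ t i (h1 a A hA ha t ht j).1
  have hh : ∀ j i : ℕ, HasSum (fun n : ℕ => ((PowerSeries.coeff n
      ((PowerSeries.X : PowerSeries ℚ) ^ i * (PowerSeries.mk a) ^ j) : ℚ) : ℂ) * t ^ n)
      (t ^ i * (∑' n : ℕ, (a n : ℂ) * t ^ n) ^ j) := by
    intro j i
    refine ICVA.shift_hasSum _ t _ i ?_
    have h := h1 a A hA ha t ht j
    rw [← h.2]
    exact h.1.of_norm.hasSum
  constructor
  · refine Summable.of_nonneg_of_le (fun n => norm_nonneg _)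
      (g := fun n => ‖((PowerSeries.coeff n (aux a J X q) : ℚ) : ℂ) * t ^ n‖)
      (f := fun n => ∑ j ∈ Finset.range J, ∑ i ∈ Finset.range X, ‖(q j i : ℂ)‖ *
        ‖((PowerSeries.coeff n
          ((PowerSeries.X : PowerSeries ℚ) ^ i * (PowerSeries.mk a) ^ j) : ℚ) : ℂ) * t ^ n‖)
      (fun n => ?_) ?_
    · rw [ICVA.coeff_aux]
      refine (norm_sum_le _ _).trans (Finset.sum_le_sum fun j _ => ?_)
      refine (norm_sum_le _ _).trans (Finset.sum_le_sum fun i _ => ?_)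
      rw [norm_mul]
    · exact summable_sum fun j _ => summable_sum fun i _ => (hs j i).mul_left _
  · refine HasSum.tsum_eq ?_
    have h2 : HasSum (fun n : ℕ => ∑ j ∈ Finset.range J, ∑ i ∈ Finset.range X, (q j i : ℂ) *
        (((PowerSeries.coeff n
          ((PowerSeries.X : PowerSeries ℚ) ^ i * (PowerSeries.mk a) ^ j) : ℚ) : ℂ) * t ^ n))
        (∑ j ∈ Finset.range J, ∑ i ∈ Finset.range X,
          (q j i : ℂ) * (t ^ i * (∑' n : ℕ, (a n : ℂ) * t ^ n) ^ j)) :=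
      hasSum_sum fun j _ => hasSum_sum fun i _ => (hh j i).mul_left _
    refine h2.congr_fun ?_
    intro n
    exact ICVA.coeff_aux a J X q t n

end Pool.Agent.Work.MP_5e5ff1_ag.TG
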