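import Mathlib
import Pool.Agent.Work.MP_5e5ff1_ag.TG.StmtsB

set_option autoImplicit false

/-!
# MP_5e5ff1_ag, block TG, item END: the choice of the parameters
-/

open Filter Topology
open scoped Polynomial

namespace Pool.Agent.Work.MP_5e5ff1_ag.TG

namespace IEND

/-- logarithms grow slowly -/
theorem ev_log (L K η : ℝ) (hL : 0 < L) (hη : 0 < η) :
    ∀ᶠ T : ℕ in atTop, K + 2 * Real.log (L * T + 1) < 4 * η * T := by
  have h1 : ∀ᶠ x : ℝ in atTop, ‖Real.log x‖ ≤ η / (2 * L) * ‖x‖ :=
    Real.isLittleO_log_id_atTop.def (by positivity)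
  have h2 : Tendsto (fun T : ℕ => L * (T : ℝ) + 1) atTop atTop :=
    tendsto_atTop_add_const_right _ _ (tendsto_natCast_atTop_atTop.const_mul_atTop hL)
  have h3 : ∀ᶠ T : ℕ in atTop, (K + η / L + 1) / (3 * η) ≤ (T : ℝ) :=
    tendsto_natCast_atTop_atTop.eventually_ge_atTop _
  filter_upwards [h2.eventually h1, h3] with T h4 h5
  have h6 : 0 < L * (T : ℝ) + 1 := by positivity
  have h7 : Real.log (L * T + 1) ≤ η / (2 * L) * (L * T + 1) := by
    have := le_trans (Real.le_norm_self _) h4
    rwa [Real.norm_of_nonneg h6.le] at this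
  have h8 : η / (2 * L) * (L * T + 1) = η * T / 2 + η / L / 2 := by
    field_simp
  have h9 : K + η / L + 1 ≤ T * (3 * η) := by
    rwa [div_le_iff₀ (by positivity)] at h5
  rw [h8] at h7
  linarith

/-- the left side as an exponential -/
theorem lhs_le {J L T X : ℕ} {s η A C : ℝ} (hJ : 1 ≤ J) (hL : 2 ≤ L) (hs : 0 ≤ s) (hη : 0 < η)
    (hA : 1 ≤ A) (hC : 1 ≤ C) (hX0 : 1 ≤ X) (hX : X ≤ L * T + 1)
    (hX2 : (X : ℝ) ≤ L * T / J + 1) (h1 : s + η + Real.log (2 * A) ≤ η * ((L : ℝ) - 1))
    (h2 : L * Real.log C ≤ η * J) :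
    (J : ℝ) * (X : ℝ) *
      ((J : ℝ) * (L * T + 1) * Real.exp ((s + η) * T) * (2 * A) ^ (T + J)) ^ (1 / ((L : ℝ) - 1)) *
      C ^ (X + J) ≤ Real.exp (2 * Real.log J + J * Real.log (2 * A) + (1 + J) * Real.log C
        + 2 * Real.log (L * T + 1) + 2 * η * T) := by
  have hJr : (1 : ℝ) ≤ J := by exact_mod_cast hJ
  have hLr : (2 : ℝ) ≤ L := by exact_mod_cast hL
  have hJ0 : (0 : ℝ) < J := by linarith
  have hT0 : (0 : ℝ) ≤ T := Nat.cast_nonneg T
  have hLT : (1 : ℝ) ≤ L * T + 1 := by
    have : (0 : ℝ) ≤ L * T := by positivity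
    linarith
  have h2A : (1 : ℝ) ≤ 2 * A := by linarith
  have hlA : 0 ≤ Real.log (2 * A) := Real.log_nonneg h2A
  have hlC : 0 ≤ Real.log C := Real.log_nonneg hC
  have hlJ : 0 ≤ Real.log J := Real.log_nonneg hJr
  have hlT : 0 ≤ Real.log (L * T + 1) := Real.log_nonneg hLT
  have hX0r : (0 : ℝ) < X := by exact_mod_cast hX0
  have hXr : (X : ℝ) ≤ L * T + 1 := by exact_mod_cast hX
  have hL1 : 0 < (L : ℝ) - 1 := by linarith
  have e1 : (J : ℝ) = Real.exp (Real.log J) := (Real.exp_log hJ0).symm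
  have e2 : (X : ℝ) ≤ Real.exp (Real.log (L * T + 1)) := by
    rw [Real.exp_log (by linarith)]
    exact hXr
  have e3 : (J : ℝ) * (L * T + 1) * Real.exp ((s + η) * T) * (2 * A) ^ (T + J) =
      Real.exp (Real.log J + Real.log (L * T + 1) + (s + η) * T + (T + J) * Real.log (2 * A)) := by
    rw [Real.exp_add, Real.exp_add, Real.exp_add, Real.exp_log hJ0, Real.exp_log (by linarith)]
    congr 1
    have : ((T : ℝ) + J) * Real.log (2 * A) = ((T + J : ℕ) : ℝ) * Real.log (2 * A) := by
      push_cast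
      ring
    rw [this, Real.exp_nat_mul, Real.exp_log (by linarith)]
  have e4 : C ^ (X + J) = Real.exp (((X : ℝ) + J) * Real.log C) := by
    have : ((X : ℝ) + J) * Real.log C = ((X + J : ℕ) : ℝ) * Real.log C := by
      push_cast
      ring
    rw [this, Real.exp_nat_mul, Real.exp_log (by linarith)]
  rw [e3, ← Real.exp_mul, e4]
  calc (J : ℝ) * (X : ℝ) * Real.exp ((Real.log J + Real.log (L * T + 1) + (s + η) * T
        + (T + J) * Real.log (2 * A)) * (1 / ((L : ℝ) - 1))) * Real.exp (((X : ℝ) + J) * Real.log C)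
      ≤ Real.exp (Real.log J) * Real.exp (Real.log (L * T + 1)) *
        Real.exp ((Real.log J + Real.log (L * T + 1) + (s + η) * T
        + (T + J) * Real.log (2 * A)) * (1 / ((L : ℝ) - 1))) *
          Real.exp (((X : ℝ) + J) * Real.log C) := by
        gcongr
        exact e1.le
    _ = Real.exp (Real.log J + Real.log (L * T + 1) + (Real.log J + Real.log (L * T + 1)
        + (s + η) * T + (T + J) * Real.log (2 * A)) * (1 / ((L : ℝ) - 1))
        + ((X : ℝ) + J) * Real.log C) := by
        rw [Real.exp_add, Real.exp_add, Real.exp_add]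
    _ ≤ _ := by
        apply Real.exp_le_exp.2
        have hi : 1 / ((L : ℝ) - 1) ≤ 1 := by
          rw [div_le_one hL1]
          linarith
        have hi0 : 0 ≤ 1 / ((L : ℝ) - 1) := by positivity
        have k1 : (Real.log J + Real.log (L * T + 1) + J * Real.log (2 * A)) *
            (1 / ((L : ℝ) - 1)) ≤ Real.log J + Real.log (L * T + 1) + J * Real.log (2 * A) :=
          mul_le_of_le_one_right (by positivity) hi
        have k2 : ((s + η + Real.log (2 * A)) * T) * (1 / ((L : ℝ) - 1)) ≤ η * T := by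
          rw [mul_one_div, div_le_iff₀ hL1]
          calc (s + η + Real.log (2 * A)) * T ≤ (η * ((L : ℝ) - 1)) * T :=
                mul_le_mul_of_nonneg_right h1 hT0
            _ = η * T * ((L : ℝ) - 1) := by ring
        have k3 : ((X : ℝ) + J) * Real.log C ≤ η * T + (1 + J) * Real.log C := by
          have k4 : ((X : ℝ) + J) * Real.log C ≤ (L * T / J + 1 + J) * Real.log C :=
            mul_le_mul_of_nonneg_right (by linarith) hlC
          have k5 : L * T / J * Real.log C ≤ η * T := by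
            rw [div_mul_eq_mul_div, div_le_iff₀ hJ0]
            calc L * T * Real.log C = L * Real.log C * T := by ring
              _ ≤ η * J * T := mul_le_mul_of_nonneg_right h2 hT0
              _ = η * T * J := by ring
          calc ((X : ℝ) + J) * Real.log C ≤ (L * T / J + 1 + J) * Real.log C := k4
            _ = L * T / J * Real.log C + (1 + J) * Real.log C := by ring
            _ ≤ _ := by linarith
        have k6 : (Real.log J + Real.log (L * T + 1)
            + (s + η) * T + (T + J) * Real.log (2 * A)) * (1 / ((L : ℝ) - 1)) =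
            (Real.log J + Real.log (L * T + 1) + J * Real.log (2 * A)) * (1 / ((L : ℝ) - 1)) +
            ((s + η + Real.log (2 * A)) * T) * (1 / ((L : ℝ) - 1)) := by ring
        rw [k6]
        linarith

end IEND

open IEND in
theorem pr_END : StEnd := by
  intro s g A hs hg hsg hA
  obtain ⟨η, hη⟩ : ∃ η : ℝ, η = (4 * Real.log g - s) / 8 := ⟨_, rfl⟩
  have hη0 : 0 < η := by
    rw [hη]
    linarith
  refine ⟨η, Real.exp (-(η / 4)), hη0, Real.exp_pos _, ?_, ?_⟩
  · rw [Real.exp_lt_one_iff]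
    linarith
  intro C hC
  obtain ⟨L, hL⟩ := exists_nat_ge ((s + η + Real.log (2 * A)) / η + 2)
  obtain ⟨J, hJ⟩ := exists_nat_ge (L * Real.log C / η + 1)
  have h2A : (1 : ℝ) ≤ 2 * A := by linarith
  have hlA : 0 ≤ Real.log (2 * A) := Real.log_nonneg h2A
  have hlC : 0 ≤ Real.log C := Real.log_nonneg hC
  have hL2 : 2 ≤ L := by
    have : (0 : ℝ) ≤ (s + η + Real.log (2 * A)) / η := by positivity
    have : (2 : ℝ) ≤ L := by linarith
    exact_mod_cast this
  have hJ1 : 1 ≤ J := by
    have : (0 : ℝ) ≤ L * Real.log C / η := by positivity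
    have : (1 : ℝ) ≤ J := by linarith
    exact_mod_cast this
  have hLr : (0 : ℝ) < L := by
    have : (2 : ℝ) ≤ L := by exact_mod_cast hL2
    linarith
  have h1 : s + η + Real.log (2 * A) ≤ η * ((L : ℝ) - 1) := by
    have h3 : (s + η + Real.log (2 * A)) / η ≤ (L : ℝ) - 1 := by linarith
    rw [div_le_iff₀ hη0] at h3
    linarith
  have h2 : L * Real.log C ≤ η * J := by
    have h3 : L * Real.log C / η ≤ (J : ℝ) := by linarith
    rw [div_le_iff₀ hη0] at h3
    linarith
  obtain ⟨T1, hT1⟩ := eventually_atTop.1 (ev_log L (2 * Real.log J + J * Real.log (2 * A)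
    + (1 + J) * Real.log C) η hLr hη0)
  refine ⟨L, J, hL2, hJ1, T1, fun T hT T' hT' => ?_⟩
  have hJ0 : (0 : ℝ) < J := by exact_mod_cast hJ1
  have hX : L * T / J + 1 ≤ L * T + 1 := Nat.succ_le_succ (Nat.div_le_self _ _)
  have hX2 : ((L * T / J + 1 : ℕ) : ℝ) ≤ L * T / J + 1 := by
    push_cast
    have : (((L * T / J : ℕ)) : ℝ) ≤ ((L * T : ℕ) : ℝ) / J := Nat.cast_div_le
    push_cast at this
    linarith
  refine lt_of_le_of_lt (lhs_le hJ1 hL2 hs hη0 hA hC (Nat.succ_pos _) hX hX2 h1 h2) ?_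
  have hr : Real.exp (-((s + η) * T')) * (g * Real.exp (-(η / 4))) ^ (4 * T') =
      Real.exp (6 * η * T') := by
    have hg0 : 0 < g := by linarith
    have e1 : g * Real.exp (-(η / 4)) = Real.exp (Real.log g - η / 4) := by
      rw [sub_eq_add_neg, Real.exp_add, Real.exp_log hg0]
    rw [e1, ← Real.exp_nat_mul, ← Real.exp_add]
    congr 1
    push_cast
    have : Real.log g = (8 * η + s) / 4 := by
      rw [hη]
      ring
    rw [this]
    ring
  rw [hr]
  apply Real.exp_lt_exp.2
  have h5 := hT1 T hT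
  have h6 : (T : ℝ) ≤ T' := by exact_mod_cast hT'
  have h7 : η * T ≤ η * T' := mul_le_mul_of_nonneg_left h6 hη0.le
  linarith

end Pool.Agent.Work.MP_5e5ff1_ag.TG
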