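import Mathlib
import Pool.Agent.Work.MP_5e5ff1_ag.TG.StmtsB

set_option autoImplicit false

/-!
Item FAC of the block TG (helper22): the first nonzero coefficient.
-/

open Matrix Filter Topology
open scoped Polynomial

namespace Pool.Agent.Work.MP_5e5ff1_ag.TG

theorem pr_FAC : StFac := by
  intro b K B m hB hb hm
  have hK : 0 ≤ K := by
    have h := hb 0
    rw [pow_zero, mul_one] at h
    exact (norm_nonneg _).trans h
  have hr : 0 < 1 / (2 * B) := by positivity
  have hbd : ∀ (n : ℕ) (t : ℂ), t ∈ Metric.ball (0 : ℂ) (1 / (2 * B)) →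
      ‖b (n + m) * t ^ n‖ ≤ K * B ^ m * (1 / 2) ^ n := by
    intro n t ht
    rw [mem_ball_zero_iff] at ht
    rw [norm_mul, norm_pow]
    have h1 : B * ‖t‖ ≤ 1 / 2 := by
      have h2 : B * ‖t‖ ≤ B * (1 / (2 * B)) := mul_le_mul_of_nonneg_left ht.le hB.le
      have h3 : B * (1 / (2 * B)) = 1 / 2 := by field_simp
      linarith
    calc ‖b (n + m)‖ * ‖t‖ ^ n ≤ (K * B ^ (n + m)) * ‖t‖ ^ n :=
          mul_le_mul_of_nonneg_right (hb _) (by positivity)
      _ = K * B ^ m * (B * ‖t‖) ^ n := by rw [pow_add, mul_pow]; ring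
      _ ≤ K * B ^ m * (1 / 2) ^ n := by
          refine mul_le_mul_of_nonneg_left ?_ (by positivity)
          exact pow_le_pow_left₀ (by positivity) h1 n
  have hsum : Summable (fun n : ℕ => K * B ^ m * (1 / 2 : ℝ) ^ n) :=
    (summable_geometric_of_lt_one (by norm_num) (by norm_num)).mul_left _
  refine ⟨fun t => ∑' n : ℕ, b (n + m) * t ^ n, ?_, ?_, ?_⟩
  · have hd : DifferentiableOn ℂ (fun t : ℂ => ∑' n : ℕ, b (n + m) * t ^ n)
        (Metric.ball (0 : ℂ) (1 / (2 * B))) := by
      refine Complex.differentiableOn_tsum_of_summable_norm hsum ?_ Metric.isOpen_ball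
        (fun n t ht => hbd n t ht)
      intro n
      exact ((differentiable_const _).mul (differentiable_id.pow n)).differentiableOn
    exact hd.analyticAt (Metric.ball_mem_nhds _ hr)
  · change ∑' n : ℕ, b (n + m) * (0 : ℂ) ^ n = b m
    rw [tsum_eq_single 0]
    · rw [pow_zero, mul_one, zero_add]
    · intro n hn
      rw [zero_pow hn, mul_zero]
  · filter_upwards [Metric.ball_mem_nhds (0 : ℂ) hr] with t ht
    have hs1 : Summable (fun n : ℕ => b (n + m) * t ^ n) :=
      Summable.of_norm_bounded hsum (fun n => hbd n t ht)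
    have hs2 : Summable (fun n : ℕ => b (n + m) * t ^ (n + m)) := by
      have h := hs1.mul_left (t ^ m)
      refine h.congr fun n => ?_
      rw [pow_add]
      ring
    have hs3 : Summable (fun n : ℕ => b n * t ^ n) := by
      rw [← summable_nat_add_iff m]
      exact hs2
    rw [← hs3.sum_add_tsum_nat_add m]
    have h0 : ∑ i ∈ Finset.range m, b i * t ^ i = 0 := by
      refine Finset.sum_eq_zero fun i hi => ?_
      rw [hm i (Finset.mem_range.mp hi), zero_mul]
    rw [h0, zero_add, ← tsum_mul_left]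
    refine tsum_congr fun n => ?_
    rw [pow_add]
    ring

end Pool.Agent.Work.MP_5e5ff1_ag.TG
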