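import Mathlib
import Pool.Agent.Work.MP_5e5ff1_ag.TG.StmtsA

set_option autoImplicit false

/-!
# MP_5e5ff1_ag, block TG, part D: no logarithms at 1, local solutions, continuation

Every docstring is the complete proof.  USES lists the statements which the item may take as
hypotheses `(h : StX)`.  Captain helper18, co-captain helper45.
-/

open Matrix Filter Topology
open scoped Polynomial

namespace Pool.Agent.Work.MP_5e5ff1_ag.TG

/-- rational version of an integral matrix -/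
abbrev qm {ι : Type} (C : Matrix ι ι ℤ) : Matrix ι ι ℚ := C.map (Int.castRingHom ℚ)

/-- `(8x∇ - lam) w` at the point `t = 1` -/
noncomputable def L1 {ι : Type} [Fintype ι] [DecidableEq ι] {R : Type} [CommRing R] (β : ι → ℤ)
    (C : Matrix ι ι R) (lam : ℤ) (w : ℕ → ι → R) : ℕ → ι → R :=
  fun m i => D1 β C w m i - (lam : R) * w m i

/-- ITR1, MEDIUM (twin of ITR).  For `P_k = ∏_{a<k} (D1 - 8a) (cst v)`, `(1+X)^k P_k = Q_k(1+X) v`.

Induction on `k`.  For every sequence `g`, `(1+X) mk(D1 g) i = 8X(1+X) g_i' - (1+X) ∑_j C i j g_j -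
2 β_i X g_i`, because `mk (n ↦ ∑_{k<n} (-1)^(n-1-k) a k) (1+X) = X mk a`.  With `Q = (1+X)^k P_k`:
`8X(1+X) Q' = 8kX Q + (1+X)^k 8X(1+X) P'`.  Hence
`(1+X)^(k+1) mk((D1-8k)P) = 8X(1+X)Q' - 8k(2X+1)Q - (X dia + (1+X) C) Q`, which is the recursion of
`Qi` with `X` replaced by `X + 1` (`Polynomial.derivative_comp`: the derivative of
`q.comp (X+1)` is `q'.comp (X+1)`), applied to the constant vector `v`. -/
def StITR1 : Prop := ∀ (R : Type) [CommRing R] (ι : Type) [Fintype ι] [DecidableEq ι]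
  (β : ι → ℤ) (C : Matrix ι ι R) (v : ι → R) (k : ℕ) (i : ι),
  (PowerSeries.X + 1 : PowerSeries R) ^ k * PowerSeries.mk (fun n =>
    Polynomial.aeval (D1 β C) (∏ a ∈ Finset.range k, (Polynomial.X - Polynomial.C (8 * (a : R))))
      (cst v) n i) =
  ∑ j, (((Qi (dia R β) C k i j).comp (Polynomial.X + 1) : R[X]) : PowerSeries R) *
    PowerSeries.C (v j)

/-- PC1, MEDIUM (twin of PCU).  `D1^p = D1` modulo `p`.  USES ITR1 WIL.

By ITR1 (`k = p`) and `PZ`, `(1+X)^p mk(P_p i) = 0`, `1+X` is a unit, so `P_p = 0`, and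
`P_p = (D1^p - D1)(cst v)` by WIL (`a = 0`).  `D1 (shf 1 v) = shf 1 ((D1 + 8) v)`, so
`L = D1^p - D1` satisfies `L (shf 1 v) = shf 1 (L v)` (characteristic `p`), `L` kills all
`shf k (cst v)`; `L` is lower triangular and `v` agrees in degrees `≤ n` with
`∑_{k≤n} shf k (cst (v k))`; so `L v = 0`. -/
def StPC1 : Prop := ∀ (p : ℕ) [Fact p.Prime], p ≠ 2 → ∀ (ι : Type) [Fintype ι] [DecidableEq ι]
  (β : ι → ℤ) (C : Matrix ι ι ℤ), PZ β C p → ∀ v : ℕ → ι → ZMod p,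
  ((D1 β (C.map (Int.castRingHom (ZMod p)))) ^ p) v = D1 β (C.map (Int.castRingHom (ZMod p))) v

/-- INF, EASY.  There are arbitrarily large good primes.

Otherwise all primes `> N` lie in `S`, so by `SmallS` all finite sums of `log p / p ≥ 1 / p`
(`p ≥ 3`) over primes `> N` are at most `1/50`, and `∑ 1/p` over the primes would be summable,
contradiction (`Nat.Primes.not_summable_one_div`, `Theorems100.…` / Mathlib
`Mathlib/NumberTheory/SumPrimeReciprocals.lean`). -/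
def StINF : Prop := ∀ S : Set ℕ, SmallS S → ∀ N : ℕ, ∃ p : ℕ, N < p ∧ p.Prime ∧ p ∉ S

/-- SEM, MEDIUM.  Semisimplicity at 1.  USES PC1 INF.

`D1` is lower triangular (`(D1 w) m` depends on `w 0, ..., w m`), so replace `w` by its truncation
(0 in degrees `> n`); then some multiple `N w`, `N > 0`, is integral (finitely many
denominators), so assume `w` is the cast of `w' : ℕ → ι → ℤ`.  `u' = L1 β C lam w'` (over `ℤ`; base
change: the cast of `D1 w'` is `D1` of the cast) and `L1 β C lam u' = 0` in degrees `≤ n`.  Let `p`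
be an odd prime not in `S`; modulo `p`: `D1 w = lam w + u`, `D1 u = lam u` in degrees `≤ n`, so by
induction `D1^k w = lam^k w + k lam^(k-1) u` in degrees `≤ n`; `k = p`: `D1^p w = lam^p w = lam w`
(Fermat), and `D1^p w = D1 w = lam w + u` (PC1).  So `u = 0` mod `p` in degrees `≤ n`.  This holds
for arbitrarily large `p` (INF with `N = max`), so `u' = 0` in degrees `≤ n`. -/
def StSEM : Prop := ∀ (ι : Type) [Fintype ι] [DecidableEq ι] (β : ι → ℤ) (C : Matrix ι ι ℤ)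
  (S : Set ℕ), Sys β C S → ∀ (w : ℕ → ι → ℚ) (lam : ℤ) (n : ℕ),
  (∀ m ≤ n, ∀ i, L1 β (qm C) lam (L1 β (qm C) lam w) m i = 0) →
  ∀ m ≤ n, ∀ i, L1 β (qm C) lam w m i = 0

/-- DIAL, MEDIUM (linear algebra).  A rational matrix with integral eigenvalues in `4ℤ` which is
semisimple has an eigenbasis.

Let `c` run over the distinct values of `4 γ_j`.  First: for every `v`, `∏_c (C - c) v = 0`: start
with `∏_j (C - 4γ_j) v = 0` and remove repeated factors one after the other by the second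
hypothesis (the factors commute; induction on `m`).  Then Lagrange interpolation:
`v = ∑_c ℓ_c(C) v` with `ℓ_c = ∏_{c'≠c} (X - c')/(c - c')` (`∑_c ℓ_c = 1`), and
`(C - c) ℓ_c(C) v = 0`.  So the eigenvectors (for eigenvalues `4γ_j`) span `ι → ℚ`; choose a basis
among them (`exists_linearIndependent`, or `Submodule.…exists_basis` from a spanning set), indexed
by `ι` since the dimension is `card ι`; `V` = matrix of the columns.  (If `ι` is empty: trivial.) -/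
def StDIAL : Prop := ∀ (ι : Type) [Fintype ι] [DecidableEq ι] (C : Matrix ι ι ℚ) (m : ℕ)
  (γ : Fin m → ℤ),
  Polynomial.aeval C (∏ j, (Polynomial.X - Polynomial.C (4 * (γ j : ℚ)))) = 0 →
  (∀ (c : ℤ) (v : ι → ℚ), (C - (c : ℚ) • (1 : Matrix ι ι ℚ)) *ᵥ
      ((C - (c : ℚ) • (1 : Matrix ι ι ℚ)) *ᵥ v) = 0 →
    (C - (c : ℚ) • (1 : Matrix ι ι ℚ)) *ᵥ v = 0) →
  ∃ (γ' : ι → ℤ) (V : Matrix ι ι ℚ), V.det ≠ 0 ∧
    C * V = V * Matrix.diagonal fun j => 4 * (γ' j : ℚ)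

/-- DIA, EASY.  The residue at 1 is diagonalizable.  USES SEM DIAL.

`L1 β C lam (cst v) 0 = -C v - lam v`, so SEM with `n = 0`, `lam = -c`, `w = cst v` is the second
hypothesis of DIAL; the first is `Sys.hC` mapped to `ℚ`. -/
def StDIA : Prop := ∀ (ι : Type) [Fintype ι] [DecidableEq ι] (β : ι → ℤ) (C : Matrix ι ι ℤ)
  (S : Set ℕ), Sys β C S → ∃ (γ : ι → ℤ) (V : Matrix ι ι ℚ), V.det ≠ 0 ∧
    qm C * V = V * Matrix.diagonal fun j => 4 * (γ j : ℚ)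

/-- EXT, EASY-MEDIUM.  The extension step.  USES SEM DIA.

Let `g0 = update g n 0`, `r i = L1 (-4γ) g0 n i`, `A` the matrix `8n + 4γ - C`.  Then
`L1 (-4γ) (update g n h) n = r + A h` and the values in degrees `< n` are unchanged (0).  By DIA
`C = V diag V⁻¹`, so `A = V diag(8n + 4γ - 4γ_j) V⁻¹` and `r = r' + r''` with `A r' = 0`,
`r'' = A y` (in the basis of the columns of `V`: split the coordinates into those with eigenvalue
0 and the others).  `w = update g n (-y)`: `L1 w` is 0 in degrees `< n` and `r'` in degree `n`;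
`L1 (L1 w)` is 0 in degrees `< n` and `A r' = 0` in degree `n`.  SEM (`lam = -4γ`): `r' = 0`.  So
`h = -y` works. -/
def StEXT : Prop := ∀ (ι : Type) [Fintype ι] [DecidableEq ι] (β : ι → ℤ) (C : Matrix ι ι ℤ)
  (S : Set ℕ), Sys β C S → ∀ (g : ℕ → ι → ℚ) (γ : ℤ) (n : ℕ),
  (∀ m < n, ∀ i, L1 β (qm C) (-(4 * γ)) g m i = 0) →
  ∃ h : ι → ℚ, ∀ m ≤ n, ∀ i, L1 β (qm C) (-(4 * γ)) (Function.update g n h) m i = 0

/-- GEX, EASY-MEDIUM.  The formal solution at 1 without logarithms.  USES DIA EXT.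

`γ`, `V` from DIA.  Column `j`: start with `G_0 = cst (V · j)`: in degree 0
`L1 (-4γ_j) (cst v) 0 = -C v + 4γ_j v = 0`.  Recursively `G_{n+1} = update G_n (n+1) h` with `h`
from EXT; `g n = G_n n`.  Then `L1 (-4γ_j) g n` depends on `g 0..g n`, which agree with `G_n`, so it
is 0 for all `n`: this is the equation of `IsG`; `G 0 = V`. -/
def StGEX : Prop := ∀ (ι : Type) [Fintype ι] [DecidableEq ι] (β : ι → ℤ) (C : Matrix ι ι ℤ)
  (S : Set ℕ), Sys β C S → ∃ (γ : ι → ℤ) (G : ℕ → Matrix ι ι ℚ), IsG β C γ G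

/-- MAJ, EASY.  Exponential growth.

`A = max(2, 2c, x 0, ..., x n0)`.  Strong induction: for `n < n0`: `x n ≤ A ≤ A^(n+1)`.  For
`n ≥ n0`: `x n ≤ c ∑_{k<n} A^(k+1) = c A (A^n - 1)/(A - 1) ≤ 2 c A^n ≤ A^(n+1)`. -/
def StMAJ : Prop := ∀ (x : ℕ → ℝ) (c : ℝ) (n0 : ℕ), 0 ≤ c → (∀ n, 0 ≤ x n) →
  (∀ n ≥ n0, x n ≤ c * ∑ k ∈ Finset.range n, x k) → ∃ A : ℝ, 1 ≤ A ∧ ∀ n, x n ≤ A ^ (n + 1)

/-- UCV, EASY.  `U` has a positive radius of convergence.  USES MAJ.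

`x n = ∑_{i,j} |U n i j|`.  For `n ≥ n0 = max |β_j - β_i| + 1`: `|8n + 2(β_j - β_i)| ≥ 1`, so
`|U n i j| ≤ ∑_{k<n} |(C U_k) i j| ≤ c' ∑_{k<n} x k` with `c' = ∑ |C i l|`, and
`x n ≤ (card ι)^2 c' ∑_{k<n} x k`. -/
def StUCV : Prop := ∀ (ι : Type) [Fintype ι] [DecidableEq ι] (β : ι → ℤ) (C : Matrix ι ι ℤ)
  (U : ℕ → Matrix ι ι ℚ), IsU β (qm C) U → ∃ A : ℝ, 1 ≤ A ∧ ∀ n i j, |(U n i j : ℝ)| ≤ A ^ (n + 1)

/-- GCV, EASY-MEDIUM.  `G` has a positive radius of convergence.  USES MAJ.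

Column `j`: `(8n + 4γ_j) G_n - C G_n = 2β ∑_{k<n} ± G_k`.  With `y n = ∑_i |G n i j|`,
`(8n - 4|γ_j| - c') y n ≤ 2 b ∑_{k<n} y k` where `c' = ∑ |C i l|`, `b = ∑ |β_i|`; for `n ≥ n0` the
first factor is `≥ 1`.  MAJ for each `j`, then the maximum of the finitely many `A`. -/
def StGCV : Prop := ∀ (ι : Type) [Fintype ι] [DecidableEq ι] (β : ι → ℤ) (C : Matrix ι ι ℤ)
  (γ : ι → ℤ) (G : ℕ → Matrix ι ι ℚ), IsG β C γ G →
  ∃ A : ℝ, 1 ≤ A ∧ ∀ n i j, |(G n i j : ℝ)| ≤ A ^ (n + 1)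

/-- UAN, MEDIUM.  The analytic solution near `t = 0`.

`ρ = 1/(2A)` or smaller: the series converge, are differentiable with the derivative term by term
(`PowerSeries`/`FormalMultilinearSeries`, or `hasSum` + `hasDerivAt_tsum`), `u 0 = 1` so
`det (u t) ≠ 0` for `|t| < ρ` after shrinking `ρ` (continuity).  The coefficient of `t^n` in the
expression is `E_n - E_{n-1}` with `E_n = (8n + 2(β_j - β_i)) U_n + ∑_{k<n} C U_k = 0` (`IsU.eqn`);
(`8t u'` has coefficients `8n U_n`, `-8t² u'` has `-8(n-1) U_{n-1}`, `t C u` has `C U_{n-1}`). -/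
def StUAN : Prop := ∀ (ι : Type) [Fintype ι] [DecidableEq ι] (β : ι → ℤ) (C : Matrix ι ι ℤ)
  (U : ℕ → Matrix ι ι ℚ), IsU β (qm C) U → (∃ A : ℝ, ∀ n i j, |(U n i j : ℝ)| ≤ A ^ (n + 1)) →
  ∃ (ρ : ℝ) (u : ℂ → Matrix ι ι ℂ), 0 < ρ ∧
    (∀ t ∈ Metric.ball (0 : ℂ) ρ, ∀ i j, HasSum (fun n : ℕ => (U n i j : ℂ) * t ^ n) (u t i j)) ∧
    (∀ i j, DifferentiableOn ℂ (fun t => u t i j) (Metric.ball 0 ρ)) ∧
    (∀ t ∈ Metric.ball (0 : ℂ) ρ, (u t).det ≠ 0) ∧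
    ∀ t ∈ Metric.ball (0 : ℂ) ρ, ∀ i j,
      8 * t * (1 - t) * deriv (fun s => u s i j) t +
        2 * ((β j : ℂ) - (β i : ℂ)) * (1 - t) * u t i j + t * ∑ l, (C i l : ℂ) * u t l j = 0

/-- GAN, MEDIUM (twin of UAN).  The analytic solution near `t = 1`, `x = t - 1`.

As UAN; the coefficient of `x^n` in the expression is `F_n + F_{n-1}` with
`F_n = 8 n G_n - C G_n - 2β ∑_{k<n} (-1)^(n-1-k) G_k + 4γ_j G_n = 0` (`IsG.eqn`): indeed
`(∑_{k<n} (-1)^(n-1-k) G_k) + (∑_{k<n-1} (-1)^(n-2-k) G_k) = G_{n-1}`. `det (g 0) ≠ 0` by `IsG.det`. -/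
def StGAN : Prop := ∀ (ι : Type) [Fintype ι] [DecidableEq ι] (β : ι → ℤ) (C : Matrix ι ι ℤ)
  (γ : ι → ℤ) (G : ℕ → Matrix ι ι ℚ), IsG β C γ G →
  (∃ A : ℝ, ∀ n i j, |(G n i j : ℝ)| ≤ A ^ (n + 1)) →
  ∃ (ρ : ℝ) (g : ℂ → Matrix ι ι ℂ), 0 < ρ ∧
    (∀ i j, DifferentiableOn ℂ (fun x => g x i j) (Metric.ball 0 ρ)) ∧
    (∀ x ∈ Metric.ball (0 : ℂ) ρ, (g x).det ≠ 0) ∧
    ∀ x ∈ Metric.ball (0 : ℂ) ρ, ∀ i j,
      8 * x * (1 + x) * deriv (fun s => g s i j) x - (1 + x) * ∑ l, (C i l : ℂ) * g x l j -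
        2 * (β i : ℂ) * x * g x i j + 4 * (γ j : ℂ) * (1 + x) * g x i j = 0

/-- THN, EASY.  `th w` vanishes on no nonempty open subset of the disc, and on no punctured
neighbourhood of 0.

`w 0 ^ 2 = -1` and `deriv th 0 ≠ 0` (`‖deriv th 0‖^4 ≥ 91.1`), so near 0, `th z ≠ 0` for `z ≠ 0`
(`HasDerivAt.eventually_ne`) and `w z ≠ 0`.  If `th w = 0` on a nonempty open subset of the disc
then `th w = 0` on the disc (identity theorem, the disc is preconnected), contradiction. -/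
def StTHN : Prop := ∀ th w : ℂ → ℂ, IsMap th w →
  (∀ᶠ z in 𝓝[≠] (0 : ℂ), th z ≠ 0 ∧ w z ≠ 0) ∧
  ∀ Ω : Set ℂ, IsOpen Ω → Ω ⊆ Metric.ball 0 1 → Ω.Nonempty → ∃ z ∈ Ω, th z ≠ 0 ∧ w z ≠ 0

/-- DRL, EASY.  `4 th^3 th' = 2 w w'` on the disc (differentiate `th^4 - 1 = w^2`). -/
def StDRL : Prop := ∀ th w : ℂ → ℂ, IsMap th w → ∀ z ∈ Metric.ball (0 : ℂ) 1,
  2 * th z ^ 3 * deriv th z = w z * deriv w z

/-- LOC0, MEDIUM.  The local solution at a zero of `th`.  USES UAN DRL.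

`u`, `ρ_u` from UAN; choose `ρ` with `ball z0 ρ ⊆ ball 0 1` and `|th z|^4 < ρ_u` there (continuity).
`M z i j = w^K th^(β_j+K) u(th^4) i j`.  Differentiable: clear.  Determinant: `M = w^K u(th^4)
diag(th^(β_j+K))`.  ODE at points with `th w ≠ 0`, `t = th^4`, `1 - t = -w²`:
`M_ij' = K (w'/w) M_ij + (β_j+K)(th'/th) M_ij + w^K th^(β_j+K) u_ij'(t) 4 th³ th'`, and
`4 th³ th' u' = (th'/(2 th)) (8 t u')`, `8 t u' = -2(β_j-β_i) u_ij - (t/(1-t)) (C u)_ij` (UAN), so the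
last term is `(th'/th)(β_i - β_j) M_ij + (th'/(2 th)) (th^4/w²) (C M)_ij`, and
`th' th³/2 /w² = w'/(4w)` (DRL).  Total: `(th'/th)(β_i + K) M_ij + (w'/w)(K M + C M/4)_ij`, which is
`(AA M)_ij`. -/
def StLOC0 : Prop := ∀ (ι : Type) [Fintype ι] [DecidableEq ι] (β : ι → ℤ) (C : Matrix ι ι ℤ)
  (U : ℕ → Matrix ι ι ℚ), IsU β (qm C) U → (∃ A : ℝ, ∀ n i j, |(U n i j : ℝ)| ≤ A ^ (n + 1)) →
  ∀ th w : ℂ → ℂ, IsMap th w → ∀ K : ℕ, (∀ j, 0 ≤ β j + K) →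
  ∀ z0 ∈ Metric.ball (0 : ℂ) 1, th z0 = 0 →
  ∃ (ρ : ℝ) (M : ℂ → Matrix ι ι ℂ), LocSol β C K th w M z0 ρ ∧
    ∀ z ∈ Metric.ball z0 ρ, ∀ i j, M z i j = w z ^ K * th z ^ (β j + K).toNat *
      ∑' n : ℕ, (U n i j : ℂ) * th z ^ (4 * n)

/-- LOC1, MEDIUM (twin of LOC0).  The local solution at a zero of `w`.  USES GAN DRL.

`M z i j = th^K w^(γ_j+K) g(w²) i j`, `x = w²`, `1 + x = th^4`.  `M' = K (th'/th) M +
(γ_j+K)(w'/w) M + th^K w^(γ_j+K) g'(x) 2 w w'`, and `2 w w' g' = (w'/(4w)) (8 x g')`,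
`8 x g' = (C g) + 2β_i (x/(1+x)) g - 4γ_j g` (GAN); `(w'/(4w)) 2β_i w²/th^4 = β_i w w'/(2 th^4) =
β_i th'/th` (DRL).  Total `(th'/th)(K + β_i) M + (w'/w)(K M + C M/4)`.  Here `th z0 ≠ 0` since
`th z0^4 = 1 + w z0^2 = 1`. -/
def StLOC1 : Prop := ∀ (ι : Type) [Fintype ι] [DecidableEq ι] (β : ι → ℤ) (C : Matrix ι ι ℤ)
  (γ : ι → ℤ) (G : ℕ → Matrix ι ι ℚ), IsG β C γ G →
  (∃ A : ℝ, ∀ n i j, |(G n i j : ℝ)| ≤ A ^ (n + 1)) →
  ∀ th w : ℂ → ℂ, IsMap th w → ∀ K : ℕ, (∀ j, 0 ≤ γ j + K) →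
  ∀ z0 ∈ Metric.ball (0 : ℂ) 1, w z0 = 0 →
  ∃ (ρ : ℝ) (M : ℂ → Matrix ι ι ℂ), LocSol β C K th w M z0 ρ

/-- LOCR, EASY.  Regular points.

Choose a ball around `z0` in the disc on which `th`, `w` have no zero; `AA` is holomorphic there.
`Pool.Agent.MSU.prf_S_Ex Pool.Agent.MSU.prf_S_Prim` style results of this problem
(`Pool/Agent/Work/MP_5e5ff1_ag/Unit/ItemSEx.lean`, `ItemSPrim.lean`, `ItemSUnit.lean`; read
`Unit/Stmts.lean` lines 15-31) give a solution `Y` with `Y z0 = 1` on the ball and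
`det (Y z) ≠ 0`. -/
def StLOCR : Prop := ∀ (ι : Type) [Fintype ι] [DecidableEq ι] (β : ι → ℤ) (C : Matrix ι ι ℤ)
  (th w : ℂ → ℂ), IsMap th w → ∀ K : ℕ, ∀ z0 ∈ Metric.ball (0 : ℂ) 1, th z0 ≠ 0 → w z0 ≠ 0 →
  ∃ (ρ : ℝ) (M : ℂ → Matrix ι ι ℂ), LocSol β C K th w M z0 ρ

/-- LOCA, EASY.  Local solutions everywhere.  USES UEX UCV GEX GCV LOC0 LOC1 LOCR.

`K0 ≥ |β_j|, |γ_j|` for all `j`; cases `th z0 = 0`, `w z0 = 0`, neither. -/
def StLOCA : Prop := ∀ (ι : Type) [Fintype ι] [DecidableEq ι] (β : ι → ℤ) (C : Matrix ι ι ℤ)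
  (S : Set ℕ), Sys β C S → ∃ K0 : ℕ, ∀ th w : ℂ → ℂ, IsMap th w → ∀ K ≥ K0,
  ∀ z0 ∈ Metric.ball (0 : ℂ) 1, ∃ (ρ : ℝ) (M : ℂ → Matrix ι ι ℂ), LocSol β C K th w M z0 ρ

/-- ODX, EASY-MEDIUM.  The differential equation propagates.  USES THN.

`H_ij = th w M_ij' - [w th' (β_i + K) M_ij + th w' (K M_ij + (1/4) ∑_l C i l M_lj)]` is holomorphic
on `ball 0 r`; near 0 it vanishes at all points with `th w ≠ 0` (the ODE of `N` multiplied by
`th w`; `M = N` near 0, so the derivatives agree), i.e. on a punctured neighbourhood of 0 (THN), so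
it vanishes on `ball 0 r` (identity theorem).  Divide by `th w` where it is nonzero. -/
def StODX : Prop := ∀ (ι : Type) [Fintype ι] [DecidableEq ι] (β : ι → ℤ) (C : Matrix ι ι ℤ)
  (th w : ℂ → ℂ), IsMap th w → ∀ (K : ℕ) (N M : ℂ → Matrix ι ι ℂ) (ρ r : ℝ),
  LocSol β C K th w N 0 ρ → 0 < r → r ≤ 1 →
  (∀ i j, DifferentiableOn ℂ (fun z => M z i j) (Metric.ball 0 r)) → (∀ᶠ z in 𝓝 0, M z = N z) →
  ∀ z ∈ Metric.ball (0 : ℂ) r, th z ≠ 0 → w z ≠ 0 → ∀ i j,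
    HasDerivAt (fun y => M y i j) ((AA β C K th w z * M z) i j) z

/-- CMP, MEDIUM.  Comparison with a local solution.  USES THN.

`Ω = ball z0 δ ∩ ball 0 r` is convex, open, nonempty.  By THN there is `z1 ∈ Ω` with
`th z1, w z1 ≠ 0`; choose a ball `B ⊆ Ω` around `z1` without zeros of `th w`.  On `B`, `N` is
invertible and `(N⁻¹ M)' = -N⁻¹ N' N⁻¹ M + N⁻¹ M' = -N⁻¹ AA M + N⁻¹ AA M = 0`
(`Pool/Agent/Work/MP_5e5ff1_ag/Unit/ItemSUniq.lean` has `inv_hasDerivAt`), so `N⁻¹ M = Γ` is constant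
on `B` (`B` convex), `M = N Γ` on `B`; both sides are holomorphic on `Ω`, preconnected, so they
agree on `Ω` (identity theorem, entry by entry). -/
def StCMP : Prop := ∀ (ι : Type) [Fintype ι] [DecidableEq ι] (β : ι → ℤ) (C : Matrix ι ι ℤ)
  (th w : ℂ → ℂ), IsMap th w → ∀ (K : ℕ) (N M : ℂ → Matrix ι ι ℂ) (z0 : ℂ) (δ r : ℝ),
  LocSol β C K th w N z0 δ → 0 < r → r ≤ 1 →
  (∀ i j, DifferentiableOn ℂ (fun z => M z i j) (Metric.ball 0 r)) →
  (∀ z ∈ Metric.ball (0 : ℂ) r, th z ≠ 0 → w z ≠ 0 → ∀ i j,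
    HasDerivAt (fun y => M y i j) ((AA β C K th w z * M z) i j) z) →
  (Metric.ball z0 δ ∩ Metric.ball 0 r).Nonempty →
  ∃ Γ : Matrix ι ι ℂ, ∀ z ∈ Metric.ball z0 δ ∩ Metric.ball 0 r, M z = N z * Γ

/-- GLU, MEDIUM-HARD.  Continuation to the disc.

Let `P r` mean: there is `g` holomorphic on `ball 0 r` with `g = f` near 0.  `P r0`; `P` passes to
smaller radii; `R = sSup {r ∈ (0,1] : P r}`.  (a) `P R`: for `r < R` take `g_r`; they agree on
common balls (identity theorem), put `g z = g_{(‖z‖+R)/2} z` on `ball 0 R`.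
(b) Suppose `R < 1`.  Let `g` be the function of (a).  For `z ∈ closedBall 0 R` let `δ z > 0` be
given by the hypothesis.  By the Lebesgue number lemma (`lebesgue_number_lemma_of_metric`,
compact `closedBall 0 R`) there is `ε > 0`, `ε < 1 - R`, such that every `ball z ε`,
`z ∈ closedBall 0 R`, is contained in some `ball c (δ c)`, `c ∈ closedBall 0 R`.  It meets
`ball 0 R`, so there is `G_z` holomorphic on `ball z ε` with `G_z = g` on `ball z ε ∩ ball 0 R`.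
For `z, z'` in `closedBall 0 R`, `G_z = G_{z'}` on `ball z ε ∩ ball z' ε`: this set is convex, and if
it is nonempty then `‖z - z'‖ < 2ε`, the midpoint `(z+z')/2` lies in it and in `closedBall 0 R`, so
points `s (z+z')/2`, `s < 1` close to 1, lie in it and in `ball 0 R`, where both functions are `g`;
identity theorem.  Define `G y = g y` for `‖y‖ < R` and `G y = G_z y`, `z = R y/‖y‖`, for
`R ≤ ‖y‖ < R + ε/2`.  Near a point `y` of the second kind `G = G_z` for the fixed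
`z = R y/‖y‖` (by the agreement, and `G_z = g` inside), so `G` is differentiable on
`ball 0 (R + ε/2)`, contradiction to the choice of `R`.  (R > 0 since `P r0`.) -/
def StGLU : Prop := ∀ (E : Type) [NormedAddCommGroup E] [NormedSpace ℂ E] [CompleteSpace E]
  (f : ℂ → E) (r0 : ℝ), 0 < r0 → DifferentiableOn ℂ f (Metric.ball 0 r0) →
  (∀ z0 ∈ Metric.ball (0 : ℂ) 1, ∃ δ > 0, ∀ (g : ℂ → E) (r : ℝ), 0 < r → r ≤ 1 →
    DifferentiableOn ℂ g (Metric.ball 0 r) → (∀ᶠ z in 𝓝 0, g z = f z) →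
    (Metric.ball z0 δ ∩ Metric.ball 0 r).Nonempty →
    ∃ G : ℂ → E, DifferentiableOn ℂ G (Metric.ball z0 δ) ∧
      ∀ z ∈ Metric.ball z0 δ ∩ Metric.ball 0 r, G z = g z) →
  ∃ F : ℂ → E, DifferentiableOn ℂ F (Metric.ball 0 1) ∧ ∀ᶠ z in 𝓝 0, F z = f z

/-- CON, EASY-MEDIUM.  The entries of `U(th^4)`, multiplied by powers of `th` and `w`, extend to the
disc.  USES UCV LOC0 LOCA ODX CMP GLU THN.

`K ≥ K0` (LOCA), `K ≥ |β_j|`.  `M0` = LOC0 at `z0 = 0` (`th 0 = 0`), `E = ι → ι → ℂ`, `f z = M0 z`.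
For `z0` in the disc let `N`, `δ` be the local solution (LOCA).  For `g`, `r` as in GLU, `M = g`
satisfies the ODE (ODX), so `M = N Γ` on the intersection (CMP), `G z = N z * Γ`.  GLU gives `F` on
the disc, `F = M0` near 0.  `h z = w z ^ K * th z ^ (β j + K).toNat`, nonzero somewhere by THN. -/
def StCON : Prop := ∀ (ι : Type) [Fintype ι] [DecidableEq ι] (β : ι → ℤ) (C : Matrix ι ι ℤ)
  (S : Set ℕ) (U : ℕ → Matrix ι ι ℚ), Sys β C S → IsU β (qm C) U →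
  ∀ th w : ℂ → ℂ, IsMap th w → ∀ i j, ∃ h F : ℂ → ℂ,
    DifferentiableOn ℂ h (Metric.ball 0 1) ∧ (∃ z ∈ Metric.ball (0 : ℂ) 1, h z ≠ 0) ∧
    DifferentiableOn ℂ F (Metric.ball 0 1) ∧
    ∀ᶠ z in 𝓝 0, F z = h z * ∑' n : ℕ, (U n i j : ℂ) * th z ^ (4 * n)

end Pool.Agent.Work.MP_5e5ff1_ag.TG
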