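import Mathlib
import Pool.Agent.Work.MP_5e5ff1_ag.TG.StmtsD

set_option autoImplicit false

/-!
# MP_5e5ff1_ag, block TG, item GLU: continuation to the disc
-/

open Matrix Filter Topology
open scoped Polynomial

namespace Pool.Agent.Work.MP_5e5ff1_ag.TG

namespace IGLU

variable {E : Type} [NormedAddCommGroup E] [NormedSpace ℂ E] [CompleteSpace E]

theorem ident (U : Set ℂ) (hU : IsOpen U) (hc : Convex ℝ U) (g1 g2 : ℂ → E)
    (d1 : DifferentiableOn ℂ g1 U) (d2 : DifferentiableOn ℂ g2 U) (z : ℂ) (hz : z ∈ U)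
    (h : ∀ᶠ y in 𝓝 z, g1 y = g2 y) : ∀ y ∈ U, g1 y = g2 y :=
  (d1.analyticOnNhd hU).eqOn_of_preconnected_of_eventuallyEq (d2.analyticOnNhd hU)
    hc.isPreconnected hz h

/-- radial projection to the circle of radius `r` -/
noncomputable def pr (r : ℝ) (y : ℂ) : ℂ := ((r / ‖y‖ : ℝ) : ℂ) * y

theorem norm_pr (r : ℝ) (hr : 0 < r) (y : ℂ) (hy : r ≤ ‖y‖) : ‖pr r y‖ = r := by
  have hy0 : 0 < ‖y‖ := by linarith
  unfold pr
  rw [norm_mul, Complex.norm_real, Real.norm_of_nonneg (by positivity)]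
  field_simp

theorem dist_pr (r : ℝ) (hr : 0 < r) (y : ℂ) (hy : r ≤ ‖y‖) : dist y (pr r y) = ‖y‖ - r := by
  have hy0 : 0 < ‖y‖ := by linarith
  unfold pr
  have h : y - ((r / ‖y‖ : ℝ) : ℂ) * y = ((1 - r / ‖y‖ : ℝ) : ℂ) * y := by
    push_cast
    ring
  rw [dist_eq_norm, h, norm_mul, Complex.norm_real, Real.norm_of_nonneg]
  · field_simp
  · rw [sub_nonneg, div_le_one hy0]
    exact hy

theorem step (ε r : ℝ) (hε : 0 < ε) (hr : 0 < r) (g : ℂ → E)
    (hg : DifferentiableOn ℂ g (Metric.ball 0 r))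
    (H : ∀ z : ℂ, ‖z‖ = r → ∃ G : ℂ → E, DifferentiableOn ℂ G (Metric.ball z ε) ∧
      ∀ y ∈ Metric.ball z ε ∩ Metric.ball 0 r, G y = g y) :
    ∃ G : ℂ → E, DifferentiableOn ℂ G (Metric.ball 0 (r + ε / 2)) ∧
      ∀ y ∈ Metric.ball (0 : ℂ) r, G y = g y := by
  have H' : ∀ z : ℂ, ∃ G : ℂ → E, ‖z‖ = r → DifferentiableOn ℂ G (Metric.ball z ε) ∧
      ∀ y ∈ Metric.ball z ε ∩ Metric.ball 0 r, G y = g y := by
    intro z
    by_cases hz : ‖z‖ = r
    · obtain ⟨G, hG⟩ := H z hz
      exact ⟨G, fun _ => hG⟩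
    · exact ⟨fun _ => 0, fun h => absurd h hz⟩
  choose G hG using H'
  classical
  refine ⟨fun y => if ‖y‖ < r then g y else G (pr r y) y, ?_, ?_⟩
  · intro y0 hy0
    have hy0' : ‖y0‖ < r + ε / 2 := by simpa using hy0
    apply DifferentiableAt.differentiableWithinAt
    by_cases h : ‖y0‖ < r
    · have h1 : Metric.ball (0 : ℂ) r ∈ 𝓝 y0 := Metric.isOpen_ball.mem_nhds (by simpa using h)
      refine (hg.differentiableAt h1).congr_of_eventuallyEq ?_
      filter_upwards [h1] with y hy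
      have : ‖y‖ < r := by simpa using hy
      rw [if_pos this]
    · have hge : r ≤ ‖y0‖ := not_lt.mp h
      set η : ℝ := ε / 2 - (‖y0‖ - r) with hη
      have hη0 : 0 < η := by rw [hη]; linarith
      have hηε : η ≤ ε / 2 := by rw [hη]; linarith
      set z0 : ℂ := pr r y0 with hz0
      have hn0 : ‖z0‖ = r := norm_pr r hr y0 hge
      have hd0 : dist y0 z0 = ‖y0‖ - r := dist_pr r hr y0 hge
      obtain ⟨hGd, hGe⟩ := hG z0 hn0
      have h1 : Metric.ball z0 ε ∈ 𝓝 y0 := Metric.isOpen_ball.mem_nhds (by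
        rw [Metric.mem_ball, hd0]; linarith)
      refine (hGd.differentiableAt h1).congr_of_eventuallyEq ?_
      filter_upwards [Metric.ball_mem_nhds y0 (half_pos hη0)] with y hy
      rw [Metric.mem_ball] at hy
      have hyz0 : dist y z0 < ε := by
        have := dist_triangle y y0 z0
        rw [hd0] at this
        linarith
      by_cases hyr : ‖y‖ < r
      · rw [if_pos hyr]
        exact (hGe y ⟨hyz0, by simpa using hyr⟩).symm
      · rw [if_neg hyr]
        have hyge : r ≤ ‖y‖ := not_lt.mp hyr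
        have hn : ‖pr r y‖ = r := norm_pr r hr y hyge
        have hd : dist y (pr r y) = ‖y‖ - r := dist_pr r hr y hyge
        have hny : ‖y‖ < ‖y0‖ + η / 2 := by
          have h2 := norm_le_norm_add_norm_sub' y y0
          rw [← dist_eq_norm] at h2
          linarith
        obtain ⟨hGd', hGe'⟩ := hG (pr r y) hn
        -- the auxiliary point
        set t : ℝ := min (1 / 2) (η / (2 * r)) with ht
        have ht0 : 0 < t := by rw [ht]; positivity
        have ht1 : t ≤ 1 / 2 := by rw [ht]; exact min_le_left _ _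
        have ht2 : t * r ≤ η / 2 := by
          have : t ≤ η / (2 * r) := by rw [ht]; exact min_le_right _ _
          calc t * r ≤ η / (2 * r) * r := mul_le_mul_of_nonneg_right this hr.le
            _ = η / 2 := by field_simp
        set w : ℂ := ((1 - t : ℝ) : ℂ) * z0 with hw
        have hnw : ‖w‖ < r := by
          rw [hw, norm_mul, Complex.norm_real, Real.norm_of_nonneg (by linarith), hn0]
          nlinarith
        have hdw : dist w z0 ≤ η / 2 := by
          have h3 : w - z0 = ((-t : ℝ) : ℂ) * z0 := by rw [hw]; push_cast; ring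
          rw [dist_eq_norm, h3, norm_mul, Complex.norm_real, norm_neg, Real.norm_of_nonneg ht0.le,
            hn0]
          exact ht2
        have hzz : dist z0 (pr r y) ≤ ε - η := by
          have h4 := dist_triangle4 z0 y0 y (pr r y)
          rw [dist_comm z0 y0, hd0, hd, dist_comm y0 y] at h4
          linarith
        have hdw' : dist w (pr r y) < ε := by
          have h5 := dist_triangle w z0 (pr r y)
          linarith
        have hev : ∀ᶠ x in 𝓝 w, G (pr r y) x = G z0 x := by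
          have ho : IsOpen (Metric.ball (pr r y) ε ∩ Metric.ball z0 ε ∩ Metric.ball (0 : ℂ) r) :=
            (Metric.isOpen_ball.inter Metric.isOpen_ball).inter Metric.isOpen_ball
          have hm : w ∈ Metric.ball (pr r y) ε ∩ Metric.ball z0 ε ∩ Metric.ball (0 : ℂ) r :=
            ⟨⟨hdw', by rw [Metric.mem_ball]; linarith⟩, by simpa using hnw⟩
          filter_upwards [ho.mem_nhds hm] with x hx
          rw [hGe' x ⟨hx.1.1, hx.2⟩, hGe x ⟨hx.1.2, hx.2⟩]
        exact ident (Metric.ball (pr r y) ε ∩ Metric.ball z0 ε)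
          (Metric.isOpen_ball.inter Metric.isOpen_ball)
          ((convex_ball _ _).inter (convex_ball _ _)) _ _ (hGd'.mono Set.inter_subset_left)
          (hGd.mono Set.inter_subset_right) w ⟨hdw', by rw [Metric.mem_ball]; linarith⟩ hev y
          ⟨by rw [Metric.mem_ball, hd]; linarith, hyz0⟩
  · intro y hy
    have : ‖y‖ < r := by simpa using hy
    beta_reduce
    rw [if_pos this]

/-- `f` continues to the ball of radius `r` -/
def P (f : ℂ → E) (r : ℝ) : Prop :=
  ∃ g : ℂ → E, DifferentiableOn ℂ g (Metric.ball 0 r) ∧ ∀ᶠ z in 𝓝 0, g z = f z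

omit [CompleteSpace E] in
theorem P_mono (f : ℂ → E) (r r' : ℝ) (h : r ≤ r') (hP : P f r') : P f r := by
  obtain ⟨g, hg, hf⟩ := hP
  exact ⟨g, hg.mono (Metric.ball_subset_ball h), hf⟩

theorem glue (f : ℂ → E) (h : ∀ r, r < 1 → P f r) : P f 1 := by
  have h' : ∀ r : ℝ, ∃ g : ℂ → E, r < 1 → DifferentiableOn ℂ g (Metric.ball 0 r) ∧
      ∀ᶠ z in 𝓝 0, g z = f z := by
    intro r
    by_cases hr : r < 1
    · obtain ⟨g, hg⟩ := h r hr
      exact ⟨g, fun _ => hg⟩
    · exact ⟨fun _ => 0, fun h => absurd h hr⟩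
  choose G hG using h'
  have agree : ∀ r r' : ℝ, 0 < r → r ≤ r' → r' < 1 → ∀ y ∈ Metric.ball (0 : ℂ) r, G r y = G r' y := by
    intro r r' hr hrr' hr'
    obtain ⟨h1, h2⟩ := hG r (by linarith)
    obtain ⟨h3, h4⟩ := hG r' hr'
    refine ident (Metric.ball (0 : ℂ) r) Metric.isOpen_ball (convex_ball _ _) _ _ h1
      (h3.mono (Metric.ball_subset_ball hrr')) 0 (Metric.mem_ball_self hr) ?_
    filter_upwards [h2, h4] with x hx hx'
    rw [hx, hx']
  have key : ∀ r1 : ℝ, 0 < r1 → r1 < 1 → ∀ z ∈ Metric.ball (0 : ℂ) r1,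
      G ((‖z‖ + 1) / 2) z = G ((r1 + 1) / 2) z := by
    intro r1 hr1 hr1' z hz
    have hz' : ‖z‖ < r1 := by simpa using hz
    have hz0 : 0 ≤ ‖z‖ := norm_nonneg z
    refine agree _ _ (by linarith) (by linarith) (by linarith) z ?_
    simp only [mem_ball_zero_iff]
    linarith
  refine ⟨fun z => G ((‖z‖ + 1) / 2) z, ?_, ?_⟩
  · intro z0 hz0
    have hz0' : ‖z0‖ < 1 := by simpa using hz0
    have hz00 : 0 ≤ ‖z0‖ := norm_nonneg z0
    apply DifferentiableAt.differentiableWithinAt
    obtain ⟨h1, _⟩ := hG (((‖z0‖ + 1) / 2 + 1) / 2) (by linarith)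
    have h2 : Metric.ball (0 : ℂ) (((‖z0‖ + 1) / 2 + 1) / 2) ∈ 𝓝 z0 :=
      Metric.isOpen_ball.mem_nhds (by simp only [mem_ball_zero_iff]; linarith)
    have h3 : Metric.ball (0 : ℂ) ((‖z0‖ + 1) / 2) ∈ 𝓝 z0 :=
      Metric.isOpen_ball.mem_nhds (by simp only [mem_ball_zero_iff]; linarith)
    refine (h1.differentiableAt h2).congr_of_eventuallyEq ?_
    filter_upwards [h3] with z hz
    exact key _ (by linarith) (by linarith) z hz
  · obtain ⟨_, h4⟩ := hG ((1 / 2 + 1) / 2) (by norm_num)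
    have h3 : Metric.ball (0 : ℂ) (1 / 2) ∈ 𝓝 (0 : ℂ) := Metric.ball_mem_nhds _ (by norm_num)
    filter_upwards [h4, h3] with z hz hz'
    rw [key (1 / 2) (by norm_num) (by norm_num) z hz', hz]

end IGLU

open IGLU in
theorem pr_GLU : StGLU := by
  intro E _ _ _ f r0 hr0 hf H
  have hf' : P f r0 := ⟨f, hf, Filter.Eventually.of_forall fun _ => rfl⟩
  refine glue f fun R hR => ?_
  by_cases hR0 : R ≤ 0
  · exact P_mono f R r0 (by linarith) hf'
  push Not at hR0
  choose δ hδ0 hδ using H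
  -- Lebesgue number
  obtain ⟨ε, hε, hleb⟩ := lebesgue_number_lemma_of_metric (s := Metric.closedBall (0 : ℂ) R)
    (c := fun c : {c : ℂ // c ∈ Metric.ball (0 : ℂ) 1} => Metric.ball (c : ℂ) (δ c.1 c.2))
    (isCompact_closedBall _ _) (fun _ => Metric.isOpen_ball) (by
      intro z hz
      have hz' : ‖z‖ ≤ R := by simpa using hz
      have hz1 : z ∈ Metric.ball (0 : ℂ) 1 := by simp only [mem_ball_zero_iff]; linarith
      exact Set.mem_iUnion.2 ⟨⟨z, hz1⟩, Metric.mem_ball_self (hδ0 z hz1)⟩)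
  have hstep : ∀ r : ℝ, 0 < r → r ≤ R → P f r → P f (r + ε / 2) := by
    intro r hr hrR hP
    obtain ⟨g, hg, hgf⟩ := hP
    have hloc : ∀ z : ℂ, ‖z‖ = r → ∃ G : ℂ → E, DifferentiableOn ℂ G (Metric.ball z ε) ∧
        ∀ y ∈ Metric.ball z ε ∩ Metric.ball 0 r, G y = g y := by
      intro z hz
      obtain ⟨⟨c, hc⟩, hsub⟩ := hleb z (by simp only [mem_closedBall_zero_iff]; linarith)
      have hne : (Metric.ball c (δ c hc) ∩ Metric.ball (0 : ℂ) r).Nonempty := by
        set t : ℝ := min (1 / 2) (ε / (2 * r)) with ht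
        have ht0 : 0 < t := by rw [ht]; positivity
        have ht1 : t ≤ 1 / 2 := by rw [ht]; exact min_le_left _ _
        have ht2 : t * r ≤ ε / 2 := by
          have : t ≤ ε / (2 * r) := by rw [ht]; exact min_le_right _ _
          calc t * r ≤ ε / (2 * r) * r := mul_le_mul_of_nonneg_right this hr.le
            _ = ε / 2 := by field_simp
        refine ⟨((1 - t : ℝ) : ℂ) * z, hsub ?_, ?_⟩
        · have h3 : ((1 - t : ℝ) : ℂ) * z - z = ((-t : ℝ) : ℂ) * z := by push_cast; ring
          rw [Metric.mem_ball, dist_eq_norm, h3, norm_mul, Complex.norm_real, norm_neg,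
            Real.norm_of_nonneg ht0.le, hz]
          linarith
        · rw [mem_ball_zero_iff, norm_mul, Complex.norm_real, Real.norm_of_nonneg (by linarith), hz]
          nlinarith
      obtain ⟨G, hG1, hG2⟩ := hδ c hc g r hr (by linarith) hg hgf hne
      exact ⟨G, hG1.mono hsub, fun y hy => hG2 y ⟨hsub hy.1, hy.2⟩⟩
    obtain ⟨G, hG1, hG2⟩ := step ε r hε hr g hg hloc
    refine ⟨G, hG1, ?_⟩
    filter_upwards [hgf, Metric.ball_mem_nhds (0 : ℂ) hr] with z hz hz'
    rw [hG2 z hz', hz]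
  have hiter : ∀ n : ℕ, P f (min (r0 + n * (ε / 2)) R) := by
    intro n
    induction n with
    | zero =>
      refine P_mono f _ r0 ?_ hf'
      simp
    | succ n ih =>
      have h1 : 0 < min (r0 + n * (ε / 2)) R := lt_min (by positivity) hR0
      refine P_mono f _ _ ?_ (hstep _ h1 (min_le_right _ _) ih)
      push_cast
      rcases le_total (r0 + n * (ε / 2)) R with h | h
      · rw [min_eq_left h]
        refine (min_le_left _ _).trans ?_
        linarith
      · rw [min_eq_right h]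
        refine (min_le_right _ _).trans ?_
        linarith
  obtain ⟨n, hn⟩ := exists_nat_ge (R / (ε / 2))
  have h2 : R ≤ r0 + n * (ε / 2) := by
    rw [div_le_iff₀ (by positivity)] at hn
    linarith
  have h3 := hiter n
  rwa [min_eq_right h2] at h3

end Pool.Agent.Work.MP_5e5ff1_ag.TG
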