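import Mathlib
import Pool.Agent.Work.MP_5e5ff1_ag.TG.StmtsA

set_option autoImplicit false

/-!
# Block TG, item ITG: a rational number which is integral at all primes is an integer
-/

namespace Pool.Agent.Work.MP_5e5ff1_ag.TG

theorem pr_ITG : StITG := by
  intro q h
  by_cases hq : q = 0
  · exact ⟨0, by simp [hq]⟩
  have hden : q.den = 1 := by
    by_contra hne
    obtain ⟨p, hp, hpd⟩ := Nat.exists_prime_and_dvd hne
    have : Fact p.Prime := ⟨hp⟩
    have hnum : padicNorm p (q.num : ℚ) = 1 := by
      rw [padicNorm.int_eq_one_iff]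
      intro hpn
      have h1 : p ∣ q.num.natAbs := Int.natCast_dvd.mp hpn
      have h2 : p ∣ Nat.gcd q.num.natAbs q.den := Nat.dvd_gcd h1 hpd
      have h3 : Nat.gcd q.num.natAbs q.den = 1 := q.reduced
      rw [h3] at h2
      exact hp.one_lt.ne' (Nat.dvd_one.mp h2)
    have hd : padicNorm p (q.den : ℚ) < 1 := (padicNorm.nat_lt_one_iff q.den).mpr hpd
    have hd0 : 0 < padicNorm p (q.den : ℚ) := by
      have : (q.den : ℚ) ≠ 0 := by exact_mod_cast q.den_nz
      exact lt_of_le_of_ne (padicNorm.nonneg _) (Ne.symm (padicNorm.nonzero this))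
    have h4 : padicNorm p q = 1 / padicNorm p (q.den : ℚ) := by
      conv_lhs => rw [← Rat.num_div_den q]
      rw [padicNorm.div, hnum]
    have h5 := h p
    rw [h4, div_le_one hd0] at h5
    linarith
  exact ⟨q.num, by
    conv_lhs => rw [← Rat.num_div_den q]
    rw [hden]
    simp⟩

end Pool.Agent.Work.MP_5e5ff1_ag.TG
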