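import Mathlib
import Pool.Agent.Work.MP_5e5ff1_ag.TG.StmtsD
import Pool.Agent.Work.MP_5e5ff1_ag.Bd.B01

set_option autoImplicit false

/-!
# MP_5e5ff1_ag, block TG, part E: algebraic closure, restriction of scalars, the theorem

Every docstring is the complete proof.  USES lists the statements which the item may take as
hypotheses `(h : StX)`.  Captain helper18, co-captain helper45.
-/

open Matrix Filter Topology NumberField
open scoped Polynomial

namespace Pool.Agent.Work.MP_5e5ff1_ag.TG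

/-- QC, EASY.  Algebraic power series stay algebraic after extension of scalars: map the
coefficients of a nonzero polynomial relation (injective ring homomorphism `ℚ[X] → ℂ[X]`). -/
def StQC : Prop := ∀ f : PowerSeries ℚ, IsAlgebraic ℚ[X] f →
  IsAlgebraic ℂ[X] (PowerSeries.map (algebraMap ℚ ℂ) f)

/-- UPS, EASY.  The differential equation of `U` as an identity of power series.

Coefficient of `X^n` of `8 X u' + 2(β_j - β_i) u + (∑_{n} X^n) X ∑_l C i l u l j` is the left side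
of `IsU.eqn`, so it is 0; multiply by `X - 1` and use `(X - 1) ∑ X^n = -1`.  (Or compare
coefficients directly: the coefficient of `X^(n+1)` is `E_n - E_{n+1}` with `E_n = 0`.) -/
def StUPS : Prop := ∀ (F : Type) [Field F] (ι : Type) [Fintype ι] [DecidableEq ι] (β : ι → ℤ)
  (C : Matrix ι ι F) (U : ℕ → Matrix ι ι F), IsU β C U → ∀ i j,
  (PowerSeries.X - 1 : PowerSeries F) *
    (8 * PowerSeries.X * PowerSeries.derivative F (PowerSeries.mk fun n => U n i j) +
      PowerSeries.C (2 * ((β j : F) - (β i : F))) * PowerSeries.mk fun n => U n i j) =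
  PowerSeries.X * ∑ l, PowerSeries.C (C i l) * PowerSeries.mk fun n => U n l j

/-- LFT, EASY-MEDIUM.  Embedding of the algebraic functions in the completion at 0, with
derivations.  `A.OO = AlgebraicClosure (RatFunc ℂ)`, `A.EE` = algebraic closure of the Laurent
series.

`A.exists_embedding (0 : ℂ)`, `A.exists_derivation_EE`, `A.exists_derivation_OO`,
`A.derivation_comm` of `Pool/Agent/Work/MP_5e5ff1_ag/A/Geom.lean`; `A.loc 0 f = f` (`f.comp (X + C 0)
= f`).  For the last property: `P ∈ ℂ[X][Y]` nonzero with `P(f) = 0`; map its coefficients to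
`RatFunc ℂ` (injective, so nonzero) and evaluate at `algebraMap f`: this is `algebraMap (P(f)) = 0`;
`exists_embedding` gives `y`. -/
def StLFT : Prop := ∃ (φ : A.OO →+* A.EE) (D : A.EE → A.EE) (δ : A.OO → A.OO),
  A.IsDer D ∧ A.IsDer δ ∧
  (∀ f : PowerSeries ℂ, D (algebraMap (PowerSeries ℂ) A.EE f) =
    algebraMap (PowerSeries ℂ) A.EE (PowerSeries.derivative ℂ f)) ∧
  (∀ z : ℂ, δ (algebraMap (RatFunc ℂ) A.OO (algebraMap ℂ (RatFunc ℂ) z)) = 0) ∧
  δ (algebraMap (RatFunc ℂ) A.OO RatFunc.X) = 1 ∧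
  (∀ y, D (φ y) = φ (δ y)) ∧
  (∀ f : ℂ[X], φ (algebraMap (RatFunc ℂ) A.OO (algebraMap ℂ[X] (RatFunc ℂ) f)) =
    algebraMap (PowerSeries ℂ) A.EE (f : PowerSeries ℂ)) ∧
  ∀ f : PowerSeries ℂ, IsAlgebraic ℂ[X] f → ∃ y, φ y = algebraMap (PowerSeries ℂ) A.EE f

/-- ALG, MEDIUM.  Algebraic entries of `U` give a full set of algebraic solutions.  USES LFT UPS.

`y i j` with `φ (y i j) = algebraMap (mk (n ↦ U n i j))` (LFT).  `s ∈ A.OO` with `s^4 = X`
(algebraically closed), `s ≠ 0`, `4 s^3 δ s = 1`, so `δ s = s/(4X)` and `δ (s^m) = m s^m/(4X)` for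
`m : ℤ`.  `F i j = y i j * s^(β j)` (zpow).  `det F = det y ∏ s^(β j)`, and `φ (det y)` is the image
of the determinant of the power series matrix, whose constant coefficient is `det (U 0) = 1`, so it
is nonzero.  Equation: `δ F_ij = (δ y_ij + β_j/(4X) y_ij) s^β_j`; needed:
`δ y_ij = ((β_i - β_j)/4)/X y_ij + ∑_l (C_il/8)/(X-1) y_lj`.  Multiply by `8X(X-1)` (nonzero) and apply
the injective `φ`: this is UPS.  Take `δ` as a derivation over `ℤ` (`A.derivationOf` in A/Diff.lean or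
`Derivation.mk'`), see the end of the proof of `A.algebraic_iff` in A/Local.lean for the format. -/
def StALG : Prop := ∀ (r : ℕ) (β : Fin r → ℤ) (C B D : Matrix (Fin r) (Fin r) ℂ)
  (U : ℕ → Matrix (Fin r) (Fin r) ℂ), IsU β C U →
  (∀ i j, IsAlgebraic ℂ[X] (PowerSeries.mk fun n => U n i j)) →
  (∀ i j, B i j = if i = j then (β i : ℂ) / 4 else 0) → (∀ i j, D i j = C i j / 8) →
  A.HasAlgebraicSolutions B D

/-- QIM, EASY.  Base change for `Qi` (induction on `k`; `φ` commutes with derivatives of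
polynomials, products, sums). -/
def StQIM : Prop := ∀ (R S : Type) [CommRing R] [CommRing S] (φ : R →+* S) (ι : Type) [Fintype ι]
  [DecidableEq ι] (b c : Matrix ι ι R) (k : ℕ),
  Qi (b.map φ) (c.map φ) k = (Qi b c k).map (Polynomial.map φ)

section rs

/-- restriction of scalars of a matrix over `𝓞 K` by an integral basis -/
noncomputable def rs (K : Type) [Field K] [NumberField K] {r : ℕ}
    (c : Matrix (Fin r) (Fin r) (𝓞 K)) :
    Matrix (Fin r × Fin (Module.finrank ℤ (𝓞 K))) (Fin r × Fin (Module.finrank ℤ (𝓞 K))) ℤ :=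
  fun i j => Algebra.leftMulMatrix (Module.finBasis ℤ (𝓞 K)) (c i.1 j.1) i.2 j.2

end rs

/-- RSC, EASY-MEDIUM.  The residue at 1 after restriction of scalars.

`c ↦ rs K c` is a ring homomorphism (`leftMulMatrix` is an algebra homomorphism, block
multiplication; `Fintype.sum_prod_type`), so `aeval (rs K c) f = rs K (aeval c f)` for `f ∈ ℤ[X]`
(polynomial induction; or `Matrix.comp`-type ring equivalences).  With `f = ∏ (X - 4γ_j)`,
`aeval c f = aeval c c.charpoly = 0` (Cayley-Hamilton, `Matrix.aeval_self_charpoly`). -/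
def StRSC : Prop := ∀ (K : Type) [Field K] [NumberField K] (r : ℕ)
  (c : Matrix (Fin r) (Fin r) (𝓞 K)) (γ : Fin r → ℤ),
  c.charpoly = ∏ j, (Polynomial.X - Polynomial.C ((4 * γ j : ℤ) : 𝓞 K)) →
  Polynomial.aeval (rs K c) (∏ j, (Polynomial.X - Polynomial.C (4 * γ j)) : ℤ[X]) = 0

/-- RSQ, MEDIUM.  The iterates after restriction of scalars.

Induction on `k` for all `i, j, n`, comparing coefficients in the recursion of `Qi`.  Write
`Λ : 𝓞 K → Matrix d d ℤ` for `leftMulMatrix` (ring homomorphism) and `q l j` for the entries of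
`Qi .. c k`.  Derivatives and multiplication by the scalar polynomials `C 8 * (X * (X-1))`,
`k C 8 (2X-1)`, `X - 1`, `X` (integral coefficients) commute with `Λ` coefficientwise (`Λ` is
`ℤ`-linear; e.g. extend `Λ` to polynomials: `f ↦ ∑_n monomial n (Λ (coeff n f) a b)` is
`ℤ[X]`-linear and commutes with the derivative).  The diagonal matrix: `dia ℤ (β ∘ fst)` acts on the
row `(i, a)` by `2 β_i`, and `dia (𝓞 K) β` on the row `i` by `2 β_i`.  The product with `rs K c`:
`∑_{(l,e)} Λ(c_il) a e * Λ(coeff q_lj) e b = ∑_l Λ(c_il coeff q_lj) a b`. -/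
def StRSQ : Prop := ∀ (K : Type) [Field K] [NumberField K] (r : ℕ) (β : Fin r → ℤ)
  (c : Matrix (Fin r) (Fin r) (𝓞 K)) (k n : ℕ)
  (i j : Fin r × Fin (Module.finrank ℤ (𝓞 K))),
  (Qi (dia ℤ (fun x : Fin r × Fin (Module.finrank ℤ (𝓞 K)) => β x.1)) (rs K c) k i j).coeff n =
    Algebra.leftMulMatrix (Module.finBasis ℤ (𝓞 K))
      ((Qi (dia (𝓞 K) β) c k i.1 j.1).coeff n) i.2 j.2

/-- PID, EASY.  An element of all maximal ideals over an unramified `p` is divisible by `p`.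

The radical ideal `(p)` is the intersection of the prime ideals containing it
(`Ideal.IsRadical`, `Ideal.radical_eq_sInf`); these are nonzero (`p ≠ 0`), so maximal
(`Ring.DimensionLEOne`, `Ideal.IsPrime.isMaximal`). -/
def StPID : Prop := ∀ (K : Type) [Field K] [NumberField K] (p : ℕ), p.Prime →
  (Ideal.span {(p : 𝓞 K)}).IsRadical → ∀ x : 𝓞 K,
  (∀ P : Ideal (𝓞 K), P.IsMaximal → (p : 𝓞 K) ∈ P → x ∈ P) → ∃ y : 𝓞 K, x = p * y

/-- RSP, EASY-MEDIUM.  The p-curvature after restriction of scalars.  USES QIM RSQ PID.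

Let `q = Qi (dia (𝓞 K) β) c p`.  For a maximal `P ∋ p`, `ringChar (𝓞 K ⧸ P) = p`, and
`PCurvZero` applied to `Q k = (Qi .. c k).map (Polynomial.map (Ideal.Quotient.mk P))` (recursion:
unfold `Qi`, ring homomorphism; `((8 : ℕ) : 𝓞 K)` maps to `8`) says that all coefficients of the
entries of `q` lie in `P`.  By PID they are divisible by `p`, so by RSQ (`leftMulMatrix` is
additive: `Λ(p y) = p Λ(y)`) all coefficients of the entries of `Qi (dia ℤ β') (rs K c) p` are
divisible by `p`.  Reduce modulo `p` (QIM for `ℤ → ZMod p`; `dia` maps to `dia`). -/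
def StRSP : Prop := ∀ (K : Type) [Field K] [NumberField K] (r : ℕ) (β : Fin r → ℤ)
  (c : Matrix (Fin r) (Fin r) (𝓞 K)) (p : ℕ), p.Prime →
  (Ideal.span {(p : 𝓞 K)}).IsRadical →
  (∀ P : Ideal (𝓞 K), P.IsMaximal → ringChar (𝓞 K ⧸ P) = p →
    PCurvZero 8 (Matrix.diagonal (fun i => ((2 * β i : ℤ) : 𝓞 K))) c P) →
  PZ (fun x : Fin r × Fin (Module.finrank ℤ (𝓞 K)) => β x.1) (rs K c) p

/-- RSU, MEDIUM.  The solutions after restriction of scalars.

Let `ω = finBasis`, `P i (j, a) = σ(ω a)` if `i = j`, else 0.  `c ω_b = ∑_a Λ(c) a b ω_a`, so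
`P (rs K c) = c^σ P` (`c^σ i j = σ(c i j)`): `∑_a σ(ω_a) Λ(c_ij) a b = σ(c_ij ω_b)`.
`W n = P * V n` satisfies `(8n + 2(β_j - β_i)) W n i (j,b) + ∑_{k<n} (c^σ W_k) i (j,b) = 0` (multiply the
equation of `V` by `σ(ω_a)` and sum over `a`), `W 0 = P`; `U n P` satisfies the same equations with
the same value at 0.  For `n ≥ 1` the factor `8n + 2(β_j - β_i)` is nonzero (hypothesis on `β`,
characteristic 0), so `W n = U n P` by strong induction. -/
def StRSU : Prop := ∀ (K : Type) [Field K] [NumberField K] (σ : K →+* ℂ) (r : ℕ) (β : Fin r → ℤ)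
  (c : Matrix (Fin r) (Fin r) (𝓞 K)) (U : ℕ → Matrix (Fin r) (Fin r) ℂ)
  (V : ℕ → Matrix (Fin r × Fin (Module.finrank ℤ (𝓞 K)))
    (Fin r × Fin (Module.finrank ℤ (𝓞 K))) ℚ),
  (∀ i j, (4 : ℤ) ∣ β i - β j → β i = β j) →
  IsU β (Matrix.of fun i j => σ (c i j : K)) U →
  IsU (fun x : Fin r × Fin (Module.finrank ℤ (𝓞 K)) => β x.1) (qm (rs K c)) V →
  ∀ (n : ℕ) (i j : Fin r) (b : Fin (Module.finrank ℤ (𝓞 K))),
    U n i j * σ ((Module.finBasis ℤ (𝓞 K) b : 𝓞 K) : K) =
      ∑ a, σ ((Module.finBasis ℤ (𝓞 K) a : 𝓞 K) : K) * ((V n (i, a) (j, b) : ℚ) : ℂ)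

/-- RSL, EASY-MEDIUM.  Algebraicity descends.  USES QC RSU.

Choose some `b` (the rank is positive); `σ(ω_b) ≠ 0`.  By RSU `mk (n ↦ U n i j)` is a
`ℂ`-linear combination of the power series `map (algebraMap ℚ ℂ) (mk (n ↦ V n (i,a) (j,b)))`, which
are algebraic over `ℂ[X]` (QC); sums and products with constants (`C z`, the image of a polynomial)
of algebraic elements are algebraic (`IsAlgebraic.add`, `.mul`, `isAlgebraic_algebraMap`). -/
def StRSL : Prop := ∀ (K : Type) [Field K] [NumberField K] (σ : K →+* ℂ) (r : ℕ) (β : Fin r → ℤ)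
  (c : Matrix (Fin r) (Fin r) (𝓞 K)) (U : ℕ → Matrix (Fin r) (Fin r) ℂ)
  (V : ℕ → Matrix (Fin r × Fin (Module.finrank ℤ (𝓞 K)))
    (Fin r × Fin (Module.finrank ℤ (𝓞 K))) ℚ),
  (∀ i j, (4 : ℤ) ∣ β i - β j → β i = β j) →
  IsU β (Matrix.of fun i j => σ (c i j : K)) U →
  IsU (fun x : Fin r × Fin (Module.finrank ℤ (𝓞 K)) => β x.1) (qm (rs K c)) V →
  (∀ x y, IsAlgebraic ℚ[X] (PowerSeries.mk fun n => V n x y)) →
  ∀ i j, IsAlgebraic ℂ[X] (PowerSeries.mk fun n => U n i j)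

/-- MZ, EASY-MEDIUM.  The theorem for integral systems.  USES StCrit StMap DEN GRO NUM UCV CON.

`th`, `w` from StMap; `StCrit` with `s = 4 log 2 + 4·0.4145 + 4/50`, `a n = U n i j`, `h`, `F` from
CON.  Denominators: `d = dJ S B J N` with `B` a bound of all `|β_i - β_j|`; integrality DEN, size
GRO (`dJ > 0`).  Size of `a`: UCV.  `s < log 91.1 ≤ log (‖deriv th 0‖^4) = 4 log ‖deriv th 0‖` (NUM,
IsMap.der). -/
def StMZ : Prop := ∀ (ι : Type) [Fintype ι] [DecidableEq ι] (β : ι → ℤ) (C : Matrix ι ι ℤ)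
  (S : Set ℕ) (U : ℕ → Matrix ι ι ℚ), Sys β C S → IsU β (qm C) U →
  ∀ i j, IsAlgebraic ℚ[X] (PowerSeries.mk fun n => U n i j)

/-- FIN, EASY-MEDIUM.  THE THEOREM (frozen form with `n = 8`).  USES UEX MZ RSC RSP RSL ALG.

`Sys β' (rs K c) S` for `β' x = β x.1`: `hβ` clear, `hC` RSC, `small`, `pz` RSP (for `p ∉ S` odd:
every maximal `P` with `ringChar = p` satisfies the hypothesis).  `V` from UEX over `ℚ`, algebraic
by MZ; `U` from UEX over `ℂ` for `σ(c)`; algebraic by RSL; ALG with `B i j = σ(b i j)/8 = β_i/4` on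
the diagonal. -/
def StFIN : Prop := ∀ (K : Type) [Field K] [NumberField K] (σ : K →+* ℂ) (r : ℕ)
  (β γ : Fin r → ℤ) (b c : Matrix (Fin r) (Fin r) (𝓞 K)) (S : Set ℕ),
  (∀ i j, (4 : ℤ) ∣ β i - β j → β i = β j) →
  b = Matrix.diagonal (fun i => ((2 * β i : ℤ) : 𝓞 K)) →
  c.charpoly = ∏ j, (Polynomial.X - Polynomial.C ((4 * γ j : ℤ) : 𝓞 K)) →
  SmallS S →
  (∀ p : ℕ, p.Prime → p ≠ 2 → p ∉ S → (Ideal.span {(p : 𝓞 K)}).IsRadical) →
  (∀ P : Ideal (𝓞 K), P.IsMaximal → ringChar (𝓞 K ⧸ P) ≠ 2 → ringChar (𝓞 K ⧸ P) ∉ S →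
    PCurvZero 8 b c P) →
  ∀ B D : Matrix (Fin r) (Fin r) ℂ, (∀ i j, B i j = σ (b i j : K) / 8) →
    (∀ i j, D i j = σ (c i j : K) / 8) → A.HasAlgebraicSolutions B D

end Pool.Agent.Work.MP_5e5ff1_ag.TG
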