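import Mathlib
import Pool.Agent.Work.MP_5e5ff1_ag.TG.StmtsE

set_option autoImplicit false

/-!
# MP_5e5ff1_ag, block TG, item LFT: the algebraic functions in the completion at 0
-/

open Matrix Filter Topology NumberField
open scoped Polynomial

namespace Pool.Agent.Work.MP_5e5ff1_ag.TG

namespace ILFT

theorem loc_zero (f : ℂ[X]) : A.loc 0 f = (f : PowerSeries ℂ) := by
  rw [A.loc_apply]
  simp

theorem algebraMap_poly (f : ℂ[X]) :
    algebraMap ℂ[X] (PowerSeries ℂ) f = (f : PowerSeries ℂ) := by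
  rw [PowerSeries.algebraMap_apply']
  simp

end ILFT

theorem pr_LFT : StLFT := by
  obtain ⟨φ, hφ, hφ'⟩ := A.exists_embedding (0 : ℂ)
  obtain ⟨D, hDer, hD, -⟩ := A.exists_derivation_EE
  obtain ⟨δ, hδ, hδ0, hδ1⟩ := A.exists_derivation_OO
  have hφ2 : ∀ f : ℂ[X], φ (algebraMap (RatFunc ℂ) A.OO (algebraMap ℂ[X] (RatFunc ℂ) f)) =
      algebraMap (PowerSeries ℂ) A.EE (f : PowerSeries ℂ) := by
    intro f
    rw [hφ, ILFT.loc_zero]
  refine ⟨φ, D, δ, hDer, hδ, hD, hδ0, hδ1,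
    fun y => A.derivation_comm hφ hDer hD hδ hδ0 hδ1 y, hφ2, ?_⟩
  rintro f ⟨P, hP, hPf⟩
  apply hφ'
  refine ⟨P.map (algebraMap ℂ[X] (RatFunc ℂ)), ?_, ?_⟩
  · intro h
    exact hP ((Polynomial.map_eq_zero_iff (IsFractionRing.injective ℂ[X] (RatFunc ℂ))).1 h)
  · have hψ : (φ.comp (algebraMap (RatFunc ℂ) A.OO)).comp (algebraMap ℂ[X] (RatFunc ℂ)) =
        (algebraMap (PowerSeries ℂ) A.EE).comp (algebraMap ℂ[X] (PowerSeries ℂ)) := by
      apply RingHom.ext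
      intro g
      show φ (algebraMap (RatFunc ℂ) A.OO (algebraMap ℂ[X] (RatFunc ℂ) g)) =
        algebraMap (PowerSeries ℂ) A.EE (algebraMap ℂ[X] (PowerSeries ℂ) g)
      rw [hφ2, ILFT.algebraMap_poly]
    rw [Polynomial.map_map, Polynomial.eval_map, hψ, ← Polynomial.hom_eval₂,
      ← Polynomial.aeval_def, hPf, map_zero]

end Pool.Agent.Work.MP_5e5ff1_ag.TG
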