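import Mathlib
import Pool.Agent.Work.MP_5e5ff1_ag.TG.StmtsD

set_option autoImplicit false

/-!
# MP_5e5ff1_ag, block TG, item MAJ: exponential growth
-/

namespace Pool.Agent.Work.MP_5e5ff1_ag.TG

namespace IMAJ

theorem geo (A : ℝ) (hA : 2 ≤ A) (n : ℕ) : ∑ k ∈ Finset.range n, A ^ (k + 1) ≤ 2 * A ^ n := by
  induction n with
  | zero => simp
  | succ n ih =>
    rw [Finset.sum_range_succ]
    have h1 : 0 ≤ A ^ n := pow_nonneg (by linarith) n
    have h2 : 2 * A ^ n ≤ A ^ (n + 1) := by
      rw [pow_succ]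
      nlinarith
    linarith

end IMAJ

theorem pr_MAJ : StMAJ := by
  intro x c n0 hc hx h
  set A : ℝ := max 2 (2 * c) + ∑ k ∈ Finset.range n0, x k with hA
  have hs : 0 ≤ ∑ k ∈ Finset.range n0, x k := Finset.sum_nonneg fun k _ => hx k
  have h2 : 2 ≤ A := by
    have := le_max_left 2 (2 * c)
    linarith
  have h2c : 2 * c ≤ A := by
    have := le_max_right 2 (2 * c)
    linarith
  have h1 : 1 ≤ A := by linarith
  refine ⟨A, h1, fun n => ?_⟩
  induction n using Nat.strong_induction_on with
  | _ n ih =>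
    rcases lt_or_ge n n0 with hn | hn
    · have h3 : x n ≤ ∑ k ∈ Finset.range n0, x k :=
        Finset.single_le_sum (f := x) (fun k _ => hx k) (Finset.mem_range.2 hn)
      have h4 : x n ≤ A := by
        have := le_max_left 2 (2 * c)
        linarith
      exact h4.trans (le_self_pow₀ h1 (by omega))
    · have h3 : ∑ k ∈ Finset.range n, x k ≤ ∑ k ∈ Finset.range n, A ^ (k + 1) :=
        Finset.sum_le_sum fun k hk => ih k (Finset.mem_range.1 hk)
      have h4 := IMAJ.geo A h2 n
      have h5 : c * ∑ k ∈ Finset.range n, x k ≤ c * (2 * A ^ n) :=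
        mul_le_mul_of_nonneg_left (h3.trans h4) hc
      have h6 : 0 ≤ A ^ n := pow_nonneg (by linarith) n
      have h7 : c * (2 * A ^ n) ≤ A ^ (n + 1) := by
        rw [pow_succ]
        nlinarith
      exact (h n hn).trans (h5.trans h7)

end Pool.Agent.Work.MP_5e5ff1_ag.TG
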