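import Mathlib
import Pool.Agent.Work.MP_5e5ff1_ag.TG.StmtsB

set_option autoImplicit false

/-!
# MP_5e5ff1_ag, block TG, item MAX: the maximum principle
-/

open Filter Topology
open scoped Polynomial

namespace Pool.Agent.Work.MP_5e5ff1_ag.TG

/-- item MAX -/
theorem pr_MAX : StMax := by
  intro G g m ρ M hG hg hGg hρ0 hρ1 hM
  classical
  set k : ℂ → ℂ := fun z => if z = 0 then g 0 else G z / z ^ m with hk
  have hkg : k =ᶠ[𝓝 0] g := by
    filter_upwards [hGg] with z hz
    by_cases h0 : z = 0
    · rw [h0, hk]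
      exact if_pos rfl
    · have h1 : k z = G z / z ^ m := if_neg h0
      rw [h1, hz, mul_div_cancel_left₀ _ (pow_ne_zero m h0)]
  have hd0 : DifferentiableAt ℂ k 0 := (hg.congr hkg.symm).differentiableAt
  have hd : DifferentiableOn ℂ k (Metric.ball 0 1) := by
    intro z hz
    by_cases h0 : z = 0
    · rw [h0]
      exact hd0.differentiableWithinAt
    · have h1 : k =ᶠ[𝓝 z] fun w => G w / w ^ m := by
        filter_upwards [isOpen_ne.mem_nhds h0] with w hw
        exact if_neg hw
      have h2 : DifferentiableAt ℂ (fun w => G w / w ^ m) z :=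
        ((hG z hz).differentiableAt (Metric.isOpen_ball.mem_nhds hz)).div
          (differentiableAt_id.pow m) (pow_ne_zero m h0)
      exact (h2.congr_of_eventuallyEq h1).differentiableWithinAt
  have hcl : closure (Metric.ball (0 : ℂ) ρ) ⊆ Metric.ball 0 1 :=
    Metric.closure_ball_subset_closedBall.trans (Metric.closedBall_subset_ball hρ1)
  have hdc : DiffContOnCl ℂ k (Metric.ball 0 ρ) := (hd.mono hcl).diffContOnCl
  have h0 : ‖k 0‖ ≤ M / ρ ^ m := by
    refine Complex.norm_le_of_forall_mem_frontier_norm_le Metric.isBounded_ball hdc ?_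
      (subset_closure (Metric.mem_ball_self hρ0))
    intro z hz
    rw [frontier_ball (0 : ℂ) hρ0.ne', mem_sphere_zero_iff_norm] at hz
    have hz0 : z ≠ 0 := by
      intro h
      rw [h, norm_zero] at hz
      exact hρ0.ne hz
    have h1 : k z = G z / z ^ m := if_neg hz0
    rw [h1, norm_div, norm_pow, hz]
    exact div_le_div_of_nonneg_right (hM z hz.le) (pow_pos hρ0 m).le
  have h2 : k 0 = g 0 := if_pos rfl
  rw [h2, le_div_iff₀ (pow_pos hρ0 m)] at h0
  exact h0

end Pool.Agent.Work.MP_5e5ff1_ag.TG
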