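import Mathlib
import Pool.Agent.Work.MP_5e5ff1_ag.TG.StmtsB

set_option autoImplicit false

/-!
# MP_5e5ff1_ag, block TG, item NZA: the auxiliary series is not zero
-/

open Filter Topology
open scoped Polynomial

namespace Pool.Agent.Work.MP_5e5ff1_ag.TG

namespace INZA

/-- the coefficient polynomials -/
noncomputable def cf (X : ℕ) (q : ℕ → ℕ → ℤ) (j : ℕ) : ℚ[X] :=
  ∑ i ∈ Finset.range X, Polynomial.C ((q j i : ℤ) : ℚ) * Polynomial.X ^ i

theorem cf_coeff (X : ℕ) (q : ℕ → ℕ → ℤ) (j i : ℕ) (hi : i < X) :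
    (cf X q j).coeff i = ((q j i : ℤ) : ℚ) := by
  unfold cf
  rw [Polynomial.finsetSum_coeff]
  simp only [Polynomial.coeff_C_mul_X_pow]
  rw [Finset.sum_ite_eq, if_pos (Finset.mem_range.2 hi)]

/-- the polynomial over the polynomial ring -/
noncomputable def pl (J X : ℕ) (q : ℕ → ℕ → ℤ) : ℚ[X][X] :=
  ∑ j ∈ Finset.range J, Polynomial.C (cf X q j) * Polynomial.X ^ j

theorem pl_coeff (J X : ℕ) (q : ℕ → ℕ → ℤ) (j : ℕ) (hj : j < J) :
    (pl J X q).coeff j = cf X q j := by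
  unfold pl
  rw [Polynomial.finsetSum_coeff]
  simp only [Polynomial.coeff_C_mul_X_pow]
  rw [Finset.sum_ite_eq, if_pos (Finset.mem_range.2 hj)]

theorem map_cf (X : ℕ) (q : ℕ → ℕ → ℤ) (j : ℕ) :
    algebraMap ℚ[X] (PowerSeries ℚ) (cf X q j) =
      ∑ i ∈ Finset.range X, PowerSeries.C ((q j i : ℤ) : ℚ) * (PowerSeries.X : PowerSeries ℚ) ^ i := by
  unfold cf
  rw [map_sum]
  refine Finset.sum_congr rfl fun i _ => ?_
  rw [map_mul, map_pow, PowerSeries.algebraMap_apply', PowerSeries.algebraMap_apply',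
    Polynomial.coe_C, Polynomial.coe_X, PowerSeries.map_C, PowerSeries.map_X,
    Algebra.algebraMap_self, RingHom.id_apply]

theorem aeval_pl (a : ℕ → ℚ) (J X : ℕ) (q : ℕ → ℕ → ℤ) :
    Polynomial.aeval (PowerSeries.mk a : PowerSeries ℚ) (pl J X q) = aux a J X q := by
  unfold pl aux
  rw [map_sum]
  refine Finset.sum_congr rfl fun j _ => ?_
  rw [map_mul, map_pow, Polynomial.aeval_C, Polynomial.aeval_X, map_cf, Finset.sum_mul]
  refine Finset.sum_congr rfl fun i _ => ?_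
  rw [mul_assoc]

end INZA

theorem pr_NZA : StNza := by
  rintro a J X q hna ⟨j, hj, i, hi, hq⟩ h0
  refine hna ⟨INZA.pl J X q, ?_, ?_⟩
  · intro h
    have h1 := INZA.pl_coeff J X q j hj
    rw [h, Polynomial.coeff_zero] at h1
    have h2 := INZA.cf_coeff X q j i hi
    rw [← h1, Polynomial.coeff_zero] at h2
    exact hq (by exact_mod_cast h2.symm)
  · rw [INZA.aeval_pl, h0]

end Pool.Agent.Work.MP_5e5ff1_ag.TG
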