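import Mathlib
import Pool.Agent.Work.MP_5e5ff1_ag.TG.StmtsB

set_option autoImplicit false

/-!
# MP_5e5ff1_ag, block TG, item ORD: the order of zero at the origin
-/

open Filter Topology

namespace Pool.Agent.Work.MP_5e5ff1_ag.TG

theorem pr_ORD : StOrd := by
  intro h hd hex
  obtain ⟨z, hz, hzne⟩ := hex
  have hopen : IsOpen (Metric.ball (0 : ℂ) 1) := Metric.isOpen_ball
  have han : AnalyticOnNhd ℂ h (Metric.ball 0 1) := hd.analyticOnNhd hopen
  have h0mem : (0 : ℂ) ∈ Metric.ball (0 : ℂ) 1 := Metric.mem_ball_self one_pos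
  have h0 : AnalyticAt ℂ h 0 := han 0 h0mem
  have hne : ¬ ∀ᶠ w in 𝓝 (0 : ℂ), h w = 0 := by
    intro hev
    have hpre : IsPreconnected (Metric.ball (0 : ℂ) 1) := (convex_ball (0 : ℂ) 1).isPreconnected
    have := han.eqOn_zero_of_preconnected_of_eventuallyEq_zero hpre h0mem hev
    exact hzne (this hz)
  obtain ⟨ν, g, hg, hg0, hev⟩ := h0.exists_eventuallyEq_pow_smul_nonzero_iff.mpr hne
  refine ⟨ν, g, hg, hg0, ?_⟩
  filter_upwards [hev] with w hw
  simpa using hw

end Pool.Agent.Work.MP_5e5ff1_ag.TG
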