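import Mathlib
import Pool.Agent.Work.MP_5e5ff1_ag.TG.StmtsE

set_option autoImplicit false

/-!
# Item PID: an element of all maximal ideals over an unramified prime is divisible by the prime
-/

open Matrix Filter Topology NumberField
open scoped Polynomial

namespace Pool.Agent.Work.MP_5e5ff1_ag.TG

theorem pr_PID : StPID := by
  intro K _ _ p hp hrad x hx
  have h1 : x ∈ Ideal.span {(p : 𝓞 K)} := by
    rw [← hrad.radical, Ideal.radical_eq_sInf, Ideal.mem_sInf]
    rintro P ⟨hPI, hPp⟩
    have hpP : (p : 𝓞 K) ∈ P := hPI (Ideal.mem_span_singleton_self _)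
    have hne : P ≠ ⊥ := by
      rintro rfl
      rw [Ideal.mem_bot, Nat.cast_eq_zero] at hpP
      exact hp.ne_zero hpP
    exact hx P (hPp.isMaximal hne) hpP
  obtain ⟨y, hy⟩ := Ideal.mem_span_singleton.1 h1
  exact ⟨y, hy⟩

end Pool.Agent.Work.MP_5e5ff1_ag.TG
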