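import Mathlib
import Pool.Agent.Work.MP_5e5ff1_ag.TG.StmtsB

set_option autoImplicit false

/-!
# MP_5e5ff1_ag, block TG, item PWR (helper35): size of the coefficients of the powers
-/

open Filter Topology
open scoped Polynomial

namespace Pool.Agent.Work.MP_5e5ff1_ag.TG

namespace IPWR

theorem geo (n : ℕ) : ∑ x ∈ Finset.range n, (2 : ℝ) ^ x ≤ 2 ^ n := by
  induction n with
  | zero => simp
  | succ n ih =>
    rw [Finset.sum_range_succ, pow_succ]
    linarith

end IPWR

theorem pr_PWR : StPwr := by
  intro a A hA ha j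
  induction j with
  | zero =>
    intro k
    rw [pow_zero, PowerSeries.coeff_one]
    have h1 : (1 : ℝ) ≤ (2 * A) ^ (k + 0) := one_le_pow₀ (by linarith)
    split_ifs
    · simpa using h1
    · rw [Rat.cast_zero, abs_zero]
      linarith
  | succ j ih =>
    intro k
    have hA0 : 0 ≤ A := by linarith
    rw [pow_succ, PowerSeries.coeff_mul,
      Finset.Nat.sum_antidiagonal_eq_sum_range_succ
        (fun x y => PowerSeries.coeff x ((PowerSeries.mk a) ^ j) * PowerSeries.coeff y (PowerSeries.mk a)),
      Rat.cast_sum]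
    calc |∑ x ∈ Finset.range k.succ, ((PowerSeries.coeff x ((PowerSeries.mk a) ^ j) *
          PowerSeries.coeff (k - x) (PowerSeries.mk a) : ℚ) : ℝ)|
        ≤ ∑ x ∈ Finset.range k.succ, |((PowerSeries.coeff x ((PowerSeries.mk a) ^ j) *
          PowerSeries.coeff (k - x) (PowerSeries.mk a) : ℚ) : ℝ)| := Finset.abs_sum_le_sum_abs _ _
      _ ≤ ∑ x ∈ Finset.range k.succ, A ^ (k + j + 1) * 2 ^ j * 2 ^ x := by
          apply Finset.sum_le_sum
          intro x hx
          have hxk : x ≤ k := by
            have := Finset.mem_range.1 hx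
            omega
          rw [Rat.cast_mul, abs_mul, PowerSeries.coeff_mk]
          calc |((PowerSeries.coeff x ((PowerSeries.mk a) ^ j) : ℚ) : ℝ)| * |((a (k - x) : ℚ) : ℝ)|
              ≤ (2 * A) ^ (x + j) * A ^ (k - x + 1) :=
                mul_le_mul (ih x) (ha (k - x)) (abs_nonneg _) (by positivity)
            _ = A ^ (k + j + 1) * 2 ^ j * 2 ^ x := by
                have e : k + j + 1 = (x + j) + (k - x + 1) := by omega
                rw [e, pow_add A (x + j), mul_pow, pow_add 2 x j]
                ring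
      _ = A ^ (k + j + 1) * 2 ^ j * ∑ x ∈ Finset.range k.succ, (2 : ℝ) ^ x := by
          rw [Finset.mul_sum]
      _ ≤ A ^ (k + j + 1) * 2 ^ j * 2 ^ k.succ :=
          mul_le_mul_of_nonneg_left (IPWR.geo _) (by positivity)
      _ = (2 * A) ^ (k + (j + 1)) := by
          have e : k + (j + 1) = k + j + 1 := by omega
          have e2 : k.succ = k + 1 := rfl
          rw [e, mul_pow, e2, show k + j + 1 = j + (k + 1) by omega, pow_add 2 j (k + 1)]
          ring

end Pool.Agent.Work.MP_5e5ff1_ag.TG
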