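import Mathlib
import Pool.Agent.Work.MP_5e5ff1_ag.TG.StmtsE

set_option autoImplicit false

/-!
# MP_5e5ff1_ag, block TG, item QC: algebraic power series stay algebraic over the complex numbers
-/

open scoped Polynomial

namespace Pool.Agent.Work.MP_5e5ff1_ag.TG

theorem pr_QC : StQC := by
  intro f hf
  obtain ⟨p, hp0, hp⟩ := hf
  refine ⟨p.map (Polynomial.mapRingHom (algebraMap ℚ ℂ)), ?_, ?_⟩
  · rw [Ne, Polynomial.map_eq_zero_iff (Polynomial.map_injective _ (algebraMap ℚ ℂ).injective)]
    exact hp0
  · rw [Polynomial.aeval_def, Polynomial.eval₂_map]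
    have h := congrArg (PowerSeries.map (algebraMap ℚ ℂ)) hp
    rw [map_zero, Polynomial.aeval_def, Polynomial.hom_eval₂] at h
    rw [← h]
    congr 1
    refine RingHom.ext fun q => ?_
    rw [RingHom.comp_apply, RingHom.comp_apply, Polynomial.coe_mapRingHom,
      PowerSeries.algebraMap_apply', PowerSeries.algebraMap_apply']
    ext n
    simp

end Pool.Agent.Work.MP_5e5ff1_ag.TG
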