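import Mathlib
import Pool.Agent.Work.MP_5e5ff1_ag.TG.StmtsB

set_option autoImplicit false

/-!
# MP_5e5ff1_ag, block TG, item SGL: Siegel's lemma
-/

open Matrix

namespace Pool.Agent.Work.MP_5e5ff1_ag.TG

namespace ISGL

attribute [local instance] Matrix.seminormedAddCommGroup

/-- the coefficients of `aux` -/
theorem coeff_aux (a : ℕ → ℚ) (J X : ℕ) (q : ℕ → ℕ → ℤ) (n : ℕ) :
    PowerSeries.coeff n (aux a J X q) = ∑ j ∈ Finset.range J, ∑ i ∈ Finset.range X,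
      (q j i : ℚ) * (if i ≤ n then PowerSeries.coeff (n - i) ((PowerSeries.mk a) ^ j) else 0) := by
  unfold aux
  rw [map_sum]
  refine Finset.sum_congr rfl fun j _ => ?_
  rw [map_sum]
  refine Finset.sum_congr rfl fun i _ => ?_
  rw [PowerSeries.coeff_C_mul, PowerSeries.coeff_X_pow_mul']

/-- the solution of the system of linear equations -/
theorem siegel {J X T L : ℕ} {B : ℝ} (hL : 2 ≤ L) (hT : 0 < T) (hLT : L * T ≤ J * X)
    (hB : 1 ≤ B) (M : Matrix (Fin T) (Fin J × Fin X) ℤ) (hM : ∀ m ji, |(M m ji : ℝ)| ≤ B) :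
    ∃ t : Fin J × Fin X → ℤ, t ≠ 0 ∧ M *ᵥ t = 0 ∧
      ∀ ji, |(t ji : ℝ)| ≤ ((J : ℝ) * X * B) ^ (1 / ((L : ℝ) - 1)) := by
  have hTlt : T < J * X := by
    have : T < L * T := by nlinarith
    omega
  have hcard : Fintype.card (Fin J × Fin X) = J * X := by simp
  have hcard' : Fintype.card (Fin T) = T := by simp
  obtain ⟨t, ht0, ht, hn⟩ := Int.Matrix.exists_ne_zero_int_vec_norm_le M
    (by rw [hcard, hcard']; exact hTlt) (by rw [hcard']; exact hT)
  refine ⟨t, ht0, ht, fun ji => ?_⟩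
  rw [hcard, hcard'] at hn
  have h1 : |(t ji : ℝ)| ≤ ‖t‖ := by
    have := norm_le_pi_norm t ji
    rwa [Int.norm_eq_abs] at this
  refine h1.trans (hn.trans ?_)
  have hMn : ‖M‖ ≤ B := by
    rw [Matrix.norm_le_iff (by linarith)]
    intro i j
    rw [Int.norm_eq_abs]
    exact hM i j
  have hmax : max 1 ‖M‖ ≤ B := max_le hB hMn
  have hJX : (1 : ℝ) ≤ (J : ℝ) * X := by
    have : 1 ≤ J * X := by omega
    exact_mod_cast this
  have hL1 : (0 : ℝ) < (L : ℝ) - 1 := by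
    have : (2 : ℝ) ≤ L := by exact_mod_cast hL
    linarith
  have hTr : (0 : ℝ) < T := by exact_mod_cast hT
  have hlt : (0 : ℝ) < (J : ℝ) * X - T := by
    have : (T : ℝ) < (J : ℝ) * X := by exact_mod_cast hTlt
    linarith
  push_cast
  have h2 : (J : ℝ) * X * max 1 ‖M‖ ≤ (J : ℝ) * X * B :=
    mul_le_mul_of_nonneg_left hmax (by linarith)
  have h3 : (1 : ℝ) ≤ (J : ℝ) * X * B := by nlinarith
  have h4 : (0 : ℝ) ≤ (J : ℝ) * X * max 1 ‖M‖ :=
    mul_nonneg (by linarith) (le_trans zero_le_one (le_max_left _ _))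
  have h5 : (T : ℝ) / ((J : ℝ) * X - T) ≤ 1 / ((L : ℝ) - 1) := by
    rw [div_le_div_iff₀ hlt hL1]
    have : (L : ℝ) * T ≤ (J : ℝ) * X := by exact_mod_cast hLT
    nlinarith
  exact (Real.rpow_le_rpow h4 h2 (div_nonneg hTr.le hlt.le)).trans
    (Real.rpow_le_rpow_of_exponent_le h3 h5)

end ISGL

open ISGL

/-- Item SGL. -/
theorem pr_SGL : StSgl := by
  intro a J X T d L B hL hT hLT hB hd h
  choose! z hz hzB using h
  set M : Matrix (Fin T) (Fin J × Fin X) ℤ := fun m ji =>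
    if (ji.2 : ℕ) ≤ (m : ℕ) then z ji.1 ((m : ℕ) - ji.2) else 0 with hMdef
  have hM : ∀ m ji, |(M m ji : ℝ)| ≤ B := by
    intro m ji
    simp only [hMdef]
    split_ifs with hle
    · exact hzB _ ji.1.isLt _ ((Nat.sub_le _ _).trans_lt m.isLt)
    · simp only [Int.cast_zero, abs_zero]
      linarith
  obtain ⟨t, ht0, ht, htB⟩ := siegel hL hT hLT hB M hM
  set q : ℕ → ℕ → ℤ := fun j i =>
    if hji : j < J ∧ i < X then t (⟨j, hji.1⟩, ⟨i, hji.2⟩) else 0 with hq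
  have hqt : ∀ ji : Fin J × Fin X, q ji.1 ji.2 = t ji := by
    intro ji
    simp only [hq]
    rw [dif_pos ⟨ji.1.isLt, ji.2.isLt⟩]
  refine ⟨q, ?_, fun n hn => ?_, fun j i => ?_⟩
  · obtain ⟨ji, hji⟩ := Function.ne_iff.1 ht0
    exact ⟨ji.1, ji.1.isLt, ji.2, ji.2.isLt, by rw [hqt]; exact hji⟩
  · have hd' : (d : ℚ) ≠ 0 := by exact_mod_cast hd.ne'
    refine (mul_eq_zero.1 ?_).resolve_left hd'
    rw [coeff_aux, Finset.sum_range]
    have h1 : ∀ j : Fin J, ∑ i ∈ Finset.range X, (q j i : ℚ) *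
        (if i ≤ n then PowerSeries.coeff (n - i) ((PowerSeries.mk a) ^ (j : ℕ)) else 0) =
        ∑ i : Fin X, (q j i : ℚ) * (if (i : ℕ) ≤ n then
          PowerSeries.coeff (n - i) ((PowerSeries.mk a) ^ (j : ℕ)) else 0) := fun j =>
      Finset.sum_range _
    simp only [h1]
    rw [← Fintype.sum_prod_type (f := fun ji : Fin J × Fin X => (q ji.1 ji.2 : ℚ) *
      (if (ji.2 : ℕ) ≤ n then
        PowerSeries.coeff (n - ji.2) ((PowerSeries.mk a) ^ (ji.1 : ℕ)) else 0)), Finset.mul_sum]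
    have h2 := congrFun ht ⟨n, hn⟩
    have h3 : ((∑ ji, M ⟨n, hn⟩ ji * t ji : ℤ) : ℚ) = 0 := by
      have : ∑ ji, M ⟨n, hn⟩ ji * t ji = 0 := h2
      rw [this]
      simp
    refine Eq.trans ?_ h3
    rw [Int.cast_sum]
    refine Finset.sum_congr rfl fun ji _ => ?_
    rw [hqt, Int.cast_mul]
    simp only [hMdef]
    split_ifs with hle
    · rw [← hz _ ji.1.isLt _ ((Nat.sub_le _ _).trans_lt hn)]
      ring
    · simp
  · simp only [hq]
    split_ifs with hji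
    · exact htB _
    · simp only [Int.cast_zero, abs_zero]
      exact Real.rpow_nonneg (by positivity) _

end Pool.Agent.Work.MP_5e5ff1_ag.TG
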