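import Mathlib
import Pool.Agent.Work.MP_5e5ff1_ag.TG.Defs

set_option autoImplicit false

/-!
# MP_5e5ff1_ag, block TG, part C: the map (`StMap`)

Every docstring is the complete proof.  Co-captain helper45 (captain helper18).  No theta functions:
the extremal map of the disc is approximated by a finite chain of Landen transformations.
-/

open Filter Topology

namespace Pool.Agent.Work.MP_5e5ff1_ag.TG

/-- `F` is holomorphic on the unit disc, omits `0, 1, -1`, `F 0 = s` and `‖F' 0‖ = D s` -/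
def QF (s D : ℝ) : Prop := ∃ F : ℂ → ℂ, DifferentiableOn ℂ F (Metric.ball 0 1) ∧
  (∀ z ∈ Metric.ball (0 : ℂ) 1, F z ≠ 0 ∧ F z ≠ 1 ∧ F z ≠ -1) ∧ F 0 = (s : ℂ) ∧
  ‖deriv F 0‖ = D * s

/-- SQR, EASY-MEDIUM.  Holomorphic square roots on the disc.

`f' / f` is holomorphic on the disc, so it has a primitive there
(`Mathlib/Analysis/Complex/HasPrimitives.lean`: `DifferentiableOn.isExactOn_ball`); subtract a
constant to get `L` with `L 0 = 0`, `L' = f'/f`.  The derivative of `f exp(-L)` is 0 on the disc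
(convex, hence `Convex.is_const_of_fderivWithin_eq_zero` or `IsOpen.is_const_of_deriv_eq_zero`), so
`f = f 0 exp L` on the disc; `g = c exp(L/2)`. -/
def StSqr : Prop := ∀ (f : ℂ → ℂ) (c : ℂ), DifferentiableOn ℂ f (Metric.ball 0 1) →
  (∀ z ∈ Metric.ball (0 : ℂ) 1, f z ≠ 0) → c ^ 2 = f 0 →
  ∃ g : ℂ → ℂ, DifferentiableOn ℂ g (Metric.ball 0 1) ∧
    (∀ z ∈ Metric.ball (0 : ℂ) 1, g z ^ 2 = f z) ∧ g 0 = c

/-- BAS, EASY-MEDIUM.  The universal covering of the punctured disc.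

With `c = - log s > 0` take `F z = exp (-c (1 + z) / (1 - z))`.  For `‖z‖ < 1` the real part of
`(1 + z)/(1 - z)` is `(1 - ‖z‖²)/‖1 - z‖² > 0`, so `‖F z‖ = exp (-c Re ...) < 1` and `F z ≠ ±1`;
`exp` has no zeros.  `F 0 = exp (-c) = s`; the derivative of `(1+z)/(1-z)` at 0 is 2, so
`F' 0 = -2 c s`. -/
def StBas : Prop := ∀ s : ℝ, 0 < s → s < 1 → QF s (2 * Real.log (1 / s))

/-- STP, EASY-MEDIUM.  The Landen step.  USES SQR.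

Let `F` be given by `QF s D`, `g` by SQR with `g ^ 2 = F`, `g 0 = √s`; `G = 2 g / (1 + F)`.
`1 - G² = ((1 - F)/(1 + F))² ≠ 0`, so `G ≠ ±1`; `G ≠ 0` since `g² = F ≠ 0`.  `G 0 = 2√s/(1+s)`.
`2 g g' = F'` at 0, so `‖g' 0‖ = D s / (2 √s) = D √s / 2`, and `G = 2g/(1+g²)`,
`G' = 2 g' (1 - g²)/(1 + g²)²`, so `‖G' 0‖ = D √s (1 - s)/(1 + s)²`, which is
`(D (1 - s)/(2 (1 + s))) · (2 √s/(1 + s))`. -/
def StStp : Prop := ∀ s D : ℝ, 0 < s → s < 1 → QF s D →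
  QF (2 * Real.sqrt s / (1 + s)) (D * (1 - s) / (2 * (1 + s)))

/-- IND, MEDIUM (real numbers).  Iteration of the step.  USES BAS STP.

Induction on `k` for all `t`.  `k = 0`: BAS; `log (4/t) - log 4 = log (1/t) ≥ 0` and
`1 - 2t² ≤ 1`.  Step `k → k+1`: let `c = √(1 - t²)`, `s = (t/(1+c))²`.  `√s = t/(1+c)`,
`1 + s = 2/(1+c)`, so `2√s/(1+s) = t`, and `(1-s)/(1+s) = c`.  `0 < s ≤ t²/3 ≤ 1/10` (`c ≥ 3/4`).
By the induction hypothesis `QF s D` with `D ≥ 2(1-2s²)(log(4/s) - log 4/2^k)`; by STP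
`QF t (D c / 2)`.  Now `log (4/s) = 2 (log (4/t) + log ((1+c)/2))` and
`log ((1+c)/2) ≥ -51/100 t²` (`c ≥ c² = 1 - t²`, `(1+c)/2 ≥ 1 - t²/2`, `log y ≥ 1 - 1/y`,
`t² ≤ 1/100`).  Let `Λ = log (4/t) - log 4/2^(k+1)`; `Λ ≥ log (4/t) - log 2 = log (2/t) ≥ log 20 ≥
2.99`... (enough: `Λ ≥ 2`, from `log 20 ≥ 2`, `exp 2 < 7.4`), so
`Λ - 51/100 t² ≥ Λ (1 - 26/100 t²)`.  So
`D c / 2 ≥ 2 c (1 - 2s²)(Λ - 51/100 t²) ≥ 2 (1 - t²)(1 - t²/450)(1 - 26/100 t²) Λ ≥ 2 (1 - 2t²) Λ`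
(`2 s² ≤ 2 t⁴/9 ≤ t²/450`). -/
def StInd : Prop := ∀ (k : ℕ) (t : ℝ), 0 < t → t ≤ 1 / 10 → ∃ D : ℝ, QF t D ∧
  2 * (1 - 2 * t ^ 2) * (Real.log (4 / t) - Real.log 4 / 2 ^ k) ≤ D

/-- EXT, EASY-MEDIUM (numerics).  The value at `3 - 2√2`.  USES IND STP.

Let `t = 3 - 2√2` (`0.17157 < t < 0.17157288`), `c = √(1 - t²)` (`c² = 12√2 - 16 > 0.97056`, so
`0.98517 < c < 1`), `s = (t/(1+c))²`, so `0 < s < 0.00748`.  As in IND `2√s/(1+s) = t` and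
`(1-s)/(1+s) = c`.  IND with `k = 20` gives `QF s D`, `D ≥ 2(1-2s²)(log(4/s) - log 4/2^20)`, STP
gives `QF t (D c/2)`.  `4/s = (2(1+c)/t)²` and `2(1+c)/t > 3.97034/0.17157288 > 23.14`, and
`exp 3.14 < 23.11` (`Real.exp_one_lt_d9` and a Taylor bound for `exp 0.14`), so `log(4/s) ≥ 6.28`.
So `D c/2 ≥ (1 - 0.00012)(6.28 - 0.000002) · 0.98517 > 6.18 > 6.179`. -/
def StExt : Prop := ∃ D : ℝ, QF (3 - 2 * Real.sqrt 2) D ∧ 6179 / 1000 ≤ D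

/-- MPF, MEDIUM.  The map.  USES SQR.

Let `F` be given by `QF s D`, `s = 3 - 2√2`, so `s² - 6 s + 1 = 0`.  By SQR there are `ρ` with
`ρ² = -F` and `κ` with `κ² = 8 ρ (1 - F)` (`ρ ≠ 0`, `F ≠ 1`), holomorphic on the disc (take any
square root at 0).  Put `th = (F² - 6F + 1)/((1 + F) κ)` and
`w = ((F² - 6F + 1)² - 2 (1+F)⁴)/(8 ρ (1 - F)(1+F)²)`.  Then
`th⁴ = -(F²-6F+1)⁴/(64 F (1-F)²(1+F)⁴)` since `κ⁴ = 64 ρ² (1-F)² = -64 F (1-F)²`, and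
`w² = -((F²-6F+1)² - 2(1+F)⁴)²/(64 F (1-F)²(1+F)⁴)`; `th⁴ - 1 = w²` is the polynomial identity
`64 F (1-F)² (1+F)⁴ = ((A² - 2B)² - A⁴)`, `A = F² - 6F + 1`, `B = (1+F)⁴`
(`= 4B(B - A²)` and `B - A² = 16 F (1-F)²`).  `th 0 = 0`.  Since `A` vanishes at `F 0`,
`th' 0 = (2 s - 6) F' 0/((1 + s) κ 0)`, so `‖th' 0‖⁴ = (6 - 2s)⁴ (D s)⁴/((1+s)⁴ 64 s (1-s)²)`, and
with `s = (√2-1)²`, `6 - 2s = 4√2`, `1 + s = 2√2(√2-1)`, `1 - s = 2(√2-1)` this is `D⁴/16`;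
`6.179⁴/16 > 91.1`. -/
def StMpf : Prop := ∀ D : ℝ, QF (3 - 2 * Real.sqrt 2) D → 6179 / 1000 ≤ D → StMap

end Pool.Agent.Work.MP_5e5ff1_ag.TG
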