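import Mathlib
import Pool.Agent.Work.MP_5e5ff1_ag.TG.StmtsC

set_option autoImplicit false

/-!
# MP_5e5ff1_ag, block TG, item SQR: holomorphic square roots on the disc
-/

open Filter Topology

namespace Pool.Agent.Work.MP_5e5ff1_ag.TG

/-- Item SQR. -/
theorem pr_SQR : StSqr := by
  intro f c hf hne hc
  have hopen : IsOpen (Metric.ball (0 : ℂ) 1) := Metric.isOpen_ball
  have h0 : (0 : ℂ) ∈ Metric.ball (0 : ℂ) 1 := Metric.mem_ball_self one_pos
  have hq : DifferentiableOn ℂ (fun z => deriv f z / f z) (Metric.ball 0 1) :=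
    (hf.deriv hopen).div hf hne
  obtain ⟨L, hL0, hL⟩ := hq.isExactOn_ball.with_val_at 0 0
  have hfd : ∀ z ∈ Metric.ball (0 : ℂ) 1, HasDerivAt f (deriv f z) z := fun z hz =>
    (hf.differentiableAt (hopen.mem_nhds hz)).hasDerivAt
  have hF : ∀ z ∈ Metric.ball (0 : ℂ) 1, HasDerivAt (fun y => f y * Complex.exp (-(L y))) 0 z := by
    intro z hz
    have h1 := (hfd z hz).mul ((hL z hz).neg.cexp)
    have h2 : deriv f z * Complex.exp (-(L z)) +
        f z * (Complex.exp (-(L z)) * -(deriv f z / f z)) = 0 := by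
      have := hne z hz
      field_simp
      ring
    rw [← h2]
    exact h1
  have hconst : ∀ z ∈ Metric.ball (0 : ℂ) 1, f z * Complex.exp (-(L z)) = f 0 := by
    intro z hz
    have h1 := hopen.is_const_of_deriv_eq_zero (convex_ball (0 : ℂ) 1).isPreconnected
      (fun y hy => (hF y hy).differentiableAt.differentiableWithinAt)
      (fun y hy => (hF y hy).deriv) hz h0
    simpa [hL0] using h1
  refine ⟨fun z => c * Complex.exp (L z / 2), ?_, fun z hz => ?_, ?_⟩
  · intro z hz
    exact (((hL z hz).differentiableAt.div_const 2).cexp.const_mul c).differentiableWithinAt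
  · have h1 := hconst z hz
    show (c * Complex.exp (L z / 2)) ^ 2 = f z
    rw [mul_pow, hc, ← Complex.exp_nat_mul, ← h1, mul_assoc, ← Complex.exp_add]
    have h2 : -L z + ((2 : ℕ) : ℂ) * (L z / 2) = 0 := by
      push_cast
      ring
    rw [h2, Complex.exp_zero, mul_one]
  · show c * Complex.exp (L 0 / 2) = c
    rw [hL0, zero_div, Complex.exp_zero, mul_one]

end Pool.Agent.Work.MP_5e5ff1_ag.TG
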