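import Mathlib
import Pool.Agent.Work.MP_5e5ff1_ag.TG.StmtsE

set_option autoImplicit false

/-!
# Block TG, item ALG: algebraic entries of `U` give a full set of algebraic solutions
-/

open Matrix Filter Topology NumberField
open scoped Polynomial

namespace Pool.Agent.Work.MP_5e5ff1_ag.TG

namespace IALG

theorem zpow_der {δ : A.OO → A.OO} (hδ : A.IsDer δ) {s t : A.OO} (hs : s ≠ 0)
    (h : 4 * t * δ s = s) (m : ℤ) : 4 * t * δ (s ^ m) = (m : A.OO) * s ^ m := by
  have hnat : ∀ n : ℕ, 4 * t * δ (s ^ n) = (n : A.OO) * s ^ n := by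
    intro n
    rw [hδ.map_pow]
    rcases n with _ | n
    · simp
    · rw [Nat.add_sub_cancel, pow_succ]
      calc 4 * t * (((n + 1 : ℕ) : A.OO) * s ^ n * δ s)
          = ((n + 1 : ℕ) : A.OO) * s ^ n * (4 * t * δ s) := by ring
        _ = ((n + 1 : ℕ) : A.OO) * (s ^ n * s) := by rw [h]; ring
  obtain ⟨n, rfl | rfl⟩ := m.eq_nat_or_neg
  · rw [zpow_natCast, Int.cast_natCast]
    exact hnat n
  · rw [_root_.zpow_neg, zpow_natCast, A.IsDer.map_inv hδ]
    have hx : s ^ n ≠ 0 := pow_ne_zero _ hs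
    have h1 := hnat n
    have h2 : 4 * t * -((s ^ n)⁻¹ ^ 2 * δ (s ^ n)) = -((s ^ n)⁻¹ ^ 2 * (4 * t * δ (s ^ n))) := by
      ring
    rw [h2, h1]
    push_cast
    field_simp

end IALG

open IALG in
theorem pr_ALG (hL : StLFT) (hU : StUPS) : StALG := by
  intro r β C B D U hIs halgU hB hD
  obtain ⟨φ, DD, δ, hDD, hδ, hDf, hδ0, hδX, hcomm, hφ, halg⟩ := hL
  set S : Matrix (Fin r) (Fin r) (PowerSeries ℂ) :=
    Matrix.of fun i j => PowerSeries.mk fun n => U n i j with hS
  have hch : ∀ i j, ∃ y, φ y = algebraMap (PowerSeries ℂ) A.EE (S i j) :=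
    fun i j => halg _ (halgU i j)
  choose y hy using hch
  set c : ℂ → A.OO := fun z => algebraMap (RatFunc ℂ) A.OO (algebraMap ℂ (RatFunc ℂ) z) with hc
  set t : A.OO := algebraMap (RatFunc ℂ) A.OO RatFunc.X with ht
  have hφt : φ t = algebraMap (PowerSeries ℂ) A.EE PowerSeries.X := by
    have := hφ Polynomial.X
    rw [RatFunc.algebraMap_X] at this
    rw [ht, this, Polynomial.coe_X]
  have hφc : ∀ z, φ (c z) = algebraMap (PowerSeries ℂ) A.EE (PowerSeries.C z) := by
    intro z
    have := hφ (Polynomial.C z)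
    rw [Polynomial.coe_C] at this
    rw [← this, hc]
    congr 2
  have ht0 : t ≠ 0 := by
    intro h
    have h1 : φ t = 0 := by rw [h, map_zero]
    rw [hφt, map_eq_zero_iff _ A.algebraMap_EE_injective] at h1
    exact PowerSeries.X_ne_zero h1
  have ht1 : t - 1 ≠ 0 := by
    intro h
    have h1 : φ (t - 1) = 0 := by rw [h, map_zero]
    rw [map_sub, hφt, map_one, ← map_one (algebraMap (PowerSeries ℂ) A.EE), ← map_sub,
      map_eq_zero_iff _ A.algebraMap_EE_injective] at h1
    have h2 := congrArg (PowerSeries.coeff 0) h1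
    simp at h2
  obtain ⟨s, hs⟩ := IsAlgClosed.exists_pow_nat_eq t (n := 4) (by norm_num)
  have hs0 : s ≠ 0 := by
    rintro rfl
    rw [zero_pow (by norm_num)] at hs
    exact ht0 hs.symm
  have hsder : 4 * t * δ s = s := by
    have h1 := hδ.map_pow s 4
    rw [hs, hδX] at h1
    have h2 : (4 : A.OO) * s ^ 3 * δ s = 1 := by
      rw [h1]; norm_num
    calc 4 * t * δ s = s * (4 * s ^ 3 * δ s) := by rw [← hs]; ring
      _ = s := by rw [h2, mul_one]
  have hcz : ∀ m : ℤ, c (m : ℂ) = (m : A.OO) := by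
    intro m
    rw [hc]
    simp
  have hint : ∀ m : ℤ, δ (m : A.OO) = 0 := by
    intro m
    rw [← hcz m]
    exact hδ0 _
  let δ' : Derivation ℤ (AlgebraicClosure (RatFunc ℂ)) (AlgebraicClosure (RatFunc ℂ)) :=
    { toFun := δ
      map_add' := hδ.map_add
      map_smul' := by
        intro m y
        rw [Algebra.smul_def, hδ.leibniz, eq_intCast, hint, mul_zero, add_zero,
          RingHom.id_apply, zsmul_eq_mul]
      map_one_eq_zero' := hδ.map_one
      leibniz' := hδ.leibniz }
  refine ⟨δ', Matrix.of fun i j => s ^ (β j) * y i j, hδ0, hδX, ?_, ?_⟩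
  · have hdet : (Matrix.of fun i j => s ^ (β j) * y i j).det =
        (∏ j, s ^ (β j)) * (Matrix.of y).det :=
      Matrix.det_mul_row (fun j => s ^ (β j)) (Matrix.of y)
    rw [hdet]
    refine mul_ne_zero (Finset.prod_ne_zero_iff.mpr fun j _ => zpow_ne_zero _ hs0) ?_
    intro h
    have h1 : φ (Matrix.det (Matrix.of y)) = 0 := by
      rw [h, map_zero]
    rw [RingHom.map_det] at h1
    have h2 : φ.mapMatrix (Matrix.of y) = (algebraMap (PowerSeries ℂ) A.EE).mapMatrix S := by
      ext i j
      exact hy i j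
    rw [h2, ← RingHom.map_det, map_eq_zero_iff _ A.algebraMap_EE_injective] at h1
    have h3 : PowerSeries.constantCoeff S.det = 1 := by
      rw [RingHom.map_det]
      have h4 : (PowerSeries.constantCoeff (R := ℂ)).mapMatrix S = U 0 := by
        ext i j
        simp [hS]
      rw [h4, hIs.zero, Matrix.det_one]
    rw [h1, map_zero] at h3
    exact zero_ne_one h3
  · ext i j
    rw [Matrix.map_apply, Matrix.mul_apply]
    simp only [Matrix.of_apply]
    change δ (s ^ β j * y i j) = _
    rw [hδ.leibniz]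
    -- the main equation
    have hmain : (t - 1) * (8 * t * δ (y i j) + c (2 * ((β j : ℂ) - (β i : ℂ))) * y i j) =
        t * ∑ l, c (C i l) * y l j := by
      apply φ.injective
      have hu := hU ℂ (Fin r) β C U hIs i j
      have hu' := congrArg (algebraMap (PowerSeries ℂ) A.EE) hu
      simp only [map_mul, map_sub, map_add, map_one, map_sum, map_ofNat] at hu' ⊢
      rw [hφt, hφc, ← hcomm, hy, hDf]
      simp only [hφc, hy]
      simp only [map_mul, map_sub, map_ofNat]
      exact hu'
    have hz := zpow_der hδ hs0 hsder (β j)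
    have hc2 : c (2 * ((β j : ℂ) - (β i : ℂ))) = 2 * ((β j : A.OO) - (β i : A.OO)) := by
      have : (2 * ((β j : ℂ) - (β i : ℂ))) = ((2 * (β j - β i) : ℤ) : ℂ) := by push_cast; ring
      rw [this, hcz]
      push_cast
      ring
    rw [hc2] at hmain
    have hsum : ∑ l, algebraMap (RatFunc ℂ) A.OO (algebraMap ℂ (RatFunc ℂ) (B i l) / RatFunc.X +
        algebraMap ℂ (RatFunc ℂ) (D i l) / (RatFunc.X - 1)) * (s ^ β j * y l j) =
        s ^ β j * ((β i : A.OO) / 4 / t * y i j + (∑ l, c (C i l) * y l j) / (8 * (t - 1))) := by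
      have h1 : ∀ l, algebraMap (RatFunc ℂ) A.OO (algebraMap ℂ (RatFunc ℂ) (B i l) / RatFunc.X +
        algebraMap ℂ (RatFunc ℂ) (D i l) / (RatFunc.X - 1)) * (s ^ β j * y l j) =
        (if i = l then s ^ β j * ((β i : A.OO) / 4 / t * y i j) else 0) +
          s ^ β j * (c (C i l) * y l j / (8 * (t - 1))) := by
        intro l
        rw [map_add, map_div₀, map_div₀, map_sub, map_one]
        have e1 : algebraMap (RatFunc ℂ) A.OO (algebraMap ℂ (RatFunc ℂ) (D i l)) = c (C i l) / 8 := by
          rw [hD, map_div₀, map_div₀, map_ofNat, map_ofNat]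
        rw [e1, ← ht, hB]
        by_cases hil : i = l
        · subst hil
          rw [if_pos rfl, if_pos rfl]
          have e2 : algebraMap (RatFunc ℂ) A.OO (algebraMap ℂ (RatFunc ℂ) ((β i : ℂ) / 4)) =
              (β i : A.OO) / 4 := by
            rw [map_div₀, map_div₀, map_ofNat, map_ofNat, map_intCast, map_intCast]
          rw [e2]
          field_simp
        · rw [if_neg hil, if_neg hil]
          simp only [map_zero, zero_div, zero_add]
          field_simp
      rw [Finset.sum_congr rfl fun l _ => h1 l, Finset.sum_add_distrib, Finset.sum_ite_eq,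
        if_pos (Finset.mem_univ _), ← Finset.mul_sum, ← Finset.sum_div]
      ring
    rw [hsum]
    have h8 : (8 : A.OO) ≠ 0 := by norm_num
    have h4 : (4 : A.OO) ≠ 0 := by norm_num
    have hprod : 8 * t * (t - 1) ≠ 0 := mul_ne_zero (mul_ne_zero h8 ht0) ht1
    apply mul_left_cancel₀ hprod
    have e3 : 8 * t * (t - 1) * (s ^ β j * ((β i : A.OO) / 4 / t * y i j +
        (∑ l, c (C i l) * y l j) / (8 * (t - 1)))) =
        s ^ β j * (2 * (β i : A.OO) * (t - 1) * y i j + t * ∑ l, c (C i l) * y l j) := by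
      field_simp
      ring
    rw [e3, ← hmain]
    calc 8 * t * (t - 1) * (s ^ β j * δ (y i j) + y i j * δ (s ^ β j))
        = 8 * t * (t - 1) * (s ^ β j * δ (y i j)) +
          2 * (t - 1) * y i j * (4 * t * δ (s ^ β j)) := by ring
      _ = _ := by rw [hz]; ring

end Pool.Agent.Work.MP_5e5ff1_ag.TG
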