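import Mathlib
import Pool.Agent.Work.MP_5e5ff1_ag.TG.StmtsC

set_option autoImplicit false

/-!
# MP_5e5ff1_ag, block TG, item BAS: the universal covering of the punctured disc
-/

open Filter Topology

namespace Pool.Agent.Work.MP_5e5ff1_ag.TG

namespace IBAS

lemma re_pos (z : ℂ) (hz : z ∈ Metric.ball (0 : ℂ) 1) : 0 < ((1 + z) / (1 - z)).re := by
  have hz1 : ‖z‖ < 1 := by simpa using hz
  have hsq : z.re * z.re + z.im * z.im < 1 := by
    have h := Complex.normSq_eq_norm_sq z
    rw [Complex.normSq_apply] at h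
    rw [h]
    have h0 : 0 ≤ ‖z‖ := norm_nonneg z
    nlinarith
  have hne : (1 : ℂ) - z ≠ 0 := by
    intro h
    have : z = 1 := (sub_eq_zero.mp h).symm
    rw [this] at hz1
    simp at hz1
  have hn : 0 < Complex.normSq (1 - z) := Complex.normSq_pos.mpr hne
  rw [Complex.div_re, ← add_div]
  apply div_pos _ hn
  simp only [Complex.add_re, Complex.sub_re, Complex.one_re, Complex.add_im, Complex.sub_im,
    Complex.one_im]
  nlinarith

lemma sub_ne (z : ℂ) (hz : z ∈ Metric.ball (0 : ℂ) 1) : (1 : ℂ) - z ≠ 0 := by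
  intro h
  have hz1 : ‖z‖ < 1 := by simpa using hz
  have : z = 1 := (sub_eq_zero.mp h).symm
  rw [this] at hz1
  simp at hz1

end IBAS

open IBAS

theorem pr_BAS : StBas := by
  intro s hs hs1
  have hc : 0 < Real.log (1 / s) := by
    apply Real.log_pos
    rw [lt_div_iff₀ hs]
    linarith
  set c : ℝ := Real.log (1 / s) with hcdef
  have hexp : Real.exp (-c) = s := by
    rw [hcdef, ← Real.log_inv, one_div, inv_inv, Real.exp_log hs]
  refine ⟨fun z => Complex.exp (-((c : ℂ) * ((1 + z) / (1 - z)))), ?_, ?_, ?_, ?_⟩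
  · intro z hz
    have h := sub_ne z hz
    apply DifferentiableAt.differentiableWithinAt
    have h1 : DifferentiableAt ℂ (fun z : ℂ => (1 + z) / (1 - z)) z := by
      apply DifferentiableAt.div _ _ h
      · fun_prop
      · fun_prop
    fun_prop (disch := assumption)
  · intro z hz
    have hre := re_pos z hz
    have hnorm : ‖Complex.exp (-((c : ℂ) * ((1 + z) / (1 - z))))‖ < 1 := by
      rw [Complex.norm_exp, Real.exp_lt_one_iff, Complex.neg_re, Complex.re_ofReal_mul]
      have := mul_pos hc hre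
      linarith
    refine ⟨Complex.exp_ne_zero _, ?_, ?_⟩
    · intro h
      simp only at h
      rw [h] at hnorm
      simp at hnorm
    · intro h
      simp only at h
      rw [h] at hnorm
      simp at hnorm
  · simp only [add_zero, sub_zero, div_one, mul_one]
    rw [← hexp]
    push_cast
    rfl
  · have h1 : HasDerivAt (fun z : ℂ => (1 + z) / (1 - z)) 2 0 := by
      have ha : HasDerivAt (fun z : ℂ => 1 + z) 1 0 := (hasDerivAt_id (0 : ℂ)).const_add 1
      have hb : HasDerivAt (fun z : ℂ => 1 - z) (-1) 0 := (hasDerivAt_id (0 : ℂ)).const_sub 1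
      have h := ha.div hb (by norm_num)
      have e : ((1 : ℂ) * (1 - 0) - (1 + 0) * -1) / (1 - 0) ^ 2 = 2 := by norm_num
      rw [e] at h
      exact h
    have h2 : HasDerivAt (fun z : ℂ => Complex.exp (-((c : ℂ) * ((1 + z) / (1 - z)))))
        (Complex.exp (-((c : ℂ) * ((1 + 0) / (1 - 0)))) * (-((c : ℂ) * 2))) 0 :=
      ((h1.const_mul (c : ℂ)).neg).cexp
    rw [h2.deriv]
    simp only [add_zero, sub_zero, div_one, mul_one]
    have h3 : Complex.exp (-(c : ℂ)) = (s : ℂ) := by
      rw [← hexp]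
      push_cast
      rfl
    rw [h3, norm_mul, norm_neg, norm_mul, Complex.norm_real, Complex.norm_real, Real.norm_eq_abs,
      Real.norm_eq_abs, abs_of_pos hs, abs_of_pos hc]
    have : ‖(2 : ℂ)‖ = 2 := by simp
    rw [this]
    ring

end Pool.Agent.Work.MP_5e5ff1_ag.TG
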