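import Mathlib
import Pool.Agent.Work.MP_5e5ff1_ag.TG.StmtsA

set_option autoImplicit false

/-!
# MP_5e5ff1_ag, block TG, item BLK (helper83): a block of `p` consecutive factors
-/

open Matrix Filter Topology
open scoped Polynomial

namespace Pool.Agent.Work.MP_5e5ff1_ag.TG

theorem pr_BLK (hWIL : StWIL) (hPCU : StPCU) (hCAS : StCAS) : StBLK := by
  intro p _ hp ι _ _ β C hpz a v
  set f : ℤ[X] := ∏ k ∈ Finset.range p, ((Polynomial.X : ℤ[X]) + Polynomial.C (a - 8 * (k : ℤ)))
    with hf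
  have hmap : f.map (Int.castRingHom (ZMod p)) =
      (Polynomial.X : (ZMod p)[X]) ^ p - Polynomial.X := by
    rw [← hWIL p hp (a : ZMod p), hf, Polynomial.map_prod]
    refine Finset.prod_congr rfl fun k _ => ?_
    rw [Polynomial.map_add, Polynomial.map_X, Polynomial.map_C]
    simp
  have h1 := hCAS ℤ (ZMod p) (Int.castRingHom (ZMod p)) ι β C f v
  rw [hmap, map_sub, map_pow, Polynomial.aeval_X, LinearMap.sub_apply,
    hPCU p hp ι β C hpz, sub_self] at h1
  have h2 : ∀ n i, (p : ℤ) ∣ Polynomial.aeval (D0 β C) f v n i := by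
    intro n i
    have h3 := congrFun (congrFun h1 n) i
    rw [← ZMod.intCast_zmod_eq_zero_iff_dvd]
    exact h3.symm
  choose v' hv' using h2
  refine ⟨v', ?_⟩
  funext n i
  rw [hv' n i]
  simp

end Pool.Agent.Work.MP_5e5ff1_ag.TG
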