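import Mathlib
import Pool.Agent.Work.MP_5e5ff1_ag.TG.StmtsA

set_option autoImplicit false

/-!
# MP_5e5ff1_ag, block TG, item BLM: many blocks
-/

open Matrix
open scoped Polynomial

namespace Pool.Agent.Work.MP_5e5ff1_ag.TG

namespace IBLM

theorem range_eq (p m : ℕ) (g : ℕ → ℤ[X]) :
    ∏ k ∈ Finset.Icc 1 ((m + 1) * p), g k =
      (∏ k ∈ Finset.Icc 1 (m * p), g k) * ∏ k ∈ Finset.range p, g (m * p + 1 + k) := by
  have h1 : ∀ n : ℕ, ∏ k ∈ Finset.Icc 1 n, g k = ∏ k ∈ Finset.range n, g (k + 1) := by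
    intro n
    induction n with
    | zero => simp
    | succ n ih =>
      rw [Finset.prod_Icc_succ_top (by omega), ih, Finset.prod_range_succ]
  rw [h1, h1, show (m + 1) * p = m * p + p by ring, Finset.prod_range_add]
  congr 1
  refine Finset.prod_congr rfl fun k _ => ?_
  congr 1
  ring

theorem one (h1 : StBLK) (p : ℕ) [Fact p.Prime] (hp : p ≠ 2) (ι : Type) [Fintype ι]
    [DecidableEq ι] (β : ι → ℤ) (C : Matrix ι ι ℤ) (hPZ : PZ β C p) (c : ℤ) : ∀ (m : ℕ)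
    (v : ℕ → ι → ℤ), ∃ v' : ℕ → ι → ℤ,
    Polynomial.aeval (D0 β C) (∏ k ∈ Finset.Icc 1 (m * p),
      ((Polynomial.X : ℤ[X]) + Polynomial.C (2 * c - 8 * (k : ℤ)))) v = ((p : ℤ) ^ m) • v'
  | 0, v => ⟨v, by simp⟩
  | m + 1, v => by
    obtain ⟨w, hw⟩ := h1 p hp ι β C hPZ (2 * c - 8 * ((m * p + 1 : ℕ) : ℤ)) v
    obtain ⟨v', hv'⟩ := one h1 p hp ι β C hPZ c m w
    refine ⟨v', ?_⟩
    have h2 : ∏ k ∈ Finset.range p, ((Polynomial.X : ℤ[X]) +
        Polynomial.C (2 * c - 8 * ((m * p + 1 + k : ℕ) : ℤ))) =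
        ∏ k ∈ Finset.range p, ((Polynomial.X : ℤ[X]) +
        Polynomial.C ((2 * c - 8 * ((m * p + 1 : ℕ) : ℤ)) - 8 * (k : ℤ))) := by
      refine Finset.prod_congr rfl fun k _ => ?_
      congr 2
      push_cast
      ring
    rw [range_eq, map_mul, Module.End.mul_apply, h2, hw, map_smul, hv', smul_smul, pow_succ']

end IBLM

theorem pr_BLM (h1 : StBLK) : StBLM := by
  intro p hpf hp ι hι1 hι2 β C hPZ m T v
  induction T using Finset.induction_on generalizing v with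
  | empty => exact ⟨v, by simp⟩
  | insert c T hc ih =>
    obtain ⟨w, hw⟩ := ih v
    obtain ⟨v', hv'⟩ := IBLM.one h1 p hp ι β C hPZ c m w
    refine ⟨v', ?_⟩
    rw [Finset.prod_insert hc, map_mul, Module.End.mul_apply, hw, map_smul, hv', smul_smul,
      Finset.card_insert_of_notMem hc, ← pow_add]
    congr 2

end Pool.Agent.Work.MP_5e5ff1_ag.TG
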