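import Mathlib
import Pool.Agent.Work.MP_5e5ff1_ag.TG.StmtsA

set_option autoImplicit false

/-!
# Block TG, item C4 (helper2): at most four distinct exponents
-/

namespace Pool.Agent.Work.MP_5e5ff1_ag.TG

theorem pr_C4 : StC4 := by
  classical
  intro ι _ β hβ
  have h : (Finset.univ.image β).card ≤ (Finset.Ico (0 : ℤ) 4).card := by
    refine Finset.card_le_card_of_injOn (fun x => x % 4) ?_ ?_
    · intro x _
      simp only [Finset.coe_Ico, Set.mem_Ico]
      omega
    · intro x hx y hy hxy
      simp only [Finset.coe_image, Finset.coe_univ, Set.image_univ, Set.mem_range] at hx hy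
      obtain ⟨i, rfl⟩ := hx
      obtain ⟨j, rfl⟩ := hy
      have hxy' : β i % 4 = β j % 4 := hxy
      exact hβ i j (by omega)
  simpa using h

end Pool.Agent.Work.MP_5e5ff1_ag.TG
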