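import Mathlib
import Pool.Agent.Work.MP_5e5ff1_ag.TG.StmtsA

set_option autoImplicit false

/-!
# MP_5e5ff1_ag, block TG, item CAS: base change for polynomials in `D0`
-/

open Matrix Filter Topology
open scoped Polynomial

namespace Pool.Agent.Work.MP_5e5ff1_ag.TG

namespace ICAS

variable {R S : Type} [CommRing R] [CommRing S] {ι : Type} [Fintype ι]

theorem D0_map (φ : R →+* S) (β : ι → ℤ) (C : Matrix ι ι R) (v : ℕ → ι → R) :
    D0 β (C.map φ) (fun n i => φ (v n i)) = fun n i => φ (D0 β C v n i) := by
  funext n i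
  have h1 : D0 β (C.map φ) (fun n i => φ (v n i)) n i =
      (8 * (n : S) - 2 * (β i : S)) * φ (v n i) +
      ∑ k ∈ Finset.range n, ((C.map φ) *ᵥ (fun i => φ (v k i))) i := rfl
  have h2 : D0 β C v n i =
      (8 * (n : R) - 2 * (β i : R)) * v n i + ∑ k ∈ Finset.range n, (C *ᵥ v k) i := rfl
  rw [h1, h2, map_add, map_mul, map_sum]
  congr 1
  · rw [map_sub, map_mul, map_mul, map_natCast, map_intCast, map_ofNat, map_ofNat]
  · refine Finset.sum_congr rfl fun k _ => ?_
    simp only [Matrix.mulVec, dotProduct, map_sum, map_mul, Matrix.map_apply]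

end ICAS

theorem pr_CAS : StCAS := by
  intro R S _ _ φ ι _ _ β C f v
  induction f using Polynomial.induction_on generalizing v with
  | C a =>
    funext n i
    rw [Polynomial.map_C, Polynomial.aeval_C, Polynomial.aeval_C]
    simp only [Module.algebraMap_end_apply, Pi.smul_apply, smul_eq_mul, map_mul]
  | add p q hp hq =>
    rw [Polynomial.map_add, map_add, map_add, LinearMap.add_apply, LinearMap.add_apply, hp, hq]
    funext n i
    simp only [Pi.add_apply, map_add]
  | monomial n a h =>
    have e1 : (Polynomial.C a * Polynomial.X ^ (n + 1) : R[X]) =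
        (Polynomial.C a * Polynomial.X ^ n) * Polynomial.X := by ring
    rw [e1, Polynomial.map_mul, Polynomial.map_X, map_mul, map_mul, Polynomial.aeval_X,
      Polynomial.aeval_X, Module.End.mul_apply, Module.End.mul_apply, ICAS.D0_map, h]

end Pool.Agent.Work.MP_5e5ff1_ag.TG
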