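import Mathlib
import Pool.Agent.Work.MP_5e5ff1_ag.TG.StmtsA

set_option autoImplicit false

/-!
# MP_5e5ff1_ag, block TG, item CN1 (helper24): counting primes in an arithmetic progression
-/

open Matrix Filter Topology
open scoped Polynomial

namespace Pool.Agent.Work.MP_5e5ff1_ag.TG

namespace ICN1

theorem cnt (q n : ℕ) (δ : ℤ) (hq : Nat.Coprime q 4) :
    ((Finset.Icc 1 n).filter (fun k : ℕ => (q : ℤ) ∣ 4 * (k : ℤ) + δ)).card ≤ n / q + 1 := by
  have h := Finset.card_le_card_of_injOn (s := (Finset.Icc 1 n).filter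
    (fun k : ℕ => (q : ℤ) ∣ 4 * (k : ℤ) + δ)) (t := Finset.range (n / q + 1))
    (fun k : ℕ => k / q) ?_ ?_
  · rwa [Finset.card_range] at h
  · intro k hk
    rw [Finset.mem_coe, Finset.mem_filter, Finset.mem_Icc] at hk
    rw [Finset.mem_coe, Finset.mem_range]
    exact Nat.lt_succ_of_le (Nat.div_le_div_right hk.1.2)
  · intro k hk k' hk' hkk
    rw [Finset.mem_coe, Finset.mem_filter] at hk hk'
    have h1 : (q : ℤ) ∣ ((k' : ℤ) - k) * 4 := by
      have := dvd_sub hk'.2 hk.2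
      have h2 : 4 * (k' : ℤ) + δ - (4 * (k : ℤ) + δ) = ((k' : ℤ) - k) * 4 := by ring
      rwa [h2] at this
    have h3 : IsCoprime (q : ℤ) 4 := by
      have := (Nat.isCoprime_iff_coprime (m := q) (n := 4)).2 hq
      exact_mod_cast this
    have h4 : (q : ℤ) ∣ (k' : ℤ) - k := h3.dvd_of_dvd_mul_right h1
    have h5 : k % q = k' % q := (Nat.modEq_iff_dvd).2 h4
    have h6 : k / q = k' / q := hkk
    rw [← Nat.div_add_mod k q, ← Nat.div_add_mod k' q, h5, h6]

theorem val_le (p : ℕ) (hp : p.Prime) (H : ℕ) (x : ℤ) (hx : x ≠ 0) (hxH : |x| ≤ H) :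
    padicValInt p x ≤
      ((Finset.Icc 1 (Nat.log p H)).filter (fun l : ℕ => ((p ^ l : ℕ) : ℤ) ∣ x)).card := by
  haveI : Fact p.Prime := ⟨hp⟩
  have h1 : ((p ^ padicValInt p x : ℕ) : ℤ) ∣ x := by
    rw [Nat.cast_pow]
    exact padicValInt_dvd x
  have h2 : p ^ padicValInt p x ≤ H := by
    have h3 : ((p ^ padicValInt p x : ℕ) : ℤ) ≤ |x| :=
      Int.le_of_dvd (abs_pos.2 hx) ((dvd_abs _ _).2 h1)
    exact_mod_cast h3.trans hxH
  have h4 : padicValInt p x ≤ Nat.log p H := Nat.le_log_of_pow_le hp.one_lt h2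
  calc padicValInt p x = (Finset.Icc 1 (padicValInt p x)).card := by simp
    _ ≤ _ := by
      refine Finset.card_le_card fun l hl => ?_
      rw [Finset.mem_Icc] at hl
      rw [Finset.mem_filter, Finset.mem_Icc]
      refine ⟨⟨hl.1, hl.2.trans h4⟩, ?_⟩
      exact dvd_trans (by exact_mod_cast pow_dvd_pow p hl.2) h1

end ICN1

theorem pr_CN1 : StCN1 := by
  intro p hp hp2 B n δ hδ hne
  have hodd : Nat.Coprime p 4 := by
    have h : Nat.Coprime p 2 := (Nat.coprime_primes hp Nat.prime_two).2 hp2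
    exact Nat.Coprime.pow_right 2 h
  calc ∑ k ∈ Finset.Icc 1 n, padicValInt p (4 * (k : ℤ) + δ)
      ≤ ∑ k ∈ Finset.Icc 1 n, ((Finset.Icc 1 (Nat.log p (4 * n + B))).filter
          (fun l : ℕ => ((p ^ l : ℕ) : ℤ) ∣ 4 * (k : ℤ) + δ)).card := by
        refine Finset.sum_le_sum fun k hk => ?_
        rw [Finset.mem_Icc] at hk
        refine ICN1.val_le p hp _ _ (hne k hk.1) ?_
        have h1 : |4 * (k : ℤ) + δ| ≤ |4 * (k : ℤ)| + |δ| := abs_add_le _ _
        have h2 : |4 * (k : ℤ)| = 4 * k := abs_of_nonneg (by positivity)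
        have h3 : (k : ℤ) ≤ n := by exact_mod_cast hk.2
        push_cast
        linarith
    _ = ∑ l ∈ Finset.Icc 1 (Nat.log p (4 * n + B)), ((Finset.Icc 1 n).filter
          (fun k : ℕ => ((p ^ l : ℕ) : ℤ) ∣ 4 * (k : ℤ) + δ)).card := by
        simp only [Finset.card_filter]
        rw [Finset.sum_comm]
    _ ≤ LS p B n := by
        unfold LS
        exact Finset.sum_le_sum fun l _ => ICN1.cnt (p ^ l) n δ (hodd.pow_left l)

end Pool.Agent.Work.MP_5e5ff1_ag.TG
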