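import Mathlib
import Pool.Agent.Work.MP_5e5ff1_ag.TG.StmtsD

set_option autoImplicit false

/-!
# MP_5e5ff1_ag, block TG, item CON (helper83): continuation of the entries to the disc
-/

open Matrix Filter Topology
open scoped Polynomial

namespace Pool.Agent.Work.MP_5e5ff1_ag.TG

theorem pr_CON (hUCV : StUCV) (hLOC0 : StLOC0) (hLOCA : StLOCA) (hODX : StODX) (hCMP : StCMP)
    (hGLU : StGLU) (hTHN : StTHN) : StCON := by
  intro ι _ _ β C S U hS hU th w hm i j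
  obtain ⟨A, -, hA⟩ := hUCV ι β C U hU
  obtain ⟨K0, hK0⟩ := hLOCA ι β C S hS
  obtain ⟨K, hKK, hK⟩ : ∃ K : ℕ, K0 ≤ K ∧ ∀ j, 0 ≤ β j + K := by
    refine ⟨K0 + ∑ j, (β j).natAbs, Nat.le_add_right _ _, fun j => ?_⟩
    have h1 : (β j).natAbs ≤ ∑ j, (β j).natAbs :=
      Finset.single_le_sum (f := fun j => (β j).natAbs) (fun _ _ => Nat.zero_le _)
        (Finset.mem_univ j)
    have h2 : ((β j).natAbs : ℤ) ≤ ((K0 + ∑ j, (β j).natAbs : ℕ) : ℤ) := by
      exact_mod_cast h1.trans (Nat.le_add_left _ _)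
    have h3 : -((β j).natAbs : ℤ) ≤ β j := by omega
    linarith
  have h0 : (0 : ℂ) ∈ Metric.ball (0 : ℂ) 1 := by simp
  obtain ⟨ρ, M0, hM0, hM0f⟩ := hLOC0 ι β C U hU ⟨A, hA⟩ th w hm K hK 0 h0 hm.zero
  have hd0 : DifferentiableOn ℂ (fun z => (fun a b => M0 z a b : ι → ι → ℂ))
      (Metric.ball 0 ρ) := by
    rw [differentiableOn_pi]
    intro a
    rw [differentiableOn_pi]
    intro b
    exact hM0.diff a b
  obtain ⟨F, hF, hFf⟩ := hGLU (ι → ι → ℂ) (fun z => (fun a b => M0 z a b : ι → ι → ℂ)) ρ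
    hM0.pos hd0 (by
      intro z0 hz0
      obtain ⟨δ, N, hN⟩ := hK0 th w hm K hKK z0 hz0
      refine ⟨δ, hN.pos, ?_⟩
      intro g r hr hr1 hg hgf hne
      have hg' : ∀ a b, DifferentiableOn ℂ (fun z => (g z : Matrix ι ι ℂ) a b)
          (Metric.ball 0 r) := by
        intro a b
        exact (differentiableOn_pi.1 ((differentiableOn_pi.1 hg) a)) b
      have hode := hODX ι β C th w hm K M0 (fun z => (g z : Matrix ι ι ℂ)) ρ r hM0 hr hr1 hg'
        hgf
      obtain ⟨Γ, hΓ⟩ := hCMP ι β C th w hm K N (fun z => (g z : Matrix ι ι ℂ)) z0 δ r hN hr hr1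
        hg' hode hne
      refine ⟨fun z => (fun a b => (N z * Γ) a b : ι → ι → ℂ), ?_, fun z hz => (hΓ z hz).symm⟩
      rw [differentiableOn_pi]
      intro a
      rw [differentiableOn_pi]
      intro b
      simp only [Matrix.mul_apply]
      exact DifferentiableOn.fun_sum fun l _ => (hN.diff a l).mul_const _)
  refine ⟨fun z => w z ^ K * th z ^ (β j + K).toNat, fun z => F z i j,
    (hm.dw.pow K).mul (hm.dth.pow _), ?_, ?_, ?_⟩
  · obtain ⟨z, hz, hz1, hz2⟩ := (hTHN th w hm).2 (Metric.ball 0 1) Metric.isOpen_ball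
      le_rfl ⟨0, h0⟩
    exact ⟨z, hz, mul_ne_zero (pow_ne_zero _ hz2) (pow_ne_zero _ hz1)⟩
  · exact (differentiableOn_pi.1 ((differentiableOn_pi.1 hF) i)) j
  · filter_upwards [hFf, Metric.ball_mem_nhds (0 : ℂ) hM0.pos] with z hz hz1
    rw [hz]
    exact hM0f z hz1 i j

end Pool.Agent.Work.MP_5e5ff1_ag.TG
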