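import Mathlib
import Pool.Agent.Work.MP_5e5ff1_ag.TG.StmtsB

set_option autoImplicit false

/-!
# Block TG, item CRT: the algebraicity criterion
-/

open Filter Topology
open scoped Polynomial

namespace Pool.Agent.Work.MP_5e5ff1_ag.TG

theorem pr_CRT (hAri : StAri) (hKey : StKey) (hEnd : StEnd) : StCrit := by
  intro s a th h hDen hAex hth hth0 hs hh hh0 hFex
  obtain ⟨A0, hA0⟩ := hAex
  obtain ⟨F, hF, hFe⟩ := hFex
  by_contra halg
  have hs0 : 0 ≤ s := by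
    by_contra hneg
    rw [not_le] at hneg
    obtain ⟨N0, hN0⟩ := hDen 0 (-s / 2) (by linarith)
    obtain ⟨d, hd, hl, -⟩ := hN0 (max N0 1) (le_max_left _ _)
    have h1 : 0 ≤ Real.log d := Real.log_natCast_nonneg d
    have h3 : (0 : ℝ) < ((max N0 1 : ℕ) : ℝ) := by
      exact_mod_cast lt_of_lt_of_le one_pos (le_max_right N0 1)
    have h2 : (s + -s / 2) * ((max N0 1 : ℕ) : ℝ) < 0 :=
      mul_neg_of_neg_of_pos (by linarith) h3
    linarith
  have hg : 1 < ‖deriv th 0‖ := by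
    by_contra hle
    rw [not_lt] at hle
    have : Real.log ‖deriv th 0‖ ≤ 0 := Real.log_nonpos (norm_nonneg _) hle
    linarith
  have hA1 : 1 ≤ max A0 1 := le_max_right _ _
  have hA0n : 0 ≤ A0 := by
    have := hA0 0
    rw [zero_add, pow_one] at this
    exact (abs_nonneg _).trans this
  have hA : ∀ n, |(a n : ℝ)| ≤ (max A0 1) ^ (n + 1) := fun n =>
    (hA0 n).trans (pow_le_pow_left₀ hA0n (le_max_left _ _) _)
  obtain ⟨η, ρ, hη, hρ, hρ1, hE⟩ := hEnd s ‖deriv th 0‖ (max A0 1) hs0 hg hs hA1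
  obtain ⟨C, hC, hK⟩ := hKey a (max A0 1) th h F hA1 hA hth hth0 hh hh0 hF hFe ρ hρ hρ1
  obtain ⟨L, J, hL, hJ, T1, hE'⟩ := hE C hC
  obtain ⟨T0, hT0⟩ := hAri s a (max A0 1) hDen hA1 hA halg L J η hL hJ hη
  obtain ⟨q, T', hTT, hz, hlow, hq⟩ := hT0 (max T0 T1) (le_max_left _ _)
  have e1 := hE' (max T0 T1) (le_max_right _ _) T' hTT
  have e2 := hK J (L * max T0 T1 / J + 1) q _ T' hq hz
  have e3 := mul_le_mul_of_nonneg_right hlow
    (show 0 ≤ (‖deriv th 0‖ * ρ) ^ (4 * T') by positivity)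
  exact absurd (e3.trans e2) (not_le.2 e1)

end Pool.Agent.Work.MP_5e5ff1_ag.TG
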