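import Mathlib
import Pool.Agent.Work.MP_5e5ff1_ag.TG.StmtsA

set_option autoImplicit false

/-!
# MP_5e5ff1_ag, block TG, item DEN: the common denominator
-/

open Matrix Filter Topology
open scoped Polynomial

namespace Pool.Agent.Work.MP_5e5ff1_ag.TG

namespace IDEN

/-- a denominator divisible by `p^T` kills a norm `≤ p^T` -/
theorem norm_mul_le_one {p : ℕ} [Fact p.Prime] {d T : ℕ} {x : ℚ} (hd : p ^ T ∣ d)
    (hx : padicNorm p x ≤ (p : ℚ) ^ T) : padicNorm p ((d : ℚ) * x) ≤ 1 := by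
  have hp0 : (0 : ℚ) < p := by exact_mod_cast (Fact.out : p.Prime).pos
  have h1 : padicNorm p (d : ℚ) ≤ (p : ℚ) ^ (-(T : ℤ)) := by
    have h2 : ((p ^ T : ℕ) : ℤ) ∣ (d : ℤ) := by exact_mod_cast hd
    have h3 := (padicNorm.dvd_iff_norm_le (p := p) (n := T) (z := (d : ℤ))).1 h2
    exact_mod_cast h3
  rw [padicNorm.mul]
  calc padicNorm p (d : ℚ) * padicNorm p x ≤ (p : ℚ) ^ (-(T : ℤ)) * (p : ℚ) ^ T :=
        mul_le_mul h1 hx (padicNorm.nonneg _) (zpow_nonneg hp0.le _)
    _ = 1 := by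
        rw [_root_.zpow_neg, zpow_natCast]
        exact inv_mul_cancel₀ (pow_ne_zero _ hp0.ne')

theorem LSJ_zero {p B J N : ℕ} (h : 4 * N + B < p) : LSJ p B J N = 0 := by
  unfold LSJ
  rw [Nat.log_of_lt h]
  rfl

theorem LGJ_zero {p B J N : ℕ} (h : 4 * N + B + 8 < p) : LGJ p B J N = 0 := by
  unfold LGJ
  have h1 : 4 * (N + p) + B < p ^ 2 := by nlinarith
  have h2 : Nat.log p (4 * (N + p) + B) < 2 := Nat.log_lt_of_lt_pow (by omega) h1
  rw [Finset.Icc_eq_empty (by omega)]
  rfl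

theorem dvd_dJ (S : Set ℕ) (B J N p : ℕ) (hp : p.Prime) (hp2 : p ≠ 2) :
    (p ∈ S → p ^ (4 * LSJ p B J N) ∣ dJ S B J N) ∧
    (p ∉ S → p ^ (4 * LGJ p B J N) ∣ dJ S B J N) := by
  by_cases h : p ≤ 4 * N + B + 8
  · have h3 : 3 ≤ p := by
      have := hp.two_le
      omega
    have hmem : p ∈ (Finset.Icc 3 (4 * N + B + 8)).filter Nat.Prime :=
      Finset.mem_filter.2 ⟨Finset.mem_Icc.2 ⟨h3, h⟩, hp⟩
    constructor
    · intro hS
      unfold dJ
      refine Dvd.dvd.mul_left ?_ _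
      have h4 := Finset.dvd_prod_of_mem (fun p => p ^ (4 * (@ite _ (p ∈ S)
        (Classical.propDecidable _) (LSJ p B J N) (LGJ p B J N)))) hmem
      simp only [if_pos hS] at h4
      exact h4
    · intro hS
      unfold dJ
      refine Dvd.dvd.mul_left ?_ _
      have h4 := Finset.dvd_prod_of_mem (fun p => p ^ (4 * (@ite _ (p ∈ S)
        (Classical.propDecidable _) (LSJ p B J N) (LGJ p B J N)))) hmem
      simp only [if_neg hS] at h4
      exact h4
  · constructor
    · intro _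
      rw [LSJ_zero (by omega), Nat.mul_zero, pow_zero]
      exact one_dvd _
    · intro _
      rw [LGJ_zero (by omega), Nat.mul_zero, pow_zero]
      exact one_dvd _

end IDEN

open IDEN in
theorem pr_DEN (hTWO : StTWO) (hBAD : StBAD) (hGOD : StGOD) (hPOW : StPOW) (hLIS : StLIS)
    (hITG : StITG) : StDEN := by
  intro ι _ _ β C S U hSys hU B hB i j0 J N j hj k hk
  apply hITG
  intro p hp
  by_cases hp2 : p = 2
  · subst hp2
    refine norm_mul_le_one (T := 4 * N) ?_ ?_
    · unfold dJ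
      exact dvd_mul_right _ _
    · refine hPOW 2 (fun n => U n i j0) (fun n => 4 * n) J N (4 * N) ?_ ?_ j hj k hk
      · intro n
        have h1 := hTWO ι β C U hU hSys.hβ n i j0
        exact_mod_cast h1
      · intro l _ hl
        have h2 : (l.map (fun n => 4 * n)).sum = 4 * l.sum := by
          rw [List.sum_map_mul_left, List.map_id']
        rw [h2]
        omega
  · have hp1 : 1 < p := hp.out.one_lt
    by_cases hS : p ∈ S
    · refine norm_mul_le_one (T := 4 * LSJ p B J N) ((dvd_dJ S B J N p hp.out hp2).1 hS) ?_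
      refine hPOW p (fun n => U n i j0) (fun n => 4 * LS p B n) J N _ ?_ ?_ j hj k hk
      · intro n
        exact hBAD p hp2 ι β C U hU hSys.hβ B hB n i j0
      · intro l h1 h2
        exact (hLIS p B J N hp1 l h1 h2).1
    · refine norm_mul_le_one (T := 4 * LGJ p B J N) ((dvd_dJ S B J N p hp.out hp2).2 hS) ?_
      refine hPOW p (fun n => U n i j0) (fun n => 4 * LG p B n) J N _ ?_ ?_ j hj k hk
      · intro n
        exact hGOD p hp2 ι β C U hU hSys.hβ (hSys.pz p hp.out hp2 hS) B hB n i j0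
      · intro l h1 h2
        exact (hLIS p B J N hp1 l h1 h2).2

end Pool.Agent.Work.MP_5e5ff1_ag.TG
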