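import Mathlib
import Pool.Agent.Work.MP_5e5ff1_ag.TG.StmtsD

set_option autoImplicit false

/-!
# MP_5e5ff1_ag, block TG, item DRL: the derivative of the relation `th ^ 4 - 1 = w ^ 2`
-/

open Filter Topology

namespace Pool.Agent.Work.MP_5e5ff1_ag.TG

/-- Item DRL. -/
theorem pr_DRL : StDRL := by
  intro th w h z hz
  have hz' : Metric.ball (0 : ℂ) 1 ∈ 𝓝 z := Metric.isOpen_ball.mem_nhds hz
  have h1 : HasDerivAt th (deriv th z) z := (h.dth.differentiableAt hz').hasDerivAt
  have h2 : HasDerivAt w (deriv w z) z := (h.dw.differentiableAt hz').hasDerivAt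
  have h3 : HasDerivAt (fun y => th y ^ 4 - 1) (4 * th z ^ 3 * deriv th z) z := by
    have h := (h1.fun_pow 4).sub_const 1
    simpa using h
  have h4 : HasDerivAt (fun y => w y ^ 2) (2 * w z * deriv w z) z := by
    have h := h2.fun_pow 2
    simpa using h
  have h5 : (fun y => th y ^ 4 - 1) =ᶠ[𝓝 z] fun y => w y ^ 2 := by
    filter_upwards [hz'] with y hy
    exact h.rel y hy
  have h6 := (h3.congr_of_eventuallyEq h5.symm).unique h4
  have h7 : (2 : ℂ) * (2 * th z ^ 3 * deriv th z) = 2 * (w z * deriv w z) := by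
    linear_combination h6
  exact mul_left_cancel₀ two_ne_zero h7

end Pool.Agent.Work.MP_5e5ff1_ag.TG
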