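import Mathlib
import Pool.Agent.Work.MP_5e5ff1_ag.TG.StmtsD

/-!
# MP_5e5ff1_ag, block TG, item EXT: the extension step (helper79)
-/

set_option autoImplicit false

open Matrix Filter Topology
open scoped Polynomial

namespace Pool.Agent.Work.MP_5e5ff1_ag.TG

namespace IEXT

variable {ι : Type} [Fintype ι] [DecidableEq ι]

theorem L1_def {R : Type} [CommRing R] (β : ι → ℤ) (C : Matrix ι ι R) (lam : ℤ) (w : ℕ → ι → R)
    (m : ℕ) (i : ι) : L1 β C lam w m i = 8 * (m : R) * w m i - (C *ᵥ w m) i -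
      2 * (β i : R) * ∑ k ∈ Finset.range m, (-1) ^ (m - 1 - k) * w k i - (lam : R) * w m i := rfl

theorem L1_congr {R : Type} [CommRing R] (β : ι → ℤ) (C : Matrix ι ι R) (lam : ℤ)
    (w w' : ℕ → ι → R) (m : ℕ) (i : ι) (h : ∀ k ≤ m, w k = w' k) :
    L1 β C lam w m i = L1 β C lam w' m i := by
  rw [L1_def, L1_def, h m le_rfl]
  congr 3
  exact Finset.sum_congr rfl fun k hk => by rw [h k (Finset.mem_range.1 hk).le]

theorem L1_upd {R : Type} [CommRing R] (β : ι → ℤ) (C : Matrix ι ι R) (lam : ℤ) (g : ℕ → ι → R)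
    (n : ℕ) (h : ι → R) (i : ι) : L1 β C lam (Function.update g n h) n i =
      L1 β C lam (Function.update g n 0) n i +
        (8 * (n : R) * h i - (C *ᵥ h) i - (lam : R) * h i) := by
  rw [L1_def, L1_def]
  have h1 : ∀ h' : ι → R, ∑ k ∈ Finset.range n, (-1) ^ (n - 1 - k) * Function.update g n h' k i =
      ∑ k ∈ Finset.range n, (-1) ^ (n - 1 - k) * g k i := by
    intro h'
    refine Finset.sum_congr rfl fun k hk => ?_
    rw [Function.update_of_ne (Finset.mem_range.1 hk).ne]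
  rw [h1 h, h1 0, Function.update_self, Function.update_self, Matrix.mulVec_zero, Pi.zero_apply]
  ring

theorem L1_low {R : Type} [CommRing R] (β : ι → ℤ) (C : Matrix ι ι R) (lam : ℤ) (w : ℕ → ι → R)
    (n : ℕ) (i : ι) (h : ∀ k < n, w k = 0) : L1 β C lam w n i =
      8 * (n : R) * w n i - (C *ᵥ w n) i - (lam : R) * w n i := by
  rw [L1_def, Finset.sum_eq_zero, mul_zero, sub_zero]
  intro k hk
  rw [h k (Finset.mem_range.1 hk), Pi.zero_apply, mul_zero]

/-- Splitting in the eigenbasis. -/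
theorem split (C V : Matrix ι ι ℚ) (γ : ι → ℤ) (hV : V.det ≠ 0)
    (hCV : C * V = V * Matrix.diagonal fun j => 4 * (γ j : ℚ)) (a : ℚ) (r : ι → ℚ) :
    ∃ r' y : ι → ℚ, (∀ i, a * r' i - (C *ᵥ r') i = 0) ∧
      ∀ i, r i - (a * y i - (C *ᵥ y) i) = r' i := by
  have hu : IsUnit V.det := isUnit_iff_ne_zero.2 hV
  have key : ∀ s : ι → ℚ, ∀ i, a * (V *ᵥ s) i - (C *ᵥ (V *ᵥ s)) i =
      (V *ᵥ fun j => (a - 4 * (γ j : ℚ)) * s j) i := by
    intro s i
    have h1 : (fun j => (a - 4 * (γ j : ℚ)) * s j) =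
        a • s - (Matrix.diagonal fun j => 4 * (γ j : ℚ)) *ᵥ s := by
      funext j
      rw [Pi.sub_apply, Pi.smul_apply, Matrix.mulVec_diagonal, smul_eq_mul]
      ring
    rw [h1, Matrix.mulVec_sub, Matrix.mulVec_smul, Matrix.mulVec_mulVec, Matrix.mulVec_mulVec,
      hCV]
    rfl
  have hr : V *ᵥ (V⁻¹ *ᵥ r) = r := by
    rw [Matrix.mulVec_mulVec, Matrix.mul_nonsing_inv V hu, Matrix.one_mulVec]
  refine ⟨V *ᵥ fun j => if a - 4 * (γ j : ℚ) = 0 then (V⁻¹ *ᵥ r) j else 0,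
    V *ᵥ fun j => if a - 4 * (γ j : ℚ) = 0 then 0 else (V⁻¹ *ᵥ r) j / (a - 4 * (γ j : ℚ)),
    fun i => ?_, fun i => ?_⟩
  · rw [key]
    have h1 : (fun j => (a - 4 * (γ j : ℚ)) *
        (if a - 4 * (γ j : ℚ) = 0 then (V⁻¹ *ᵥ r) j else 0)) = 0 := by
      funext j
      by_cases h : a - 4 * (γ j : ℚ) = 0
      · rw [h, zero_mul, Pi.zero_apply]
      · rw [if_neg h, mul_zero, Pi.zero_apply]
    rw [h1, Matrix.mulVec_zero, Pi.zero_apply]
  · rw [key]
    have h1 : r i = (V *ᵥ (V⁻¹ *ᵥ r)) i := by rw [hr]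
    rw [h1, ← Pi.sub_apply, ← Matrix.mulVec_sub]
    congr 2
    funext j
    rw [Pi.sub_apply]
    by_cases h : a - 4 * (γ j : ℚ) = 0
    · rw [if_pos h, if_pos h, mul_zero, sub_zero]
    · rw [if_neg h, if_neg h, mul_div_cancel₀ _ h, sub_self]

end IEXT

open IEXT in
theorem pr_EXT (h1 : StSEM) (h2 : StDIA) : StEXT := by
  intro ι _ _ β C S hS g γ n hg
  obtain ⟨γ', V, hV, hCV⟩ := h2 ι β C S hS
  obtain ⟨r', y, hr', hy⟩ := split (qm C) V γ' hV hCV (8 * (n : ℚ) + 4 * (γ : ℚ))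
    (fun i => L1 β (qm C) (-(4 * γ)) (Function.update g n 0) n i)
  refine ⟨-y, h1 ι β C S hS _ _ n ?_⟩
  have hlow : ∀ m < n, L1 β (qm C) (-(4 * γ)) (Function.update g n (-y)) m = 0 := by
    intro m hm
    funext i
    rw [L1_congr β (qm C) (-(4 * γ)) (Function.update g n (-y)) g m i
      (fun k hk => Function.update_of_ne (by omega) _ _), hg m hm i, Pi.zero_apply]
  have hn : L1 β (qm C) (-(4 * γ)) (Function.update g n (-y)) n = r' := by
    funext i
    rw [L1_upd, ← hy i, Matrix.mulVec_neg, Pi.neg_apply, Pi.neg_apply]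
    push_cast
    ring
  intro m hm i
  rw [L1_low _ _ _ _ m i fun k hk => hlow k (by omega)]
  rcases hm.lt_or_eq with h | rfl
  · rw [hlow m h, Matrix.mulVec_zero, Pi.zero_apply]
    ring
  · rw [hn]
    have := hr' i
    push_cast
    linear_combination this

end Pool.Agent.Work.MP_5e5ff1_ag.TG
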