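import Mathlib
import Pool.Agent.Work.MP_5e5ff1_ag.TG.StmtsC

set_option autoImplicit false

/-!
# MP_5e5ff1_ag, block TG, part C, item EXT: the value at `3 - 2√2`
-/

open Filter Topology

namespace Pool.Agent.Work.MP_5e5ff1_ag.TG

namespace IEXTC

theorem exp_lt : Real.exp (157 / 50) < 2314 / 100 := by
  have e1 : Real.exp (157 / 50) = Real.exp 1 ^ 3 * Real.exp (7 / 50) := by
    rw [← Real.exp_nat_mul, ← Real.exp_add]
    congr 1
    norm_num
  have h1 : Real.exp (7 / 50) ≤ 1151 / 1000 := by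
    have := Real.exp_bound' (x := 7 / 50) (by norm_num) (by norm_num) (n := 4) (by norm_num)
    refine this.trans ?_
    simp only [Finset.sum_range_succ, Finset.sum_range_zero, Nat.factorial]
    norm_num
  have h2 : Real.exp 1 < 2.7182818286 := Real.exp_one_lt_d9
  have h3 : Real.exp 1 ^ 3 < 2.7182818286 ^ 3 :=
    pow_lt_pow_left₀ h2 (Real.exp_pos 1).le (by norm_num)
  rw [e1]
  have h4 : Real.exp 1 ^ 3 * Real.exp (7 / 50) ≤ 2.7182818286 ^ 3 * (1151 / 1000) :=
    mul_le_mul h3.le h1 (Real.exp_pos _).le (by norm_num)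
  refine h4.trans_lt ?_
  norm_num

theorem sqrt_lt : Real.sqrt 2 < 1.41421357 := by
  rw [Real.sqrt_lt' (by norm_num)]
  norm_num

theorem lt_sqrt : 1.41421356 < Real.sqrt 2 := by
  rw [Real.lt_sqrt (by norm_num)]
  norm_num

end IEXTC

open IEXTC in
theorem pr_EXTC (h1 : StInd) (h2 : StStp) : StExt := by
  set r := Real.sqrt 2 with hr
  have hr2 : r ^ 2 = 2 := Real.sq_sqrt (by norm_num)
  have hr1 : r < 1.41421357 := sqrt_lt
  have hr0 : 1.41421356 < r := lt_sqrt
  set t : ℝ := 3 - 2 * r with ht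
  have ht0 : 0.17157286 < t := by
    rw [ht]
    linarith
  have ht1 : t < 0.17157288 := by
    rw [ht]
    linarith
  have htsq : t ^ 2 = 17 - 12 * r := by
    rw [ht]
    linear_combination 4 * hr2
  set c := Real.sqrt (1 - t ^ 2) with hc
  have hpos : 0 ≤ 1 - t ^ 2 := by
    rw [htsq]
    linarith
  have hc2 : c ^ 2 = 1 - t ^ 2 := Real.sq_sqrt hpos
  have hc0 : 0.98517 < c := by
    rw [hc, Real.lt_sqrt (by norm_num), htsq]
    norm_num
    linarith
  have hc1 : c < 1 := by
    rw [hc, Real.sqrt_lt' (by norm_num), htsq]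
    norm_num
    linarith
  have h1c : 0 < 1 + c := by linarith
  set s : ℝ := (t / (1 + c)) ^ 2 with hs
  have htc : 0 < t / (1 + c) := div_pos (by linarith) h1c
  have hs0 : 0 < s := pow_pos htc 2
  have htc1 : t / (1 + c) < 0.0865 := by
    rw [div_lt_iff₀ h1c]
    linarith
  have hs1 : s < 0.00749 := by
    rw [hs]
    nlinarith
  have hsq : Real.sqrt s = t / (1 + c) := Real.sqrt_sq htc.le
  have e1 : 1 + s = 2 / (1 + c) := by
    rw [hs]
    field_simp
    linear_combination hc2
  have e2 : 1 - s = 2 * c / (1 + c) := by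
    rw [hs]
    field_simp
    linear_combination -hc2
  obtain ⟨D, hQ, hD⟩ := h1 20 s hs0 (by linarith)
  have h3 := h2 s D hs0 (by linarith) hQ
  have e3 : 2 * Real.sqrt s / (1 + s) = t := by
    rw [hsq, e1]
    field_simp
  have e4 : D * (1 - s) / (2 * (1 + s)) = D * c / 2 := by
    rw [e1, e2]
    field_simp
  rw [e3, e4] at h3
  refine ⟨D * c / 2, h3, ?_⟩
  have hlog : 157 / 25 ≤ Real.log (4 / s) := by
    have e5 : 4 / s = (2 * (1 + c) / t) ^ 2 := by
      rw [hs]
      field_simp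
      norm_num
    have h4 : (2314 / 100 : ℝ) < 2 * (1 + c) / t := by
      rw [lt_div_iff₀ (by linarith)]
      linarith
    rw [e5, Real.log_pow]
    have h5 : 157 / 50 ≤ Real.log (2 * (1 + c) / t) := by
      rw [Real.le_log_iff_exp_le (by linarith)]
      exact (exp_lt.trans h4).le
    push_cast
    linarith
  have hl4 : Real.log 4 < 1.3864 := by
    have e6 : Real.log 4 = 2 * Real.log 2 := by
      rw [show (4 : ℝ) = 2 ^ 2 by norm_num, Real.log_pow]
      norm_num
    rw [e6]
    have := Real.log_two_lt_d9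
    linarith
  have hl5 : Real.log 4 / 2 ^ 20 < 0.000002 := by
    rw [div_lt_iff₀ (by positivity)]
    norm_num
    linarith
  have h6 : 6.279998 ≤ Real.log (4 / s) - Real.log 4 / 2 ^ 20 := by
    have : (157 / 25 : ℝ) = 6.28 := by norm_num
    linarith
  have h7 : s ^ 2 < 0.00006 := by nlinarith
  have h8 : 2 * 0.99988 * 6.279998 ≤ D := by
    refine le_trans ?_ hD
    have h9 : 2 * 0.99988 ≤ 2 * (1 - 2 * s ^ 2) := by linarith
    exact mul_le_mul h9 h6 (by norm_num) (by linarith)
  have h10 : 2 * 0.99988 * 6.279998 * 0.98517 ≤ D * c :=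
    mul_le_mul h8 hc0.le (by norm_num) (le_trans (by norm_num) h8)
  have h11 : (2 * 6.179 : ℝ) ≤ 2 * 0.99988 * 6.279998 * 0.98517 := by norm_num
  have h12 : (6179 / 1000 : ℝ) = 6.179 := by norm_num
  rw [h12]
  linarith

end Pool.Agent.Work.MP_5e5ff1_ag.TG
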