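import Mathlib
import Pool.Agent.Work.MP_5e5ff1_ag.TG.StmtsE

set_option autoImplicit false

/-!
# MP_5e5ff1_ag, block TG, item FIN (helper24): the theorem from its parts
-/

open Matrix Filter Topology NumberField
open scoped Polynomial

namespace Pool.Agent.Work.MP_5e5ff1_ag.TG

theorem pr_FIN (hUEX : StUEX) (hMZ : StMZ) (hRSC : StRSC) (hRSP : StRSP) (hRSL : StRSL)
    (hALG : StALG) : StFIN := by
  intro K _ _ σ r β γ b c S hβ hb hc hS hrad hP B D hB hD
  have hβ' : ∀ i j : Fin r × Fin (Module.finrank ℤ (𝓞 K)),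
      (4 : ℤ) ∣ (fun x : Fin r × Fin (Module.finrank ℤ (𝓞 K)) => β x.1) i -
        (fun x : Fin r × Fin (Module.finrank ℤ (𝓞 K)) => β x.1) j →
      (fun x : Fin r × Fin (Module.finrank ℤ (𝓞 K)) => β x.1) i =
        (fun x : Fin r × Fin (Module.finrank ℤ (𝓞 K)) => β x.1) j :=
    fun i j h => hβ i.1 j.1 h
  have hSys : Sys (fun x : Fin r × Fin (Module.finrank ℤ (𝓞 K)) => β x.1) (rs K c) S := by
    refine ⟨hβ', ⟨r, γ, hRSC K r c γ hc⟩, hS, fun p hp hp2 hpS => ?_⟩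
    refine hRSP K r β c p hp (hrad p hp hp2 hpS) fun P hPm hchar => ?_
    rw [← hb]
    exact hP P hPm (by rw [hchar]; exact hp2) (by rw [hchar]; exact hpS)
  obtain ⟨V, hV, -⟩ := hUEX ℚ (Fin r × Fin (Module.finrank ℤ (𝓞 K)))
    (fun x : Fin r × Fin (Module.finrank ℤ (𝓞 K)) => β x.1) (qm (rs K c)) hβ'
  obtain ⟨U, hU, -⟩ := hUEX ℂ (Fin r) β (Matrix.of fun i j => σ (c i j : K)) hβ
  have hVa := hMZ _ _ _ S V hSys hV
  have hUa := hRSL K σ r β c U V hβ hU hV hVa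
  refine hALG r β (Matrix.of fun i j => σ (c i j : K)) B D U hU hUa (fun i j => ?_)
    (fun i j => ?_)
  · rw [hB i j, hb]
    by_cases hij : i = j
    · subst hij
      rw [Matrix.diagonal_apply_eq, if_pos rfl]
      have h1 : σ ((((2 * β i : ℤ) : 𝓞 K)) : K) = ((2 * β i : ℤ) : ℂ) := by
        have h2 : ((((2 * β i : ℤ) : 𝓞 K)) : K) = ((2 * β i : ℤ) : K) :=
          map_intCast (algebraMap (𝓞 K) K) _
        rw [h2, map_intCast]
      rw [h1]
      push_cast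
      ring
    · rw [Matrix.diagonal_apply_ne _ hij, if_neg hij]
      simp
  · rw [hD i j]
    rfl

end Pool.Agent.Work.MP_5e5ff1_ag.TG
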