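import Mathlib
import Pool.Agent.Work.MP_5e5ff1_ag.TG.StmtsD

set_option autoImplicit false

/-!
# MP_5e5ff1_ag, block TG, item GAN: the analytic solution near 1
-/

open Matrix Filter Topology
open scoped Polynomial

namespace Pool.Agent.Work.MP_5e5ff1_ag.TG

namespace IGAN

/-- power series with exponentially bounded coefficients -/
theorem ps (a : ℕ → ℂ) (A : ℝ) (hA : 1 ≤ A) (ha : ∀ n, ‖a n‖ ≤ A ^ (n + 1)) :
    DifferentiableOn ℂ (fun x => ∑' n : ℕ, a n * x ^ n) (Metric.ball 0 (1 / (2 * A))) ∧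
    ∀ x ∈ Metric.ball (0 : ℂ) (1 / (2 * A)),
      HasSum (fun n : ℕ => a n * x ^ n) (∑' n : ℕ, a n * x ^ n) ∧
      HasSum (fun n : ℕ => (n : ℂ) * a n * x ^ n)
        (x * deriv (fun y => ∑' n : ℕ, a n * y ^ n) x) := by
  have hA0 : 0 < A := by linarith
  have hu : Summable (fun n : ℕ => A * (1 / 2 : ℝ) ^ n) :=
    (summable_geometric_of_lt_one (by norm_num) (by norm_num)).mul_left A
  have hb : ∀ (n : ℕ) (w : ℂ), w ∈ Metric.ball (0 : ℂ) (1 / (2 * A)) →
      ‖a n * w ^ n‖ ≤ A * (1 / 2 : ℝ) ^ n := by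
    intro n w hw
    rw [mem_ball_zero_iff] at hw
    rw [norm_mul, norm_pow]
    calc ‖a n‖ * ‖w‖ ^ n ≤ A ^ (n + 1) * (1 / (2 * A)) ^ n :=
          mul_le_mul (ha n) (pow_le_pow_left₀ (norm_nonneg _) hw.le n) (by positivity)
            (by positivity)
      _ = A * (1 / 2 : ℝ) ^ n := by
          have e : (1 / (2 * A)) = (1 / 2) * A⁻¹ := by
            field_simp
          rw [e, mul_pow, pow_succ]
          have h1 : A ^ n * (A⁻¹) ^ n = 1 := by
            rw [← mul_pow, mul_inv_cancel₀ hA0.ne', one_pow]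
          calc A ^ n * A * ((1 / 2) ^ n * A⁻¹ ^ n) = A * (1 / 2) ^ n * (A ^ n * A⁻¹ ^ n) := by ring
            _ = A * (1 / 2) ^ n := by rw [h1, mul_one]
  have hd : ∀ n : ℕ, DifferentiableOn ℂ (fun w : ℂ => a n * w ^ n)
      (Metric.ball 0 (1 / (2 * A))) := fun n => by fun_prop
  refine ⟨Complex.differentiableOn_tsum_of_summable_norm hu hd Metric.isOpen_ball hb, ?_⟩
  intro x hx
  refine ⟨(Summable.of_norm_bounded hu (fun n => hb n x hx)).hasSum, ?_⟩
  have h := Complex.hasSum_deriv_of_summable_norm hu hd Metric.isOpen_ball hb hx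
  have h2 := h.mul_left x
  have e : (fun n : ℕ => (n : ℂ) * a n * x ^ n) =
      fun n : ℕ => x * deriv (fun w : ℂ => a n * w ^ n) x := by
    funext n
    have hder : deriv (fun w : ℂ => a n * w ^ n) x = a n * ((n : ℂ) * x ^ (n - 1)) :=
      ((hasDerivAt_pow n x).const_mul (a n)).deriv
    rw [hder]
    rcases n with _ | n
    · simp
    · rw [Nat.add_sub_cancel, pow_succ]
      ring
  rw [e]
  exact h2

/-- the alternating sums -/
theorem alt (g : ℕ → ℚ) (n : ℕ) :
    ∑ k ∈ Finset.range (n + 1), (-1 : ℚ) ^ (n + 1 - 1 - k) * g k +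
      ∑ k ∈ Finset.range n, (-1 : ℚ) ^ (n - 1 - k) * g k = g n := by
  rw [Finset.sum_range_succ, Nat.add_sub_cancel, Nat.sub_self, pow_zero, one_mul]
  have h : ∑ k ∈ Finset.range n, (-1 : ℚ) ^ (n - k) * g k =
      -∑ k ∈ Finset.range n, (-1 : ℚ) ^ (n - 1 - k) * g k := by
    rw [← Finset.sum_neg_distrib]
    refine Finset.sum_congr rfl fun k hk => ?_
    have hk' : k < n := Finset.mem_range.1 hk
    have e : n - k = (n - 1 - k) + 1 := by omega
    rw [e, pow_succ]
    ring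
  rw [h]
  ring

end IGAN

theorem pr_GAN : StGAN := by
  intro ι _ _ β C γ G hG hA
  obtain ⟨A0, hA0⟩ := hA
  set A : ℝ := max |A0| 1 with hAdef
  have hA1 : 1 ≤ A := le_max_right _ _
  have hAG : ∀ n i j, ‖(G n i j : ℂ)‖ ≤ A ^ (n + 1) := by
    intro n i j
    have h1 : ‖(G n i j : ℂ)‖ = |(G n i j : ℝ)| := by
      rw [← Complex.ofReal_ratCast, Complex.norm_real, Real.norm_eq_abs]
    rw [h1]
    calc |(G n i j : ℝ)| ≤ A0 ^ (n + 1) := hA0 n i j
      _ ≤ |A0 ^ (n + 1)| := le_abs_self _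
      _ = |A0| ^ (n + 1) := abs_pow _ _
      _ ≤ A ^ (n + 1) := pow_le_pow_left₀ (abs_nonneg _) (le_max_left _ _) _
  set r : ℝ := 1 / (2 * A) with hr
  have hr0 : 0 < r := by positivity
  set g : ℂ → Matrix ι ι ℂ := fun x => Matrix.of fun i j => ∑' n : ℕ, (G n i j : ℂ) * x ^ n
    with hg
  have hps := fun i j => IGAN.ps (fun n => (G n i j : ℂ)) A hA1 (fun n => hAG n i j)
  have hdiff : ∀ i j, DifferentiableOn ℂ (fun x => g x i j) (Metric.ball 0 r) :=
    fun i j => (hps i j).1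
  have hS : ∀ x ∈ Metric.ball (0 : ℂ) r, ∀ i j,
      HasSum (fun n : ℕ => (G n i j : ℂ) * x ^ n) (g x i j) :=
    fun x hx i j => ((hps i j).2 x hx).1
  have hT : ∀ x ∈ Metric.ball (0 : ℂ) r, ∀ i j,
      HasSum (fun n : ℕ => (n : ℂ) * (G n i j : ℂ) * x ^ n)
        (x * deriv (fun y => g y i j) x) :=
    fun x hx i j => ((hps i j).2 x hx).2
  -- the determinant
  have hg0 : g 0 = (G 0).map (algebraMap ℚ ℂ) := by
    ext i j
    have h := hS 0 (Metric.mem_ball_self hr0) i j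
    have h2 : HasSum (fun n : ℕ => (G n i j : ℂ) * (0 : ℂ) ^ n) ((G 0 i j : ℂ) * 0 ^ 0) :=
      hasSum_single 0 fun n hn => by rw [zero_pow hn, mul_zero]
    rw [h.unique h2]
    simp
  have hdet0 : (g 0).det ≠ 0 := by
    rw [hg0, ← RingHom.mapMatrix_apply, ← RingHom.map_det]
    exact (map_ne_zero _).2 hG.det
  have hcont : ContinuousAt (fun x => (g x).det) 0 := by
    have h1 : ContinuousAt g 0 := by
      refine continuousAt_pi.2 fun i => continuousAt_pi.2 fun j => ?_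
      exact ((hdiff i j).differentiableAt (Metric.ball_mem_nhds 0 hr0)).continuousAt
    exact (Continuous.matrix_det continuous_id).continuousAt.comp h1
  obtain ⟨δ, hδ0, hδ⟩ := Metric.eventually_nhds_iff_ball.1 (hcont.eventually_ne hdet0)
  refine ⟨min r δ, g, lt_min hr0 hδ0, ?_, ?_, ?_⟩
  · exact fun i j => (hdiff i j).mono (Metric.ball_subset_ball (min_le_left _ _))
  · exact fun x hx => hδ x (Metric.ball_subset_ball (min_le_right _ _) hx)
  intro x hx i j
  have hx' : x ∈ Metric.ball (0 : ℂ) r := Metric.ball_subset_ball (min_le_left _ _) hx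
  -- the coefficients
  set a : ℕ → ℂ := fun n => 8 * ((n : ℂ) * (G n i j : ℂ)) - ∑ l, (C i l : ℂ) * (G n l j : ℂ) +
    4 * (γ j : ℂ) * (G n i j : ℂ) with ha
  have haQ : ∀ n, a n = ((2 * (β i : ℚ) * ∑ k ∈ Finset.range n, (-1) ^ (n - 1 - k) * G k i j : ℚ) :
      ℂ) := by
    intro n
    have h := hG.eqn n i j
    rw [Matrix.mul_apply] at h
    have h2 : 2 * (β i : ℚ) * ∑ k ∈ Finset.range n, (-1) ^ (n - 1 - k) * G k i j =
        8 * ((n : ℚ) * G n i j) - ∑ l, (C i l : ℚ) * G n l j + 4 * (γ j : ℚ) * G n i j := by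
      simp only [Matrix.map_apply, eq_intCast] at h
      linarith
    rw [h2, ha]
    push_cast
    rfl
  have hrec : ∀ n, a (n + 1) + a n = 2 * (β i : ℂ) * (G n i j : ℂ) := by
    intro n
    rw [haQ, haQ, ← Rat.cast_add, ← mul_add, IGAN.alt (fun k => G k i j) n]
    push_cast
    rfl
  have ha0 : a 0 = 0 := by
    rw [haQ]
    simp
  have hsumA : HasSum (fun n : ℕ => a n * x ^ n)
      (8 * (x * deriv (fun s => g s i j) x) - ∑ l, (C i l : ℂ) * g x l j +
        4 * (γ j : ℂ) * g x i j) := by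
    have h1 := (hT x hx' i j).mul_left 8
    have h2 : HasSum (fun n : ℕ => ∑ l, (C i l : ℂ) * ((G n l j : ℂ) * x ^ n))
        (∑ l, (C i l : ℂ) * g x l j) :=
      hasSum_sum fun l _ => (hS x hx' l j).mul_left _
    have h3 := (hS x hx' i j).mul_left (4 * (γ j : ℂ))
    have h := (h1.sub h2).add h3
    have e : (fun n : ℕ => a n * x ^ n) = fun n : ℕ =>
        8 * ((n : ℂ) * (G n i j : ℂ) * x ^ n) - ∑ l, (C i l : ℂ) * ((G n l j : ℂ) * x ^ n) +
          4 * (γ j : ℂ) * ((G n i j : ℂ) * x ^ n) := by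
      funext n
      rw [ha]
      simp only [← mul_assoc, ← Finset.sum_mul]
      ring
    rw [e]
    exact h
  set SA : ℂ := 8 * (x * deriv (fun s => g s i j) x) - ∑ l, (C i l : ℂ) * g x l j +
        4 * (γ j : ℂ) * g x i j with hSA
  have h1 : HasSum (fun n : ℕ => a (n + 1) * x ^ (n + 1)) SA := by
    have h := (hasSum_nat_add_iff' (f := fun n : ℕ => a n * x ^ n) 1).2 hsumA
    simpa [ha0] using h
  have h2 : HasSum (fun n : ℕ => x * (a n * x ^ n)) (x * SA) := hsumA.mul_left x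
  have h3 : HasSum (fun n : ℕ => 2 * (β i : ℂ) * x * ((G n i j : ℂ) * x ^ n))
      (2 * (β i : ℂ) * x * g x i j) := (hS x hx' i j).mul_left _
  have h4 := h1.add h2
  have e : (fun n : ℕ => a (n + 1) * x ^ (n + 1) + x * (a n * x ^ n)) =
      fun n : ℕ => 2 * (β i : ℂ) * x * ((G n i j : ℂ) * x ^ n) := by
    funext n
    have h := hrec n
    calc a (n + 1) * x ^ (n + 1) + x * (a n * x ^ n)
        = (a (n + 1) + a n) * (x ^ n * x) := by ring
      _ = 2 * (β i : ℂ) * x * ((G n i j : ℂ) * x ^ n) := by rw [h]; ring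
  rw [e] at h4
  have h5 := h4.unique h3
  rw [hSA] at h5
  linear_combination h5

end Pool.Agent.Work.MP_5e5ff1_ag.TG
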