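import Mathlib
import Pool.Agent.Work.MP_5e5ff1_ag.TG.StmtsD

/-!
# Item GCV: the formal solution at 1 has a positive radius of convergence
-/

set_option autoImplicit false

namespace Pool.Agent.Work.MP_5e5ff1_ag.TG

namespace IGCV

open Finset

variable {ι : Type} [Fintype ι] [DecidableEq ι] {β : ι → ℤ} {C : Matrix ι ι ℤ}
  {γ : ι → ℤ} {G : ℕ → Matrix ι ι ℚ}

lemma eqn_real (h : IsG β C γ G) (n : ℕ) (i j : ι) :
    8 * (n : ℝ) * (G n i j : ℝ) = (∑ l, (C i l : ℝ) * (G n l j : ℝ)) +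
      2 * (β i : ℝ) * (∑ k ∈ range n, (-1) ^ (n - 1 - k) * (G k i j : ℝ)) -
      4 * (γ j : ℝ) * (G n i j : ℝ) := by
  have e := h.eqn n i j
  simp only [Matrix.mul_apply, Matrix.map_apply, eq_intCast] at e
  have e2 := congrArg (fun q : ℚ => (q : ℝ)) e
  push_cast at e2
  linarith

lemma term (h : IsG β C γ G) (n : ℕ) (i j : ι) :
    8 * (n : ℝ) * |(G n i j : ℝ)| ≤ (∑ l, |(C i l : ℝ)| * |(G n l j : ℝ)|) +
      2 * |(β i : ℝ)| * (∑ k ∈ range n, |(G k i j : ℝ)|) +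
      4 * |(γ j : ℝ)| * |(G n i j : ℝ)| := by
  have e := eqn_real h n i j
  have h0 : 8 * (n : ℝ) * |(G n i j : ℝ)| = |8 * (n : ℝ) * (G n i j : ℝ)| := by
    rw [abs_mul, abs_of_nonneg (by positivity : (0 : ℝ) ≤ 8 * n)]
  rw [h0, e]
  have h1 : |∑ l, (C i l : ℝ) * (G n l j : ℝ)| ≤ ∑ l, |(C i l : ℝ)| * |(G n l j : ℝ)| := by
    refine (abs_sum_le_sum_abs _ _).trans (le_of_eq ?_)
    exact sum_congr rfl fun l _ => abs_mul _ _
  have h2 : |2 * (β i : ℝ) * (∑ k ∈ range n, (-1) ^ (n - 1 - k) * (G k i j : ℝ))| ≤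
      2 * |(β i : ℝ)| * (∑ k ∈ range n, |(G k i j : ℝ)|) := by
    rw [abs_mul, abs_mul, abs_two]
    refine mul_le_mul_of_nonneg_left ?_ (by positivity)
    refine (abs_sum_le_sum_abs _ _).trans (le_of_eq ?_)
    refine sum_congr rfl fun k _ => ?_
    rw [abs_mul, abs_pow, abs_neg, abs_one, one_pow, one_mul]
  have h3 : |4 * (γ j : ℝ) * (G n i j : ℝ)| = 4 * |(γ j : ℝ)| * |(G n i j : ℝ)| := by
    rw [abs_mul, abs_mul, abs_of_pos (by norm_num : (0 : ℝ) < 4)]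
  rw [← h3]
  exact (abs_sub _ _).trans (add_le_add_left ((abs_add_le _ _).trans (add_le_add h1 h2)) _)

lemma key (h : IsG β C γ G) (n : ℕ) :
    (8 * (n : ℝ) - 4 * (∑ j, |(γ j : ℝ)|) - ∑ l, ∑ i, |(C i l : ℝ)|) *
      (∑ i, ∑ j, |(G n i j : ℝ)|) ≤
      2 * (∑ i, |(β i : ℝ)|) * ∑ k ∈ range n, ∑ i, ∑ j, |(G k i j : ℝ)| := by
  have h1 : ∑ i, ∑ j, 8 * (n : ℝ) * |(G n i j : ℝ)| ≤
      (∑ i, ∑ j, ∑ l, |(C i l : ℝ)| * |(G n l j : ℝ)|) +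
      (∑ i, ∑ j, 2 * |(β i : ℝ)| * (∑ k ∈ range n, |(G k i j : ℝ)|)) +
      ∑ i, ∑ j, 4 * |(γ j : ℝ)| * |(G n i j : ℝ)| := by
    simp only [← sum_add_distrib]
    exact sum_le_sum fun i _ => sum_le_sum fun j _ => term h n i j
  have h2 : ∑ i, ∑ j, ∑ l, |(C i l : ℝ)| * |(G n l j : ℝ)| ≤
      (∑ l, ∑ i, |(C i l : ℝ)|) * ∑ l, ∑ j, |(G n l j : ℝ)| := by
    have e : ∑ i, ∑ j, ∑ l, |(C i l : ℝ)| * |(G n l j : ℝ)| =
        ∑ l, (∑ i, |(C i l : ℝ)|) * ∑ j, |(G n l j : ℝ)| := by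
      have e1 : ∀ i, ∑ j, ∑ l, |(C i l : ℝ)| * |(G n l j : ℝ)| =
          ∑ l, |(C i l : ℝ)| * ∑ j, |(G n l j : ℝ)| := by
        intro i
        rw [sum_comm]
        exact sum_congr rfl fun l _ => (mul_sum _ _ _).symm
      simp only [e1]
      rw [sum_comm]
      exact sum_congr rfl fun l _ => (sum_mul _ _ _).symm
    rw [e, sum_mul]
    refine sum_le_sum fun l _ => ?_
    refine mul_le_mul_of_nonneg_left ?_ (sum_nonneg fun _ _ => abs_nonneg _)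
    exact single_le_sum (f := fun l => ∑ j, |(G n l j : ℝ)|)
      (fun _ _ => sum_nonneg fun _ _ => abs_nonneg _) (mem_univ l)
  have h3 : ∑ i, ∑ j, 2 * |(β i : ℝ)| * (∑ k ∈ range n, |(G k i j : ℝ)|) ≤
      2 * (∑ i, |(β i : ℝ)|) * ∑ k ∈ range n, ∑ i, ∑ j, |(G k i j : ℝ)| := by
    have e : ∑ k ∈ range n, ∑ i, ∑ j, |(G k i j : ℝ)| =
        ∑ i, ∑ j, ∑ k ∈ range n, |(G k i j : ℝ)| := by
      rw [sum_comm]
      refine sum_congr rfl fun i _ => ?_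
      rw [sum_comm]
    rw [e, mul_sum]
    refine sum_le_sum fun i _ => ?_
    rw [← mul_sum]
    refine mul_le_mul_of_nonneg_right ?_ (sum_nonneg fun _ _ => sum_nonneg fun _ _ => abs_nonneg _)
    have := single_le_sum (f := fun i => |(β i : ℝ)|) (fun _ _ => abs_nonneg _) (mem_univ i)
    linarith
  have h4 : ∑ i, ∑ j, 4 * |(γ j : ℝ)| * |(G n i j : ℝ)| ≤
      4 * (∑ j, |(γ j : ℝ)|) * ∑ i, ∑ j, |(G n i j : ℝ)| := by
    rw [mul_sum]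
    refine sum_le_sum fun i _ => ?_
    rw [mul_sum]
    refine sum_le_sum fun j _ => ?_
    refine mul_le_mul_of_nonneg_right ?_ (abs_nonneg _)
    have := single_le_sum (f := fun j => |(γ j : ℝ)|) (fun _ _ => abs_nonneg _) (mem_univ j)
    linarith
  have h5 : ∑ i, ∑ j, 8 * (n : ℝ) * |(G n i j : ℝ)| =
      8 * (n : ℝ) * ∑ i, ∑ j, |(G n i j : ℝ)| := by
    simp only [← mul_sum]
  rw [h5] at h1
  nlinarith [h1, h2, h3, h4]

end IGCV

open Finset in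
/-- Item GCV. -/
theorem pr_GCV (h1 : StMAJ) : StGCV := by
  intro ι _ _ β C γ G hG
  set x : ℕ → ℝ := fun n => ∑ i, ∑ j, |(G n i j : ℝ)| with hx
  have hx0 : ∀ n, 0 ≤ x n := fun n => sum_nonneg fun _ _ => sum_nonneg fun _ _ => abs_nonneg _
  obtain ⟨n0, hn0⟩ := exists_nat_ge (4 * (∑ j, |(γ j : ℝ)|) + (∑ l, ∑ i, |(C i l : ℝ)|) + 1)
  obtain ⟨A, hA, hb⟩ := h1 x (2 * ∑ i, |(β i : ℝ)|) n0
    (mul_nonneg (by norm_num) (sum_nonneg fun _ _ => abs_nonneg _)) hx0 (by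
      intro n hn
      have h2 := IGCV.key hG n
      have h3 : (n0 : ℝ) ≤ n := by exact_mod_cast hn
      have h4 : (0 : ℝ) ≤ n := n.cast_nonneg
      have h5 : 1 ≤ 8 * (n : ℝ) - 4 * (∑ j, |(γ j : ℝ)|) - ∑ l, ∑ i, |(C i l : ℝ)| := by
        linarith
      calc x n = 1 * x n := (one_mul _).symm
        _ ≤ _ := mul_le_mul_of_nonneg_right h5 (hx0 n)
        _ ≤ _ := h2)
  refine ⟨A, hA, fun n i j => ?_⟩
  refine le_trans ?_ (hb n)
  have h6 := single_le_sum (f := fun i => ∑ j, |(G n i j : ℝ)|)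
    (fun _ _ => sum_nonneg fun _ _ => abs_nonneg _) (mem_univ i)
  have h7 := single_le_sum (f := fun j => |(G n i j : ℝ)|) (fun _ _ => abs_nonneg _) (mem_univ j)
  exact h7.trans h6

end Pool.Agent.Work.MP_5e5ff1_ag.TG
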