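import Mathlib
import Pool.Agent.Work.MP_5e5ff1_ag.TG.StmtsD

set_option autoImplicit false

/-! MP_5e5ff1_ag, block TG, item GEX (helper70): the formal solution at 1 without logarithms. -/

namespace Pool.Agent.Work.MP_5e5ff1_ag.TG

open Matrix

namespace IGEX

variable {ι : Type} [Fintype ι] [DecidableEq ι]

lemma L1_apply {R : Type} [CommRing R] (β : ι → ℤ) (C : Matrix ι ι R) (lam : ℤ) (w : ℕ → ι → R)
    (m : ℕ) (i : ι) : L1 β C lam w m i = 8 * (m : R) * w m i - (C *ᵥ w m) i -
    2 * (β i : R) * ∑ k ∈ Finset.range m, (-1) ^ (m - 1 - k) * w k i - (lam : R) * w m i := rfl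

lemma L1_congr {R : Type} [CommRing R] (β : ι → ℤ) (C : Matrix ι ι R) (lam : ℤ) (w w' : ℕ → ι → R)
    (m : ℕ) (h : ∀ k ≤ m, w k = w' k) (i : ι) : L1 β C lam w m i = L1 β C lam w' m i := by
  rw [L1_apply, L1_apply, h m le_rfl,
    Finset.sum_congr rfl (fun k hk => by rw [h k (Finset.mem_range.1 hk).le])]

/-- the recursive construction of one column -/
lemma column (β : ι → ℤ) (C : Matrix ι ι ℚ) (lam : ℤ) (v : ι → ℚ)
    (h0 : ∀ i, L1 β C lam (fun n => if n = 0 then v else 0) 0 i = 0)
    (hE : ∀ (g : ℕ → ι → ℚ) (n : ℕ), (∀ m < n, ∀ i, L1 β C lam g m i = 0) →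
      ∃ h : ι → ℚ, ∀ m ≤ n, ∀ i, L1 β C lam (Function.update g n h) m i = 0) :
    ∃ g : ℕ → ι → ℚ, g 0 = v ∧ ∀ n i, L1 β C lam g n i = 0 := by
  choose! f hf using hE
  set G : ℕ → ℕ → ι → ℚ := fun n => Nat.rec (fun n => if n = 0 then v else 0)
    (fun n g => Function.update g (n + 1) (f g (n + 1))) n with hG
  have hGs : ∀ n, G (n + 1) = Function.update (G n) (n + 1) (f (G n) (n + 1)) := fun n => rfl
  have hP : ∀ n, ∀ m ≤ n, ∀ i, L1 β C lam (G n) m i = 0 := by
    intro n
    induction n with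
    | zero =>
      intro m hm i
      obtain rfl : m = 0 := by omega
      exact h0 i
    | succ n ih =>
      rw [hGs]
      exact hf (G n) (n + 1) (fun m hm i => ih m (by omega) i)
  have hA : ∀ n, ∀ m ≤ n, G n m = G m m := by
    intro n
    induction n with
    | zero =>
      intro m hm
      obtain rfl : m = 0 := by omega
      rfl
    | succ n ih =>
      intro m hm
      rcases Nat.lt_or_ge n m with h | h
      · obtain rfl : m = n + 1 := by omega
        rfl
      · rw [hGs, Function.update_of_ne (by omega)]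
        exact ih m h
  refine ⟨fun n => G n n, ?_, ?_⟩
  · show G 0 0 = v
    simp [hG]
  · intro n i
    rw [L1_congr β C lam (fun n => G n n) (G n) n (fun k hk => (hA n k hk).symm) i]
    exact hP n n le_rfl i

end IGEX

open IGEX in
theorem pr_GEX (h1 : StDIA) (h2 : StEXT) : StGEX := by
  intro ι _ _ β C S hS
  obtain ⟨γ, V, hV, hCV⟩ := h1 ι β C S hS
  have key : ∀ j, ∃ g : ℕ → ι → ℚ, g 0 = (fun i => V i j) ∧
      ∀ n i, L1 β (qm C) (-(4 * γ j)) g n i = 0 := by
    intro j
    refine column β (qm C) (-(4 * γ j)) (fun i => V i j) ?_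
      (fun g n hg => h2 ι β C S hS g (γ j) n hg)
    intro i
    have h := congrFun (congrFun hCV i) j
    rw [Matrix.mul_diagonal] at h
    rw [L1_apply]
    have h' : (qm C *ᵥ fun i => V i j) i = V i j * (4 * (γ j : ℚ)) := h
    simp only [if_true]
    rw [h']
    push_cast
    simp
    ring
  choose g hg0 hg using key
  refine ⟨γ, fun n => Matrix.of fun i j => g j n i, ?_, ?_⟩
  · have : (Matrix.of fun i j => g j 0 i) = V := by
      ext i j
      simp [hg0 j]
    simpa [this] using hV
  · intro n i j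
    have h := hg j n i
    rw [L1_apply] at h
    have h' : ((C.map (Int.castRingHom ℚ)) * (Matrix.of fun i j => g j n i)) i j =
        (qm C *ᵥ g j n) i := by
      simp [Matrix.mul_apply, Matrix.mulVec, dotProduct]
    simp only [Matrix.of_apply] at h' ⊢
    rw [h']
    push_cast at h
    linarith

end Pool.Agent.Work.MP_5e5ff1_ag.TG
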