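import Mathlib
import Pool.Agent.Work.MP_5e5ff1_ag.TG.StmtsA

set_option autoImplicit false

/-!
# MP_5e5ff1_ag, block TG, item GRG: growth for the good primes
-/

open Matrix Filter Topology
open scoped Polynomial

namespace Pool.Agent.Work.MP_5e5ff1_ag.TG

namespace IGRG

lemma geo (p : ℕ) (hp : 2 ≤ p) (L : ℕ) (hL : 1 ≤ L) :
    ∑ l ∈ Finset.Icc 2 L, (1 : ℝ) / (p : ℝ) ^ l =
      1 / ((p : ℝ) * (p - 1)) - 1 / ((p : ℝ) ^ L * (p - 1)) := by
  have hp' : (2 : ℝ) ≤ p := by exact_mod_cast hp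
  have h0 : (p : ℝ) ≠ 0 := by positivity
  have h1 : (p : ℝ) - 1 ≠ 0 := by linarith
  induction L, hL using Nat.le_induction with
  | base => simp
  | succ n hn ih =>
    rw [Finset.sum_Icc_succ_top (by omega), ih]
    field_simp
    ring

lemma geo_le (p : ℕ) (hp : 2 ≤ p) (L : ℕ) (hL : 1 ≤ L) :
    ∑ l ∈ Finset.Icc 2 L, (1 : ℝ) / (p : ℝ) ^ l ≤ 1 / ((p : ℝ) * (p - 1)) := by
  have hp' : (2 : ℝ) ≤ p := by exact_mod_cast hp
  have h1 : (0 : ℝ) < (p : ℝ) - 1 := by linarith
  rw [geo p hp L hL]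
  have : (0 : ℝ) ≤ 1 / ((p : ℝ) ^ L * (p - 1)) := by positivity
  linarith

/-- the bound for `p` -/
noncomputable def P (B N : ℕ) : ℕ := Nat.sqrt (4 * N + B + 4) + 2

lemma small_p (p B N : ℕ) (h : p ^ 2 ≤ 4 * (N + p) + B) : p ≤ P B N := by
  unfold P
  by_contra hc
  push Not at hc
  obtain ⟨q, rfl⟩ : ∃ q, p = q + 2 := ⟨p - 2, by omega⟩
  have h1 : Nat.sqrt (4 * N + B + 4) < q := by omega
  rw [Nat.sqrt_lt'] at h1
  nlinarith

lemma LGJ_le (p B J N : ℕ) (hp : 2 ≤ p) (h : 2 ≤ Nat.log p (4 * (N + p) + B)) :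
    (LGJ p B J N : ℝ) * Real.log p ≤ N * (Real.log p / (p * (p - 1))) +
      J * (1 + Real.log ((4 * (N + p) + B : ℕ) : ℝ)) := by
  have hp' : (2 : ℝ) ≤ p := by exact_mod_cast hp
  have h0 : (0 : ℝ) < p := by linarith
  have h1 : (0 : ℝ) < (p : ℝ) - 1 := by linarith
  have hlog : 0 ≤ Real.log p := Real.log_nonneg (by linarith)
  set L := Nat.log p (4 * (N + p) + B) with hL
  have hsum : (LGJ p B J N : ℝ) ≤ (N + J * p) * (1 / ((p : ℝ) * (p - 1))) + J * L := by
    unfold LGJ
    rw [← hL, Nat.cast_sum]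
    calc ∑ l ∈ Finset.Icc 2 L, (((N + J * p) / p ^ l + J : ℕ) : ℝ)
        ≤ ∑ l ∈ Finset.Icc 2 L, (((N : ℝ) + J * p) * (1 / (p : ℝ) ^ l) + J) := by
          apply Finset.sum_le_sum
          intro l _
          rw [Nat.cast_add]
          have h2 : (((N + J * p) / p ^ l : ℕ) : ℝ) ≤ ((N + J * p : ℕ) : ℝ) / ((p ^ l : ℕ) : ℝ) :=
            Nat.cast_div_le
          have h3 : ((N + J * p : ℕ) : ℝ) / ((p ^ l : ℕ) : ℝ) =
              ((N : ℝ) + J * p) * (1 / (p : ℝ) ^ l) := by
            push_cast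
            ring
          rw [h3] at h2
          linarith
      _ = ((N : ℝ) + J * p) * ∑ l ∈ Finset.Icc 2 L, (1 / (p : ℝ) ^ l) +
            (Finset.Icc 2 L).card * J := by
          rw [Finset.sum_add_distrib, ← Finset.mul_sum, Finset.sum_const, nsmul_eq_mul]
      _ ≤ (N + J * p) * (1 / ((p : ℝ) * (p - 1))) + J * L := by
          have h4 : ((N : ℝ) + J * p) * ∑ l ∈ Finset.Icc 2 L, (1 / (p : ℝ) ^ l) ≤
              ((N : ℝ) + J * p) * (1 / ((p : ℝ) * (p - 1))) :=
            mul_le_mul_of_nonneg_left (geo_le p hp L (by omega)) (by positivity)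
          have h5 : ((Finset.Icc 2 L).card : ℝ) * J ≤ J * L := by
            rw [Nat.card_Icc, mul_comm]
            apply mul_le_mul_of_nonneg_left _ (by positivity)
            exact_mod_cast (by omega : L + 1 - 2 ≤ L)
          linarith
  have hLlog : (L : ℝ) * Real.log p ≤ Real.log ((4 * (N + p) + B : ℕ) : ℝ) := by
    have h6 : p ^ L ≤ 4 * (N + p) + B := Nat.pow_log_le_self p (by omega)
    have h7 : ((p : ℝ) ^ L) ≤ ((4 * (N + p) + B : ℕ) : ℝ) := by exact_mod_cast h6
    rw [← Real.log_pow]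
    exact Real.log_le_log (by positivity) h7
  have hlp : Real.log p ≤ p - 1 := Real.log_le_sub_one_of_pos h0
  have hq : Real.log p / (p - 1) ≤ 1 := by
    rw [div_le_one h1]
    exact hlp
  calc (LGJ p B J N : ℝ) * Real.log p
      ≤ ((N + J * p) * (1 / ((p : ℝ) * (p - 1))) + J * L) * Real.log p :=
        mul_le_mul_of_nonneg_right hsum hlog
    _ = N * (Real.log p / (p * (p - 1))) + J * (Real.log p / (p - 1) + L * Real.log p) := by
        field_simp
        ring
    _ ≤ N * (Real.log p / (p * (p - 1))) +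
      J * (1 + Real.log ((4 * (N + p) + B : ℕ) : ℝ)) := by
        have : (J : ℝ) * (Real.log p / (p - 1) + L * Real.log p) ≤
            J * (1 + Real.log ((4 * (N + p) + B : ℕ) : ℝ)) :=
          mul_le_mul_of_nonneg_left (by linarith) (by positivity)
        linarith

lemma term_le (p B J N : ℕ) (hp : 2 ≤ p) :
    (LGJ p B J N : ℝ) * Real.log p ≤ N * (Real.log p / (p * (p - 1))) +
      (if p ≤ P B N then (J : ℝ) * (1 + Real.log ((4 * (N + P B N) + B : ℕ) : ℝ)) else 0) := by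
  have hp' : (2 : ℝ) ≤ p := by exact_mod_cast hp
  have h1 : (0 : ℝ) < (p : ℝ) - 1 := by linarith
  have hlog : 0 ≤ Real.log p := Real.log_nonneg (by linarith)
  have hnn : 0 ≤ (N : ℝ) * (Real.log p / (p * (p - 1))) := by positivity
  by_cases h : 2 ≤ Nat.log p (4 * (N + p) + B)
  · have hpp : p ≤ P B N := by
      apply small_p
      calc p ^ 2 ≤ p ^ Nat.log p (4 * (N + p) + B) := Nat.pow_le_pow_right (by omega) h
        _ ≤ 4 * (N + p) + B := Nat.pow_log_le_self p (by omega)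
    rw [if_pos hpp]
    refine (LGJ_le p B J N hp h).trans ?_
    have h2 : Real.log ((4 * (N + p) + B : ℕ) : ℝ) ≤
        Real.log ((4 * (N + P B N) + B : ℕ) : ℝ) := by
      apply Real.log_le_log
      · exact_mod_cast (by omega : 0 < 4 * (N + p) + B)
      · exact_mod_cast (by omega : 4 * (N + p) + B ≤ 4 * (N + P B N) + B)
    have h3 : (J : ℝ) * (1 + Real.log ((4 * (N + p) + B : ℕ) : ℝ)) ≤
        (J : ℝ) * (1 + Real.log ((4 * (N + P B N) + B : ℕ) : ℝ)) :=
      mul_le_mul_of_nonneg_left (by linarith) (by positivity)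
    linarith
  · have h0 : LGJ p B J N = 0 := by
      unfold LGJ
      rw [Finset.Icc_eq_empty (by omega), Finset.sum_empty]
    rw [h0]
    have h4 : 0 ≤ (if p ≤ P B N then (J : ℝ) * (1 + Real.log ((4 * (N + P B N) + B : ℕ) : ℝ))
        else 0) := by
      split_ifs
      · apply mul_nonneg (by positivity)
        have : 0 ≤ Real.log ((4 * (N + P B N) + B : ℕ) : ℝ) := Real.log_natCast_nonneg _
        linarith
      · exact le_refl _
    simp only [Nat.cast_zero, zero_mul]
    linarith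

/-- the final asymptotic estimate -/
lemma asy (B J : ℕ) (ε : ℝ) (hε : 0 < ε) : ∃ N0 : ℕ, ∀ N ≥ N0,
    ((P B N : ℝ) + 1) * ((J : ℝ) * (1 + Real.log ((4 * (N + P B N) + B : ℕ) : ℝ))) ≤ ε * N := by
  have h1 : (fun x : ℝ => x ^ (1 / 2 : ℝ) * Real.log x) =o[atTop]
      fun x : ℝ => x ^ (1 / 2 : ℝ) * x ^ (1 / 2 : ℝ) :=
    (Asymptotics.isBigO_refl _ _).mul_isLittleO (isLittleO_log_rpow_atTop (by norm_num))
  have hc : 0 < ε / (40 * (J + 1)) := by positivity
  have h2 := h1.def hc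
  obtain ⟨X, hX⟩ := (h2.and (eventually_ge_atTop (16 : ℝ))).exists_forall_of_atTop
  refine ⟨B + 4 + Nat.ceil (max X 16), fun N hN => ?_⟩
  have hN1 : B + 4 ≤ N := by omega
  have hNX : max X 16 ≤ (N : ℝ) := (Nat.le_ceil _).trans (by exact_mod_cast (by omega :
    Nat.ceil (max X 16) ≤ N))
  set x : ℝ := ((4 * N + B + 4 : ℕ) : ℝ) with hx
  have hxN : (N : ℝ) ≤ x := by
    rw [hx]; exact_mod_cast (by omega : N ≤ 4 * N + B + 4)
  have hx5 : x ≤ 5 * N := by
    rw [hx]; exact_mod_cast (by omega : 4 * N + B + 4 ≤ 5 * N)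
  have hxX : X ≤ x := (le_max_left X 16).trans (hNX.trans hxN)
  obtain ⟨h3, h4⟩ := hX x hxX
  have hx0 : 0 < x := by linarith
  have hlogx : 1 ≤ Real.log x := by
    rw [Real.le_log_iff_exp_le hx0]
    have := Real.exp_one_lt_d9
    linarith
  rw [Real.norm_of_nonneg (by positivity), Real.norm_of_nonneg (by positivity),
    ← Real.rpow_add hx0] at h3
  norm_num at h3
  rw [← Real.sqrt_eq_rpow] at h3
  -- bounds for P
  have hsq : 4 ≤ Real.sqrt x := by
    rw [Real.le_sqrt' (by norm_num)]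
    linarith
  have hs2 : Real.sqrt x * Real.sqrt x = x := Real.mul_self_sqrt hx0.le
  have hP : (P B N : ℝ) + 1 ≤ 2 * Real.sqrt x := by
    unfold P
    push_cast
    have : ((Nat.sqrt (4 * N + B + 4) : ℕ) : ℝ) ≤ Real.sqrt x := by
      rw [hx]; exact Real.nat_sqrt_le_real_sqrt
    linarith
  have hlog2 : Real.log ((4 * (N + P B N) + B : ℕ) : ℝ) ≤ 2 * Real.log x := by
    have h5 : ((4 * (N + P B N) + B : ℕ) : ℝ) ≤ x * x := by
      have h6 : ((4 * (N + P B N) + B : ℕ) : ℝ) ≤ x + 4 * (P B N : ℝ) := by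
        rw [hx]
        push_cast
        linarith
      nlinarith
    have h7 : (0 : ℝ) < ((4 * (N + P B N) + B : ℕ) : ℝ) := by
      exact_mod_cast (by omega : 0 < 4 * (N + P B N) + B)
    calc Real.log ((4 * (N + P B N) + B : ℕ) : ℝ) ≤ Real.log (x * x) :=
          Real.log_le_log h7 h5
      _ = 2 * Real.log x := by rw [Real.log_mul hx0.ne' hx0.ne']; ring
  have hJ : (0 : ℝ) ≤ J := by positivity
  have hP0 : (0 : ℝ) ≤ (P B N : ℝ) + 1 := by positivity
  calc ((P B N : ℝ) + 1) * ((J : ℝ) * (1 + Real.log ((4 * (N + P B N) + B : ℕ) : ℝ)))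
      ≤ (2 * Real.sqrt x) * ((J : ℝ) * (3 * Real.log x)) := by
        apply mul_le_mul hP _ _ (by positivity)
        · apply mul_le_mul_of_nonneg_left _ hJ
          linarith
        · apply mul_nonneg hJ
          have : 0 ≤ Real.log ((4 * (N + P B N) + B : ℕ) : ℝ) := Real.log_natCast_nonneg _
          linarith
    _ = 6 * J * (Real.sqrt x * Real.log x) := by ring
    _ ≤ 6 * J * (ε / (40 * (J + 1)) * x) := by
        apply mul_le_mul_of_nonneg_left _ (by positivity)
        exact h3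
    _ = (J / (J + 1)) * (6 / 40) * (ε * x) := by
        field_simp
    _ ≤ 1 * (6 / 40) * (ε * x) := by
        have h8 : (J : ℝ) / (J + 1) ≤ 1 := by
          rw [div_le_one (by positivity)]
          linarith
        have h9 : 0 ≤ ε * x := by positivity
        apply mul_le_mul_of_nonneg_right _ h9
        linarith
    _ ≤ ε * N := by nlinarith

end IGRG

open IGRG in
theorem pr_GRG : StGRG := by
  intro S B J ε hε
  obtain ⟨N0, hN0⟩ := asy B J ε hε
  refine ⟨N0, fun N hN => ?_⟩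
  classical
  set c : ℝ := (J : ℝ) * (1 + Real.log ((4 * (N + P B N) + B : ℕ) : ℝ)) with hc
  have hc0 : 0 ≤ c := by
    rw [hc]
    apply mul_nonneg (by positivity)
    have : 0 ≤ Real.log ((4 * (N + P B N) + B : ℕ) : ℝ) := Real.log_natCast_nonneg _
    linarith
  have hsum : ∑ p ∈ (opr (4 * N + B + 8)).filter (· ∉ S), (LGJ p B J N : ℝ) * Real.log p ≤
      ∑ p ∈ (opr (4 * N + B + 8)).filter (· ∉ S), ((N : ℝ) * (Real.log p / (p * (p - 1))) +
        (if p ≤ P B N then c else 0)) := by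
    apply Finset.sum_le_sum
    intro p hp
    rw [Finset.mem_filter, opr, Finset.mem_filter, Finset.mem_Icc] at hp
    exact term_le p B J N (by omega)
  refine hsum.trans ?_
  rw [Finset.sum_add_distrib, ← Finset.mul_sum]
  have h2 : ∑ p ∈ (opr (4 * N + B + 8)).filter (· ∉ S), (if p ≤ P B N then c else 0) ≤
      ((P B N : ℝ) + 1) * c := by
    rw [← Finset.sum_filter, Finset.sum_const, nsmul_eq_mul]
    apply mul_le_mul_of_nonneg_right _ hc0
    have h3 : (Finset.filter (fun p => p ≤ P B N)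
        ((opr (4 * N + B + 8)).filter (· ∉ S))).card ≤ (Finset.range (P B N + 1)).card := by
      apply Finset.card_le_card
      intro p hp
      rw [Finset.mem_filter] at hp
      rw [Finset.mem_range]
      omega
    rw [Finset.card_range] at h3
    exact_mod_cast h3
  have h4 := hN0 N hN
  linarith

end Pool.Agent.Work.MP_5e5ff1_ag.TG
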