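import Mathlib
import Pool.Agent.Work.MP_5e5ff1_ag.TG.StmtsA

set_option autoImplicit false

/-!
# MP_5e5ff1_ag, block TG, item GRO (helper35): growth of the common denominator
-/

open Matrix Filter Topology
open scoped Polynomial

namespace Pool.Agent.Work.MP_5e5ff1_ag.TG

namespace IGRO

open Classical in
theorem log_dJ (S : Set ℕ) (B J N : ℕ) :
    Real.log (dJ S B J N) = 4 * N * Real.log 2 +
      4 * (∑ p ∈ (opr (4 * N + B + 8)).filter (· ∈ S), (LSJ p B J N : ℝ) * Real.log p +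
        ∑ p ∈ (opr (4 * N + B + 8)).filter (· ∉ S), (LGJ p B J N : ℝ) * Real.log p) := by
  unfold dJ
  have hp : ∀ p ∈ (Finset.Icc 3 (4 * N + B + 8)).filter Nat.Prime,
      ((p : ℝ) ^ (4 * (if p ∈ S then LSJ p B J N else LGJ p B J N))) ≠ 0 := by
    intro p hp
    rw [Finset.mem_filter] at hp
    exact pow_ne_zero _ (by exact_mod_cast hp.2.ne_zero)
  have h1 : (∑ p ∈ (opr (4 * N + B + 8)).filter (· ∈ S), (LSJ p B J N : ℝ) * Real.log p +
        ∑ p ∈ (opr (4 * N + B + 8)).filter (· ∉ S), (LGJ p B J N : ℝ) * Real.log p) =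
      ∑ p ∈ opr (4 * N + B + 8),
        ((if p ∈ S then LSJ p B J N else LGJ p B J N : ℕ) : ℝ) * Real.log p := by
    rw [Finset.sum_filter, Finset.sum_filter, ← Finset.sum_add_distrib]
    apply Finset.sum_congr rfl
    intro p _
    by_cases h : p ∈ S
    · rw [if_pos h, if_neg (not_not.2 h), if_pos h, add_zero]
    · rw [if_neg h, if_pos h, if_neg h, zero_add]
  rw [h1, Nat.cast_mul, Nat.cast_pow, Nat.cast_prod]
  simp only [Nat.cast_pow]
  rw [Real.log_mul (by positivity) (Finset.prod_ne_zero_iff.2 hp), Real.log_pow,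
    Real.log_prod hp]
  simp only [Real.log_pow]
  rw [Finset.mul_sum]
  push_cast
  congr 1
  apply Finset.sum_congr rfl
  intro p _
  ring

end IGRO

theorem pr_GRO (h1 : StGRS) (h2 : StGRG) (h3 : StKAP) : StGRO := by
  classical
  intro S B J hS ε hε
  obtain ⟨N1, hN1⟩ := h1 S B J hS (ε / 8) (by positivity)
  obtain ⟨N2, hN2⟩ := h2 S B J (ε / 8) (by positivity)
  refine ⟨max N1 N2, fun N hN => ?_⟩
  have e1 := hN1 N (le_trans (le_max_left _ _) hN)
  have e2 := hN2 N (le_trans (le_max_right _ _) hN)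
  have e3 := h3 (4 * N + B + 8)
  have e4 : ∑ p ∈ (opr (4 * N + B + 8)).filter (· ∈ S), Real.log p / p ≤ 1 / 50 := by
    apply hS
    intro p hp
    rw [Finset.mem_filter] at hp
    refine ⟨?_, hp.2⟩
    have := hp.1
    unfold opr at this
    rw [Finset.mem_filter] at this
    exact this.2
  rw [Finset.sum_add_distrib] at e1
  have e5 : ∑ p ∈ (opr (4 * N + B + 8)).filter (· ∈ S), Real.log p / (p * (p - 1)) +
      ∑ p ∈ (opr (4 * N + B + 8)).filter (· ∉ S), Real.log p / (p * (p - 1)) =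
      ∑ p ∈ opr (4 * N + B + 8), Real.log p / ((p : ℝ) * (p - 1)) := by
    rw [Finset.sum_filter_add_sum_filter_not]
  rw [IGRO.log_dJ]
  have hN0 : (0 : ℝ) ≤ N := Nat.cast_nonneg N
  have e6 : (N : ℝ) * (∑ p ∈ (opr (4 * N + B + 8)).filter (· ∈ S), Real.log p / p +
      ∑ p ∈ opr (4 * N + B + 8), Real.log p / ((p : ℝ) * (p - 1))) ≤
      N * (1 / 50 + 4145 / 10000) :=
    mul_le_mul_of_nonneg_left (add_le_add e4 e3) hN0
  rw [← e5] at e6
  nlinarith [e1, e2, e6, mul_nonneg hN0 hε.le]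

end Pool.Agent.Work.MP_5e5ff1_ag.TG
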