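import Mathlib
import Pool.Agent.Work.MP_5e5ff1_ag.TG.StmtsC

set_option autoImplicit false

/-!
# Block TG, item IND: iteration of the Landen step
-/

namespace Pool.Agent.Work.MP_5e5ff1_ag.TG

namespace IIND

theorem two_le_log : (2 : ℝ) ≤ Real.log 20 := by
  rw [Real.le_log_iff_exp_le (by norm_num)]
  have h : Real.exp 2 = Real.exp 1 * Real.exp 1 := by
    rw [← Real.exp_add]
    norm_num
  rw [h]
  have h1 := Real.exp_one_lt_d9
  have h0 := Real.exp_pos 1
  nlinarith

theorem lam_ge (k : ℕ) {t : ℝ} (ht : 0 < t) (ht1 : t ≤ 1 / 10) :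
    2 ≤ Real.log (4 / t) - Real.log 4 / 2 ^ (k + 1) := by
  have h1 : Real.log 40 ≤ Real.log (4 / t) := by
    refine Real.log_le_log (by norm_num) ?_
    rw [le_div_iff₀ ht]
    linarith
  have h2 : Real.log 4 / 2 ^ (k + 1) ≤ Real.log 2 := by
    have h3 : Real.log 4 = 2 * Real.log 2 := by
      rw [show (4 : ℝ) = 2 ^ 2 by norm_num, Real.log_pow]
      norm_num
    have h4 : (1 : ℝ) ≤ 2 ^ k := one_le_pow₀ (by norm_num)
    have h5 : 0 ≤ Real.log 2 := Real.log_nonneg (by norm_num)
    rw [h3, div_le_iff₀ (by positivity), pow_succ]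
    nlinarith
  have h3 : Real.log 40 = Real.log 20 + Real.log 2 := by
    rw [← Real.log_mul (by norm_num) (by norm_num)]
    norm_num
  have := two_le_log
  linarith

theorem fin_ineq {x s L c : ℝ} (hx : 0 < x) (hx1 : x ≤ 1 / 100) (hs : 0 < s) (hs1 : s ≤ x / 3)
    (hL : 2 ≤ L) (hc : 1 - x ≤ c) : 2 * (1 - 2 * x) * L ≤ 2 * c * (1 - 2 * s ^ 2) * (L - s) := by
  have h1 : (1 - x / 450) ≤ 1 - 2 * s ^ 2 := by nlinarith
  have h2 : L * (1 - x / 6) ≤ L - s := by nlinarith
  have h3 : 0 ≤ L * (1 - x / 6) := by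
    apply mul_nonneg <;> linarith
  have h4 : (0 : ℝ) ≤ 1 - x / 450 := by linarith
  have h5 : (1 - x) * (1 - x / 450) ≤ c * (1 - 2 * s ^ 2) := by
    apply mul_le_mul hc h1 h4
    linarith
  have h6 : (1 - x) * (1 - x / 450) * (L * (1 - x / 6)) ≤ c * (1 - 2 * s ^ 2) * (L - s) := by
    apply mul_le_mul h5 h2 h3
    apply mul_nonneg <;> linarith
  have h7 : 1 - 2 * x ≤ (1 - x) * (1 - x / 450) * (1 - x / 6) := by nlinarith [mul_pos hx hx]
  have h8 : (1 - 2 * x) * L ≤ (1 - x) * (1 - x / 450) * (1 - x / 6) * L :=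
    mul_le_mul_of_nonneg_right h7 (by linarith)
  nlinarith

end IIND

open IIND in
theorem pr_IND (hBas : StBas) (hStp : StStp) : StInd := by
  intro k
  induction k with
  | zero =>
    intro t ht ht1
    refine ⟨2 * Real.log (1 / t), hBas t ht (by linarith), ?_⟩
    have h1 : 0 ≤ Real.log (1 / t) := by
      apply Real.log_nonneg
      rw [le_div_iff₀ ht]
      linarith
    have h2 : Real.log (4 / t) = Real.log 4 + Real.log (1 / t) := by
      rw [← Real.log_mul (by norm_num) (by positivity)]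
      congr 1
      ring
    rw [h2, pow_zero, div_one, add_sub_cancel_left]
    nlinarith [mul_nonneg (sq_nonneg t) h1]
  | succ k ih =>
    intro t ht ht1
    have ht2 : t ^ 2 ≤ 1 / 100 := by nlinarith
    have ht0 : 0 < t ^ 2 := by positivity
    obtain ⟨c, hc⟩ : ∃ c, c = Real.sqrt (1 - t ^ 2) := ⟨_, rfl⟩
    have hc0 : 0 ≤ c := hc ▸ Real.sqrt_nonneg _
    have hc2 : c ^ 2 = 1 - t ^ 2 := by
      rw [hc, Real.sq_sqrt (by linarith)]
    have hcl : c ≤ 1 := by nlinarith
    have hcx : 1 - t ^ 2 ≤ c := by nlinarith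
    have hc1 : (0 : ℝ) < 1 + c := by linarith
    obtain ⟨s, hs⟩ : ∃ s, s = (t / (1 + c)) ^ 2 := ⟨_, rfl⟩
    have hs0 : 0 < s := by
      rw [hs]
      positivity
    have hs' : s * (1 + c) = 1 - c := by
      rw [hs]
      field_simp
      nlinarith
    have hsx : s ≤ t ^ 2 / 3 := by
      have h1 : s * (1 + c) ^ 2 = t ^ 2 := by
        rw [hs]
        field_simp
      nlinarith [mul_nonneg hs0.le (show (0 : ℝ) ≤ (1 + c) ^ 2 - 3 by nlinarith)]
    have hs10 : s ≤ 1 / 10 := by linarith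
    have hsq : Real.sqrt s = t / (1 + c) := by
      rw [hs, Real.sqrt_sq (by positivity)]
    obtain ⟨D, hD, hDl⟩ := ih s hs0 hs10
    have hq := hStp s D hs0 (by linarith) hD
    have e1 : 2 * Real.sqrt s / (1 + s) = t := by
      rw [hsq]
      have : (1 + s) * (1 + c) = 2 := by linarith
      field_simp
      linarith
    have e2 : D * (1 - s) / (2 * (1 + s)) = D * c / 2 := by
      have h1 : (1 + s) * (1 + c) = 2 := by linarith
      have h2 : 1 - s = c * (1 + s) := by nlinarith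
      rw [h2]
      field_simp
    rw [e1, e2] at hq
    refine ⟨D * c / 2, hq, ?_⟩
    have hL := lam_ge k ht ht1
    have e3 : Real.log (4 / s) = 2 * (Real.log (4 / t) + Real.log ((1 + c) / 2)) := by
      rw [← Real.log_mul (by positivity) (by positivity)]
      have : (4 / s : ℝ) = (4 / t * ((1 + c) / 2)) ^ 2 := by
        rw [hs]
        field_simp
        norm_num
      rw [this, Real.log_pow]
      norm_num
    have h4 : - s ≤ Real.log ((1 + c) / 2) := by
      have := Real.one_sub_inv_le_log_of_pos (show (0 : ℝ) < (1 + c) / 2 by positivity)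
      have h5 : ((1 + c) / 2)⁻¹ = 1 + s := by
        have h1 : (1 + s) * (1 + c) = 2 := by linarith
        rw [inv_div, div_eq_iff hc1.ne']
        linarith
      rw [h5] at this
      linarith
    have h5 : 2 * ((Real.log (4 / t) - Real.log 4 / 2 ^ (k + 1)) - s) ≤
        Real.log (4 / s) - Real.log 4 / 2 ^ k := by
      have h6 : Real.log 4 / 2 ^ k = 2 * (Real.log 4 / 2 ^ (k + 1)) := by
        rw [pow_succ]
        field_simp
      rw [e3, h6]
      linarith
    have h6 := fin_ineq ht0 ht2 hs0 hsx hL hcx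
    refine h6.trans ?_
    have h7 : 0 ≤ 1 - 2 * s ^ 2 := by nlinarith
    have h8 : 2 * (1 - 2 * s ^ 2) * (2 * ((Real.log (4 / t) - Real.log 4 / 2 ^ (k + 1)) - s)) ≤ D :=
      (mul_le_mul_of_nonneg_left h5 (by linarith)).trans hDl
    have h9 := mul_le_mul_of_nonneg_left h8 hc0
    linarith

end Pool.Agent.Work.MP_5e5ff1_ag.TG
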