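import Mathlib
import Pool.Agent.Work.MP_5e5ff1_ag.TG.StmtsD

set_option autoImplicit false

/-!
# TG, item INF: there are arbitrarily large good primes
-/

namespace Pool.Agent.Work.MP_5e5ff1_ag.TG

theorem pr_INF : StINF := by
  intro S hS N
  by_contra hcon
  push Not at hcon
  have hmem : ∀ p : ℕ, N < p → p.Prime → p ∈ S := fun p h1 h2 => hcon p h1 h2
  apply not_summable_one_div_on_primes
  obtain ⟨M, hM⟩ : ∃ M : ℕ, M = max N 3 := ⟨_, rfl⟩
  have hMN : N ≤ M := by rw [hM]; exact le_max_left _ _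
  have hM3 : 3 ≤ M := by rw [hM]; exact le_max_right _ _
  set f : ℕ → ℝ := Set.indicator {p : ℕ | p.Prime} (fun n : ℕ => (1 : ℝ) / n) with hf
  have hf0 : ∀ n, 0 ≤ f n := by
    intro n
    rw [hf]
    exact Set.indicator_nonneg (fun _ _ => by positivity) n
  refine summable_of_sum_le (c := ∑ n ∈ Finset.range (M + 1), f n + 1 / 50) hf0 ?_
  intro u
  have h1 : ∑ n ∈ u, f n = ∑ n ∈ u.filter (fun n => n ≤ M), f n +
      ∑ n ∈ u.filter (fun n => ¬ n ≤ M), f n := (Finset.sum_filter_add_sum_filter_not u _ f).symm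
  have h2 : ∑ n ∈ u.filter (fun n => n ≤ M), f n ≤ ∑ n ∈ Finset.range (M + 1), f n := by
    refine Finset.sum_le_sum_of_subset_of_nonneg (fun n hn => ?_) fun n _ _ => hf0 n
    rw [Finset.mem_filter] at hn
    exact Finset.mem_range.2 (Nat.lt_succ_of_le hn.2)
  have h3 : ∑ n ∈ u.filter (fun n => ¬ n ≤ M), f n ≤
      ∑ n ∈ (u.filter (fun n => ¬ n ≤ M)).filter (fun n => n.Prime), Real.log n / n := by
    rw [Finset.sum_filter (fun n : ℕ => n.Prime)]
    refine Finset.sum_le_sum fun n hn => ?_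
    rw [Finset.mem_filter] at hn
    by_cases hp : n.Prime
    · rw [if_pos hp, hf, Set.indicator_of_mem (by exact hp)]
      have hn3 : (3 : ℝ) ≤ n := by
        have : 3 ≤ n := by omega
        exact_mod_cast this
      have hlog : 1 ≤ Real.log n := by
        rw [Real.le_log_iff_exp_le (by linarith)]
        have := Real.exp_one_lt_d9
        linarith
      gcongr
    · rw [if_neg hp, hf, Set.indicator_of_notMem (by exact hp)]
  have h4 := hS ((u.filter (fun n => ¬ n ≤ M)).filter (fun n => n.Prime)) (by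
    intro p hp
    rw [Finset.mem_filter, Finset.mem_filter] at hp
    exact ⟨hp.2, hmem p (by omega) hp.2⟩)
  linarith

end Pool.Agent.Work.MP_5e5ff1_ag.TG
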