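import Mathlib
import Pool.Agent.Work.MP_5e5ff1_ag.TG.StmtsB

set_option autoImplicit false

/-!
# MP_5e5ff1_ag, block TG, item ITA: integrality of the coefficients of `aux`
-/

open Filter Topology
open scoped Polynomial

namespace Pool.Agent.Work.MP_5e5ff1_ag.TG

/-- ITA: integrality of the coefficients of `aux`. -/
theorem pr_ITA : StIta := by
  intro a J X d N q h n hn
  have hsum : ∀ (s : Finset ℕ) (f : ℕ → ℚ), (∀ i ∈ s, ∃ z : ℤ, f i = z) →
      ∃ z : ℤ, ∑ i ∈ s, f i = z := by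
    intro s f hf
    refine Finset.sum_induction f (fun x : ℚ => ∃ z : ℤ, x = z) ?_ ⟨0, by simp⟩ hf
    rintro x y ⟨z, rfl⟩ ⟨w, rfl⟩
    exact ⟨z + w, by push_cast; ring⟩
  unfold aux
  rw [map_sum, Finset.mul_sum]
  refine hsum _ _ fun j hj => ?_
  rw [map_sum, Finset.mul_sum]
  refine hsum _ _ fun i hi => ?_
  rw [PowerSeries.coeff_C_mul, PowerSeries.coeff_X_pow_mul']
  by_cases hin : i ≤ n
  · rw [if_pos hin]
    obtain ⟨z, hz⟩ := h j (Finset.mem_range.1 hj).le (n - i) ((Nat.sub_le n i).trans hn)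
    refine ⟨q j i * z, ?_⟩
    push_cast
    rw [← hz]
    ring
  · rw [if_neg hin]
    exact ⟨0, by simp⟩

end Pool.Agent.Work.MP_5e5ff1_ag.TG
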