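import Mathlib
import Pool.Agent.Work.MP_5e5ff1_ag.TG.StmtsB

set_option autoImplicit false

/-!
# MP_5e5ff1_ag, block TG, item KEY: the upper bound.  Author helper78.
-/

open Filter Topology
open scoped Polynomial

namespace Pool.Agent.Work.MP_5e5ff1_ag.TG

namespace IKEY

/-- the auxiliary function on the disc -/
noncomputable def GG (th h F : ℂ → ℂ) (J X : ℕ) (q : ℕ → ℕ → ℤ) (z : ℂ) : ℂ :=
  ∑ j ∈ Finset.range J, ∑ i ∈ Finset.range X,
    (q j i : ℂ) * (th z ^ (4 * i) * (F z ^ j * h z ^ (J - j)))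

theorem GG_diff {th h F : ℂ → ℂ} {s : Set ℂ} (h1 : DifferentiableOn ℂ th s)
    (h2 : DifferentiableOn ℂ h s) (h3 : DifferentiableOn ℂ F s) (J X : ℕ) (q : ℕ → ℕ → ℤ) :
    DifferentiableOn ℂ (GG th h F J X q) s := by
  unfold GG
  refine DifferentiableOn.fun_sum fun j _ => DifferentiableOn.fun_sum fun i _ => ?_
  exact ((h1.pow (4 * i)).mul ((h3.pow j).mul (h2.pow (J - j)))).const_mul _

theorem GG_bound {th h F : ℂ → ℂ} (J X : ℕ) (q : ℕ → ℕ → ℤ) (Q C0 : ℝ) (hC : 1 ≤ C0)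
    (hQ : 0 ≤ Q) (hq : ∀ j i, |(q j i : ℝ)| ≤ Q) (z : ℂ) (h1 : ‖th z‖ ≤ C0) (h2 : ‖h z‖ ≤ C0)
    (h3 : ‖F z‖ ≤ C0) : ‖GG th h F J X q z‖ ≤ J * X * Q * C0 ^ (4 * X + J) := by
  have hC0 : (0 : ℝ) ≤ C0 := by linarith
  have hterm : ∀ j ∈ Finset.range J, ∀ i ∈ Finset.range X,
      ‖(q j i : ℂ) * (th z ^ (4 * i) * (F z ^ j * h z ^ (J - j)))‖ ≤ Q * C0 ^ (4 * X + J) := by
    intro j hj i hi
    rw [Finset.mem_range] at hj hi
    rw [norm_mul, norm_mul, norm_mul, norm_pow, norm_pow, norm_pow, Complex.norm_intCast]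
    have e1 : ‖th z‖ ^ (4 * i) * (‖F z‖ ^ j * ‖h z‖ ^ (J - j)) ≤
        C0 ^ (4 * i) * (C0 ^ j * C0 ^ (J - j)) := by
      gcongr
    have e2 : C0 ^ (4 * i) * (C0 ^ j * C0 ^ (J - j)) = C0 ^ (4 * i + J) := by
      rw [← pow_add, ← pow_add]
      congr 1
      omega
    have e3 : C0 ^ (4 * i + J) ≤ C0 ^ (4 * X + J) :=
      pow_le_pow_right₀ hC (by omega)
    calc |(q j i : ℝ)| * (‖th z‖ ^ (4 * i) * (‖F z‖ ^ j * ‖h z‖ ^ (J - j)))
        ≤ Q * (C0 ^ (4 * i) * (C0 ^ j * C0 ^ (J - j))) := by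
          apply mul_le_mul (hq j i) e1 (by positivity) hQ
      _ ≤ Q * C0 ^ (4 * X + J) := by
          rw [e2]
          exact mul_le_mul_of_nonneg_left e3 hQ
  unfold GG
  calc ‖∑ j ∈ Finset.range J, ∑ i ∈ Finset.range X,
          (q j i : ℂ) * (th z ^ (4 * i) * (F z ^ j * h z ^ (J - j)))‖
      ≤ ∑ j ∈ Finset.range J, ∑ i ∈ Finset.range X, Q * C0 ^ (4 * X + J) :=
        (norm_sum_le _ _).trans (Finset.sum_le_sum fun j hj =>
          (norm_sum_le _ _).trans (Finset.sum_le_sum fun i hi => hterm j hj i hi))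
    _ = J * X * Q * C0 ^ (4 * X + J) := by
        simp only [Finset.sum_const, Finset.card_range, nsmul_eq_mul]
        ring

theorem GG_eq (th h F : ℂ → ℂ) (J X : ℕ) (q : ℕ → ℕ → ℤ) (z S : ℂ) (hF : F z = h z * S) :
    GG th h F J X q z = h z ^ J * ∑ j ∈ Finset.range J, ∑ i ∈ Finset.range X,
      (q j i : ℂ) * ((th z ^ 4) ^ i * S ^ j) := by
  unfold GG
  rw [Finset.mul_sum]
  refine Finset.sum_congr rfl fun j hj => ?_
  rw [Finset.mul_sum]
  refine Finset.sum_congr rfl fun i _ => ?_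
  rw [Finset.mem_range] at hj
  have e : h z ^ J = h z ^ j * h z ^ (J - j) := by
    rw [← pow_add]
    congr 1
    omega
  rw [hF, e, mul_pow, ← pow_mul]
  ring

theorem bound_on (f : ℂ → ℂ) (ρ : ℝ) (hρ1 : ρ < 1) (hf : DifferentiableOn ℂ f (Metric.ball 0 1)) :
    ∃ C : ℝ, ∀ z : ℂ, ‖z‖ ≤ ρ → ‖f z‖ ≤ C := by
  obtain ⟨C, hC⟩ := (isCompact_closedBall (0 : ℂ) ρ).exists_bound_of_continuousOn
    (f := f) (hf.continuousOn.mono (Metric.closedBall_subset_ball hρ1))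
  exact ⟨C, fun z hz => hC z (by simpa using hz)⟩

end IKEY

open IKEY in
theorem pr_KEY (hCfa : StCfa) (hCva : StCva) (hFac : StFac) (hOrd : StOrd) (hMax : StMax) :
    StKey := by
  intro a A th h F hA ha hth hth0 hh hhne hF hFeq ρ hρ hρ1
  obtain ⟨C1, hC1⟩ := bound_on th ρ hρ1 hth
  obtain ⟨C2, hC2⟩ := bound_on h ρ hρ1 hh
  obtain ⟨C3, hC3⟩ := bound_on F ρ hρ1 hF
  obtain ⟨ν, g, hg, hg0, hgeq⟩ := hOrd h hh hhne
  set C0 : ℝ := max 1 (max C1 (max C2 C3)) with hC0def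
  have hC0 : 1 ≤ C0 := le_max_left _ _
  have hb1 : ∀ z : ℂ, ‖z‖ ≤ ρ → ‖th z‖ ≤ C0 := fun z hz =>
    (hC1 z hz).trans ((le_max_left _ _).trans (le_max_right _ _))
  have hb2 : ∀ z : ℂ, ‖z‖ ≤ ρ → ‖h z‖ ≤ C0 := fun z hz =>
    (hC2 z hz).trans ((le_max_left _ _).trans ((le_max_right _ _).trans (le_max_right _ _)))
  have hb3 : ∀ z : ℂ, ‖z‖ ≤ ρ → ‖F z‖ ≤ C0 := fun z hz =>
    (hC3 z hz).trans ((le_max_right _ _).trans ((le_max_right _ _).trans (le_max_right _ _)))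
  have hball : Metric.ball (0 : ℂ) 1 ∈ 𝓝 (0 : ℂ) := Metric.ball_mem_nhds _ one_pos
  have hgpos : 0 < ‖g 0‖ := norm_pos_iff.mpr hg0
  set u : ℝ := ‖g 0‖ * ρ ^ ν with hu
  have hupos : 0 < u := by positivity
  set W : ℝ := max 1 (1 / u) with hW
  have hW1 : 1 ≤ W := le_max_left _ _
  refine ⟨C0 ^ 4 * W, ?_, ?_⟩
  · exact one_le_mul_of_one_le_of_one_le (one_le_pow₀ hC0) hW1
  intro J X q Q T' hq hz
  have hQ : 0 ≤ Q := (abs_nonneg _).trans (hq 0 0)
  set b : ℕ → ℂ := fun n => ((PowerSeries.coeff n (aux a J X q) : ℚ) : ℂ) with hb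
  have hbn : ∀ n, ‖b n‖ = |((PowerSeries.coeff n (aux a J X q) : ℚ) : ℝ)| := by
    intro n
    simp only [hb]
    rw [Complex.norm_ratCast]
  have hbK : ∀ n, ‖b n‖ ≤ (J * X * Q * (2 * A) ^ J) * (2 * A) ^ n := by
    intro n
    rw [hbn n]
    refine (hCfa a A hA ha J X q Q hq n).trans (le_of_eq ?_)
    rw [pow_add]
    ring
  obtain ⟨P, hP, hP0, hPeq⟩ := hFac b (J * X * Q * (2 * A) ^ J) (2 * A) T' (by linarith) hbK
    (fun n hn => by simp only [hb]; rw [hz n hn]; simp)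
  -- the function `th`
  have hthan : AnalyticAt ℂ th 0 := hth.analyticAt hball
  have hθ : AnalyticAt ℂ (dslope th 0) 0 :=
    ((Complex.differentiableOn_dslope hball).mpr hth).analyticAt hball
  have hθ0 : dslope th 0 0 = deriv th 0 := dslope_same _ _
  have hthθ : ∀ z, th z = z * dslope th 0 z := by
    intro z
    have := sub_smul_dslope th 0 z
    rw [hth0, sub_zero, sub_zero, smul_eq_mul] at this
    exact this.symm
  have htend : Tendsto (fun z => th z ^ 4) (𝓝 0) (𝓝 0) := by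
    have h1 : ContinuousAt (fun z => th z ^ 4) 0 := hthan.continuousAt.pow 4
    have h2 := h1.tendsto
    simp only [hth0] at h2
    simpa using h2
  have hsmall : ∀ᶠ z in 𝓝 (0 : ℂ), ‖th z ^ 4‖ < 1 / (2 * A) := by
    have h1 : Tendsto (fun z => ‖th z ^ 4‖) (𝓝 0) (𝓝 0) := by
      have := htend.norm
      simpa using this
    exact h1.eventually_lt_const (by positivity)
  set g' : ℂ → ℂ := fun z => g z ^ J * dslope th 0 z ^ (4 * T') * P (th z ^ 4) with hg'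
  have hg'an : AnalyticAt ℂ g' 0 := by
    have hP' : AnalyticAt ℂ (fun z => P (th z ^ 4)) 0 := by
      refine AnalyticAt.fun_comp (g := P) (f := fun z => th z ^ 4) ?_ (hthan.pow 4)
      simp only [hth0]
      simpa using hP
    exact ((hg.pow J).mul (hθ.pow (4 * T'))).mul hP'
  have hGeq : ∀ᶠ z in 𝓝 (0 : ℂ), GG th h F J X q z = z ^ (J * ν + 4 * T') * g' z := by
    filter_upwards [hFeq, hsmall, htend.eventually hPeq, hgeq] with z e1 e2 e3 e4
    have e1' : F z = h z * ∑' n : ℕ, (a n : ℂ) * (th z ^ 4) ^ n := by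
      rw [e1]
      congr 1
      refine tsum_congr fun n => ?_
      rw [← pow_mul]
    rw [GG_eq th h F J X q z _ e1', ← (hCva a A hA ha (th z ^ 4) e2 J X q).2]
    have e3' : ∑' n : ℕ, ((PowerSeries.coeff n (aux a J X q) : ℚ) : ℂ) * (th z ^ 4) ^ n =
      (th z ^ 4) ^ T' * P (th z ^ 4) := e3
    rw [e3', e4]
    simp only [hg']
    have e5 : (th z ^ 4) ^ T' = z ^ (4 * T') * dslope th 0 z ^ (4 * T') := by
      rw [← pow_mul, ← mul_pow, ← hthθ z]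
    rw [e5, mul_pow, ← pow_mul, pow_add, mul_comm ν J]
    ring
  have hmain := hMax (GG th h F J X q) g' (J * ν + 4 * T') ρ (J * X * Q * C0 ^ (4 * X + J))
    (GG_diff hth hh hF J X q) hg'an hGeq hρ hρ1
    (fun z hz => GG_bound J X q Q C0 hC0 hQ hq z (hb1 z hz) (hb2 z hz) (hb3 z hz))
  have hg'0 : ‖g' 0‖ = ‖g 0‖ ^ J * ‖deriv th 0‖ ^ (4 * T') * ‖b T'‖ := by
    simp only [hg']
    rw [norm_mul, norm_mul, norm_pow, norm_pow, hθ0, hth0]
    norm_num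
    left
    rw [hP0]
  rw [hg'0] at hmain
  rw [← hbn T']
  have hM : u ^ J * (‖b T'‖ * (‖deriv th 0‖ * ρ) ^ (4 * T')) ≤
      J * X * Q * C0 ^ (4 * X + J) := by
    refine (le_of_eq ?_).trans hmain
    rw [hu, mul_pow, mul_pow, pow_add, ← pow_mul, mul_comm ν J]
    ring
  have hR : ‖b T'‖ * (‖deriv th 0‖ * ρ) ^ (4 * T') ≤
      (1 / u) ^ J * (J * X * Q * C0 ^ (4 * X + J)) := by
    have h1 := mul_le_mul_of_nonneg_left hM (by positivity : (0 : ℝ) ≤ (1 / u) ^ J)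
    have h2 : (1 / u) ^ J * u ^ J = 1 := by
      rw [← mul_pow, one_div, inv_mul_cancel₀ hupos.ne', one_pow]
    rwa [← mul_assoc, h2, one_mul] at h1
  refine hR.trans ?_
  have hC0' : (0 : ℝ) ≤ C0 := by linarith
  have k1 : (1 / u) ^ J ≤ W ^ (X + J) :=
    (pow_le_pow_left₀ (by positivity) (le_max_right _ _) J).trans
      (pow_le_pow_right₀ hW1 (by omega))
  have k2 : C0 ^ (4 * X + J) ≤ (C0 ^ 4) ^ (X + J) := by
    rw [← pow_mul]
    exact pow_le_pow_right₀ hC0 (by omega)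
  calc (1 / u) ^ J * (J * X * Q * C0 ^ (4 * X + J))
      ≤ W ^ (X + J) * (J * X * Q * (C0 ^ 4) ^ (X + J)) := by
        gcongr
    _ = J * X * Q * (C0 ^ 4 * W) ^ (X + J) := by
        rw [mul_pow]
        ring

end Pool.Agent.Work.MP_5e5ff1_ag.TG
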