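import Mathlib
import Pool.Agent.Work.MP_5e5ff1_ag.TG.StmtsA

set_option autoImplicit false

/-!
# MP_5e5ff1_ag, block TG, item LAG: Lagrange projection onto the horizontal section
-/

open Matrix Filter Topology
open scoped Polynomial

namespace Pool.Agent.Work.MP_5e5ff1_ag.TG

namespace ILAG

section gen

variable {F V : Type} [Field F] [AddCommGroup V] [Module F V]

theorem aeval_eig (T : V →ₗ[F] V) (v : V) (c : F) (h : T v = c • v) (f : F[X]) :
    Polynomial.aeval T f v = f.eval c • v := by
  have hp : ∀ n : ℕ, (T ^ n) v = c ^ n • v := by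
    intro n
    induction n with
    | zero => simp
    | succ n ih =>
      rw [pow_succ', Module.End.mul_apply, ih, map_smul, h, smul_smul, pow_succ]
  induction f using Polynomial.induction_on' with
  | add p q hp hq =>
    rw [map_add, LinearMap.add_apply, hp, hq, Polynomial.eval_add, add_smul]
  | monomial n a =>
    rw [Polynomial.aeval_monomial, Module.End.mul_apply, hp, map_smul,
      Module.algebraMap_end_apply, Polynomial.eval_monomial, smul_smul, mul_comm]

end gen

section

variable {ι : Type} [Fintype ι] [DecidableEq ι] {F : Type} [Field F]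

theorem D0_apply (β : ι → ℤ) (C : Matrix ι ι F) (v : ℕ → ι → F) (n : ℕ) (i : ι) :
    D0 β C v n i = (8 * (n : F) - 2 * (β i : F)) * v n i +
      ∑ k ∈ Finset.range n, (C *ᵥ v k) i := rfl

/-- the columns of `U` -/
def ucol (U : ℕ → Matrix ι ι F) (i : ι) : ℕ → ι → F := fun n l => U n l i

theorem D0_col {β : ι → ℤ} {C : Matrix ι ι F} {U : ℕ → Matrix ι ι F} (h : IsU β C U) (i : ι) :
    D0 β C (ucol U i) = (-(2 * (β i : F))) • ucol U i := by
  funext n l
  rw [D0_apply]
  have h1 := h.eqn n l i
  have h2 : ∀ k, (C *ᵥ (ucol U i k)) l = (C * U k) l i := fun k => rfl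
  simp only [h2]
  change (8 * (n : F) - 2 * (β l : F)) * U n l i + _ = -(2 * (β i : F)) * U n l i
  linear_combination h1

theorem D0_shf (β : ι → ℤ) (C : Matrix ι ι F) (k : ℕ) (v : ℕ → ι → F) :
    D0 β C (shf k v) = shf k (D0 β C v + (8 * (k : F)) • v) := by
  funext n l
  rw [D0_apply]
  by_cases hk : k ≤ n
  · obtain ⟨d, rfl⟩ := Nat.exists_eq_add_of_le hk
    have e0 : ∀ x, shf k v (k + x) = v x := by
      intro x
      funext i
      unfold shf
      rw [if_pos (by omega), Nat.add_sub_cancel_left]
    have e1 : shf k v (k + d) l = v d l := by rw [e0]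
    have e2 : shf k (D0 β C v + (8 * (k : F)) • v) (k + d) l =
        D0 β C v d l + (8 * (k : F)) * v d l := by
      unfold shf
      rw [if_pos (by omega), Nat.add_sub_cancel_left]
      rfl
    have e3 : ∑ j ∈ Finset.range (k + d), (C *ᵥ shf k v j) l =
        ∑ j ∈ Finset.range d, (C *ᵥ v j) l := by
      rw [Finset.sum_range_add]
      have e4 : ∑ j ∈ Finset.range k, (C *ᵥ shf k v j) l = 0 := by
        refine Finset.sum_eq_zero fun j hj => ?_
        have e5 : shf k v j = 0 := by
          funext i
          unfold shf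
          rw [if_neg (by have := Finset.mem_range.1 hj; omega)]
          rfl
        rw [e5, Matrix.mulVec_zero]
        rfl
      rw [e4, zero_add]
      refine Finset.sum_congr rfl fun j _ => ?_
      rw [e0]
    rw [e1, e2, e3, D0_apply, Nat.cast_add]
    ring
  · have e0 : ∀ (w : ℕ → ι → F) (j : ℕ), j ≤ n → shf k w j = 0 := by
      intro w j hj
      funext i
      unfold shf
      rw [if_neg (by omega)]
      rfl
    rw [e0 _ n le_rfl, e0 _ n le_rfl]
    have e4 : ∑ j ∈ Finset.range n, (C *ᵥ shf k v j) l = 0 := by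
      refine Finset.sum_eq_zero fun j hj => ?_
      rw [e0 v j (Finset.mem_range.1 hj).le, Matrix.mulVec_zero]
      rfl
    rw [e4]
    simp

theorem shf_smul (k : ℕ) (a : F) (v : ℕ → ι → F) : shf k (a • v) = a • shf k v := by
  funext n l
  change (if k ≤ n then a * v (n - k) l else 0) = a * (if k ≤ n then v (n - k) l else 0)
  split_ifs
  · rfl
  · rw [mul_zero]

theorem D0_shf_ucol {β : ι → ℤ} {C : Matrix ι ι F} {U : ℕ → Matrix ι ι F} (h : IsU β C U)
    (k : ℕ) (i : ι) :
    D0 β C (shf k (ucol U i)) = (8 * (k : F) - 2 * (β i : F)) • shf k (ucol U i) := by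
  rw [D0_shf, D0_col h, ← add_smul, shf_smul]
  congr 1
  ring

/-- sequences which vanish in degrees below `M` -/
def Zr (M : ℕ) : Submodule F (ℕ → ι → F) where
  carrier := {v | ∀ n < M, v n = 0}
  add_mem' := by
    intro a b ha hb n hn
    change a n + b n = 0
    rw [ha n hn, hb n hn, add_zero]
  zero_mem' := fun n _ => rfl
  smul_mem' := by
    intro c a ha n hn
    change c • a n = 0
    rw [ha n hn, smul_zero]

theorem D0_Zr (β : ι → ℤ) (C : Matrix ι ι F) (M : ℕ) {v : ℕ → ι → F}
    (hv : v ∈ (Zr M : Submodule F (ℕ → ι → F))) :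
    D0 β C v ∈ (Zr M : Submodule F (ℕ → ι → F)) := by
  intro n hn
  funext l
  rw [D0_apply, hv n hn]
  have e4 : ∑ j ∈ Finset.range n, (C *ᵥ v j) l = 0 := by
    refine Finset.sum_eq_zero fun j hj => ?_
    rw [hv j ((Finset.mem_range.1 hj).trans hn), Matrix.mulVec_zero]
    rfl
  rw [e4]
  simp

theorem aeval_Zr (β : ι → ℤ) (C : Matrix ι ι F) (M : ℕ) (f : F[X]) {v : ℕ → ι → F}
    (hv : v ∈ (Zr M : Submodule F (ℕ → ι → F))) :
    Polynomial.aeval (D0 β C) f v ∈ (Zr M : Submodule F (ℕ → ι → F)) := by
  have hp : ∀ n : ℕ, (D0 β C ^ n) v ∈ (Zr M : Submodule F (ℕ → ι → F)) := by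
    intro n
    induction n with
    | zero => exact hv
    | succ n ih =>
      rw [pow_succ', Module.End.mul_apply]
      exact D0_Zr β C M ih
  induction f using Polynomial.induction_on' with
  | add p q hp hq =>
    rw [map_add, LinearMap.add_apply]
    exact Submodule.add_mem _ hp hq
  | monomial n a =>
    rw [Polynomial.aeval_monomial, Module.End.mul_apply, Module.algebraMap_end_apply]
    exact Submodule.smul_mem _ _ (hp n)

theorem key {β : ι → ℤ} {C : Matrix ι ι F} {U : ℕ → Matrix ι ι F} (h : IsU β C U) (M : ℕ)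
    (f : F[X]) (hf : ∀ (k : ℕ) (i : ι), 1 ≤ k → k < M →
      f.eval (8 * (k : F) - 2 * (β i : F)) = 0) :
    ∀ (d k : ℕ), 1 ≤ k → k + d = M → ∀ v ∈ (Zr k : Submodule F (ℕ → ι → F)),
      Polynomial.aeval (D0 β C) f v ∈ (Zr M : Submodule F (ℕ → ι → F)) := by
  intro d
  induction d with
  | zero =>
    intro k _ hk v hv
    rw [add_zero] at hk
    subst hk
    exact aeval_Zr β C k f hv
  | succ d ih =>
    intro k hk1 hk v hv
    set w : ℕ → ι → F := ∑ i : ι, v k i • shf k (ucol U i) with hw
    have hwn : ∀ n l, w n l = ∑ i : ι, v k i * shf k (ucol U i) n l := by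
      intro n l
      rw [hw, Finset.sum_apply, Finset.sum_apply]
      rfl
    have h1 : v - w ∈ (Zr (k + 1) : Submodule F (ℕ → ι → F)) := by
      intro n hn
      funext l
      change v n l - w n l = 0
      rw [hwn]
      rcases Nat.lt_succ_iff_lt_or_eq.1 hn with h2 | h2
      · rw [hv n h2]
        have e : ∀ i ∈ (Finset.univ : Finset ι), v k i * shf k (ucol U i) n l = 0 := by
          intro i _
          unfold shf
          rw [if_neg (by omega), mul_zero]
        rw [Finset.sum_eq_zero e]
        simp
      · subst h2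
        have e : ∀ i ∈ (Finset.univ : Finset ι), v n i * shf n (ucol U i) n l =
            if l = i then v n i else 0 := by
          intro i _
          unfold shf
          rw [if_pos le_rfl, Nat.sub_self]
          unfold ucol
          rw [h.zero, Matrix.one_apply]
          split_ifs <;> simp
        rw [Finset.sum_congr rfl e, Finset.sum_ite_eq]
        simp
    have h2 := ih (k + 1) (by omega) (by omega) (v - w) h1
    have h3 : Polynomial.aeval (D0 β C) f w = 0 := by
      rw [hw, map_sum]
      refine Finset.sum_eq_zero fun i _ => ?_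
      rw [map_smul, aeval_eig _ _ _ (D0_shf_ucol h k i), hf k i hk1 (by omega), zero_smul,
        smul_zero]
    rw [map_sub, h3, sub_zero] at h2
    exact h2

end

end ILAG

open ILAG in
/-- item LAG -/
theorem pr_LAG : StLAG := by
  intro F _ _ ι _ _ β C U hU M f hf n i j hn
  have h1 : cst (fun i => if i = j then (1 : F) else 0) - ucol U j ∈
      (Zr 1 : Submodule F (ℕ → ι → F)) := by
    intro m hm
    have hm0 : m = 0 := by omega
    subst hm0
    funext l
    change cst (fun i => if i = j then (1 : F) else 0) 0 l - U 0 l j = 0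
    unfold cst
    rw [if_pos rfl, hU.zero, Matrix.one_apply, sub_self]
  have h2 := key hU M f hf (M - 1) 1 le_rfl (by omega) _ h1
  rw [map_sub, aeval_eig _ _ _ (D0_col hU j)] at h2
  have h3 := congrFun (h2 n hn) i
  have h4 : Polynomial.aeval (D0 β C) f (cst (fun i => if i = j then (1 : F) else 0)) n i -
      f.eval (-(2 * (β j : F))) * U n i j = 0 := h3
  exact sub_eq_zero.1 h4

end Pool.Agent.Work.MP_5e5ff1_ag.TG
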