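import Mathlib
import Pool.Agent.Work.MP_5e5ff1_ag.TG.StmtsD

set_option autoImplicit false

/-!
# Item LOC0: the local solution at a zero of `th`
-/

open Matrix Filter Topology
open scoped Polynomial

namespace Pool.Agent.Work.MP_5e5ff1_ag.TG

namespace ILOC0

theorem alg {T W T' W' G G' S βi βj : ℂ} (hT : T ≠ 0) (hW : W ≠ 0) (e1 : T ^ 4 - 1 = W ^ 2)
    (e2 : 2 * T ^ 3 * T' = W * W')
    (e3 : 8 * T ^ 4 * (1 - T ^ 4) * G' + 2 * (βj - βi) * (1 - T ^ 4) * G + T ^ 4 * S = 0) :
    βj * (T' / T) * G + 4 * T ^ 3 * T' * G' = (T' / T) * βi * G + (W' / W) * ((4 : ℂ)⁻¹ * S) := by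
  have e4 : 1 - T ^ 4 = -W ^ 2 := by rw [← e1]; ring
  rw [e4] at e3
  have e5 : 4 * W * (T' * (βj - βi) * G + 4 * T ^ 4 * T' * G') = T * W' * S := by
    refine mul_left_cancel₀ hW ?_
    linear_combination (-2 * T') * e3 + T * S * e2
  field_simp
  linear_combination e5

end ILOC0

open ILOC0 in
theorem pr_LOC0 (h1 : StUAN) (h2 : StDRL) : StLOC0 := by
  intro ι _ _ β C U hU hA th w hm K hK z0 hz0 ht0
  obtain ⟨ρu, u, hρu, husum, hud, hudet, hueq⟩ := h1 ι β C U hU hA
  have hwat : ∀ z ∈ Metric.ball (0 : ℂ) 1, HasDerivAt w (deriv w z) z := fun z hz =>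
    (hm.dw.differentiableAt (Metric.isOpen_ball.mem_nhds hz)).hasDerivAt
  have htat : ∀ z ∈ Metric.ball (0 : ℂ) 1, HasDerivAt th (deriv th z) z := fun z hz =>
    (hm.dth.differentiableAt (Metric.isOpen_ball.mem_nhds hz)).hasDerivAt
  have hev : ∀ᶠ z in 𝓝 z0, z ∈ Metric.ball (0 : ℂ) 1 ∧ th z ^ 4 ∈ Metric.ball (0 : ℂ) ρu := by
    have ha : ∀ᶠ z in 𝓝 z0, z ∈ Metric.ball (0 : ℂ) 1 := Metric.isOpen_ball.mem_nhds hz0
    refine ha.and ?_
    have hc : ContinuousAt (fun z => th z ^ 4) z0 := ((htat z0 hz0).continuousAt).pow 4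
    refine hc.eventually (Metric.isOpen_ball.mem_nhds ?_)
    simpa [ht0] using hρu
  obtain ⟨ρ, hρ, hball⟩ := Metric.eventually_nhds_iff_ball.1 hev
  have hn : ∀ j, (((β j + K).toNat : ℕ) : ℂ) = (β j : ℂ) + K := by
    intro j
    have h3 : (((β j + K).toNat : ℕ) : ℤ) = β j + K := Int.toNat_of_nonneg (hK j)
    have h4 := congrArg (fun x : ℤ => (x : ℂ)) h3
    push_cast at h4
    exact h4
  refine ⟨ρ, fun z => Matrix.of fun i j => w z ^ K * th z ^ (β j + K).toNat * u (th z ^ 4) i j,
    ⟨hρ, fun z hz => (hball z hz).1, ?_, ?_, ?_⟩, ?_⟩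
  · intro i j z hz
    have hz1 := (hball z hz).1
    have hz2 := (hball z hz).2
    have hg1 : DifferentiableAt ℂ (fun x => u x i j) (th z ^ 4) :=
      (hud i j).differentiableAt (Metric.isOpen_ball.mem_nhds hz2)
    have hg2 : DifferentiableAt ℂ (fun y => u (th y ^ 4) i j) z :=
      DifferentiableAt.comp z (g := fun x => u x i j) (f := fun y => th y ^ 4) hg1
        ((htat z hz1).differentiableAt.pow 4)
    refine DifferentiableAt.differentiableWithinAt ?_
    simp only [Matrix.of_apply]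
    exact (((hwat z hz1).differentiableAt.pow K).mul ((htat z hz1).differentiableAt.pow _)).mul hg2
  · intro z hz ht hw
    have e1 : (Matrix.of fun i j => w z ^ K * th z ^ (β j + K).toNat * u (th z ^ 4) i j) =
        (w z ^ K) • (u (th z ^ 4) * Matrix.diagonal fun j => th z ^ (β j + K).toNat) := by
      ext i j
      rw [Matrix.smul_apply, Matrix.mul_diagonal, Matrix.of_apply, smul_eq_mul]
      ring
    rw [e1, Matrix.det_smul, Matrix.det_mul, Matrix.det_diagonal]
    refine mul_ne_zero (pow_ne_zero _ (pow_ne_zero _ hw)) (mul_ne_zero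
      (hudet _ (hball z hz).2) (Finset.prod_ne_zero_iff.2 fun j _ => pow_ne_zero _ ht))
  · intro z hz ht hw i j
    have hz1 := (hball z hz).1
    have hz2 := (hball z hz).2
    have hg1 : HasDerivAt (fun x => u x i j) (deriv (fun x => u x i j) (th z ^ 4)) (th z ^ 4) :=
      ((hud i j).differentiableAt (Metric.isOpen_ball.mem_nhds hz2)).hasDerivAt
    have hw2 : HasDerivAt (fun y => th y ^ 4) (4 * th z ^ 3 * deriv th z) z := by
      have := (htat z hz1).fun_pow 4
      simpa using this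
    have hg2 : HasDerivAt (fun y => u (th y ^ 4) i j)
        (deriv (fun x => u x i j) (th z ^ 4) * (4 * th z ^ 3 * deriv th z)) z :=
      HasDerivAt.comp z (h₂ := fun x => u x i j) (h := fun y => th y ^ 4) hg1 hw2
    have hall := (((hwat z hz1).fun_pow K).fun_mul ((htat z hz1).fun_pow (β j + K).toNat)).fun_mul
      hg2
    have hpow : ∀ (n : ℕ) (x : ℂ), x ≠ 0 → (n : ℂ) * x ^ (n - 1) = n / x * x ^ n := by
      intro n x hx
      rcases n with _ | n
      · simp
      · rw [Nat.add_sub_cancel, pow_succ]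
        field_simp
    have hAA : ((AA β C K th w z * Matrix.of fun i j =>
        w z ^ K * th z ^ (β j + K).toNat * u (th z ^ 4) i j) i j) =
        (deriv th z / th z) * ((β i : ℂ) + K) *
          (w z ^ K * th z ^ (β j + K).toNat * u (th z ^ 4) i j) +
        (deriv w z / w z) * ((4 : ℂ)⁻¹ * (w z ^ K * th z ^ (β j + K).toNat *
          ∑ l, (C i l : ℂ) * u (th z ^ 4) l j) +
          K * (w z ^ K * th z ^ (β j + K).toNat * u (th z ^ 4) i j)) := by
      unfold AA
      rw [Matrix.add_mul, Matrix.smul_mul, Matrix.smul_mul, Matrix.add_mul, Matrix.smul_mul,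
        Matrix.smul_mul, Matrix.one_mul]
      simp only [Matrix.add_apply, Matrix.smul_apply, Matrix.diagonal_mul, smul_eq_mul,
        Matrix.of_apply]
      rw [Matrix.mul_apply]
      simp only [Matrix.map_apply, Matrix.of_apply, eq_intCast]
      have e5 : ∑ l, (C i l : ℂ) * (w z ^ K * th z ^ (β j + K).toNat * u (th z ^ 4) l j) =
          w z ^ K * th z ^ (β j + K).toNat * ∑ l, (C i l : ℂ) * u (th z ^ 4) l j := by
        rw [Finset.mul_sum]
        exact Finset.sum_congr rfl fun l _ => by ring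
      rw [e5]
      ring
    rw [hAA]
    simp only [Matrix.of_apply]
    refine hall.congr_deriv ?_
    have hkey := alg ht hw (hm.rel z hz1) (h2 th w hm z hz1) (hueq _ hz2 i j)
    rw [hpow K (w z) hw, hpow (β j + K).toNat (th z) ht, hn j]
    linear_combination (w z ^ K * th z ^ (β j + K).toNat) * hkey
  · intro z hz i j
    have hz2 := (hball z hz).2
    have h3 := (husum _ hz2 i j).tsum_eq
    simp only [Matrix.of_apply]
    rw [← h3]
    congr 1
    exact tsum_congr fun n => by rw [pow_mul]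

end Pool.Agent.Work.MP_5e5ff1_ag.TG
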