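import Mathlib
import Pool.Agent.Work.MP_5e5ff1_ag.TG.StmtsD

set_option autoImplicit false

/-!
# Item LOC1: the local solution at a zero of `w`
-/

open Matrix Filter Topology
open scoped Polynomial

namespace Pool.Agent.Work.MP_5e5ff1_ag.TG

namespace ILOC1

theorem alg {T W T' W' G G' S β γ : ℂ} (hT : T ≠ 0) (hW : W ≠ 0) (e1 : T ^ 4 - 1 = W ^ 2)
    (e2 : 2 * T ^ 3 * T' = W * W')
    (e3 : 8 * W ^ 2 * (1 + W ^ 2) * G' - (1 + W ^ 2) * S - 2 * β * W ^ 2 * G +
      4 * γ * (1 + W ^ 2) * G = 0) :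
    γ * (W' / W) * G + 2 * W * W' * G' = (T' / T) * β * G + (W' / W) * ((4 : ℂ)⁻¹ * S) := by
  have e4 : 1 + W ^ 2 = T ^ 4 := by rw [← e1]; ring
  rw [e4] at e3
  have e5 : 4 * T * (γ * W' * G + 2 * W ^ 2 * W' * G') = 4 * W * T' * β * G + T * W' * S := by
    refine mul_left_cancel₀ (pow_ne_zero 3 hT) ?_
    linear_combination W' * e3 - 2 * β * W * G * e2
  field_simp
  linear_combination e5

end ILOC1

open ILOC1 in
theorem pr_LOC1 (h1 : StGAN) (h2 : StDRL) : StLOC1 := by
  intro ι _ _ β C γ G hG hA th w hm K hK z0 hz0 hw0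
  obtain ⟨ρg, g, hρg, hgd, hgdet, hgeq⟩ := h1 ι β C γ G hG hA
  have hwat : ∀ z ∈ Metric.ball (0 : ℂ) 1, HasDerivAt w (deriv w z) z := fun z hz =>
    (hm.dw.differentiableAt (Metric.isOpen_ball.mem_nhds hz)).hasDerivAt
  have htat : ∀ z ∈ Metric.ball (0 : ℂ) 1, HasDerivAt th (deriv th z) z := fun z hz =>
    (hm.dth.differentiableAt (Metric.isOpen_ball.mem_nhds hz)).hasDerivAt
  have hev : ∀ᶠ z in 𝓝 z0, z ∈ Metric.ball (0 : ℂ) 1 ∧ w z ^ 2 ∈ Metric.ball (0 : ℂ) ρg := by
    have ha : ∀ᶠ z in 𝓝 z0, z ∈ Metric.ball (0 : ℂ) 1 := Metric.isOpen_ball.mem_nhds hz0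
    refine ha.and ?_
    have hc : ContinuousAt (fun z => w z ^ 2) z0 := ((hwat z0 hz0).continuousAt).pow 2
    refine hc.eventually (Metric.isOpen_ball.mem_nhds ?_)
    simpa [hw0] using hρg
  obtain ⟨ρ, hρ, hball⟩ := Metric.eventually_nhds_iff_ball.1 hev
  have hn : ∀ j, (((γ j + K).toNat : ℕ) : ℂ) = (γ j : ℂ) + K := by
    intro j
    have h3 : (((γ j + K).toNat : ℕ) : ℤ) = γ j + K := Int.toNat_of_nonneg (hK j)
    have h4 := congrArg (fun x : ℤ => (x : ℂ)) h3
    push_cast at h4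
    exact h4
  refine ⟨ρ, fun z => Matrix.of fun i j => th z ^ K * w z ^ (γ j + K).toNat * g (w z ^ 2) i j,
    hρ, fun z hz => (hball z hz).1, ?_, ?_, ?_⟩
  · intro i j z hz
    have hz1 := (hball z hz).1
    have hz2 := (hball z hz).2
    have hg1 : DifferentiableAt ℂ (fun x => g x i j) (w z ^ 2) :=
      (hgd i j).differentiableAt (Metric.isOpen_ball.mem_nhds hz2)
    have hg2 : DifferentiableAt ℂ (fun y => g (w y ^ 2) i j) z :=
      DifferentiableAt.comp z (g := fun x => g x i j) (f := fun y => w y ^ 2) hg1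
        ((hwat z hz1).differentiableAt.pow 2)
    refine DifferentiableAt.differentiableWithinAt ?_
    simp only [Matrix.of_apply]
    exact (((htat z hz1).differentiableAt.pow K).mul ((hwat z hz1).differentiableAt.pow _)).mul hg2
  · intro z hz ht hw
    have e1 : (Matrix.of fun i j => th z ^ K * w z ^ (γ j + K).toNat * g (w z ^ 2) i j) =
        (th z ^ K) • (g (w z ^ 2) * Matrix.diagonal fun j => w z ^ (γ j + K).toNat) := by
      ext i j
      rw [Matrix.smul_apply, Matrix.mul_diagonal, Matrix.of_apply, smul_eq_mul]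
      ring
    rw [e1, Matrix.det_smul, Matrix.det_mul, Matrix.det_diagonal]
    refine mul_ne_zero (pow_ne_zero _ (pow_ne_zero _ ht)) (mul_ne_zero
      (hgdet _ (hball z hz).2) (Finset.prod_ne_zero_iff.2 fun j _ => pow_ne_zero _ hw))
  · intro z hz ht hw i j
    have hz1 := (hball z hz).1
    have hz2 := (hball z hz).2
    have hg1 : HasDerivAt (fun x => g x i j) (deriv (fun x => g x i j) (w z ^ 2)) (w z ^ 2) :=
      ((hgd i j).differentiableAt (Metric.isOpen_ball.mem_nhds hz2)).hasDerivAt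
    have hw2 : HasDerivAt (fun y => w y ^ 2) (2 * w z * deriv w z) z := by
      have := (hwat z hz1).fun_pow 2
      simpa using this
    have hg2 : HasDerivAt (fun y => g (w y ^ 2) i j)
        (deriv (fun x => g x i j) (w z ^ 2) * (2 * w z * deriv w z)) z :=
      HasDerivAt.comp z (h₂ := fun x => g x i j) (h := fun y => w y ^ 2) hg1 hw2
    have hall := (((htat z hz1).fun_pow K).fun_mul ((hwat z hz1).fun_pow (γ j + K).toNat)).fun_mul hg2
    have hpow : ∀ (n : ℕ) (x : ℂ), x ≠ 0 → (n : ℂ) * x ^ (n - 1) = n / x * x ^ n := by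
      intro n x hx
      rcases n with _ | n
      · simp
      · rw [Nat.add_sub_cancel, pow_succ]
        field_simp
    have hAA : ((AA β C K th w z * Matrix.of fun i j =>
        th z ^ K * w z ^ (γ j + K).toNat * g (w z ^ 2) i j) i j) =
        (deriv th z / th z) * ((β i : ℂ) + K) *
          (th z ^ K * w z ^ (γ j + K).toNat * g (w z ^ 2) i j) +
        (deriv w z / w z) * ((4 : ℂ)⁻¹ * (th z ^ K * w z ^ (γ j + K).toNat *
          ∑ l, (C i l : ℂ) * g (w z ^ 2) l j) +
          K * (th z ^ K * w z ^ (γ j + K).toNat * g (w z ^ 2) i j)) := by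
      unfold AA
      rw [Matrix.add_mul, Matrix.smul_mul, Matrix.smul_mul, Matrix.add_mul, Matrix.smul_mul,
        Matrix.smul_mul, Matrix.one_mul]
      simp only [Matrix.add_apply, Matrix.smul_apply, Matrix.diagonal_mul, smul_eq_mul,
        Matrix.of_apply]
      rw [Matrix.mul_apply]
      simp only [Matrix.map_apply, Matrix.of_apply, eq_intCast]
      have e5 : ∑ l, (C i l : ℂ) * (th z ^ K * w z ^ (γ j + K).toNat * g (w z ^ 2) l j) =
          th z ^ K * w z ^ (γ j + K).toNat * ∑ l, (C i l : ℂ) * g (w z ^ 2) l j := by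
        rw [Finset.mul_sum]
        exact Finset.sum_congr rfl fun l _ => by ring
      rw [e5]
      ring
    rw [hAA]
    simp only [Matrix.of_apply]
    refine hall.congr_deriv ?_
    have hkey := alg ht hw (hm.rel z hz1) (h2 th w hm z hz1) (hgeq _ hz2 i j)
    rw [hpow K (th z) ht, hpow (γ j + K).toNat (w z) hw, hn j]
    linear_combination (th z ^ K * w z ^ (γ j + K).toNat) * hkey

end Pool.Agent.Work.MP_5e5ff1_ag.TG
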