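import Mathlib
import Pool.Agent.Work.MP_5e5ff1_ag.TG.StmtsD

set_option autoImplicit false

/-!
# MP_5e5ff1_ag, block TG, item LOCA: local solutions everywhere
-/

open Matrix Filter Topology
open scoped Polynomial

namespace Pool.Agent.Work.MP_5e5ff1_ag.TG

namespace ILOCA

/-- a natural number above the sum of the absolute values makes all shifted integers
nonnegative -/
theorem shift_nonneg {ι : Type} [Fintype ι] (b : ι → ℤ) (K : ℕ)
    (hK : ∑ j, (b j).natAbs ≤ K) (j : ι) : 0 ≤ b j + K := by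
  have h1 : (b j).natAbs ≤ ∑ j, (b j).natAbs :=
    Finset.single_le_sum (f := fun j => (b j).natAbs) (fun _ _ => Nat.zero_le _)
      (Finset.mem_univ j)
  omega

end ILOCA

/-- LOCA: local solutions everywhere. -/
theorem pr_LOCA (h1 : StUEX) (h2 : StUCV) (h3 : StGEX) (h4 : StGCV) (h5 : StLOC0)
    (h6 : StLOC1) (h7 : StLOCR) : StLOCA := by
  intro ι _ _ β C S hS
  obtain ⟨U, hU, -⟩ := h1 ℚ ι β (qm C) hS.hβ
  obtain ⟨A, -, hA⟩ := h2 ι β C U hU
  obtain ⟨γ, G, hG⟩ := h3 ι β C S hS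
  obtain ⟨B, -, hB⟩ := h4 ι β C γ G hG
  refine ⟨∑ j, (β j).natAbs + ∑ j, (γ j).natAbs, ?_⟩
  intro th w hm K hK z0 hz0
  by_cases ht : th z0 = 0
  · obtain ⟨ρ, M, hM, -⟩ := h5 ι β C U hU ⟨A, hA⟩ th w hm K
      (fun j => ILOCA.shift_nonneg β K (by omega) j) z0 hz0 ht
    exact ⟨ρ, M, hM⟩
  · by_cases hw : w z0 = 0
    · exact h6 ι β C γ G hG ⟨B, hB⟩ th w hm K
        (fun j => ILOCA.shift_nonneg γ K (by omega) j) z0 hz0 hw
    · exact h7 ι β C th w hm K z0 hz0 ht hw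

end Pool.Agent.Work.MP_5e5ff1_ag.TG
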