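import Mathlib
import Pool.Agent.Work.MP_5e5ff1_ag.TG.StmtsD
import Pool.Agent.Work.MP_5e5ff1_ag.Bd.B07

set_option autoImplicit false

open Matrix Filter Topology

namespace Pool.Agent.Work.MP_5e5ff1_ag.TG

/-- LOCR: local solutions at regular points. -/
theorem pr_LOCR : StLOCR := by
  intro ι _ _ β C th w hM K z0 hz0 ht hw
  have hopen : IsOpen (Metric.ball (0 : ℂ) 1) := Metric.isOpen_ball
  have hcth : ContinuousAt th z0 := (hM.dth.differentiableAt (hopen.mem_nhds hz0)).continuousAt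
  have hcw : ContinuousAt w z0 := (hM.dw.differentiableAt (hopen.mem_nhds hz0)).continuousAt
  have hev : ∀ᶠ z in 𝓝 z0, z ∈ Metric.ball (0 : ℂ) 1 ∧ th z ≠ 0 ∧ w z ≠ 0 :=
    Filter.Eventually.and (hopen.mem_nhds hz0) ((hcth.eventually_ne ht).and (hcw.eventually_ne hw))
  obtain ⟨r, hr, hsub⟩ := Metric.eventually_nhds_iff_ball.1 hev
  have hA : ∀ i j, DifferentiableOn ℂ (fun z => AA β C K th w z i j) (Metric.ball z0 r) := by
    intro i j
    have h1 : DifferentiableOn ℂ (fun z => deriv th z / th z) (Metric.ball z0 r) :=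
      ((hM.dth.deriv hopen).mono fun z hz => (hsub z hz).1).div
        (hM.dth.mono fun z hz => (hsub z hz).1) fun z hz => (hsub z hz).2.1
    have h2 : DifferentiableOn ℂ (fun z => deriv w z / w z) (Metric.ball z0 r) :=
      ((hM.dw.deriv hopen).mono fun z hz => (hsub z hz).1).div
        (hM.dw.mono fun z hz => (hsub z hz).1) fun z hz => (hsub z hz).2.2
    have h3 := (h1.mul_const (Matrix.diagonal (fun i => ((β i : ℂ) + K)) i j)).add
      (h2.mul_const (((4 : ℂ)⁻¹ • C.map (Int.castRingHom ℂ) + (K : ℂ) • (1 : Matrix ι ι ℂ)) i j))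
    exact h3
  obtain ⟨Y, hY0, hY⟩ := Pool.Agent.MSU.prf_S_Ex Pool.Agent.MSU.prf_S_Prim ι (Metric.ball z0 r) z0
    Metric.isOpen_ball (Metric.mem_ball_self hr)
    ((convex_ball z0 r).starConvex (Metric.mem_ball_self hr)) (AA β C K th w) hA
  have hYd : ContinuousAt (fun z => (Y z).det) z0 := by
    have h1 : ContinuousAt Y z0 := by
      refine continuousAt_pi.2 fun i => continuousAt_pi.2 fun j => ?_
      exact (hY z0 (Metric.mem_ball_self hr) i j).continuousAt
    exact (Continuous.matrix_det continuous_id).continuousAt.comp h1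
  have hev2 : ∀ᶠ z in 𝓝 z0, z ∈ Metric.ball z0 r ∧ (Y z).det ≠ 0 :=
    Filter.Eventually.and (Metric.ball_mem_nhds z0 hr) (hYd.eventually_ne (by simp [hY0]))
  obtain ⟨ρ, hρ, hsub2⟩ := Metric.eventually_nhds_iff_ball.1 hev2
  refine ⟨ρ, Y, hρ, fun z hz => (hsub z (hsub2 z hz).1).1, ?_, ?_, ?_⟩
  · intro i j z hz
    exact (hY z (hsub2 z hz).1 i j).differentiableAt.differentiableWithinAt
  · intro z hz _ _
    exact (hsub2 z hz).2
  · intro z hz _ _ i j
    exact hY z (hsub2 z hz).1 i j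

end Pool.Agent.Work.MP_5e5ff1_ag.TG
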