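import Mathlib
import Pool.Agent.Work.MP_5e5ff1_ag.TG.StmtsC

set_option autoImplicit false

/-!
# MP_5e5ff1_ag, block TG, item MPF: the map
-/

open Filter Topology

namespace Pool.Agent.Work.MP_5e5ff1_ag.TG

namespace IMPF

lemma rel (f r k : ℂ) (h0 : f ≠ 0) (h1 : f ≠ 1) (h2 : f ≠ -1) (hr : r ^ 2 = -f)
    (hk : k ^ 2 = 8 * r * (1 - f)) :
    ((f ^ 2 - 6 * f + 1) / ((1 + f) * k)) ^ 4 - 1 =
      (((f ^ 2 - 6 * f + 1) ^ 2 - 2 * (1 + f) ^ 4) / (8 * r * (1 - f) * (1 + f) ^ 2)) ^ 2 := by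
  have hk4 : k ^ 4 = -64 * f * (1 - f) ^ 2 := by
    calc k ^ 4 = (k ^ 2) ^ 2 := by ring
      _ = 64 * r ^ 2 * (1 - f) ^ 2 := by rw [hk]; ring
      _ = -64 * f * (1 - f) ^ 2 := by rw [hr]; ring
  have h3 : 1 - f ≠ 0 := by
    intro h
    exact h1 (by linear_combination -h)
  have h4 : 1 + f ≠ 0 := by
    intro h
    exact h2 (by linear_combination h)
  have e1 : ((1 + f) * k) ^ 4 = (1 + f) ^ 4 * (-64 * f * (1 - f) ^ 2) := by
    rw [mul_pow, hk4]
  have e2 : (8 * r * (1 - f) * (1 + f) ^ 2) ^ 2 = (1 + f) ^ 4 * (-64 * f * (1 - f) ^ 2) := by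
    calc (8 * r * (1 - f) * (1 + f) ^ 2) ^ 2 = 64 * r ^ 2 * (1 - f) ^ 2 * (1 + f) ^ 4 := by ring
      _ = (1 + f) ^ 4 * (-64 * f * (1 - f) ^ 2) := by rw [hr]; ring
  rw [div_pow, div_pow, e1, e2]
  have h5 : (1 + f) ^ 4 * (-64 * f * (1 - f) ^ 2) ≠ 0 := by
    apply mul_ne_zero (pow_ne_zero _ h4)
    apply mul_ne_zero (mul_ne_zero (by norm_num) h0) (pow_ne_zero _ h3)
  rw [eq_div_iff h5, sub_mul, div_mul_cancel₀ _ h5]
  ring

end IMPF

open IMPF in
theorem pr_MPF (hS : StSqr) : StMpf := by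
  rintro D ⟨F, hF, hne, hF0, hFd⟩ hD
  obtain ⟨c, hc⟩ := IsAlgClosed.exists_pow_nat_eq (-F 0) (n := 2) (by norm_num)
  obtain ⟨ρ, hρd, hρ, hρ0⟩ := hS (fun z => -F z) c hF.neg (fun z hz => neg_ne_zero.2 (hne z hz).1) hc
  have hρne : ∀ z ∈ Metric.ball (0 : ℂ) 1, ρ z ≠ 0 := by
    intro z hz h
    have h1 := hρ z hz
    rw [h] at h1
    apply (hne z hz).1
    linear_combination h1
  have h1F : ∀ z ∈ Metric.ball (0 : ℂ) 1, 1 - F z ≠ 0 := by
    intro z hz h
    exact (hne z hz).2.1 (by linear_combination -h)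
  have h2F : ∀ z ∈ Metric.ball (0 : ℂ) 1, 1 + F z ≠ 0 := by
    intro z hz h
    exact (hne z hz).2.2 (by linear_combination h)
  obtain ⟨c', hc'⟩ := IsAlgClosed.exists_pow_nat_eq (8 * ρ 0 * (1 - F 0)) (n := 2) (by norm_num)
  obtain ⟨κ, hκd, hκ, hκ0⟩ := hS (fun z => 8 * ρ z * (1 - F z)) c'
    (((differentiableOn_const (c := (8 : ℂ))).mul hρd).mul
      ((differentiableOn_const (c := (1 : ℂ))).sub hF))
    (fun z hz => mul_ne_zero (mul_ne_zero (by norm_num) (hρne z hz)) (h1F z hz)) hc'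
  have hκne : ∀ z ∈ Metric.ball (0 : ℂ) 1, κ z ≠ 0 := by
    intro z hz h
    have h1 := hκ z hz
    rw [h] at h1
    have h2 : 8 * ρ z * (1 - F z) ≠ 0 :=
      mul_ne_zero (mul_ne_zero (by norm_num) (hρne z hz)) (h1F z hz)
    apply h2
    linear_combination -h1
  have hA : DifferentiableOn ℂ (fun z => F z ^ 2 - 6 * F z + 1) (Metric.ball 0 1) :=
    ((hF.pow 2).sub ((differentiableOn_const (c := (6 : ℂ))).mul hF)).add
      (differentiableOn_const (c := (1 : ℂ)))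
  have h1pF : DifferentiableOn ℂ (fun z => 1 + F z) (Metric.ball 0 1) :=
    (differentiableOn_const (c := (1 : ℂ))).add hF
  have h1mF : DifferentiableOn ℂ (fun z => 1 - F z) (Metric.ball 0 1) :=
    (differentiableOn_const (c := (1 : ℂ))).sub hF
  have h0m : (0 : ℂ) ∈ Metric.ball (0 : ℂ) 1 := by simp
  refine ⟨fun z => (F z ^ 2 - 6 * F z + 1) / ((1 + F z) * κ z),
    fun z => ((F z ^ 2 - 6 * F z + 1) ^ 2 - 2 * (1 + F z) ^ 4) /
      (8 * ρ z * (1 - F z) * (1 + F z) ^ 2), ?_, ?_, ?_, ?_, ?_⟩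
  · exact hA.div (h1pF.mul hκd) fun z hz => mul_ne_zero (h2F z hz) (hκne z hz)
  · refine DifferentiableOn.div ((hA.pow 2).sub
      ((differentiableOn_const (c := (2 : ℂ))).mul (h1pF.pow 4)))
      ((((differentiableOn_const (c := (8 : ℂ))).mul hρd).mul h1mF).mul (h1pF.pow 2)) ?_
    intro z hz
    exact mul_ne_zero (mul_ne_zero (mul_ne_zero (by norm_num) (hρne z hz)) (h1F z hz))
      (pow_ne_zero _ (h2F z hz))
  · intro z hz
    exact rel (F z) (ρ z) (κ z) (hne z hz).1 (hne z hz).2.1 (hne z hz).2.2 (hρ z hz) (hκ z hz)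
  · have h2 : (Real.sqrt 2 : ℂ) ^ 2 = 2 := by
      rw [← Complex.ofReal_pow, Real.sq_sqrt (by norm_num)]
      norm_num
    have : F 0 ^ 2 - 6 * F 0 + 1 = 0 := by
      rw [hF0]
      push_cast
      linear_combination 4 * h2
    simp only [this, zero_div]
  · -- the derivative
    set u : ℝ := Real.sqrt 2 with hu
    have hu2 : u ^ 2 = 2 := Real.sq_sqrt (by norm_num)
    have hu1 : 1 < u := by
      rw [hu]
      exact Real.lt_sqrt_of_sq_lt (by norm_num)
    have hu3 : u < 3 / 2 := by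
      rw [hu, Real.sqrt_lt' (by norm_num)]
      norm_num
    have hA0 : F 0 ^ 2 - 6 * F 0 + 1 = 0 := by
      have h2 : (u : ℂ) ^ 2 = 2 := by
        rw [← Complex.ofReal_pow, hu2]
        norm_num
      rw [hF0]
      push_cast
      linear_combination 4 * h2
    have hFat : DifferentiableAt ℂ F 0 := hF.differentiableAt (Metric.isOpen_ball.mem_nhds h0m)
    have hκat : DifferentiableAt ℂ κ 0 := hκd.differentiableAt (Metric.isOpen_ball.mem_nhds h0m)
    have hd1 : HasDerivAt (fun z => F z ^ 2 - 6 * F z + 1) ((2 * F 0 - 6) * deriv F 0) 0 := by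
      have := ((hFat.hasDerivAt.pow 2).sub (hFat.hasDerivAt.const_mul 6)).add_const 1
      refine this.congr_deriv ?_
      norm_num
      ring
    have hd2 : HasDerivAt (fun z => (1 + F z) * κ z) (deriv F 0 * κ 0 + (1 + F 0) * deriv κ 0) 0 :=
      (hFat.hasDerivAt.const_add 1).mul hκat.hasDerivAt
    have hden : (1 + F 0) * κ 0 ≠ 0 := mul_ne_zero (h2F 0 h0m) (hκne 0 h0m)
    have hd3 := hd1.div hd2 hden
    have hd4 : deriv (fun z => (F z ^ 2 - 6 * F z + 1) / ((1 + F z) * κ z)) 0 =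
        (2 * F 0 - 6) * deriv F 0 / ((1 + F 0) * κ 0) := by
      have h5 : deriv (fun z => (F z ^ 2 - 6 * F z + 1) / ((1 + F z) * κ z)) 0 = _ := hd3.deriv
      rw [h5, hA0, zero_mul, sub_zero, sq ((1 + F 0) * κ 0), mul_div_mul_right _ _ hden]
    rw [hd4]
    have hκ4 : ‖κ 0‖ ^ 4 = 64 * (3 - 2 * u) * (1 - (3 - 2 * u)) ^ 2 := by
      have e1 : κ 0 ^ 4 = ((-(64 * (3 - 2 * u) * (1 - (3 - 2 * u)) ^ 2) : ℝ) : ℂ) := by
        calc κ 0 ^ 4 = (κ 0 ^ 2) ^ 2 := by ring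
          _ = 64 * (ρ 0 ^ 2) * (1 - F 0) ^ 2 := by rw [hκ 0 h0m]; ring
          _ = _ := by
            rw [hρ 0 h0m, hF0]
            push_cast
            ring
      rw [← norm_pow, e1, Complex.norm_real, Real.norm_eq_abs, abs_neg, abs_of_nonneg]
      have : 0 < 3 - 2 * u := by linarith
      positivity
    have hn1 : ‖2 * F 0 - 6‖ = 4 * u := by
      have : 2 * F 0 - 6 = ((-(4 * u) : ℝ) : ℂ) := by
        rw [hF0]
        push_cast
        ring
      rw [this, Complex.norm_real, Real.norm_eq_abs, abs_neg, abs_of_nonneg (by linarith)]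
    have hn2 : ‖1 + F 0‖ = 4 - 2 * u := by
      have : 1 + F 0 = ((4 - 2 * u : ℝ) : ℂ) := by
        rw [hF0]
        push_cast
        ring
      rw [this, Complex.norm_real, Real.norm_eq_abs, abs_of_nonneg (by linarith)]
    rw [norm_div, norm_mul, norm_mul, div_pow, mul_pow, mul_pow, hn1, hn2, hκ4, hFd]
    have hs : 0 < 3 - 2 * u := by linarith
    have hval : (4 * u) ^ 4 * (D * (3 - 2 * u)) ^ 4 /
        ((4 - 2 * u) ^ 4 * (64 * (3 - 2 * u) * (1 - (3 - 2 * u)) ^ 2)) = D ^ 4 / 16 := by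
      have hpos : 0 < (4 - 2 * u) ^ 4 * (64 * (3 - 2 * u) * (1 - (3 - 2 * u)) ^ 2) := by
        have h6 : 0 < 4 - 2 * u := by linarith
        have h7 : 0 < (1 - (3 - 2 * u)) ^ 2 := by
          have : 0 < 1 - (3 - 2 * u) := by linarith
          positivity
        positivity
      rw [div_eq_div_iff hpos.ne' (by norm_num)]
      -- s = v ^ 2 with v = u - 1
      obtain ⟨v, hv⟩ : ∃ v, v = u - 1 := ⟨_, rfl⟩
      have e3 : 3 - 2 * u = v ^ 2 := by rw [hv]; linear_combination -hu2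
      have e4 : 4 - 2 * u = 2 * u * v := by rw [hv]; linear_combination -2 * hu2
      have e5 : 1 - (3 - 2 * u) = 2 * v := by rw [hv]; ring
      have e6 : u ^ 4 = 4 := by
        calc u ^ 4 = (u ^ 2) ^ 2 := by ring
          _ = 4 := by rw [hu2]; norm_num
      rw [e5, e4, e3]
      ring
    rw [hval]
    have h8 : (6179 / 1000 : ℝ) ^ 4 ≤ D ^ 4 := by
      exact pow_le_pow_left₀ (by norm_num) hD 4
    have h9 : (911 / 10 : ℝ) ≤ (6179 / 1000 : ℝ) ^ 4 / 16 := by norm_num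
    linarith

end Pool.Agent.Work.MP_5e5ff1_ag.TG
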