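import Mathlib
import Pool.Agent.Work.MP_5e5ff1_ag.TG.StmtsE

set_option autoImplicit false

/-!
# MP_5e5ff1_ag, block TG, item MZ: the theorem for integral systems
-/

open Matrix Filter Topology NumberField
open scoped Polynomial

namespace Pool.Agent.Work.MP_5e5ff1_ag.TG

namespace IMZ

theorem dJ_pos (S : Set ℕ) (B J N : ℕ) : 0 < dJ S B J N := by
  unfold dJ
  refine Nat.mul_pos (by positivity) (Finset.prod_pos fun p hp => ?_)
  exact Nat.pow_pos (Finset.mem_filter.1 hp).2.pos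

theorem bound {ι : Type} [Fintype ι] (β : ι → ℤ) : ∃ B : ℕ, ∀ i j, |β i - β j| ≤ B := by
  refine ⟨∑ i, ∑ j, (β i - β j).natAbs, fun i j => ?_⟩
  have h1 : (β i - β j).natAbs ≤ ∑ j, (β i - β j).natAbs :=
    Finset.single_le_sum (f := fun j => (β i - β j).natAbs) (fun _ _ => Nat.zero_le _)
      (Finset.mem_univ j)
  have h2 : ∑ j, (β i - β j).natAbs ≤ ∑ i, ∑ j, (β i - β j).natAbs :=
    Finset.single_le_sum (f := fun i => ∑ j, (β i - β j).natAbs) (fun _ _ => Nat.zero_le _)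
      (Finset.mem_univ i)
  rw [Int.abs_eq_natAbs]
  exact_mod_cast h1.trans h2

end IMZ

theorem pr_MZ (hCrit : StCrit) (hMap : StMap) (hDEN : StDEN) (hGRO : StGRO) (hNUM : StNUM)
    (hUCV : StUCV) (hCON : StCON) : StMZ := by
  intro ι _ _ β C S U hsys hU i j
  obtain ⟨th, w, hm⟩ := hMap
  obtain ⟨B, hB⟩ := IMZ.bound β
  obtain ⟨h, F, hh, hne, hF, hFe⟩ := hCON ι β C S U hsys hU th w hm i j
  obtain ⟨A, -, hA⟩ := hUCV ι β C U hU
  refine hCrit (4 * Real.log 2 + 4 * (4145 / 10000 : ℝ) + 4 / 50) (fun n => U n i j) th h ?_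
    ⟨A, fun n => hA n i j⟩ hm.dth hm.zero ?_ hh hne ⟨F, hF, hFe⟩
  · intro J ε hε
    obtain ⟨N0, hN0⟩ := hGRO S B J hsys.small ε hε
    refine ⟨N0, fun N hN => ⟨dJ S B J N, IMZ.dJ_pos S B J N, hN0 N hN, ?_⟩⟩
    intro j' hj' k hk
    exact hDEN ι β C S U hsys hU B hB i j J N j' hj' k hk
  · refine hNUM.trans_le ?_
    have h1 : 4 * Real.log ‖deriv th 0‖ = Real.log (‖deriv th 0‖ ^ 4) := by
      rw [Real.log_pow]
      norm_num
    rw [h1]
    exact Real.log_le_log (by norm_num) hm.der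

end Pool.Agent.Work.MP_5e5ff1_ag.TG
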