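import Mathlib
import Pool.Agent.Work.MP_5e5ff1_ag.TG.StmtsA

set_option autoImplicit false

/-!
# MP_5e5ff1_ag, block TG, item NUM: the numerical inequality
-/

namespace Pool.Agent.Work.MP_5e5ff1_ag.TG

namespace INUM

theorem exp_le : Real.exp (869 / 1000) ≤ 23861 / 10000 := by
  have h := Real.exp_bound' (x := (869 / 1000 : ℝ)) (by norm_num) (by norm_num) (n := 8)
    (by norm_num)
  refine h.trans ?_
  simp only [Finset.sum_range_succ, Finset.sum_range_zero, Nat.factorial]
  norm_num

theorem lt_log : (1738 / 1000 : ℝ) < Real.log (911 / 160) := by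
  rw [Real.lt_log_iff_exp_lt (by norm_num)]
  have h : Real.exp (1738 / 1000) = Real.exp (869 / 1000) ^ 2 := by
    rw [← Real.exp_nat_mul]
    norm_num
  rw [h]
  calc Real.exp (869 / 1000) ^ 2 ≤ (23861 / 10000 : ℝ) ^ 2 :=
        pow_le_pow_left₀ (Real.exp_pos _).le exp_le 2
    _ < 911 / 160 := by norm_num

end INUM

theorem pr_NUM : StNUM := by
  unfold StNUM
  have h3 : Real.log (911 / 10) = Real.log 16 + Real.log (911 / 160) := by
    rw [← Real.log_mul (by norm_num) (by norm_num)]
    norm_num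
  have h4 : Real.log 16 = 4 * Real.log 2 := by
    rw [show (16 : ℝ) = 2 ^ 4 by norm_num, Real.log_pow]
    norm_num
  have h5 := INUM.lt_log
  rw [h3, h4]
  linarith

end Pool.Agent.Work.MP_5e5ff1_ag.TG
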