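import Mathlib
import Pool.Agent.Work.MP_5e5ff1_ag.TG.StmtsD

set_option autoImplicit false

/-!
# MP_5e5ff1_ag, block TG, item ODX: the differential equation propagates
-/

open Matrix Filter Topology
open scoped Polynomial

namespace Pool.Agent.Work.MP_5e5ff1_ag.TG

namespace IODX

variable {ι : Type} [Fintype ι] [DecidableEq ι]

/-- the right side, entrywise -/
theorem AA_mul (β : ι → ℤ) (C : Matrix ι ι ℤ) (K : ℕ) (th w : ℂ → ℂ) (z : ℂ) (M : Matrix ι ι ℂ)
    (i j : ι) : (AA β C K th w z * M) i j =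
      (deriv th z / th z) * (((β i : ℂ) + K) * M i j) +
        (deriv w z / w z) * ((4 : ℂ)⁻¹ * ∑ l, (C i l : ℂ) * M l j + K * M i j) := by
  unfold AA
  rw [Matrix.add_mul, Matrix.add_apply, Matrix.smul_mul, Matrix.smul_apply,
    Matrix.diagonal_mul, Matrix.smul_mul, Matrix.smul_apply, Matrix.add_mul, Matrix.add_apply,
    Matrix.smul_mul, Matrix.smul_apply, Matrix.smul_mul, Matrix.smul_apply, Matrix.one_mul,
    Matrix.mul_apply]
  simp only [smul_eq_mul, Matrix.map_apply, eq_intCast]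

/-- the holomorphic expression -/
noncomputable def H (β : ι → ℤ) (C : Matrix ι ι ℤ) (K : ℕ) (th w : ℂ → ℂ) (M : ℂ → Matrix ι ι ℂ)
    (i j : ι) (z : ℂ) : ℂ :=
  th z * w z * deriv (fun y => M y i j) z -
    (w z * deriv th z * (((β i : ℂ) + K) * M z i j) +
      th z * deriv w z * ((4 : ℂ)⁻¹ * ∑ l, (C i l : ℂ) * M z l j + K * M z i j))

theorem H_eq (β : ι → ℤ) (C : Matrix ι ι ℤ) (K : ℕ) (th w : ℂ → ℂ) (M : ℂ → Matrix ι ι ℂ)
    (i j : ι) (z : ℂ) (h1 : th z ≠ 0) (h2 : w z ≠ 0) : H β C K th w M i j z =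
      th z * w z * (deriv (fun y => M y i j) z - (AA β C K th w z * M z) i j) := by
  rw [AA_mul]
  unfold H
  field_simp

omit [DecidableEq ι] in
theorem H_diff (β : ι → ℤ) (C : Matrix ι ι ℤ) (K : ℕ) (th w : ℂ → ℂ) (hm : IsMap th w)
    (M : ℂ → Matrix ι ι ℂ) (r : ℝ) (hr : r ≤ 1)
    (hM : ∀ i j, DifferentiableOn ℂ (fun z => M z i j) (Metric.ball 0 r)) (i j : ι) :
    DifferentiableOn ℂ (H β C K th w M i j) (Metric.ball 0 r) := by
  have hsub : Metric.ball (0 : ℂ) r ⊆ Metric.ball 0 1 := Metric.ball_subset_ball hr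
  have h1 : DifferentiableOn ℂ th (Metric.ball 0 r) := hm.dth.mono hsub
  have h2 : DifferentiableOn ℂ w (Metric.ball 0 r) := hm.dw.mono hsub
  have h3 : DifferentiableOn ℂ (deriv th) (Metric.ball 0 r) := h1.deriv Metric.isOpen_ball
  have h4 : DifferentiableOn ℂ (deriv w) (Metric.ball 0 r) := h2.deriv Metric.isOpen_ball
  have h5 : DifferentiableOn ℂ (deriv (fun y => M y i j)) (Metric.ball 0 r) :=
    (hM i j).deriv Metric.isOpen_ball
  have h6 : DifferentiableOn ℂ (fun z => ∑ l, (C i l : ℂ) * M z l j) (Metric.ball 0 r) :=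
    DifferentiableOn.fun_sum fun l _ => (hM l j).const_mul _
  exact ((h1.mul h2).mul h5).sub (((h2.mul h3).mul ((hM i j).const_mul _)).add
    ((h1.mul h4).mul ((h6.const_mul _).add ((hM i j).const_mul _))))

end IODX

theorem pr_ODX (hT : StTHN) : StODX := by
  intro ι _ _ β C th w hm K N M ρ r hN hr hr1 hM hMN z hz h1 h2 i j
  have hev : ∀ᶠ z in 𝓝[≠] (0 : ℂ), IODX.H β C K th w M i j z = 0 := by
    have e1 := (hT th w hm).1
    have e2 : ∀ᶠ z in 𝓝[≠] (0 : ℂ), ∀ᶠ y in 𝓝 z, M y = N y :=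
      (eventually_eventually_nhds.2 hMN).filter_mono nhdsWithin_le_nhds
    have e3 : ∀ᶠ z in 𝓝[≠] (0 : ℂ), z ∈ Metric.ball (0 : ℂ) ρ :=
      (Metric.ball_mem_nhds (0 : ℂ) hN.pos : Metric.ball (0 : ℂ) ρ ∈ 𝓝 0) |>
        fun h => nhdsWithin_le_nhds h
    filter_upwards [e1, e2, e3] with y hy1 hy2 hy3
    rw [IODX.H_eq β C K th w M i j y hy1.1 hy1.2]
    have h3 := hN.ode y hy3 hy1.1 hy1.2 i j
    have h4 : HasDerivAt (fun y => M y i j) ((AA β C K th w y * N y) i j) y := by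
      refine h3.congr_of_eventuallyEq ?_
      filter_upwards [hy2] with u hu
      rw [hu]
    rw [h4.deriv, hy2.self_of_nhds, sub_self, mul_zero]
  have hd := IODX.H_diff β C K th w hm M r hr1 hM i j
  have han : AnalyticOnNhd ℂ (IODX.H β C K th w M i j) (Metric.ball 0 r) :=
    hd.analyticOnNhd Metric.isOpen_ball
  have hzero := han.eqOn_zero_of_preconnected_of_frequently_eq_zero
    (convex_ball (0 : ℂ) r).isPreconnected (Metric.mem_ball_self hr) hev.frequently
  have h5 := hzero hz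
  rw [IODX.H_eq β C K th w M i j z h1 h2] at h5
  simp only [Pi.zero_apply, mul_eq_zero] at h5
  have h6 : deriv (fun y => M y i j) z = (AA β C K th w z * M z) i j := by
    rcases h5 with (h5 | h5) | h5
    · exact absurd h5 h1
    · exact absurd h5 h2
    · exact sub_eq_zero.1 h5
  rw [← h6]
  exact ((hM i j).differentiableAt (Metric.isOpen_ball.mem_nhds hz)).hasDerivAt

end Pool.Agent.Work.MP_5e5ff1_ag.TG
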