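import Mathlib
import Pool.Agent.Work.MP_5e5ff1_ag.TG.StmtsA

set_option autoImplicit false

/-!
# MP_5e5ff1_ag, block TG, item PCU: the p-th iterate of `D0` modulo `p`
-/

open Matrix Filter Topology
open scoped Polynomial

namespace Pool.Agent.Work.MP_5e5ff1_ag.TG

namespace IPCU

variable {ι : Type} [Fintype ι] [DecidableEq ι] {R : Type} [CommRing R]

/-- the sequence with one term -/
def e (k : ℕ) (u : ι → R) : ℕ → ι → R := fun m => if m = k then u else 0

/-- the shift as a linear map -/
def S (ι R : Type) [CommRing R] : (ℕ → ι → R) →ₗ[R] (ℕ → ι → R) where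
  toFun v := fun n => if n = 0 then 0 else v (n - 1)
  map_add' v w := by
    funext n
    by_cases h : n = 0
    · simp [h]
    · simp [h]
  map_smul' a v := by
    funext n
    by_cases h : n = 0
    · simp [h]
    · simp [h]

theorem S_zero (v : ℕ → ι → R) : S ι R v 0 = 0 := rfl

theorem S_succ (v : ℕ → ι → R) (n : ℕ) : S ι R v (n + 1) = v n := rfl

theorem S_e (k : ℕ) (u : ι → R) : S ι R (e k u) = e (k + 1) u := by
  funext n
  rcases n with _ | n
  · rw [S_zero]
    unfold e
    rw [if_neg (by omega)]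
  · rw [S_succ]
    unfold e
    by_cases h : n = k
    · rw [if_pos h, if_pos (by omega)]
    · rw [if_neg h, if_neg (by omega)]

theorem cst_e (u : ι → R) : cst u = e 0 u := by
  funext n i
  unfold cst e
  by_cases h : n = 0
  · rw [if_pos h, if_pos h]
  · rw [if_neg h, if_neg h]
    rfl

/-- the shift and `D0` -/
theorem semi (β : ι → ℤ) (C : Matrix ι ι R) :
    SemiconjBy (S ι R : Module.End R (ℕ → ι → R))
      ((D0 β C : Module.End R (ℕ → ι → R)) + algebraMap R _ 8) (D0 β C) := by
  refine LinearMap.ext fun v => ?_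
  funext n i
  rw [Module.End.mul_apply, Module.End.mul_apply]
  rcases n with _ | n
  · rw [S_zero]
    change (0 : R) = (8 * ((0 : ℕ) : R) - 2 * (β i : R)) * S ι R v 0 i +
      ∑ k ∈ Finset.range 0, (C *ᵥ S ι R v k) i
    rw [S_zero, Finset.sum_range_zero]
    simp
  · rw [S_succ]
    change (8 * (n : R) - 2 * (β i : R)) * v n i + ∑ k ∈ Finset.range n, (C *ᵥ v k) i +
      8 * v n i = (8 * ((n + 1 : ℕ) : R) - 2 * (β i : R)) * S ι R v (n + 1) i +
      ∑ k ∈ Finset.range (n + 1), (C *ᵥ S ι R v k) i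
    rw [Finset.sum_range_succ', S_zero, Matrix.mulVec_zero, S_succ]
    simp only [S_succ, Pi.zero_apply, add_zero]
    push_cast
    ring

/-- `D0` is lower triangular -/
theorem tri (β : ι → ℤ) (C : Matrix ι ι R) (n : ℕ) (w : ℕ → ι → R) (hw : ∀ m ≤ n, w m = 0) :
    ∀ m ≤ n, D0 β C w m = 0 := by
  intro m hm
  funext i
  change (8 * (m : R) - 2 * (β i : R)) * w m i + ∑ k ∈ Finset.range m, (C *ᵥ w k) i = 0
  rw [hw m hm, Finset.sum_eq_zero]
  · simp
  · intro k hk
    rw [hw k ((Finset.mem_range.1 hk).le.trans hm), Matrix.mulVec_zero]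
    rfl

theorem tri_pow (β : ι → ℤ) (C : Matrix ι ι R) (n k : ℕ) (w : ℕ → ι → R)
    (hw : ∀ m ≤ n, w m = 0) : ∀ m ≤ n, ((D0 β C : Module.End R (ℕ → ι → R)) ^ k) w m = 0 := by
  induction k with
  | zero => exact hw
  | succ k ih =>
    rw [pow_succ', Module.End.mul_apply]
    exact tri β C n _ ih

end IPCU

open IPCU in
/-- PCU: the p-th iterate of `D0` is `D0` modulo `p`. -/
theorem pr_PCU (h1 : StITR) (h2 : StWIL) : StPCU := by
  intro p _ hp2 ι _ _ β C hPZ v
  set C' : Matrix ι ι (ZMod p) := C.map (Int.castRingHom (ZMod p)) with hC'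
  set D : Module.End (ZMod p) (ℕ → ι → ZMod p) := D0 β C' with hD
  -- constants
  have hcst : ∀ u : ι → ZMod p, (D ^ p) (cst u) = D (cst u) := by
    intro u
    have h3 : Polynomial.aeval D (∏ a ∈ Finset.range p,
        (Polynomial.X - Polynomial.C (8 * (a : ZMod p)))) (cst u) = 0 := by
      funext n i
      have h4 := h1 (ZMod p) ι β C' u p i
      have h5 : ∑ j, ((Qi (dia (ZMod p) β) C' p i j : (ZMod p)[X]) : PowerSeries (ZMod p)) *
          PowerSeries.C (u j) = 0 := by
        refine Finset.sum_eq_zero fun j _ => ?_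
        have h6 : Qi (dia (ZMod p) β) C' p = 0 := hPZ
        rw [h6, Matrix.zero_apply, Polynomial.coe_zero, zero_mul]
      rw [h5] at h4
      have h7 : (PowerSeries.X - 1 : PowerSeries (ZMod p)) ≠ 0 := by
        intro h
        have h8 := congrArg (PowerSeries.coeff 0) h
        simp at h8
      have h9 := (mul_eq_zero.1 h4).resolve_left (pow_ne_zero _ h7)
      have h10 := congrArg (PowerSeries.coeff n) h9
      rw [PowerSeries.coeff_mk, map_zero] at h10
      exact h10
    have h4 : ∏ a ∈ Finset.range p, ((Polynomial.X : (ZMod p)[X]) -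
        Polynomial.C (8 * (a : ZMod p))) = Polynomial.X ^ p - Polynomial.X := by
      rw [← h2 p hp2 0]
      refine Finset.prod_congr rfl fun a _ => ?_
      rw [zero_sub, Polynomial.C_neg, ← sub_eq_add_neg]
    rw [h4, map_sub, map_pow, Polynomial.aeval_X, LinearMap.sub_apply] at h3
    exact sub_eq_zero.1 h3
  -- the shift
  set L : Module.End (ZMod p) (ℕ → ι → ZMod p) := D ^ p - D with hL
  set T : Module.End (ZMod p) (ℕ → ι → ZMod p) := D + algebraMap (ZMod p) _ 8 with hT
  have hTp : T ^ p - T = L := by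
    have h3 : ((Polynomial.X : (ZMod p)[X]) + Polynomial.C 8) ^ p -
        (Polynomial.X + Polynomial.C 8) = Polynomial.X ^ p - Polynomial.X := by
      rw [add_pow_char, ← Polynomial.C_pow, ZMod.pow_card]
      ring
    have h4 := congrArg (Polynomial.aeval D) h3
    rw [map_sub, map_sub, map_pow, map_add, Polynomial.aeval_X, Polynomial.aeval_C, map_pow,
      Polynomial.aeval_X] at h4
    exact h4
  have hSL : S ι (ZMod p) * L = L * S ι (ZMod p) := by
    have h3 : SemiconjBy (S ι (ZMod p) : Module.End (ZMod p) (ℕ → ι → ZMod p)) T D := semi β C'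
    have h4 := h3.pow_right p
    have h5 : (S ι (ZMod p) : Module.End (ZMod p) (ℕ → ι → ZMod p)) * (T ^ p - T) =
        (D ^ p - D) * S ι (ZMod p) := by
      rw [mul_sub, sub_mul, h4.eq, h3.eq]
    rw [hTp] at h5
    exact h5
  have he : ∀ (k : ℕ) (u : ι → ZMod p), L (e k u) = 0 := by
    intro k u
    induction k with
    | zero =>
      rw [← cst_e, hL, LinearMap.sub_apply, hcst, sub_self]
    | succ k ih =>
      rw [← S_e]
      have h3 := congrArg (fun A : Module.End (ZMod p) (ℕ → ι → ZMod p) => A (e k u)) hSL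
      simp only [Module.End.mul_apply] at h3
      rw [← h3, ih, map_zero]
  have hmain : L v = 0 := by
    funext n
    set w : ℕ → ι → ZMod p := v - ∑ k ∈ Finset.range (n + 1), e k (v k) with hw
    have hw0 : ∀ m ≤ n, w m = 0 := by
      intro m hm
      rw [hw, Pi.sub_apply, Finset.sum_apply]
      unfold e
      rw [Finset.sum_ite_eq (Finset.range (n + 1)) m (fun k => v k),
        if_pos (Finset.mem_range.2 (by omega)), sub_self]
    have hv : L v = L w := by
      have h3 : v = w + ∑ k ∈ Finset.range (n + 1), e k (v k) := by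
        rw [hw, sub_add_cancel]
      conv_lhs => rw [h3]
      rw [map_add, map_sum, Finset.sum_eq_zero fun k _ => he k (v k), add_zero]
    rw [hv, hL, LinearMap.sub_apply, Pi.sub_apply, tri_pow β C' n p w hw0 n le_rfl,
      tri β C' n w hw0 n le_rfl, sub_zero]
    rfl
  rw [hL, LinearMap.sub_apply] at hmain
  exact sub_eq_zero.1 hmain

end Pool.Agent.Work.MP_5e5ff1_ag.TG
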