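import Mathlib
import Pool.Agent.Work.MP_5e5ff1_ag.TG.StmtsD
import Pool.Agent.Work.MP_5e5ff1_ag.TG.I_PCU

set_option autoImplicit false

/-!
# MP_5e5ff1_ag, block TG, item PC1: the p-th iterate of `D1` modulo `p`
-/

open Matrix Filter Topology
open scoped Polynomial

namespace Pool.Agent.Work.MP_5e5ff1_ag.TG

namespace IPC1

open IPCU

variable {ι : Type} [Fintype ι] [DecidableEq ι] {R : Type} [CommRing R]

theorem D1_app (β : ι → ℤ) (C : Matrix ι ι R) (v : ℕ → ι → R) (n : ℕ) (i : ι) :
    D1 β C v n i = 8 * (n : R) * v n i - (C *ᵥ v n) i -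
      2 * (β i : R) * ∑ k ∈ Finset.range n, (-1) ^ (n - 1 - k) * v k i := rfl

/-- the shift and `D1` -/
theorem semi (β : ι → ℤ) (C : Matrix ι ι R) :
    SemiconjBy (S ι R : Module.End R (ℕ → ι → R))
      ((D1 β C : Module.End R (ℕ → ι → R)) + algebraMap R _ 8) (D1 β C) := by
  refine LinearMap.ext fun v => ?_
  funext n i
  rw [Module.End.mul_apply, Module.End.mul_apply]
  rcases n with _ | n
  · rw [S_zero, D1_app, S_zero, Finset.sum_range_zero]
    simp
  · rw [S_succ, D1_app, S_succ]
    change D1 β C v n i + 8 * v n i = _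
    rw [D1_app, Finset.sum_range_succ', S_zero]
    have h : ∑ k ∈ Finset.range n, (-1 : R) ^ (n + 1 - 1 - (k + 1)) * S ι R v (k + 1) i =
        ∑ k ∈ Finset.range n, (-1) ^ (n - 1 - k) * v k i := by
      refine Finset.sum_congr rfl fun k hk => ?_
      have hk' := Finset.mem_range.1 hk
      rw [S_succ]
      congr 2
      omega
    rw [h]
    simp only [Pi.zero_apply, mul_zero, add_zero]
    push_cast
    ring

/-- `D1` is lower triangular -/
theorem tri (β : ι → ℤ) (C : Matrix ι ι R) (n : ℕ) (w : ℕ → ι → R) (hw : ∀ m ≤ n, w m = 0) :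
    ∀ m ≤ n, D1 β C w m = 0 := by
  intro m hm
  funext i
  rw [D1_app, hw m hm, Finset.sum_eq_zero]
  · simp
  · intro k hk
    rw [hw k ((Finset.mem_range.1 hk).le.trans hm)]
    simp

theorem tri_pow (β : ι → ℤ) (C : Matrix ι ι R) (n k : ℕ) (w : ℕ → ι → R)
    (hw : ∀ m ≤ n, w m = 0) : ∀ m ≤ n, ((D1 β C : Module.End R (ℕ → ι → R)) ^ k) w m = 0 := by
  induction k with
  | zero => exact hw
  | succ k ih =>
    rw [pow_succ', Module.End.mul_apply]
    exact tri β C n _ ih

end IPC1

open IPC1 in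
/-- PC1: the p-th iterate of `D1` is `D1` modulo `p`. -/
theorem pr_PC1 (h1 : StITR1) (h2 : StWIL) : StPC1 := by
  intro p _ hp2 ι _ _ β C hPZ v
  set C' : Matrix ι ι (ZMod p) := C.map (Int.castRingHom (ZMod p)) with hC'
  set D : Module.End (ZMod p) (ℕ → ι → ZMod p) := D1 β C' with hD
  -- constants
  have hcst : ∀ u : ι → ZMod p, (D ^ p) (cst u) = D (cst u) := by
    intro u
    have h3 : Polynomial.aeval D (∏ a ∈ Finset.range p,
        (Polynomial.X - Polynomial.C (8 * (a : ZMod p)))) (cst u) = 0 := by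
      funext n i
      have h4 := h1 (ZMod p) ι β C' u p i
      have h5 : ∑ j, (((Qi (dia (ZMod p) β) C' p i j).comp (Polynomial.X + 1) :
          (ZMod p)[X]) : PowerSeries (ZMod p)) * PowerSeries.C (u j) = 0 := by
        refine Finset.sum_eq_zero fun j _ => ?_
        have h6 : Qi (dia (ZMod p) β) C' p = 0 := hPZ
        rw [h6, Matrix.zero_apply, Polynomial.zero_comp, Polynomial.coe_zero, zero_mul]
      rw [h5] at h4
      have h7 : (PowerSeries.X + 1 : PowerSeries (ZMod p)) ≠ 0 := by
        intro h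
        have h8 := congrArg (PowerSeries.coeff 0) h
        simp at h8
      have h9 := (mul_eq_zero.1 h4).resolve_left (pow_ne_zero _ h7)
      have h10 := congrArg (PowerSeries.coeff n) h9
      rw [PowerSeries.coeff_mk, map_zero] at h10
      exact h10
    have h4 : ∏ a ∈ Finset.range p, ((Polynomial.X : (ZMod p)[X]) -
        Polynomial.C (8 * (a : ZMod p))) = Polynomial.X ^ p - Polynomial.X := by
      rw [← h2 p hp2 0]
      refine Finset.prod_congr rfl fun a _ => ?_
      rw [zero_sub, Polynomial.C_neg, ← sub_eq_add_neg]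
    rw [h4, map_sub, map_pow, Polynomial.aeval_X, LinearMap.sub_apply] at h3
    exact sub_eq_zero.1 h3
  -- the shift
  set L : Module.End (ZMod p) (ℕ → ι → ZMod p) := D ^ p - D with hL
  set T : Module.End (ZMod p) (ℕ → ι → ZMod p) := D + algebraMap (ZMod p) _ 8 with hT
  have hTp : T ^ p - T = L := by
    have h3 : ((Polynomial.X : (ZMod p)[X]) + Polynomial.C 8) ^ p -
        (Polynomial.X + Polynomial.C 8) = Polynomial.X ^ p - Polynomial.X := by
      rw [add_pow_char, ← Polynomial.C_pow, ZMod.pow_card]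
      ring
    have h4 := congrArg (Polynomial.aeval D) h3
    rw [map_sub, map_sub, map_pow, map_add, Polynomial.aeval_X, Polynomial.aeval_C, map_pow,
      Polynomial.aeval_X] at h4
    exact h4
  have hSL : IPCU.S ι (ZMod p) * L = L * IPCU.S ι (ZMod p) := by
    have h3 : SemiconjBy (IPCU.S ι (ZMod p) : Module.End (ZMod p) (ℕ → ι → ZMod p)) T D :=
      semi β C'
    have h4 := h3.pow_right p
    have h5 : (IPCU.S ι (ZMod p) : Module.End (ZMod p) (ℕ → ι → ZMod p)) * (T ^ p - T) =
        (D ^ p - D) * IPCU.S ι (ZMod p) := by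
      rw [mul_sub, sub_mul, h4.eq, h3.eq]
    rw [hTp] at h5
    exact h5
  have he : ∀ (k : ℕ) (u : ι → ZMod p), L (IPCU.e k u) = 0 := by
    intro k u
    induction k with
    | zero =>
      rw [← IPCU.cst_e, hL, LinearMap.sub_apply, hcst, sub_self]
    | succ k ih =>
      rw [← IPCU.S_e]
      have h3 := congrArg (fun A : Module.End (ZMod p) (ℕ → ι → ZMod p) => A (IPCU.e k u)) hSL
      simp only [Module.End.mul_apply] at h3
      rw [← h3, ih, map_zero]
  have hmain : L v = 0 := by
    funext n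
    set w : ℕ → ι → ZMod p := v - ∑ k ∈ Finset.range (n + 1), IPCU.e k (v k) with hw
    have hw0 : ∀ m ≤ n, w m = 0 := by
      intro m hm
      rw [hw, Pi.sub_apply, Finset.sum_apply]
      unfold IPCU.e
      rw [Finset.sum_ite_eq (Finset.range (n + 1)) m (fun k => v k),
        if_pos (Finset.mem_range.2 (by omega)), sub_self]
    have hv : L v = L w := by
      have h3 : v = w + ∑ k ∈ Finset.range (n + 1), IPCU.e k (v k) := by
        rw [hw, sub_add_cancel]
      conv_lhs => rw [h3]
      rw [map_add, map_sum, Finset.sum_eq_zero fun k _ => he k (v k), add_zero]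
    rw [hv, hL, LinearMap.sub_apply, Pi.sub_apply, tri_pow β C' n p w hw0 n le_rfl,
      tri β C' n w hw0 n le_rfl, sub_zero]
    rfl
  rw [hL, LinearMap.sub_apply] at hmain
  exact sub_eq_zero.1 hmain

end Pool.Agent.Work.MP_5e5ff1_ag.TG
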