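import Mathlib
import Pool.Agent.Work.MP_5e5ff1_ag.TG.StmtsA

set_option autoImplicit false

/-!
# Item POW: coefficients of powers
-/

namespace Pool.Agent.Work.MP_5e5ff1_ag.TG

namespace IPOW

theorem key (p : ℕ) [Fact p.Prime] (a : ℕ → ℚ) (E : ℕ → ℕ)
    (ha : ∀ n, padicNorm p (a n) ≤ (p : ℚ) ^ E n) :
    ∀ (j k T : ℕ), (∀ l : List ℕ, l.length = j → l.sum = k → (l.map E).sum ≤ T) →
      padicNorm p (PowerSeries.coeff k ((PowerSeries.mk a) ^ j)) ≤ (p : ℚ) ^ T := by
  have hp1 : (1 : ℚ) ≤ p := by exact_mod_cast (Fact.out : p.Prime).one_lt.le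
  have hp0 : (0 : ℚ) ≤ p := by linarith
  intro j
  induction j with
  | zero =>
    intro k T _
    rw [pow_zero, PowerSeries.coeff_one]
    split_ifs
    · rw [padicNorm.one]
      exact one_le_pow₀ hp1
    · rw [padicNorm.zero]
      positivity
  | succ j ih =>
    intro k T hT
    rw [pow_succ, PowerSeries.coeff_mul]
    refine padicNorm.sum_le' (fun x hx => ?_) (by positivity)
    obtain ⟨x, y⟩ := x
    rw [Finset.HasAntidiagonal.mem_antidiagonal] at hx
    simp only at hx ⊢
    rw [padicNorm.mul, PowerSeries.coeff_mk]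
    by_cases h0 : PowerSeries.coeff x ((PowerSeries.mk a) ^ j) = 0
    · rw [h0, padicNorm.zero, zero_mul]
      positivity
    · have hl : ∃ l : List ℕ, l.length = j ∧ l.sum = x := by
        rcases j with _ | j
        · refine ⟨[], rfl, ?_⟩
          rw [pow_zero, PowerSeries.coeff_one] at h0
          by_contra hx0
          exact h0 (if_neg fun h => hx0 (by rw [h]; rfl))
        · refine ⟨x :: List.replicate j 0, by simp, by simp⟩
      obtain ⟨l, hl1, hl2⟩ := hl
      have hE : E y ≤ T := by
        have h1 := hT (y :: l) (by simp [hl1]) (by simp [hl2]; omega)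
        simp only [List.map_cons, List.sum_cons] at h1
        omega
      have h2 := ih x (T - E y) (by
        intro l' h3 h4
        have h5 := hT (y :: l') (by simp [h3]) (by simp [h4]; omega)
        simp only [List.map_cons, List.sum_cons] at h5
        omega)
      calc _ ≤ (p : ℚ) ^ (T - E y) * (p : ℚ) ^ E y :=
            mul_le_mul h2 (ha y) (padicNorm.nonneg _) (by positivity)
        _ = (p : ℚ) ^ T := by rw [← pow_add, Nat.sub_add_cancel hE]

end IPOW

theorem pr_POW : StPOW := by
  intro p _ a E J N T ha hl j hj k hk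
  exact IPOW.key p a E ha j k T fun l h1 h2 => hl l (by omega) (by omega)

end Pool.Agent.Work.MP_5e5ff1_ag.TG
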