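import Mathlib
import Pool.Agent.Work.MP_5e5ff1_ag.TG.StmtsE

set_option autoImplicit false

/-!
# MP_5e5ff1_ag, block TG, item QIM: base change for `Qi`
-/

open Matrix
open scoped Polynomial

namespace Pool.Agent.Work.MP_5e5ff1_ag.TG

namespace IQIM

variable {ι : Type} [Fintype ι] [DecidableEq ι]

/-- the recursion, entry by entry -/
theorem entry {R : Type*} [CommRing R] (b c : Matrix ι ι R) (k : ℕ) (i j : ι) :
    Qi b c (k + 1) i j =
      (Polynomial.C (8 : R) * ((Polynomial.X : R[X]) * (Polynomial.X - 1))) *
          Polynomial.derivative (Qi b c k i j) -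
        ((k : R[X]) * Polynomial.C (8 : R) * (2 * (Polynomial.X : R[X]) - 1)) * Qi b c k i j -
        ∑ l, (((Polynomial.X : R[X]) - 1) * Polynomial.C (b i l) +
          (Polynomial.X : R[X]) * Polynomial.C (c i l)) * Qi b c k l j := rfl

end IQIM

theorem pr_QIM : StQIM := by
  intro R S _ _ φ ι _ _ b c k
  induction k with
  | zero =>
    ext1 i j
    show (1 : Matrix ι ι S[X]) i j = Polynomial.map φ ((1 : Matrix ι ι R[X]) i j)
    rw [Matrix.one_apply, Matrix.one_apply]
    split_ifs
    · rw [Polynomial.map_one]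
    · rw [Polynomial.map_zero]
  | succ k ih =>
    have h : ∀ i j, Qi (b.map φ) (c.map φ) k i j = Polynomial.map φ (Qi b c k i j) := by
      intro i j
      rw [ih]
      rfl
    ext1 i j
    rw [Matrix.map_apply, IQIM.entry, IQIM.entry]
    simp only [h, Polynomial.map_sub, Polynomial.map_mul, Polynomial.map_add, Polynomial.map_C,
      Polynomial.map_X, Polynomial.map_one, Polynomial.map_natCast, Polynomial.map_ofNat,
      Polynomial.map_sum, Polynomial.derivative_map, Matrix.map_apply, map_ofNat]

end Pool.Agent.Work.MP_5e5ff1_ag.TG
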