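import Mathlib
import Pool.Agent.Work.MP_5e5ff1_ag.TG.StmtsE

set_option autoImplicit false

open Matrix Filter Topology NumberField
open scoped Polynomial

namespace Pool.Agent.Work.MP_5e5ff1_ag.TG

namespace IRSP

/-- the iterates modulo `P` satisfy the recursion of `PCurvZero` -/
theorem zero_mod (K : Type) [Field K] [NumberField K] (r : ℕ) (β : Fin r → ℤ)
    (c : Matrix (Fin r) (Fin r) (𝓞 K)) (P : Ideal (𝓞 K))
    (h : PCurvZero 8 (Matrix.diagonal (fun i => ((2 * β i : ℤ) : 𝓞 K))) c P) :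
    Qi ((dia (𝓞 K) β).map (Ideal.Quotient.mk P)) (c.map (Ideal.Quotient.mk P))
      (ringChar (𝓞 K ⧸ P)) = 0 := by
  refine h (fun k => Qi ((dia (𝓞 K) β).map (Ideal.Quotient.mk P))
    (c.map (Ideal.Quotient.mk P)) k) rfl ?_
  intro k
  have h8 : (Ideal.Quotient.mk P) ((8 : ℕ) : 𝓞 K) = (8 : 𝓞 K ⧸ P) := by
    rw [map_natCast]; rfl
  have hb : ((dia (𝓞 K) β).map (Ideal.Quotient.mk P)).map
      (fun x => (Polynomial.C x : (𝓞 K ⧸ P)[X])) =
      (Matrix.diagonal (fun i => ((2 * β i : ℤ) : 𝓞 K))).map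
        (fun x => Polynomial.C ((Ideal.Quotient.mk P) x)) := by
    ext1 i j
    rfl
  have hc : (c.map (Ideal.Quotient.mk P)).map
      (fun x => (Polynomial.C x : (𝓞 K ⧸ P)[X])) =
      c.map (fun x => Polynomial.C ((Ideal.Quotient.mk P) x)) := by
    ext1 i j
    rfl
  rw [h8, ← hb, ← hc]
  rfl

/-- `p` in the maximal ideal `P` gives residue characteristic `p` -/
theorem char_eq (K : Type) [Field K] [NumberField K] (p : ℕ) (hp : p.Prime) (P : Ideal (𝓞 K))
    (hP : P.IsMaximal) (hpP : (p : 𝓞 K) ∈ P) : ringChar (𝓞 K ⧸ P) = p := by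
  have h0 : ((p : ℕ) : 𝓞 K ⧸ P) = 0 := by
    have := (Ideal.Quotient.eq_zero_iff_mem (I := P)).mpr hpP
    rwa [map_natCast] at this
  have hd : ringChar (𝓞 K ⧸ P) ∣ p := ringChar.dvd h0
  rcases (Nat.dvd_prime hp).mp hd with h1 | h1
  · exfalso
    have h2 : ((1 : ℕ) : 𝓞 K ⧸ P) = 0 := (ringChar.spec (𝓞 K ⧸ P) 1).mpr (by rw [h1])
    haveI : Nontrivial (𝓞 K ⧸ P) := Ideal.Quotient.nontrivial_iff.mpr hP.ne_top
    exact one_ne_zero (α := 𝓞 K ⧸ P) (by simpa using h2)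
  · exact h1

end IRSP

/-- RSP. The p-curvature after restriction of scalars. -/
theorem pr_RSP (hQIM : StQIM) (hRSQ : StRSQ) (hPID : StPID) : StRSP := by
  intro K _ _ r β c p hp hrad hP
  have key : ∀ (i j : Fin r) (n : ℕ),
      ∃ y : 𝓞 K, (Qi (dia (𝓞 K) β) c p i j).coeff n = (p : 𝓞 K) * y := by
    intro i j n
    refine hPID K p hp hrad _ ?_
    intro P hPm hpP
    have hchar := IRSP.char_eq K p hp P hPm hpP
    have h0 := IRSP.zero_mod K r β c P (hP P hPm hchar)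
    rw [hchar, hQIM (𝓞 K) (𝓞 K ⧸ P) (Ideal.Quotient.mk P) (Fin r)] at h0
    have h1 := congrArg (fun f : (𝓞 K ⧸ P)[X] => f.coeff n) (congrFun (congrFun h0 i) j)
    simp only [Matrix.map_apply, Polynomial.coeff_map, Matrix.zero_apply,
      Polynomial.coeff_zero] at h1
    exact Ideal.Quotient.eq_zero_iff_mem.mp h1
  unfold PZ
  have hd : dia (ZMod p) (fun x : Fin r × Fin (Module.finrank ℤ (𝓞 K)) => β x.1) =
      (dia ℤ (fun x : Fin r × Fin (Module.finrank ℤ (𝓞 K)) => β x.1)).map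
        (Int.castRingHom (ZMod p)) := by
    unfold dia
    rw [Matrix.diagonal_map (map_zero _)]
    congr 1
  rw [hd, hQIM ℤ (ZMod p) (Int.castRingHom (ZMod p))]
  ext1 i j
  ext n
  rw [Matrix.map_apply, Polynomial.coeff_map, hRSQ K r β c p n i j, Matrix.zero_apply,
    Polynomial.coeff_zero]
  obtain ⟨y, hy⟩ := key i.1 j.1 n
  have h2 : (p : 𝓞 K) * y = (p : ℕ) • y := (nsmul_eq_mul p y).symm
  rw [hy, h2, map_nsmul, Matrix.smul_apply, nsmul_eq_mul, map_mul, map_natCast,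
    ZMod.natCast_self, zero_mul]

end Pool.Agent.Work.MP_5e5ff1_ag.TG
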