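import Mathlib
import Pool.Agent.Work.MP_5e5ff1_ag.TG.StmtsE

set_option autoImplicit false

/-!
# Item RSQ of the block TG: the iterates after restriction of scalars
-/

open Matrix Filter Topology NumberField
open scoped Polynomial

namespace Pool.Agent.Work.MP_5e5ff1_ag.TG

namespace IRSQ

section
variable {R S : Type*} [CommRing R] [CommRing S]

/-- an additive map applied to the coefficients of a polynomial -/
noncomputable def Ff (lam : R →+ S) (f : R[X]) : S[X] :=
  ∑ n ∈ f.support, Polynomial.monomial n (lam (f.coeff n))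

theorem coeff_Ff (lam : R →+ S) (f : R[X]) (n : ℕ) : (Ff lam f).coeff n = lam (f.coeff n) := by
  unfold Ff
  rw [Polynomial.finsetSum_coeff]
  simp only [Polynomial.coeff_monomial]
  rw [Finset.sum_ite_eq']
  split_ifs with h
  · rfl
  · rw [Polynomial.notMem_support_iff.1 h, map_zero]

/-- the same as an additive map -/
noncomputable def F (lam : R →+ S) : R[X] →+ S[X] :=
  AddMonoidHom.mk' (Ff lam) (by
    intro f g
    ext n
    rw [Polynomial.coeff_add, coeff_Ff, coeff_Ff, coeff_Ff, Polynomial.coeff_add, map_add])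

theorem coeff_F (lam : R →+ S) (f : R[X]) (n : ℕ) : (F lam f).coeff n = lam (f.coeff n) :=
  coeff_Ff lam f n

theorem F_X (lam : R →+ S) (f : R[X]) : F lam (Polynomial.X * f) = Polynomial.X * F lam f := by
  ext n
  rw [coeff_F]
  cases n with
  | zero => rw [Polynomial.coeff_X_mul_zero, Polynomial.coeff_X_mul_zero, map_zero]
  | succ n => rw [Polynomial.coeff_X_mul, Polynomial.coeff_X_mul, coeff_F]

theorem F_der (lam : R →+ S) (f : R[X]) :
    F lam (Polynomial.derivative f) = Polynomial.derivative (F lam f) := by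
  ext n
  rw [coeff_F, Polynomial.coeff_derivative, Polynomial.coeff_derivative, coeff_F]
  have e : f.coeff (n + 1) * ((n : R) + 1) = (n + 1) • f.coeff (n + 1) := by
    rw [nsmul_eq_mul]; push_cast; ring
  rw [e, map_nsmul, nsmul_eq_mul]
  push_cast
  ring

theorem F_int (lam : R →+ S) (m : ℤ) (f : R[X]) : F lam ((m : R[X]) * f) = (m : S[X]) * F lam f := by
  rw [← zsmul_eq_mul, map_zsmul, zsmul_eq_mul]

end

section
variable (K : Type) [Field K] [NumberField K]

/-- matrix entries of the multiplication -/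
noncomputable def lm (a e : Fin (Module.finrank ℤ (𝓞 K))) : 𝓞 K →+ ℤ where
  toFun x := Algebra.leftMulMatrix (Module.finBasis ℤ (𝓞 K)) x a e
  map_zero' := by rw [map_zero]; rfl
  map_add' x y := by rw [map_add]; rfl

theorem lm_apply (a e : Fin (Module.finrank ℤ (𝓞 K))) (x : 𝓞 K) :
    lm K a e x = Algebra.leftMulMatrix (Module.finBasis ℤ (𝓞 K)) x a e := rfl

theorem F_C (a e : Fin (Module.finrank ℤ (𝓞 K))) (x : 𝓞 K) (f : (𝓞 K)[X]) :
    F (lm K a e) (Polynomial.C x * f) =
      ∑ t, Polynomial.C (Algebra.leftMulMatrix (Module.finBasis ℤ (𝓞 K)) x a t) * F (lm K t e) f := by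
  ext n
  rw [coeff_F, Polynomial.coeff_C_mul, lm_apply, map_mul, Matrix.mul_apply,
    Polynomial.finsetSum_coeff]
  refine Finset.sum_congr rfl fun t _ => ?_
  rw [Polynomial.coeff_C_mul, coeff_F, lm_apply]

theorem F_one (a e : Fin (Module.finrank ℤ (𝓞 K))) :
    F (lm K a e) 1 = if a = e then 1 else 0 := by
  ext n
  rw [coeff_F, lm_apply, Polynomial.coeff_one]
  by_cases hn : n = 0
  · subst hn
    rw [if_pos rfl, map_one, Matrix.one_apply]
    split_ifs
    · rw [Polynomial.coeff_one_zero]
    · rw [Polynomial.coeff_zero]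
  · rw [if_neg hn, map_zero]
    split_ifs
    · rw [Polynomial.coeff_one, if_neg hn]; rfl
    · rw [Polynomial.coeff_zero]; rfl

theorem main (r : ℕ) (β : Fin r → ℤ) (c : Matrix (Fin r) (Fin r) (𝓞 K)) (k : ℕ)
    (i j : Fin r × Fin (Module.finrank ℤ (𝓞 K))) :
    Qi (dia ℤ (fun x : Fin r × Fin (Module.finrank ℤ (𝓞 K)) => β x.1)) (rs K c) k i j =
      F (lm K i.2 j.2) (Qi (dia (𝓞 K) β) c k i.1 j.1) := by
  induction k generalizing i j with
  | zero =>
    obtain ⟨i, a⟩ := i
    obtain ⟨j, e⟩ := j
    simp only [Qi]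
    by_cases h : i = j
    · subst h
      rw [Matrix.one_apply_eq, F_one, Matrix.one_apply]
      simp only [Prod.mk.injEq, true_and]
    · rw [Matrix.one_apply_ne h, map_zero, Matrix.one_apply_ne]
      intro h1
      exact h (Prod.mk.inj h1).1
  | succ k ih =>
    obtain ⟨i, a⟩ := i
    obtain ⟨j, e⟩ := j
    have e1 : ∀ (R : Type) [CommRing R] (ι : Type) [Fintype ι] [DecidableEq ι] (β : ι → ℤ)
        (c : Matrix ι ι R) (i j : ι), Qi (dia R β) c (k + 1) i j =
        ((8 : ℤ) : R[X]) * (Polynomial.X * (Polynomial.X * Polynomial.derivative (Qi (dia R β) c k i j)) -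
          Polynomial.X * Polynomial.derivative (Qi (dia R β) c k i j)) -
        (((8 * k * 2 : ℤ) : R[X]) * (Polynomial.X * Qi (dia R β) c k i j) -
          ((8 * k : ℤ) : R[X]) * Qi (dia R β) c k i j) -
        ((Polynomial.X * (((2 * β i : ℤ) : R[X]) * Qi (dia R β) c k i j) -
          ((2 * β i : ℤ) : R[X]) * Qi (dia R β) c k i j) +
          Polynomial.X * ∑ l, Polynomial.C (c i l) * Qi (dia R β) c k l j) := by
      intro R _ ι _ _ β c i j
      have hd : ∑ l, ((Polynomial.X : R[X]) - 1) * Polynomial.C (dia R β i l) *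
          Qi (dia R β) c k l j = ((Polynomial.X : R[X]) - 1) * ((2 * β i : ℤ) : R[X]) *
          Qi (dia R β) c k i j := by
        rw [Finset.sum_eq_single i]
        · unfold dia
          rw [Matrix.diagonal_apply_eq, map_intCast]
        · intro l _ hl
          unfold dia
          rw [Matrix.diagonal_apply_ne _ (Ne.symm hl), map_zero, mul_zero, zero_mul]
        · intro h; exact absurd (Finset.mem_univ i) h
      have hs : ((((Polynomial.X : R[X]) - 1) • (dia R β).map (fun x => Polynomial.C x) +
          (Polynomial.X : R[X]) • c.map (fun x => Polynomial.C x)) * Qi (dia R β) c k) i j =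
          ((Polynomial.X : R[X]) - 1) * ((2 * β i : ℤ) : R[X]) * Qi (dia R β) c k i j +
          Polynomial.X * ∑ l, Polynomial.C (c i l) * Qi (dia R β) c k l j := by
        rw [Matrix.mul_apply, ← hd, Finset.mul_sum, ← Finset.sum_add_distrib]
        refine Finset.sum_congr rfl fun l _ => ?_
        simp only [Matrix.add_apply, Matrix.smul_apply, Matrix.map_apply, smul_eq_mul]
        ring
      have h8 : Polynomial.C (8 : R) = ((8 : ℤ) : R[X]) := by
        rw [← map_intCast (Polynomial.C : R →+* R[X])]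
        norm_num
      simp only [Qi]
      rw [Matrix.sub_apply, Matrix.sub_apply, hs]
      simp only [Matrix.smul_apply, Matrix.map_apply, smul_eq_mul]
      rw [h8]
      push_cast
      ring
    rw [e1, e1]
    simp only [ih]
    simp only [map_sub, map_add, map_sum, F_X, F_int, F_der]
    have hs : ∑ l : Fin r × Fin (Module.finrank ℤ (𝓞 K)),
        Polynomial.C (rs K c (i, a) l) * F (lm K l.2 e) (Qi (dia (𝓞 K) β) c k l.1 j) =
        ∑ l : Fin r, F (lm K a e) (Polynomial.C (c i l) * Qi (dia (𝓞 K) β) c k l j) := by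
      rw [Fintype.sum_prod_type]
      refine Finset.sum_congr rfl fun l _ => ?_
      rw [F_C]
      rfl
    rw [hs]

end

end IRSQ

theorem pr_RSQ : StRSQ := by
  intro K _ _ r β c k n i j
  rw [IRSQ.main, IRSQ.coeff_F, IRSQ.lm_apply]

end Pool.Agent.Work.MP_5e5ff1_ag.TG
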