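import Mathlib
import Pool.Agent.Work.MP_5e5ff1_ag.TG.StmtsA

set_option autoImplicit false

/-!
# Item SMA of the block TG: the exceptional primes are few
-/

open Matrix Filter Topology
open scoped Polynomial

namespace Pool.Agent.Work.MP_5e5ff1_ag.TG

namespace ISMA

open Classical in
/-- the weights -/
noncomputable def c (S : Set ℕ) (p : ℕ) : ℝ := if p.Prime ∧ p ∈ S then Real.log p / p else 0

lemma c_nonneg (S : Set ℕ) (p : ℕ) : 0 ≤ c S p := by
  unfold c
  split_ifs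
  · exact div_nonneg (Real.log_natCast_nonneg p) (Nat.cast_nonneg p)
  · exact le_refl _

lemma summ {S : Set ℕ} (h : SmallS S) : Summable (c S) := by
  classical
  refine summable_of_sum_le (c := 1 / 50) (c_nonneg S) fun F => ?_
  have e : ∑ p ∈ F, c S p = ∑ p ∈ F.filter (fun p => p.Prime ∧ p ∈ S), Real.log p / p := by
    rw [Finset.sum_filter]
    exact Finset.sum_congr rfl fun p _ => rfl
  rw [e]
  exact h _ fun p hp => (Finset.mem_filter.1 hp).2

end ISMA

theorem pr_SMA : StSMA := by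
  classical
  intro S B hS ε hε
  have hs := ISMA.summ hS
  obtain ⟨s, hs⟩ := summable_iff_vanishing_norm.1 hs (ε / 8) (by positivity)
  set K : ℝ := ∑ p ∈ s, Real.log (p : ℝ) with hK
  obtain ⟨N0, hN0⟩ := exists_nat_ge ((K + ((B : ℝ) + 8) * (ε / 8)) * (2 / ε))
  refine ⟨N0, fun N hN => ?_⟩
  set P : Finset ℕ := (opr (4 * N + B + 8)).filter (· ∈ S) with hP
  have hPp : ∀ p ∈ P, p ≤ 4 * N + B + 8 ∧ p.Prime ∧ p ∈ S := by
    intro p hp
    obtain ⟨h1, h2⟩ := Finset.mem_filter.1 hp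
    obtain ⟨h3, h4⟩ := Finset.mem_filter.1 h1
    exact ⟨(Finset.mem_Icc.1 h3).2, h4, h2⟩
  have h1 : ∑ p ∈ P.filter (· ∈ s), Real.log (p : ℝ) ≤ K := by
    refine Finset.sum_le_sum_of_subset_of_nonneg ?_ fun p _ _ => Real.log_natCast_nonneg p
    intro p hp
    exact (Finset.mem_filter.1 hp).2
  have h2 : ∑ p ∈ P.filter (¬ · ∈ s), Real.log (p : ℝ) ≤
      (4 * (N : ℝ) + B + 8) * (ε / 8) := by
    have h3 := hs (P.filter (¬ · ∈ s)) (by
      rw [Finset.disjoint_left]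
      intro p hp
      exact (Finset.mem_filter.1 hp).2)
    have h4 : ∑ p ∈ P.filter (¬ · ∈ s), ISMA.c S p ≤ ε / 8 :=
      (le_abs_self _).trans h3.le
    calc ∑ p ∈ P.filter (¬ · ∈ s), Real.log (p : ℝ)
        ≤ ∑ p ∈ P.filter (¬ · ∈ s), (4 * (N : ℝ) + B + 8) * ISMA.c S p := by
          refine Finset.sum_le_sum fun p hp => ?_
          obtain ⟨h5, h6, h7⟩ := hPp p (Finset.mem_filter.1 hp).1
          have h8 : ISMA.c S p = Real.log p / p := by unfold ISMA.c; rw [if_pos ⟨h6, h7⟩]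
          have h9 : (0 : ℝ) < p := by exact_mod_cast h6.pos
          have h10 : (p : ℝ) ≤ 4 * (N : ℝ) + B + 8 := by exact_mod_cast h5
          have h11 : 0 ≤ Real.log (p : ℝ) / p :=
            div_nonneg (Real.log_natCast_nonneg p) h9.le
          rw [h8]
          calc Real.log (p : ℝ) = p * (Real.log p / p) := by field_simp
            _ ≤ (4 * (N : ℝ) + B + 8) * (Real.log p / p) := mul_le_mul_of_nonneg_right h10 h11
      _ = (4 * (N : ℝ) + B + 8) * ∑ p ∈ P.filter (¬ · ∈ s), ISMA.c S p := by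
          rw [Finset.mul_sum]
      _ ≤ (4 * (N : ℝ) + B + 8) * (ε / 8) := mul_le_mul_of_nonneg_left h4 (by positivity)
  have h3 : ∑ p ∈ P, Real.log (p : ℝ) =
      ∑ p ∈ P.filter (· ∈ s), Real.log (p : ℝ) + ∑ p ∈ P.filter (¬ · ∈ s), Real.log (p : ℝ) :=
    (Finset.sum_filter_add_sum_filter_not P (· ∈ s) _).symm
  have h4 : (K + ((B : ℝ) + 8) * (ε / 8)) * (2 / ε) ≤ N := hN0.trans (by exact_mod_cast hN)
  have h5 : K + ((B : ℝ) + 8) * (ε / 8) ≤ N * (ε / 2) := by
    have h6 := mul_le_mul_of_nonneg_right h4 (by positivity : (0 : ℝ) ≤ ε / 2)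
    have h7 : (K + ((B : ℝ) + 8) * (ε / 8)) * (2 / ε) * (ε / 2) =
        K + ((B : ℝ) + 8) * (ε / 8) := by field_simp
    rwa [h7] at h6
  rw [h3]
  nlinarith

end Pool.Agent.Work.MP_5e5ff1_ag.TG
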