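import Mathlib
import Pool.Agent.Work.MP_5e5ff1_ag.TG.StmtsC

set_option autoImplicit false

/-!
# MP_5e5ff1_ag, block TG, item STP: the Landen step
-/

open Filter Topology

namespace Pool.Agent.Work.MP_5e5ff1_ag.TG

theorem pr_STP (h1 : StSqr) : StStp := by
  rintro s D hs0 hs1 ⟨F, hFd, hF, hF0, hF'⟩
  have hsq : Real.sqrt s ^ 2 = s := Real.sq_sqrt hs0.le
  have hsqpos : 0 < Real.sqrt s := Real.sqrt_pos.2 hs0
  obtain ⟨g, hgd, hg2, hg0⟩ := h1 F ((Real.sqrt s : ℝ) : ℂ) hFd (fun z hz => (hF z hz).1) (by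
    rw [hF0]
    exact_mod_cast hsq)
  have h0 : (0 : ℂ) ∈ Metric.ball (0 : ℂ) 1 := Metric.mem_ball_self one_pos
  have hne : ∀ z ∈ Metric.ball (0 : ℂ) 1, (1 : ℂ) + g z ^ 2 ≠ 0 := by
    intro z hz h
    apply (hF z hz).2.2
    rw [← hg2 z hz]
    linear_combination h
  have hsC : ((Real.sqrt s : ℝ) : ℂ) ^ 2 = (s : ℂ) := by exact_mod_cast hsq
  refine ⟨fun z => 2 * g z / (1 + g z ^ 2), ?_, ?_, ?_, ?_⟩
  · exact (hgd.const_mul 2).div ((hgd.pow 2).const_add 1) hne
  · intro z hz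
    have hz1 := hne z hz
    obtain ⟨a0, a1, a2⟩ := hF z hz
    have hgz : g z ≠ 0 := by
      intro h
      apply a0
      rw [← hg2 z hz, h]
      norm_num
    have hm : (1 : ℂ) - g z ≠ 0 := by
      intro h
      apply a1
      rw [← hg2 z hz]
      linear_combination (-(1 + g z)) * h
    have hp : (1 : ℂ) + g z ≠ 0 := by
      intro h
      apply a1
      rw [← hg2 z hz]
      linear_combination (g z - 1) * h
    refine ⟨div_ne_zero (mul_ne_zero two_ne_zero hgz) hz1, ?_, ?_⟩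
    · intro h
      rw [div_eq_iff hz1] at h
      have h3 : ((1 : ℂ) - g z) ^ 2 = 0 := by linear_combination -h
      exact hm (pow_eq_zero_iff two_ne_zero |>.1 h3)
    · intro h
      rw [div_eq_iff hz1] at h
      have h3 : ((1 : ℂ) + g z) ^ 2 = 0 := by linear_combination h
      exact hp (pow_eq_zero_iff two_ne_zero |>.1 h3)
  · beta_reduce
    rw [hg0, hsC]
    push_cast
    ring
  · have hnhds : Metric.ball (0 : ℂ) 1 ∈ 𝓝 (0 : ℂ) := Metric.isOpen_ball.mem_nhds h0
    have hgd0 : HasDerivAt g (deriv g 0) 0 := (hgd.differentiableAt hnhds).hasDerivAt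
    have hg2d : HasDerivAt (fun z => g z ^ 2) (2 * g 0 * deriv g 0) 0 := by
      have h7 : HasDerivAt (fun z => g z * g z) (deriv g 0 * g 0 + g 0 * deriv g 0) 0 :=
        hgd0.mul hgd0
      have h8 : (fun z => g z ^ 2) = fun z => g z * g z := by
        funext z
        ring
      have h9 : 2 * g 0 * deriv g 0 = deriv g 0 * g 0 + g 0 * deriv g 0 := by ring
      rw [h8, h9]
      exact h7
    have hFev : F =ᶠ[𝓝 0] fun z => g z ^ 2 := by
      filter_upwards [hnhds] with z hz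
      exact (hg2 z hz).symm
    have hFder : deriv F 0 = 2 * g 0 * deriv g 0 := by
      rw [hFev.deriv_eq, hg2d.deriv]
    have hGder : HasDerivAt (fun z => 2 * g z / (1 + g z ^ 2))
        ((2 * deriv g 0 * (1 + g 0 ^ 2) - 2 * g 0 * (2 * g 0 * deriv g 0)) / (1 + g 0 ^ 2) ^ 2) 0 :=
      (hgd0.const_mul 2).div (hg2d.const_add 1) (hne 0 h0)
    rw [hGder.deriv]
    have e1 : (2 * deriv g 0 * (1 + g 0 ^ 2) - 2 * g 0 * (2 * g 0 * deriv g 0)) /
        (1 + g 0 ^ 2) ^ 2 = deriv g 0 * ((2 * (1 - s) / (1 + s) ^ 2 : ℝ) : ℂ) := by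
      rw [hg0, hsC]
      have h4 : ((Real.sqrt s : ℝ) : ℂ) * ((Real.sqrt s : ℝ) : ℂ) = (s : ℂ) := by
        rw [← pow_two, hsC]
      push_cast
      rw [← mul_div_assoc]
      congr 1
      linear_combination (-4 * deriv g 0) * h4
    rw [e1, norm_mul, Complex.norm_real, Real.norm_of_nonneg (by
      have : 0 < 1 - s := by linarith
      positivity)]
    rw [hFder, norm_mul, norm_mul, hg0, Complex.norm_real, Real.norm_of_nonneg hsqpos.le] at hF'
    have hn2 : ‖(2 : ℂ)‖ = 2 := by norm_num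
    rw [hn2] at hF'
    have h5 : 2 * ‖deriv g 0‖ = D * Real.sqrt s := by
      have h6 : Real.sqrt s * (2 * ‖deriv g 0‖) = Real.sqrt s * (D * Real.sqrt s) := by
        calc Real.sqrt s * (2 * ‖deriv g 0‖) = 2 * Real.sqrt s * ‖deriv g 0‖ := by ring
          _ = D * s := hF'
          _ = D * (Real.sqrt s ^ 2) := by rw [hsq]
          _ = Real.sqrt s * (D * Real.sqrt s) := by ring
      exact mul_left_cancel₀ hsqpos.ne' h6
    have hs1' : (1 + s) ≠ 0 := by linarith
    calc ‖deriv g 0‖ * (2 * (1 - s) / (1 + s) ^ 2)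
        = (2 * ‖deriv g 0‖) * ((1 - s) / (1 + s) ^ 2) := by ring
      _ = D * Real.sqrt s * ((1 - s) / (1 + s) ^ 2) := by rw [h5]
      _ = D * (1 - s) / (2 * (1 + s)) * (2 * Real.sqrt s / (1 + s)) := by
        field_simp

end Pool.Agent.Work.MP_5e5ff1_ag.TG
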