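import Mathlib
import Pool.Agent.Work.MP_5e5ff1_ag.TG.StmtsD

set_option autoImplicit false

/-!
# MP_5e5ff1_ag, block TG, item THN

The product `th w` vanishes on no nonempty open subset of the disc, and on no punctured
neighbourhood of 0.  Author helper78.
-/

open Matrix Filter Topology
open scoped Polynomial

namespace Pool.Agent.Work.MP_5e5ff1_ag.TG

namespace ITHN

theorem near_zero {th w : ℂ → ℂ} (hM : IsMap th w) :
    ∀ᶠ z in 𝓝[≠] (0 : ℂ), th z ≠ 0 ∧ w z ≠ 0 := by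
  have hb : Metric.ball (0 : ℂ) 1 ∈ 𝓝 (0 : ℂ) := Metric.ball_mem_nhds _ one_pos
  have hd : deriv th 0 ≠ 0 := by
    intro h0
    have h1 := hM.der
    rw [h0, norm_zero] at h1
    norm_num at h1
  have h1 : ∀ᶠ z in 𝓝[≠] (0 : ℂ), th z ≠ 0 :=
    ((hM.dth.differentiableAt hb).hasDerivAt).eventually_ne hd
  have hw0 : w 0 ≠ 0 := by
    intro h0
    have h2 := hM.rel 0 (Metric.mem_ball_self one_pos)
    rw [hM.zero, h0] at h2
    norm_num at h2
  have h2 : ∀ᶠ z in 𝓝 (0 : ℂ), w z ≠ 0 :=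
    (hM.dw.differentiableAt hb).continuousAt.eventually_ne hw0
  exact h1.and (h2.filter_mono nhdsWithin_le_nhds)

theorem exists_ne {th w : ℂ → ℂ} (hM : IsMap th w) (Ω : Set ℂ) (hO : IsOpen Ω)
    (hsub : Ω ⊆ Metric.ball 0 1) (hne : Ω.Nonempty) : ∃ z ∈ Ω, th z ≠ 0 ∧ w z ≠ 0 := by
  by_contra hcon
  obtain ⟨z0, hz0⟩ := hne
  have han : AnalyticOnNhd ℂ (fun z => th z * w z) (Metric.ball (0 : ℂ) 1) :=
    (hM.dth.mul hM.dw).analyticOnNhd Metric.isOpen_ball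
  have hev : (fun z => th z * w z) =ᶠ[𝓝 z0] 0 := by
    filter_upwards [hO.mem_nhds hz0] with z hz
    by_contra hz1
    exact hcon ⟨z, hz, left_ne_zero_of_mul hz1, right_ne_zero_of_mul hz1⟩
  have hall := han.eqOn_zero_of_preconnected_of_eventuallyEq_zero
    (convex_ball (0 : ℂ) 1).isPreconnected (hsub hz0) hev
  have hb : ∀ᶠ z in 𝓝[≠] (0 : ℂ), z ∈ Metric.ball (0 : ℂ) 1 :=
    Filter.Eventually.filter_mono nhdsWithin_le_nhds (Metric.ball_mem_nhds _ one_pos)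
  obtain ⟨z, hz, hzb⟩ := ((near_zero hM).and hb).exists
  exact mul_ne_zero hz.1 hz.2 (hall hzb)

end ITHN

theorem pr_THN : StTHN := fun _ _ hM =>
  ⟨ITHN.near_zero hM, fun Ω hO hsub hne => ITHN.exists_ne hM Ω hO hsub hne⟩

end Pool.Agent.Work.MP_5e5ff1_ag.TG
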