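import Mathlib
import Pool.Agent.Work.MP_5e5ff1_ag.TG.StmtsA

set_option autoImplicit false

/-!
# MP_5e5ff1_ag, block TG, item TWO: the prime 2
-/

open Matrix Filter Topology
open scoped Polynomial Nat

namespace Pool.Agent.Work.MP_5e5ff1_ag.TG

namespace ITWO

/-- the majorant -/
noncomputable def g (n : ℕ) : ℚ := 8 ^ n * (padicNorm 2 ((n ! : ℕ) : ℚ))⁻¹

lemma norm_fac_pos (n : ℕ) : 0 < padicNorm 2 ((n ! : ℕ) : ℚ) := by
  have h : ((n ! : ℕ) : ℚ) ≠ 0 := by exact_mod_cast (Nat.factorial_pos n).ne'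
  exact lt_of_le_of_ne (padicNorm.nonneg _) (Ne.symm (padicNorm.nonzero h))

lemma norm_nat_pos (n : ℕ) : 0 < padicNorm 2 ((n + 1 : ℕ) : ℚ) := by
  have h : ((n + 1 : ℕ) : ℚ) ≠ 0 := by exact_mod_cast Nat.succ_ne_zero n
  exact lt_of_le_of_ne (padicNorm.nonneg _) (Ne.symm (padicNorm.nonzero h))

lemma norm_nat_le (n : ℕ) : padicNorm 2 ((n + 1 : ℕ) : ℚ) ≤ 1 := by
  have := padicNorm.of_int (p := 2) ((n + 1 : ℕ) : ℤ)
  simpa using this

lemma g_pos (n : ℕ) : 0 < g n := by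
  unfold g
  have := norm_fac_pos n
  positivity

lemma g_succ (n : ℕ) : g (n + 1) * padicNorm 2 ((n + 1 : ℕ) : ℚ) = 8 * g n := by
  unfold g
  have h1 := norm_fac_pos n
  have h2 := norm_nat_pos n
  have e : padicNorm 2 (((n + 1) ! : ℕ) : ℚ) =
      padicNorm 2 ((n + 1 : ℕ) : ℚ) * padicNorm 2 ((n ! : ℕ) : ℚ) := by
    rw [Nat.factorial_succ, Nat.cast_mul, padicNorm.mul]
  rw [e]
  field_simp
  ring

lemma g_zero : g 0 = 1 := by
  simp [g]

lemma g_mono : Monotone g := by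
  refine monotone_nat_of_le_succ fun n => ?_
  have h0 := g_succ n
  have h1 := g_pos n
  have h2 := g_pos (n + 1)
  have h3 := norm_nat_le n
  nlinarith

lemma g_le (n : ℕ) : g n ≤ 2 ^ (4 * n) := by
  have hv : padicValNat 2 (n !) ≤ n := by
    have := sub_one_mul_padicValNat_factorial (p := 2) n
    simp only [Nat.add_one_sub_one, one_mul] at this
    omega
  have h : ((n ! : ℕ) : ℚ) ≠ 0 := by exact_mod_cast (Nat.factorial_pos n).ne'
  unfold g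
  rw [padicNorm.eq_zpow_of_nonzero h, padicValRat.of_nat, ← _root_.zpow_neg, neg_neg, zpow_natCast]
  have e : (2 : ℚ) ^ (4 * n) = 8 ^ n * 2 ^ n := by
    rw [← mul_pow, pow_mul]
    norm_num
  rw [e]
  have h2 : ((2 : ℕ) : ℚ) ^ padicValNat 2 (n !) ≤ 2 ^ n := by
    push_cast
    exact pow_le_pow_right₀ (by norm_num) hv
  exact mul_le_mul_of_nonneg_left h2 (by positivity)

lemma step (n : ℕ) (δ : ℤ) (hδ : (4 : ℤ) ∣ δ → δ = 0) :
    padicNorm 2 ((n + 1 : ℕ) : ℚ) ≤ 8 * padicNorm 2 (8 * ((n : ℚ) + 1) + 2 * (δ : ℚ)) := by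
  by_cases h : δ = 0
  · subst h
    have e : (8 * ((n : ℚ) + 1) + 2 * ((0 : ℤ) : ℚ)) = ((2 : ℕ) : ℚ) * (((2 : ℕ) : ℚ) *
        (((2 : ℕ) : ℚ) * ((n + 1 : ℕ) : ℚ))) := by
      push_cast
      ring
    have e2 : padicNorm 2 ((2 : ℕ) : ℚ) = 1 / 2 := by
      rw [padicNorm.padicNorm_p_of_prime]
      norm_num
    rw [e, padicNorm.mul, padicNorm.mul, padicNorm.mul, e2]
    linarith
  · have h4 : ¬ (4 : ℤ) ∣ δ := fun hd => h (hδ hd)
    have h8 : ¬ ((2 ^ 3 : ℕ) : ℤ) ∣ (8 * ((n : ℤ) + 1) + 2 * δ) := by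
      intro hd
      apply h4
      omega
    have h9 : ¬ padicNorm 2 ((8 * ((n : ℤ) + 1) + 2 * δ : ℤ) : ℚ) ≤
        ((2 : ℕ) : ℚ) ^ (-(3 : ℕ) : ℤ) := by
      intro hh
      exact h8 (padicNorm.dvd_iff_norm_le.mpr hh)
    push_cast at h9
    have h10 : (2 : ℚ) ^ (-3 : ℤ) = 1 / 8 := by norm_num
    rw [h10] at h9
    have h11 := norm_nat_le n
    have h12 := not_le.mp h9
    linarith

end ITWO

/-- **item TWO**: the prime 2 -/
theorem pr_TWO (hU : StUREC) : StTWO := by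
  intro ι _ _ β C U hIs hβ n i j
  have : Fact (Nat.Prime 2) := ⟨Nat.prime_two⟩
  refine le_trans (hU 2 ι β C U hIs j ITWO.g ITWO.g_zero.ge ITWO.g_mono ?_ n i) (ITWO.g_le n)
  intro n i
  have h1 := ITWO.step n (β j - β i) (fun hd => by
    have := hβ j i hd
    omega)
  have h2 := ITWO.g_succ n
  have h3 := ITWO.g_pos (n + 1)
  have h4 := ITWO.g_pos n
  push_cast at h1 ⊢
  push_cast at h2
  have h5 := mul_le_mul_of_nonneg_left h1 h3.le
  linarith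

end Pool.Agent.Work.MP_5e5ff1_ag.TG
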