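import Mathlib
import Pool.Agent.Work.MP_5e5ff1_ag.TG.StmtsD

set_option autoImplicit false

/-!
# MP_5e5ff1_ag, block TG, item UAN: the analytic solution near `t = 0`
-/

open Matrix Filter Topology
open scoped Polynomial

namespace Pool.Agent.Work.MP_5e5ff1_ag.TG

namespace IUAN

theorem bnd1 (a : ℕ → ℂ) (B : ℝ) (hB : 1 ≤ B) (ha : ∀ n, ‖a n‖ ≤ B ^ (n + 1)) (s : ℂ)
    (hs : ‖s‖ < 1 / (2 * B)) (n : ℕ) : ‖a n * s ^ n‖ ≤ B * (1 / 2) ^ n := by
  have hB0 : 0 < B := by linarith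
  rw [norm_mul, norm_pow]
  have h1 : ‖s‖ ^ n ≤ (1 / (2 * B)) ^ n := pow_le_pow_left₀ (norm_nonneg _) hs.le n
  have h2 : ‖a n‖ * ‖s‖ ^ n ≤ B ^ (n + 1) * (1 / (2 * B)) ^ n :=
    mul_le_mul (ha n) h1 (by positivity) (by positivity)
  refine h2.trans (le_of_eq ?_)
  have h3 : B * (1 / (2 * B)) = 1 / 2 := by field_simp
  calc B ^ (n + 1) * (1 / (2 * B)) ^ n = B * (B * (1 / (2 * B))) ^ n := by
        rw [mul_pow]; ring
    _ = B * (1 / 2) ^ n := by rw [h3]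

theorem bnd2 (a : ℕ → ℂ) (B : ℝ) (hB : 1 ≤ B) (ha : ∀ n, ‖a n‖ ≤ B ^ (n + 1)) (s : ℂ)
    (hs : ‖s‖ < 1 / (2 * B)) (n : ℕ) :
    ‖a n * ((n : ℂ) * s ^ (n - 1))‖ ≤ 2 * B ^ 2 * ((n : ℝ) ^ 1 * (1 / 2) ^ n) := by
  have hB0 : 0 < B := by linarith
  rcases n with _ | n
  · simp
  rw [norm_mul, norm_mul, norm_pow, Nat.add_sub_cancel]
  have hn : ‖((n + 1 : ℕ) : ℂ)‖ = ((n + 1 : ℕ) : ℝ) := Complex.norm_natCast _
  rw [hn]
  have h1 : ‖s‖ ^ n ≤ (1 / (2 * B)) ^ n := pow_le_pow_left₀ (norm_nonneg _) hs.le n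
  have h1' : ((n + 1 : ℕ) : ℝ) * ‖s‖ ^ n ≤ ((n + 1 : ℕ) : ℝ) * (1 / (2 * B)) ^ n :=
    mul_le_mul_of_nonneg_left h1 (by positivity)
  have h2 : ‖a (n + 1)‖ * (((n + 1 : ℕ) : ℝ) * ‖s‖ ^ n) ≤
      B ^ (n + 1 + 1) * (((n + 1 : ℕ) : ℝ) * (1 / (2 * B)) ^ n) :=
    mul_le_mul (ha _) h1' (by positivity) (by positivity)
  refine h2.trans (le_of_eq ?_)
  have h3 : B * (1 / (2 * B)) = 1 / 2 := by field_simp
  calc B ^ (n + 1 + 1) * (((n + 1 : ℕ) : ℝ) * (1 / (2 * B)) ^ n)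
      = B ^ 2 * ((n + 1 : ℕ) : ℝ) * (B * (1 / (2 * B))) ^ n := by
        rw [mul_pow]; ring
    _ = B ^ 2 * ((n + 1 : ℕ) : ℝ) * (1 / 2) ^ n := by rw [h3]
    _ = 2 * B ^ 2 * (((n + 1 : ℕ) : ℝ) ^ 1 * (1 / 2) ^ (n + 1)) := by ring

theorem sm1 (B : ℝ) : Summable fun n : ℕ => B * (1 / 2 : ℝ) ^ n :=
  (summable_geometric_of_lt_one (by norm_num) (by norm_num)).mul_left B

theorem sm2 (B : ℝ) : Summable fun n : ℕ => 2 * B ^ 2 * ((n : ℝ) ^ 1 * (1 / 2 : ℝ) ^ n) := by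
  have h : ‖(1 / 2 : ℝ)‖ < 1 := by
    rw [Real.norm_eq_abs, abs_of_pos (by norm_num)]; norm_num
  exact (summable_pow_mul_geometric_of_norm_lt_one (R := ℝ) 1 h).mul_left _

theorem hs (a : ℕ → ℂ) (B : ℝ) (hB : 1 ≤ B) (ha : ∀ n, ‖a n‖ ≤ B ^ (n + 1)) (s : ℂ)
    (hs : ‖s‖ < 1 / (2 * B)) : HasSum (fun n : ℕ => a n * s ^ n) (∑' n : ℕ, a n * s ^ n) :=
  (Summable.of_norm_bounded (sm1 B) (bnd1 a B hB ha s hs)).hasSum

theorem hd (a : ℕ → ℂ) (B : ℝ) (hB : 1 ≤ B) (ha : ∀ n, ‖a n‖ ≤ B ^ (n + 1)) (t : ℂ)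
    (ht : ‖t‖ < 1 / (2 * B)) :
    HasDerivAt (fun s : ℂ => ∑' n : ℕ, a n * s ^ n) (∑' n : ℕ, a n * ((n : ℂ) * t ^ (n - 1))) t := by
  have hρ : 0 < 1 / (2 * B) := by positivity
  refine hasDerivAt_tsum_of_isPreconnected (u := fun n : ℕ => 2 * B ^ 2 *
      ((n : ℝ) ^ 1 * (1 / 2 : ℝ) ^ n)) (g := fun (n : ℕ) (s : ℂ) => a n * s ^ n)
      (g' := fun (n : ℕ) (s : ℂ) => a n * ((n : ℂ) * s ^ (n - 1)))
      (t := Metric.ball (0 : ℂ) (1 / (2 * B))) (y₀ := 0) (sm2 B)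
      Metric.isOpen_ball (convex_ball _ _).isPreconnected ?_
      (fun n s hs => bnd2 a B hB ha s (mem_ball_zero_iff.1 hs) n)
      (Metric.mem_ball_self hρ) (hs a B hB ha 0 (by simpa using hρ)).summable
      (mem_ball_zero_iff.2 ht)
  intro n s _
  exact (hasDerivAt_pow n s).const_mul (a n)

theorem hds (a : ℕ → ℂ) (B : ℝ) (hB : 1 ≤ B) (ha : ∀ n, ‖a n‖ ≤ B ^ (n + 1)) (t : ℂ)
    (ht : ‖t‖ < 1 / (2 * B)) :
    HasSum (fun n : ℕ => (n : ℂ) * (a n * t ^ n))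
      (t * ∑' n : ℕ, a n * ((n : ℂ) * t ^ (n - 1))) := by
  have hS : Summable fun n : ℕ => a n * ((n : ℂ) * t ^ (n - 1)) :=
    Summable.of_norm_bounded (sm2 B) (bnd2 a B hB ha t ht)
  have h := hS.hasSum.mul_left t
  have he : (fun n : ℕ => t * (a n * ((n : ℂ) * t ^ (n - 1)))) =
      fun n : ℕ => (n : ℂ) * (a n * t ^ n) := by
    funext n
    rcases n with _ | n
    · simp
    · rw [Nat.add_sub_cancel]; ring
  rwa [he] at h

/-- `(1 - t) ∑ s_n t^n = t ∑ c_n t^n` for the partial sums `s_n = ∑_{k<n} c_k` -/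
theorem part (c : ℕ → ℂ) (t F G : ℂ)
    (hF : HasSum (fun n : ℕ => (∑ k ∈ Finset.range n, c k) * t ^ n) F)
    (hG : HasSum (fun n : ℕ => c n * t ^ n) G) : (1 - t) * F = t * G := by
  have h1 : HasSum (fun n : ℕ => (∑ k ∈ Finset.range (n + 1), c k) * t ^ (n + 1)) F := by
    have := (hasSum_nat_add_iff' (f := fun n : ℕ => (∑ k ∈ Finset.range n, c k) * t ^ n) 1).2 hF
    simpa using this
  have h2 : HasSum (fun n : ℕ => t * ((∑ k ∈ Finset.range n, c k) * t ^ n) + t * (c n * t ^ n))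
      (t * F + t * G) := (hF.mul_left t).add (hG.mul_left t)
  have he : (fun n : ℕ => t * ((∑ k ∈ Finset.range n, c k) * t ^ n) + t * (c n * t ^ n)) =
      fun n : ℕ => (∑ k ∈ Finset.range (n + 1), c k) * t ^ (n + 1) := by
    funext n
    rw [Finset.sum_range_succ]; ring
  rw [he] at h2
  have h3 := h1.unique h2
  linear_combination h3

end IUAN

theorem pr_UAN : StUAN := by
  intro ι _ _ β C U hU hA
  obtain ⟨A, hA⟩ := hA
  set B : ℝ := max A 1 with hBdef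
  have hB : 1 ≤ B := le_max_right _ _
  have hB0 : 0 < B := by linarith
  set a : ι → ι → ℕ → ℂ := fun i j n => ((U n i j : ℚ) : ℂ) with ha
  have hbd : ∀ i j n, ‖a i j n‖ ≤ B ^ (n + 1) := by
    intro i j n
    have h1 : ‖a i j n‖ = |((U n i j : ℚ) : ℝ)| := by
      rw [ha]
      simp only
      rw [← Complex.ofReal_ratCast, Complex.norm_real, Real.norm_eq_abs]
    rw [h1]
    have hA0 : 0 ≤ A := by
      have := hA 0 i j
      have h0 := abs_nonneg ((U 0 i j : ℚ) : ℝ)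
      simp only [zero_add, pow_one] at this
      linarith
    exact (hA n i j).trans (pow_le_pow_left₀ hA0 (le_max_left _ _) _)
  set ρ0 : ℝ := 1 / (2 * B) with hρ0
  have hρ0p : 0 < ρ0 := by positivity
  set u : ℂ → Matrix ι ι ℂ := fun t => Matrix.of fun i j => ∑' n : ℕ, a i j n * t ^ n with hu
  have hue : ∀ t i j, u t i j = ∑' n : ℕ, a i j n * t ^ n := fun t i j => rfl
  have hHS : ∀ t, ‖t‖ < ρ0 → ∀ i j, HasSum (fun n : ℕ => a i j n * t ^ n) (u t i j) :=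
    fun t ht i j => IUAN.hs (a i j) B hB (hbd i j) t ht
  have hD : ∀ t, ‖t‖ < ρ0 → ∀ i j, HasDerivAt (fun s => u s i j)
      (∑' n : ℕ, a i j n * ((n : ℂ) * t ^ (n - 1))) t :=
    fun t ht i j => IUAN.hd (a i j) B hB (hbd i j) t ht
  have hu0 : u 0 = 1 := by
    ext i j
    rw [hue, tsum_eq_single 0 (by intro n hn; simp [hn])]
    rw [ha]
    simp only [pow_zero, mul_one]
    rw [hU.zero]
    rw [Matrix.one_apply, Matrix.one_apply]
    split_ifs <;> simp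
  have hcont : ContinuousAt (fun t => (u t).det) 0 := by
    have h1 : ContinuousAt u 0 := by
      refine continuousAt_pi.2 fun i => continuousAt_pi.2 fun j => ?_
      exact (hD 0 (by simpa using hρ0p) i j).continuousAt
    exact (Continuous.matrix_det continuous_id).continuousAt.comp h1
  have hne : ∀ᶠ t in 𝓝 (0 : ℂ), (u t).det ≠ 0 := by
    refine hcont.eventually_ne ?_
    rw [hu0, Matrix.det_one]
    exact one_ne_zero
  obtain ⟨ε, hε, hball⟩ := Metric.eventually_nhds_iff_ball.1 hne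
  refine ⟨min ρ0 ε, u, lt_min hρ0p hε, ?_, ?_, ?_, ?_⟩
  · intro t ht i j
    rw [mem_ball_zero_iff] at ht
    exact hHS t (lt_of_lt_of_le ht (min_le_left _ _)) i j
  · intro i j t ht
    rw [mem_ball_zero_iff] at ht
    exact (hD t (lt_of_lt_of_le ht (min_le_left _ _)) i j).differentiableAt.differentiableWithinAt
  · intro t ht
    rw [mem_ball_zero_iff] at ht
    exact hball t (by rw [mem_ball_zero_iff]; exact lt_of_lt_of_le ht (min_le_right _ _))
  · intro t ht i j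
    rw [mem_ball_zero_iff] at ht
    have ht0 : ‖t‖ < ρ0 := lt_of_lt_of_le ht (min_le_left _ _)
    have hder : deriv (fun s => u s i j) t = ∑' n : ℕ, a i j n * ((n : ℂ) * t ^ (n - 1)) :=
      (hD t ht0 i j).deriv
    have h1 := IUAN.hds (a i j) B hB (hbd i j) t ht0
    rw [← hder] at h1
    have h0 := hHS t ht0 i j
    set c : ℕ → ℂ := fun n => ∑ l, (C i l : ℂ) * a l j n with hc
    have hG : HasSum (fun n : ℕ => c n * t ^ n) (∑ l, (C i l : ℂ) * u t l j) := by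
      have h2 : HasSum (fun n : ℕ => ∑ l, (C i l : ℂ) * (a l j n * t ^ n))
          (∑ l, (C i l : ℂ) * u t l j) :=
        hasSum_sum fun l _ => (hHS t ht0 l j).mul_left _
      have he : (fun n : ℕ => c n * t ^ n) = fun n : ℕ => ∑ l, (C i l : ℂ) * (a l j n * t ^ n) := by
        funext n
        rw [hc]
        simp only
        rw [Finset.sum_mul]
        exact Finset.sum_congr rfl fun l _ => by ring
      rwa [he]
    have hE : ∀ n : ℕ, (8 * (n : ℂ) + 2 * ((β j : ℂ) - (β i : ℂ))) * a i j n =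
        -∑ k ∈ Finset.range n, c k := by
      intro n
      have h3 := hU.eqn n i j
      have h4 := congrArg (fun q : ℚ => (q : ℂ)) h3
      push_cast at h4
      rw [hc, ha]
      simp only
      have h5 : ∀ k, (((qm C * U k) i j : ℚ) : ℂ) = ∑ l, (C i l : ℂ) * ((U k l j : ℚ) : ℂ) := by
        intro k
        rw [Matrix.mul_apply]
        push_cast
        refine Finset.sum_congr rfl fun l _ => ?_
        simp [qm]
      simp only [h5] at h4
      linear_combination h4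
    have hF : HasSum (fun n : ℕ => (∑ k ∈ Finset.range n, c k) * t ^ n)
        (-(8 * (t * deriv (fun s => u s i j) t) + 2 * ((β j : ℂ) - (β i : ℂ)) * u t i j)) := by
      have h2 := ((h1.mul_left 8).add (h0.mul_left (2 * ((β j : ℂ) - (β i : ℂ))))).neg
      have he : (fun n : ℕ => (∑ k ∈ Finset.range n, c k) * t ^ n) =
          fun n : ℕ => -(8 * ((n : ℂ) * (a i j n * t ^ n)) +
            2 * ((β j : ℂ) - (β i : ℂ)) * (a i j n * t ^ n)) := by
        funext n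
        linear_combination (t ^ n) * hE n
      rwa [he]
    have hfin := IUAN.part c t _ _ hF hG
    linear_combination (-1 : ℂ) * hfin

end Pool.Agent.Work.MP_5e5ff1_ag.TG
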