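import Mathlib
import Pool.Agent.Work.MP_5e5ff1_ag.TG.StmtsE

/-!
# MP_5e5ff1_ag, block TG, item UPS
-/

namespace Pool.Agent.Work.MP_5e5ff1_ag.TG

theorem pr_UPS : StUPS := by
  intro F _ ι _ _ β C U hU i j
  set c : F := 2 * ((β j : F) - (β i : F)) with hc
  set P : PowerSeries F :=
    8 * PowerSeries.X * PowerSeries.derivative F (PowerSeries.mk fun n => U n i j) +
      PowerSeries.C c * PowerSeries.mk fun n => U n i j with hP
  have h8 : (8 : PowerSeries F) = PowerSeries.C (8 : F) := by
    rw [map_ofNat]
  have hcoef : ∀ n : ℕ, PowerSeries.coeff n P = -∑ k ∈ Finset.range n, (C * U k) i j := by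
    intro n
    have h1 : PowerSeries.coeff n P = (8 * (n : F) + c) * U n i j := by
      rw [hP, map_add, PowerSeries.coeff_C_mul, PowerSeries.coeff_mk, h8, mul_assoc,
        PowerSeries.coeff_C_mul]
      cases n with
      | zero =>
        rw [PowerSeries.coeff_zero_X_mul]
        push_cast
        ring
      | succ n =>
        rw [PowerSeries.coeff_succ_X_mul, PowerSeries.coeff_derivative, PowerSeries.coeff_mk]
        push_cast
        ring
    have h2 := hU.eqn n i j
    rw [h1, hc]
    linear_combination h2
  ext n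
  rw [sub_mul, one_mul, map_sub]
  cases n with
  | zero =>
    rw [PowerSeries.coeff_zero_X_mul, PowerSeries.coeff_zero_X_mul, hcoef]
    simp
  | succ n =>
    rw [PowerSeries.coeff_succ_X_mul, PowerSeries.coeff_succ_X_mul, hcoef, hcoef,
      Finset.sum_range_succ, map_sum]
    simp only [PowerSeries.coeff_C_mul, PowerSeries.coeff_mk, Matrix.mul_apply]
    ring

end Pool.Agent.Work.MP_5e5ff1_ag.TG
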