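import Mathlib
import Pool.Agent.Work.MP_5e5ff1_ag.TG.StmtsA

set_option autoImplicit false

/-!
# MP_5e5ff1_ag, block TG, item WIL
-/

open Matrix Filter Topology
open scoped Polynomial

namespace Pool.Agent.Work.MP_5e5ff1_ag.TG

namespace IWIL

theorem prod_univ (p : ℕ) [Fact p.Prime] :
    ∏ c : ZMod p, ((Polynomial.X : (ZMod p)[X]) - Polynomial.C c) =
      Polynomial.X ^ p - Polynomial.X := by
  have hp1 : 1 < p := (Fact.out : p.Prime).one_lt
  have hroots : (Polynomial.X ^ p - Polynomial.X : (ZMod p)[X]).roots = Finset.univ.val := by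
    have h := FiniteField.roots_X_pow_card_sub_X (ZMod p)
    rwa [ZMod.card p] at h
  have hmonic : (Polynomial.X ^ p - Polynomial.X : (ZMod p)[X]).Monic := by
    refine Polynomial.monic_X_pow_sub ?_
    rw [Polynomial.degree_X]
    exact_mod_cast hp1
  have hcard : Multiset.card (Polynomial.X ^ p - Polynomial.X : (ZMod p)[X]).roots =
      (Polynomial.X ^ p - Polynomial.X : (ZMod p)[X]).natDegree := by
    rw [hroots, FiniteField.X_pow_card_sub_X_natDegree_eq (ZMod p) hp1]
    simp [ZMod.card]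
  have h := Polynomial.prod_multiset_X_sub_C_of_monic_of_roots_card_eq hmonic hcard
  rw [hroots] at h
  exact h

theorem eight_ne (p : ℕ) [Fact p.Prime] (hp : p ≠ 2) : (8 : ZMod p) ≠ 0 := by
  have hpp : p.Prime := Fact.out
  intro h
  have h1 : ((8 : ℕ) : ZMod p) = 0 := by exact_mod_cast h
  rw [ZMod.natCast_eq_zero_iff] at h1
  have h2 : p ∣ 2 ^ 3 := by simpa using h1
  exact hp ((Nat.prime_dvd_prime_iff_eq hpp Nat.prime_two).mp (hpp.dvd_of_dvd_pow h2))

end IWIL

theorem pr_WIL : StWIL := by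
  intro p _ hp a
  rw [← IWIL.prod_univ p]
  have h8 := IWIL.eight_ne p hp
  refine Finset.prod_bij (fun k _ => 8 * (k : ZMod p) - a) (fun _ _ => Finset.mem_univ _)
    ?_ ?_ ?_
  · intro k₁ hk₁ k₂ hk₂ h
    have h1 : (8 : ZMod p) * (k₁ : ZMod p) = 8 * (k₂ : ZMod p) := sub_left_injective h
    have h2 : (k₁ : ZMod p) = (k₂ : ZMod p) := mul_left_cancel₀ h8 h1
    rw [ZMod.natCast_eq_natCast_iff'] at h2
    rwa [Nat.mod_eq_of_lt (Finset.mem_range.mp hk₁), Nat.mod_eq_of_lt (Finset.mem_range.mp hk₂)]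
      at h2
  · intro c _
    refine ⟨((c + a) / 8).val, Finset.mem_range.mpr (ZMod.val_lt _), ?_⟩
    rw [ZMod.natCast_zmod_val, mul_div_cancel₀ _ h8]
    ring
  · intro k _
    rw [show (a - 8 * (k : ZMod p)) = -(8 * (k : ZMod p) - a) by ring, Polynomial.C_neg]
    ring

end Pool.Agent.Work.MP_5e5ff1_ag.TG
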